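import Mathlib
set_option autoImplicit false
open Finset
open scoped Classical

namespace ED

/-- `G` contains `k` pairwise edge-disjoint cycles. -/
def HasEDC {V : Type} (G : SimpleGraph V) (k : ℕ) : Prop :=
  ∃ (v : Fin k → V) (c : ∀ i, G.Walk (v i) (v i)),
    (∀ i, (c i).IsCycle) ∧ ∀ i j, i ≠ j → ∀ e ∈ (c i).edges, e ∉ (c j).edges

/-- maximum number of edges of an `n`-vertex graph without `k` edge-disjoint cycles -/
noncomputable def exd (n k : ℕ) : ℕ :=
  sSup {m : ℕ | ∃ G : SimpleGraph (Fin n), ¬ HasEDC G k ∧ G.edgeSet.ncard = m}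

/-- all cycles of `G` have length at least `g` -/
def GirthGe {V : Type} (G : SimpleGraph V) (g : ℕ) : Prop :=
  ∀ (v : V) (c : G.Walk v v), c.IsCycle → g ≤ c.length

/-- `X g n`: maximum number of edges of an `n`-vertex graph all of whose cycles are longer than `g` -/
noncomputable def X (g n : ℕ) : ℕ :=
  sSup {m : ℕ | ∃ G : SimpleGraph (Fin n), GirthGe G (g + 1) ∧ G.edgeSet.ncard = m}

/-- adjacency of a point `P` and a line `L` in the girth 12 graph -/
def Adj12 {F : Type} [Field F] (P L : Fin 5 → F) : Prop :=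
  P 1 + L 1 = P 0 * L 0 ∧ P 2 + L 2 = P 0 * L 1 ∧ P 3 + L 3 = P 0 * L 2 ∧ P 4 + L 4 = P 1 * L 2 - P 2 * L 1

end ED
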