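import Pool.Agent.Helper470.ED.Defs
set_option autoImplicit false
open Finset
open scoped Classical

namespace ED
namespace Jaddcyc


-- TARGET (prove this)
theorem addcyc {V : Type} (G : SimpleGraph V) (v : V) (c : G.Walk v v) (hc : c.IsCycle) (m : ℕ)
    (h : HasEDC (G.deleteEdges {e | e ∈ c.edges}) m) : HasEDC G (m + 1) := by
  obtain ⟨v', c', hc', hd⟩ := h
  have hle : G.deleteEdges {e | e ∈ c.edges} ≤ G := SimpleGraph.deleteEdges_le _
  have hedge : ∀ i, ((c' i).mapLe hle).edges = (c' i).edges := fun i => by
    simp
  have hout : ∀ i, ∀ e ∈ (c' i).edges, e ∉ c.edges := by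
    intro i e he hec
    have h1 := (c' i).edges_subset_edgeSet he
    rw [SimpleGraph.edgeSet_deleteEdges] at h1
    exact h1.2 hec
  refine ⟨(Fin.cons v v' : Fin (m + 1) → V), Fin.cases (motive := fun i =>
    G.Walk ((Fin.cons v v' : Fin (m + 1) → V) i) ((Fin.cons v v' : Fin (m + 1) → V) i)) c
    (fun i => (c' i).mapLe hle), ?_, ?_⟩
  · intro i
    refine Fin.cases ?_ (fun i => ?_) i
    · exact hc
    · exact (hc' i).mapLe hle
  · intro i j
    refine Fin.cases ?_ (fun i => ?_) i
    · refine Fin.cases ?_ (fun j => ?_) j
      · intro h; exact absurd rfl h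
      · intro _ e he hej
        have hej' : e ∈ ((c' j).mapLe hle).edges := hej
        rw [hedge] at hej'
        exact hout j e hej' he
    · refine Fin.cases ?_ (fun j => ?_) j
      · intro _ e he hej
        have he' : e ∈ ((c' i).mapLe hle).edges := he
        rw [hedge] at he'
        exact hout i e he' hej
      · intro hij e he hej
        have he' : e ∈ ((c' i).mapLe hle).edges := he
        have hej' : e ∈ ((c' j).mapLe hle).edges := hej
        rw [hedge] at he' hej'
        exact hd i j (fun h => hij (by rw [h])) e he' hej'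


end Jaddcyc
export Jaddcyc (addcyc)
end ED
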