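import Pool.Agent.Helper470.ED.Defs
set_option autoImplicit false
open Finset
open scoped Classical

namespace ED
namespace Jaddedge


theorem addedge_split {V : Type} {H : SimpleGraph V} {x y : V} (w : H.Walk x y) (e : Sym2 V)
    (he : e ∈ w.edges) : ∃ (a b : V) (h : H.Adj a b) (p : H.Walk x a) (q : H.Walk b y),
      s(a, b) = e ∧ w = p.append (SimpleGraph.Walk.cons h q) := by
  induction w with
  | nil => simp at he
  | @cons x z y hxz w ih =>
    rw [SimpleGraph.Walk.edges_cons, List.mem_cons] at he
    rcases he with he | he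
    · exact ⟨x, z, hxz, SimpleGraph.Walk.nil, w, he.symm, rfl⟩
    · obtain ⟨a, b, h, p, q, h1, h2⟩ := ih he
      exact ⟨a, b, h, SimpleGraph.Walk.cons hxz p, q, h1, by
        rw [SimpleGraph.Walk.cons_append, ← h2]⟩

-- TARGET (prove this)
theorem addedge {V : Type} (G : SimpleGraph V) (g : ℕ) (h : GirthGe G g) (u v : V) (huv : u ≠ v)
    (hw : ∀ w : G.Walk u v, g ≤ w.length + 1) : GirthGe (G ⊔ SimpleGraph.edge u v) g := by
  have hes : ∀ e ∈ (G ⊔ SimpleGraph.edge u v).edgeSet, e ≠ s(u, v) → e ∈ G.edgeSet := by
    intro e he hne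
    rw [SimpleGraph.edgeSet_sup] at he
    rcases he with he | he
    · exact he
    · exfalso
      apply hne
      have := SimpleGraph.edgeSet_edge_of_ne huv
      rw [this] at he
      exact he
  intro x c hc
  by_cases hmem : s(u, v) ∈ c.edges
  · obtain ⟨a, b, hab, p, q, h1, h2⟩ := addedge_split c _ hmem
    have hnd : c.edges.Nodup := hc.isTrail.edges_nodup
    rw [h2, SimpleGraph.Walk.edges_append, SimpleGraph.Walk.edges_cons] at hnd
    rw [List.nodup_append] at hnd
    obtain ⟨hp, hq, hdis⟩ := hnd
    rw [List.nodup_cons] at hq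
    have hpe : s(a, b) ∉ p.edges := fun hh => hdis _ hh _ (List.mem_cons_self) rfl
    have hWe : ∀ e ∈ (q.append p).edges, e ∈ G.edgeSet := by
      intro e he
      apply hes e (SimpleGraph.Walk.edges_subset_edgeSet _ he)
      rintro rfl
      rw [SimpleGraph.Walk.edges_append, List.mem_append, ← h1] at he
      rcases he with he | he
      · exact hq.1 he
      · exact hpe he
    have hlen : ((q.append p).transfer G hWe).length + 1 = c.length := by
      rw [SimpleGraph.Walk.length_transfer, h2, SimpleGraph.Walk.length_append,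
        SimpleGraph.Walk.length_append, SimpleGraph.Walk.length_cons]
      omega
    rw [← hlen]
    rw [Sym2.eq_iff] at h1
    rcases h1 with ⟨rfl, rfl⟩ | ⟨rfl, rfl⟩
    · have := hw ((q.append p).transfer G hWe).reverse
      rwa [SimpleGraph.Walk.length_reverse] at this
    · exact hw ((q.append p).transfer G hWe)
  · have hce : ∀ e ∈ c.edges, e ∈ G.edgeSet := by
      intro e he
      apply hes e (SimpleGraph.Walk.edges_subset_edgeSet _ he)
      rintro rfl
      exact hmem he
    have := h x (c.transfer G hce) (hc.transfer hce)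
    rwa [SimpleGraph.Walk.length_transfer] at this


end Jaddedge
export Jaddedge (addedge)
end ED
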