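import Pool.Agent.Helper470.ED.Defs
set_option autoImplicit false
open Finset
open scoped Classical

namespace ED
namespace Jbas2


theorem pull705 {V W : Type} (f : V ↪ W) (G : SimpleGraph V) {x y : W} (w : (G.map f).Walk x y) :
    ∀ (a b : V) (hx : x = f a) (hy : y = f b),
      ∃ p : G.Walk a b, p.map (SimpleGraph.Embedding.map f G).toHom = w.copy hx hy := by
  induction w with
  | nil =>
    intro a b hx hy
    have hab : a = b := f.injective (hx.symm.trans hy)
    subst hab
    subst hx
    exact ⟨SimpleGraph.Walk.nil, rfl⟩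
  | @cons x z y h p ih =>
    intro a b hx hy
    obtain ⟨a', c, hac, ha', hc⟩ := (SimpleGraph.map_adj f G x z).mp h
    have haa : a' = a := f.injective (ha'.trans hx)
    subst haa
    obtain ⟨p', hp'⟩ := ih c b hc.symm hy
    refine ⟨SimpleGraph.Walk.cons hac p', ?_⟩
    subst hx
    subst hy
    subst hc
    rw [SimpleGraph.Walk.map_cons, hp']
    rfl

-- TARGET (prove this)
theorem girth_map {V W : Type} (f : V ↪ W) (G : SimpleGraph V) (g : ℕ) (h : GirthGe G g) : GirthGe (G.map f) g := by
  intro v c hc
  have hv : ∃ a, v = f a := by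
    cases c with
    | nil => exact absurd rfl hc.ne_nil
    | cons hadj p =>
      obtain ⟨a', c', _, ha', _⟩ := (SimpleGraph.map_adj f G _ _).mp hadj
      exact ⟨a', ha'.symm⟩
  obtain ⟨a, ha⟩ := hv
  obtain ⟨p, hp⟩ := pull705 f G c a a ha ha
  have hinj : Function.Injective (SimpleGraph.Embedding.map f G).toHom := f.injective
  have h1 : (p.map (SimpleGraph.Embedding.map f G).toHom).IsCycle := by
    rw [hp]
    subst ha
    exact hc
  have h2 : p.IsCycle := (SimpleGraph.Walk.map_isCycle_iff_of_injective hinj).mp h1
  have h3 := h a p h2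
  have h4 : p.length = c.length := by
    rw [← SimpleGraph.Walk.length_map (SimpleGraph.Embedding.map f G).toHom p, hp]
    exact SimpleGraph.Walk.length_copy c ha ha
  omega

-- TARGET (prove this)
theorem ncard_map {V W : Type} (f : V ↪ W) (G : SimpleGraph V) :
    (G.map f).edgeSet.ncard = G.edgeSet.ncard := by
  rw [SimpleGraph.edgeSet_map]
  exact Set.ncard_image_of_injective _ f.sym2Map.injective


end Jbas2
export Jbas2 (girth_map ncard_map)
end ED
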