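import Pool.Agent.Helper470.ED.Defs
set_option autoImplicit false
open Finset
open scoped Classical

namespace ED
namespace Jexd1


theorem exd_bdd (n k : ℕ) :
    BddAbove {m : ℕ | ∃ G : SimpleGraph (Fin n), ¬ HasEDC G k ∧ G.edgeSet.ncard = m} := by
  refine ⟨(Set.univ : Set (Sym2 (Fin n))).ncard, ?_⟩
  rintro m ⟨G, hG, rfl⟩
  exact Set.ncard_le_ncard (Set.subset_univ _) (Set.toFinite _)

theorem exd_nonempty (n k : ℕ) (hk : 1 ≤ k) :
    {m : ℕ | ∃ G : SimpleGraph (Fin n), ¬ HasEDC G k ∧ G.edgeSet.ncard = m}.Nonempty := by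
  refine ⟨_, ⊥, ?_, rfl⟩
  rintro ⟨v, c, hc, -⟩
  have h := hc ⟨0, hk⟩
  have h3 := h.three_le_length
  generalize c ⟨0, hk⟩ = w at h h3
  cases w with
  | nil => simp at h3
  | cons h' _ => exact h'

-- TARGET (prove this)
theorem exd_le (n k : ℕ) (hk : 1 ≤ k) (B : ℝ) (h : ∀ G : SimpleGraph (Fin n), ¬ HasEDC G k → (G.edgeSet.ncard : ℝ) ≤ B) :
    (exd n k : ℝ) ≤ B := by
  obtain ⟨G, hG, hm⟩ := Nat.sSup_mem (exd_nonempty n k hk) (exd_bdd n k)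
  unfold exd
  rw [← hm]
  exact h G hG

-- TARGET (prove this)
theorem le_exd (n k : ℕ) (G : SimpleGraph (Fin n)) (h : ¬ HasEDC G k) : G.edgeSet.ncard ≤ exd n k :=
  le_csSup (exd_bdd n k) ⟨G, h, rfl⟩


end Jexd1
export Jexd1 (exd_le le_exd)
end ED
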