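import Pool.Agent.Helper470.ED.Defs
import Pool.Agent.Helper470.ED.Mbas2
import Pool.Agent.Helper470.ED.Mexd1
set_option autoImplicit false
open Finset
open scoped Classical

namespace ED
namespace Jattach








theorem attach_pull {V W : Type} (f : V ↪ W) (G : SimpleGraph V) (k : ℕ)
    (h : HasEDC (G.map f) k) : HasEDC G k := by
  obtain ⟨v, c, hc, hd⟩ := h
  have hmem : ∀ i, ∀ x ∈ (c i).support, x ∈ Set.range f := by
    intro i x hx
    have h2 := (hc i).ncard_neighborSet_toSubgraph_eq_two hx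
    have h3 : ((c i).toSubgraph.neighborSet x).Nonempty := by
      apply Set.nonempty_of_ncard_ne_zero
      omega
    obtain ⟨y, hy⟩ := h3
    have h4 : (G.map f).Adj x y := (c i).toSubgraph.adj_sub hy
    rw [SimpleGraph.map_adj] at h4
    obtain ⟨a, b, hab, ha, hb⟩ := h4
    exact ⟨a, ha⟩
  have hadj : ∀ x y : Set.range f, ((G.map f).induce (Set.range f)).Adj x y →
      G.Adj x.2.choose y.2.choose := by
    intro x y hxy
    have h4 : (G.map f).Adj x.1 y.1 := hxy
    rw [SimpleGraph.map_adj] at h4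
    obtain ⟨a, b, hab, ha, hb⟩ := h4
    have e1 : x.2.choose = a := f.injective (x.2.choose_spec.trans ha.symm)
    have e2 : y.2.choose = b := f.injective (y.2.choose_spec.trans hb.symm)
    rw [e1, e2]
    exact hab
  let ψ : ((G.map f).induce (Set.range f)) →g G := ⟨fun x => x.2.choose, fun {x y} h => hadj x y h⟩
  have hψ : ∀ x, f (ψ x) = x.1 := fun x => x.2.choose_spec
  have hinj : Function.Injective ψ := fun x y h => Subtype.ext (by rw [← hψ x, ← hψ y, h])
  have key : ∀ i, ∀ e ∈ ((c i).induce _ (hmem i)).edges, Sym2.map Subtype.val e ∈ (c i).edges := by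
    intro i e he
    have h1 := SimpleGraph.Walk.map_induce (c i) (hmem i)
    have h2 : (((c i).induce _ (hmem i)).map (SimpleGraph.Embedding.induce _).toHom).edges =
        (c i).edges := congrArg SimpleGraph.Walk.edges h1
    rw [SimpleGraph.Walk.edges_map] at h2
    rw [← h2]
    exact List.mem_map_of_mem he
  refine ⟨fun i => ψ ⟨v i, hmem i _ (c i).start_mem_support⟩,
    fun i => ((c i).induce _ (hmem i)).map ψ, fun i => ?_, ?_⟩
  · refine (SimpleGraph.Walk.isCycle_map_iff_of_injective hinj).mpr ?_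
    refine SimpleGraph.Walk.IsCycle.of_map (f := (SimpleGraph.Embedding.induce _).toHom) ?_
    rw [SimpleGraph.Walk.map_induce]
    exact hc i
  · intro i j hij e he he'
    rw [SimpleGraph.Walk.edges_map, List.mem_map] at he he'
    obtain ⟨e1, h1, rfl⟩ := he
    obtain ⟨e2, h2, h3⟩ := he'
    have h4 : e2 = e1 := Sym2.map.injective hinj h3
    subst h4
    exact hd i j hij _ (key i _ h1) (key j _ h2)

theorem attach_ext (N k : ℕ) (hk : 1 ≤ k) :
    ∃ G : SimpleGraph (Fin N), ¬ HasEDC G k ∧ G.edgeSet.ncard = exd N k := by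
  have hne : {m : ℕ | ∃ G : SimpleGraph (Fin N), ¬ HasEDC G k ∧ G.edgeSet.ncard = m}.Nonempty := by
    refine ⟨(⊥ : SimpleGraph (Fin N)).edgeSet.ncard, ⊥, ?_, rfl⟩
    rintro ⟨v, c, hc, -⟩
    have h1 := hc ⟨0, by omega⟩
    have h2 := (h1.ncard_neighborSet_toSubgraph_eq_two (SimpleGraph.Walk.start_mem_support _))
    have h3 : ((c ⟨0, by omega⟩).toSubgraph.neighborSet (v ⟨0, by omega⟩)).Nonempty := by
      apply Set.nonempty_of_ncard_ne_zero
      omega
    obtain ⟨y, hy⟩ := h3
    exact ((c ⟨0, by omega⟩).toSubgraph.adj_sub hy).elim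
  have hbd : BddAbove {m : ℕ | ∃ G : SimpleGraph (Fin N), ¬ HasEDC G k ∧ G.edgeSet.ncard = m} := by
    refine ⟨Nat.card (Sym2 (Fin N)), ?_⟩
    rintro m ⟨G, -, rfl⟩
    rw [← Set.ncard_univ]
    exact Set.ncard_le_ncard (Set.subset_univ _)
  exact Nat.sSup_mem hne hbd

-- TARGET (prove this)
theorem attach (N n k : ℕ) (hN : 1 ≤ N) (hNn : N ≤ n) (hk : 1 ≤ k) : exd N k + (n - N) ≤ exd n k := by
  obtain ⟨G0, h0, h1⟩ := attach_ext N k hk
  obtain ⟨ι, hι⟩ : ∃ ι : Fin N ↪ Fin n, ∀ x, (ι x).val = x.val :=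
    ⟨Fin.castLEEmb hNn, fun x => rfl⟩
  obtain ⟨z, hz⟩ : ∃ z : Fin n, z.val = 0 := ⟨⟨0, by omega⟩, rfl⟩
  obtain ⟨G, hG⟩ : ∃ G : SimpleGraph (Fin n), ∀ a b, G.Adj a b ↔
      ((G0.map ι).Adj a b ∨ (a = z ∧ N ≤ b.val) ∨ (b = z ∧ N ≤ a.val)) := by
    refine ⟨⟨fun a b => ((G0.map ι).Adj a b ∨ (a = z ∧ N ≤ b.val) ∨ (b = z ∧ N ≤ a.val)),
      ⟨?_⟩, ⟨?_⟩⟩, fun a b => Iff.rfl⟩
    · rintro a b (h | h | h)
      · exact Or.inl h.symm
      · exact Or.inr (Or.inr h)
      · exact Or.inr (Or.inl h)
    · rintro a (h | ⟨h, h'⟩ | ⟨h, h'⟩)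
      · exact (G0.map ι).loopless.irrefl a h
      · rw [h, hz] at h'
        omega
      · rw [h, hz] at h'
        omega
  have hlow : ∀ a b, (G0.map ι).Adj a b → a.val < N ∧ b.val < N := by
    intro a b h
    rw [SimpleGraph.map_adj] at h
    obtain ⟨a', b', -, rfl, rfl⟩ := h
    rw [hι, hι]
    exact ⟨a'.2, b'.2⟩
  have hfree : ¬ HasEDC G k := by
    rintro ⟨v, c, hc, hd⟩
    apply h0
    apply attach_pull ι G0 k
    have hedge : ∀ i, ∀ e ∈ (c i).edges, e ∈ (G0.map ι).edgeSet := by
      intro i e he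
      induction e with
      | _ a b =>
        have hab : G.Adj a b := (c i).adj_of_mem_edges he
        have hlo : ∀ x ∈ (c i).support, x.val < N := by
          intro x hx
          by_contra hxN
          have h2 := (hc i).ncard_neighborSet_toSubgraph_eq_two hx
          have h3 : (c i).toSubgraph.neighborSet x ⊆ {z} := by
            intro y hy
            have h4 : G.Adj x y := (c i).toSubgraph.adj_sub hy
            rw [hG] at h4
            rcases h4 with h | ⟨h, h'⟩ | ⟨h, h'⟩
            · exact absurd (hlow _ _ h).1 hxN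
            · rw [h, hz] at hxN
              omega
            · exact h
          have h4 := Set.ncard_le_ncard h3 (Set.finite_singleton z)
          rw [h2, Set.ncard_singleton] at h4
          omega
        have ha := hlo a ((c i).fst_mem_support_of_mem_edges he)
        have hb := hlo b ((c i).snd_mem_support_of_mem_edges he)
        rw [hG] at hab
        rcases hab with h | ⟨h, h'⟩ | ⟨h, h'⟩
        · exact h
        · omega
        · omega
    refine ⟨v, fun i => (c i).transfer _ (hedge i), fun i => (hc i).transfer _, ?_⟩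
    intro i j hij e he
    rw [SimpleGraph.Walk.edges_transfer] at he ⊢
    exact hd i j hij e he
  refine le_trans ?_ (le_exd n k G hfree)
  -- count edges
  have hc1 : (G0.map ι).edgeSet.ncard = exd N k := by
    rw [← h1, SimpleGraph.edgeSet_map]
    exact Set.ncard_image_of_injective _ (Function.Embedding.injective _)
  obtain ⟨g, hg⟩ : ∃ g : Fin (n - N) → Sym2 (Fin n), ∀ j, g j = s(z, ⟨N + j.val, by omega⟩) :=
    ⟨_, fun _ => rfl⟩
  have hginj : Function.Injective g := by
    intro i j hij
    rw [hg, hg] at hij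
    rw [Sym2.eq_iff] at hij
    rcases hij with ⟨-, h⟩ | ⟨h, -⟩
    · have := congrArg Fin.val h
      simp only at this
      exact Fin.ext (by omega)
    · have := congrArg Fin.val h
      rw [hz] at this
      simp only at this
      omega
  have hc2 : (Set.range g).ncard = n - N := by
    rw [← Set.image_univ, Set.ncard_image_of_injective _ hginj, Set.ncard_univ, Nat.card_fin]
  have hdisj : Disjoint (G0.map ι).edgeSet (Set.range g) := by
    rw [Set.disjoint_left]
    rintro e he ⟨j, rfl⟩
    rw [hg] at he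
    have h2 : (G0.map ι).Adj z ⟨N + j.val, by omega⟩ := he
    have h3 := (hlow _ _ h2).2
    simp only at h3
    omega
  have hsub : (G0.map ι).edgeSet ∪ Set.range g ⊆ G.edgeSet := by
    rintro e (he | ⟨j, rfl⟩)
    · induction e with
      | _ a b =>
        have h2 : (G0.map ι).Adj a b := he
        exact (hG a b).mpr (Or.inl h2)
    · rw [hg]
      exact (hG _ _).mpr (Or.inr (Or.inl ⟨rfl, by simp⟩))
  have hfin := Set.ncard_le_ncard hsub (Set.toFinite _)
  rw [Set.ncard_union_eq hdisj (Set.toFinite _) (Set.toFinite _), hc1, hc2] at hfin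
  exact hfin


end Jattach
export Jattach (attach)
end ED
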