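import Pool.Agent.Helper470.ED.Defs
set_option autoImplicit false
open Finset
open scoped Classical

namespace ED
namespace Jxbas


theorem X_bdd (g n : ℕ) :
    BddAbove {m : ℕ | ∃ G : SimpleGraph (Fin n), GirthGe G (g + 1) ∧ G.edgeSet.ncard = m} := by
  refine ⟨(Set.univ : Set (Sym2 (Fin n))).ncard, ?_⟩
  rintro m ⟨G, _, rfl⟩
  exact Set.ncard_le_ncard (Set.subset_univ _) Set.finite_univ

theorem X_nonempty (g n : ℕ) :
    {m : ℕ | ∃ G : SimpleGraph (Fin n), GirthGe G (g + 1) ∧ G.edgeSet.ncard = m}.Nonempty := by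
  refine ⟨_, (⊥ : SimpleGraph (Fin n)), ?_, rfl⟩
  intro v c hc
  exfalso
  cases c with
  | nil => exact SimpleGraph.Walk.IsCycle.not_of_nil hc
  | cons h p => exact h

-- TARGET (prove this)
theorem X_max (g n : ℕ) : ∃ G : SimpleGraph (Fin n), GirthGe G (g + 1) ∧ G.edgeSet.ncard = X g n :=
  Nat.sSup_mem (X_nonempty g n) (X_bdd g n)

-- TARGET (prove this)
theorem X_le (g n : ℕ) (G : SimpleGraph (Fin n)) (h : GirthGe G (g + 1)) : G.edgeSet.ncard ≤ X g n :=
  le_csSup (X_bdd g n) ⟨G, h, rfl⟩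

-- TARGET (prove this)
theorem X_anti (g h n : ℕ) (hgh : g ≤ h) : X h n ≤ X g n := by
  obtain ⟨G, hG, hm⟩ := X_max h n
  rw [← hm]
  refine X_le g n G fun v c hc => ?_
  have := hG v c hc
  omega


end Jxbas
export Jxbas (X_max X_le X_anti)
end ED
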