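import Pool.Agent.Helper470.ED.Defs
import Pool.Agent.Helper470.ED.Mbas2
import Pool.Agent.Helper470.ED.Mxbas
set_option autoImplicit false
open Finset
open scoped Classical

namespace ED
namespace Javg








theorem avg_girth_comap {V W : Type} (f : V ↪ W) (G : SimpleGraph W) (g : ℕ) (h : GirthGe G g) :
    GirthGe (G.comap f) g := by
  intro v c hc
  have h1 := h _ (c.map (SimpleGraph.Embedding.comap f G).toHom)
    (SimpleGraph.Walk.IsCycle.map (SimpleGraph.Embedding.comap f G).injective hc)
  rwa [SimpleGraph.Walk.length_map] at h1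

theorem avg_edges (n : ℕ) (G : SimpleGraph (Fin (n + 1))) (v : Fin (n + 1)) :
    (G.comap (Fin.succAboveEmb v)).edgeSet.ncard =
      ((Finset.univ.filter (fun e => e ∈ G.edgeSet)).filter (fun e => v ∉ e)).card := by
  have hinj : Function.Injective (Sym2.map (Fin.succAboveEmb v)) :=
    Sym2.map.injective (Fin.succAboveEmb v).injective
  rw [← Set.ncard_image_of_injective _ hinj, ← Set.ncard_coe_finset]
  congr 1
  ext e
  simp only [Set.mem_image, Finset.coe_filter, Finset.mem_filter, Finset.mem_univ, true_and,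
    Set.mem_setOf_eq]
  constructor
  · rintro ⟨e', he', rfl⟩
    induction e' using Sym2.ind with
    | _ a b =>
      refine ⟨?_, ?_⟩
      · simpa using he'
      · simp only [Sym2.map_mk, Sym2.mem_iff, not_or]
        exact ⟨(Fin.succAbove_ne v a).symm, (Fin.succAbove_ne v b).symm⟩
  · rintro ⟨he, hv⟩
    induction e using Sym2.ind with
    | _ a b =>
      simp only [Sym2.mem_iff, not_or] at hv
      obtain ⟨a', rfl⟩ := Fin.exists_succAbove_eq (Ne.symm hv.1)
      obtain ⟨b', rfl⟩ := Fin.exists_succAbove_eq (Ne.symm hv.2)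
      exact ⟨s(a', b'), by simpa using he, by simp⟩

theorem avg_notmem (n : ℕ) (G : SimpleGraph (Fin (n + 1))) (e : Sym2 (Fin (n + 1)))
    (he : e ∈ G.edgeSet) : (Finset.univ.filter (fun v => v ∉ e)).card = n - 1 := by
  induction e using Sym2.ind with
  | _ a b =>
    have hab : a ≠ b := by
      rw [SimpleGraph.mem_edgeSet] at he
      exact he.ne
    have h1 : (Finset.univ.filter (fun v => v ∉ s(a, b))) = Finset.univ \ {a, b} := by
      ext v
      simp [Sym2.mem_iff]
    rw [h1, Finset.card_sdiff_of_subset (Finset.subset_univ _), Finset.card_pair hab]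
    simp

theorem avg_step (g n : ℕ) : X g (n + 1) * (n - 1) ≤ X g n * (n + 1) := by
  obtain ⟨G, hG, hcard⟩ := X_max g (n + 1)
  have h1 : ∑ v : Fin (n + 1), (G.comap (Fin.succAboveEmb v)).edgeSet.ncard =
      X g (n + 1) * (n - 1) := by
    simp_rw [avg_edges]
    have h0 : ∀ v : Fin (n + 1), ((Finset.univ.filter (fun e => e ∈ G.edgeSet)).filter
        (fun e => v ∉ e)).card = ∑ e ∈ (Finset.univ.filter (fun e => e ∈ G.edgeSet)),
          if v ∉ e then 1 else 0 := fun v => Finset.card_filter _ _
    rw [Finset.sum_congr rfl fun v _ => h0 v]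
    rw [Finset.sum_comm]
    have h2 : ∀ e ∈ (Finset.univ.filter (fun e => e ∈ G.edgeSet)),
        (∑ v : Fin (n + 1), if v ∉ e then 1 else 0) = n - 1 := by
      intro e he
      rw [← Finset.card_filter]
      exact avg_notmem n G e (by simpa using he)
    rw [Finset.sum_congr rfl h2, Finset.sum_const, smul_eq_mul]
    congr 1
    rw [← hcard, ← Set.ncard_coe_finset]
    congr 1
    ext e
    simp
  rw [← h1]
  calc ∑ v : Fin (n + 1), (G.comap (Fin.succAboveEmb v)).edgeSet.ncard
      ≤ ∑ v : Fin (n + 1), X g n := by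
        apply Finset.sum_le_sum
        intro v _
        exact X_le g n _ (avg_girth_comap _ G _ hG)
    _ = X g n * (n + 1) := by
        rw [Finset.sum_const, smul_eq_mul, Finset.card_univ, Fintype.card_fin, mul_comm]

-- TARGET (prove this)
theorem avg (g m n : ℕ) (h : m ≤ n) : X g n * (m * (m - 1)) ≤ X g m * (n * (n - 1)) := by
  rcases Nat.lt_or_ge m 2 with hm | hm
  · have : m * (m - 1) = 0 := by
      interval_cases m <;> rfl
    rw [this]
    simp
  · induction n, h using Nat.le_induction with
    | base => exact le_rfl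
    | succ n hn ih =>
      have hs := avg_step g n
      have hpos : 0 < n - 1 := by omega
      apply Nat.le_of_mul_le_mul_right _ hpos
      calc X g (n + 1) * (m * (m - 1)) * (n - 1) = (X g (n + 1) * (n - 1)) * (m * (m - 1)) := by ring
        _ ≤ (X g n * (n + 1)) * (m * (m - 1)) := Nat.mul_le_mul_right _ hs
        _ = (X g n * (m * (m - 1))) * (n + 1) := by ring
        _ ≤ (X g m * (n * (n - 1))) * (n + 1) := Nat.mul_le_mul_right _ ih
        _ = X g m * ((n + 1) * (n + 1 - 1)) * (n - 1) := by
          rw [Nat.add_sub_cancel]; ring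


end Javg
export Javg (avg)
end ED
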