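import Pool.Agent.Helper470.ED.Defs
set_option autoImplicit false
open Finset
open scoped Classical

namespace ED
namespace Jno23


theorem w_A {F : Type} [Field F] {P L L' : Fin 5 → F} (h : Adj12 P L) (h' : Adj12 P L') :
    L' 1 - L 1 = P 0 * (L' 0 - L 0) ∧ L' 2 - L 2 = P 0 ^ 2 * (L' 0 - L 0) := by
  obtain ⟨a1, a2, a3, a4⟩ := h
  obtain ⟨b1, b2, b3, b4⟩ := h'
  have e1 : L' 1 - L 1 = P 0 * (L' 0 - L 0) := by linear_combination b1 - a1
  refine ⟨e1, ?_⟩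
  linear_combination b2 - a2 + P 0 * e1

theorem w_A0 {F : Type} [Field F] {P L L' : Fin 5 → F} (h : Adj12 P L) (h' : Adj12 P L')
    (h0 : L' 0 - L 0 = 0) : L = L' := by
  obtain ⟨a1, a2, a3, a4⟩ := h
  obtain ⟨b1, b2, b3, b4⟩ := h'
  have e0 : L 0 = L' 0 := by linear_combination -h0
  have e1 : L 1 = L' 1 := by linear_combination a1 - b1 + P 0 * e0
  have e2 : L 2 = L' 2 := by linear_combination a2 - b2 + P 0 * e1
  have e3 : L 3 = L' 3 := by linear_combination a3 - b3 + P 0 * e2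
  have e4 : L 4 = L' 4 := by linear_combination a4 - b4 + P 1 * e2 - P 2 * e1
  funext i
  fin_cases i
  · exact e0
  · exact e1
  · exact e2
  · exact e3
  · exact e4

theorem w_B {F : Type} [Field F] {P P' L : Fin 5 → F} (h : Adj12 P L) (h' : Adj12 P' L)
    (e0 : P 0 = P' 0) : P = P' := by
  obtain ⟨a1, a2, a3, a4⟩ := h
  obtain ⟨b1, b2, b3, b4⟩ := h'
  have e1 : P 1 = P' 1 := by linear_combination a1 - b1 + L 0 * e0
  have e2 : P 2 = P' 2 := by linear_combination a2 - b2 + L 1 * e0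
  have e3 : P 3 = P' 3 := by linear_combination a3 - b3 + L 2 * e0
  have e4 : P 4 = P' 4 := by linear_combination a4 - b4 + L 2 * e1 - L 1 * e2
  funext i
  fin_cases i
  · exact e0
  · exact e1
  · exact e2
  · exact e3
  · exact e4

-- TARGET (prove this)
theorem no2 {F : Type} [Field F] (h2 : (2 : F) ≠ 0) (P L : Fin 2 → Fin 5 → F)
    (h1 : ∀ i, Adj12 (P i) (L i)) (h3 : ∀ i, Adj12 (P (i + 1)) (L i))
    (hP : ∀ i, P i ≠ P (i + 1)) (hL : ∀ i, L i ≠ L (i + 1)) : False := by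
  have p00 : Adj12 (P 0) (L 0) := h1 0
  have p11 : Adj12 (P 1) (L 1) := h1 1
  have p10 : Adj12 (P 1) (L 0) := h3 0
  have p01 : Adj12 (P 0) (L 1) := h3 1
  have hP0 : P 0 ≠ P 1 := hP 0
  have hL0 : L 0 ≠ L 1 := hL 0
  obtain ⟨x1, x2⟩ := w_A p00 p01
  obtain ⟨y1, y2⟩ := w_A p10 p11
  have : (P 0 0 - P 1 0) * (L 1 0 - L 0 0) = 0 := by linear_combination y1 - x1
  rcases mul_eq_zero.1 this with h | h
  · exact hP0 (w_B p00 p10 (sub_eq_zero.1 h))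
  · exact hL0 (w_A0 p00 p01 h)

-- TARGET (prove this)
theorem no3 {F : Type} [Field F] (h2 : (2 : F) ≠ 0) (P L : Fin 3 → Fin 5 → F)
    (h1 : ∀ i, Adj12 (P i) (L i)) (h3 : ∀ i, Adj12 (P (i + 1)) (L i))
    (hP : ∀ i, P i ≠ P (i + 1)) (hL : ∀ i, L i ≠ L (i + 1)) : False := by
  have p00 : Adj12 (P 0) (L 0) := h1 0
  have p11 : Adj12 (P 1) (L 1) := h1 1
  have p22 : Adj12 (P 2) (L 2) := h1 2
  have p10 : Adj12 (P 1) (L 0) := h3 0
  have p21 : Adj12 (P 2) (L 1) := h3 1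
  have p02 : Adj12 (P 0) (L 2) := h3 2
  have hP0 : P 0 ≠ P 1 := hP 0
  have hP2 : P 2 ≠ P 0 := hP 2
  have hL2 : L 2 ≠ L 0 := hL 2
  obtain ⟨x1, x2⟩ := w_A p02 p00
  obtain ⟨y1, y2⟩ := w_A p10 p11
  obtain ⟨z1, z2⟩ := w_A p21 p22
  have : (P 0 0 - P 1 0) * ((P 0 0 - P 2 0) * (L 0 0 - L 2 0)) = 0 := by
    linear_combination (-x2 - y2 - z2) + (P 1 0 + P 2 0) * (x1 + y1 + z1)
  rcases mul_eq_zero.1 this with h | h
  · exact hP0 (w_B p00 p10 (sub_eq_zero.1 h))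
  · rcases mul_eq_zero.1 h with h | h
    · exact hP2 (w_B p22 p02 (sub_eq_zero.1 h).symm)
    · exact hL2 (w_A0 p02 p00 h)


end Jno23
export Jno23 (no2 no3)
end ED
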