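import Pool.Agent.Helper470.ED.Defs
set_option autoImplicit false
open Finset
open scoped Classical

namespace ED
namespace Jno4


theorem no4_core {F : Type} [Field F] (a1 a2 a3 a4 d1 d2 d3 d4 x0 x1 x2 : F)
    (n1 : d1 ≠ 0) (n2 : d2 ≠ 0)
    (m12 : a1 ≠ a2) (m23 : a2 ≠ a3) (m34 : a3 ≠ a4) (m41 : a4 ≠ a1)
    (M0 : d1 + d2 + d3 + d4 = 0)
    (M1 : a1 * d1 + a2 * d2 + a3 * d3 + a4 * d4 = 0)
    (M2 : a1 ^ 2 * d1 + a2 ^ 2 * d2 + a3 ^ 2 * d3 + a4 ^ 2 * d4 = 0)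
    (M3 : a1 ^ 3 * d1 + a2 ^ 3 * d2 + a3 ^ 3 * d3 + a4 ^ 3 * d4 = 0)
    (HQ : a1 * d1 * (a1 ^ 2 * (x0 + d1) - 2 * a1 * (x1 + a1 * d1) + (x2 + a1 ^ 2 * d1)) +
      a2 * d2 * (a2 ^ 2 * (x0 + d1 + d2) - 2 * a2 * (x1 + a1 * d1 + a2 * d2) +
        (x2 + a1 ^ 2 * d1 + a2 ^ 2 * d2)) +
      a3 * d3 * (a3 ^ 2 * (x0 + d1 + d2 + d3) - 2 * a3 * (x1 + a1 * d1 + a2 * d2 + a3 * d3) +
        (x2 + a1 ^ 2 * d1 + a2 ^ 2 * d2 + a3 ^ 2 * d3)) +
      a4 * d4 * (a4 ^ 2 * (x0 + d1 + d2 + d3 + d4) -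
        2 * a4 * (x1 + a1 * d1 + a2 * d2 + a3 * d3 + a4 * d4) +
        (x2 + a1 ^ 2 * d1 + a2 ^ 2 * d2 + a3 ^ 2 * d3 + a4 ^ 2 * d4)) = 0) : False := by
  have k1 : d1 * ((a1 - a2) * (a1 - a4)) * (a1 - a3) = 0 := by
    linear_combination M3 - (a2 + a3 + a4) * M2 + (a2 * a3 + a2 * a4 + a3 * a4) * M1 -
      a2 * a3 * a4 * M0
  have k2 : d2 * ((a2 - a1) * (a2 - a3)) * (a2 - a4) = 0 := by
    linear_combination M3 - (a1 + a3 + a4) * M2 + (a1 * a3 + a1 * a4 + a3 * a4) * M1 -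
      a1 * a3 * a4 * M0
  have e13 : a1 = a3 := by
    rcases mul_eq_zero.mp k1 with h | h
    · exfalso
      exact (mul_ne_zero n1 (mul_ne_zero (sub_ne_zero.mpr m12) (sub_ne_zero.mpr m41.symm))) h
    · exact sub_eq_zero.mp h
  have e24 : a2 = a4 := by
    rcases mul_eq_zero.mp k2 with h | h
    · exfalso
      exact (mul_ne_zero n2 (mul_ne_zero (sub_ne_zero.mpr m12.symm) (sub_ne_zero.mpr m23))) h
    · exact sub_eq_zero.mp h
  subst e13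
  subst e24
  have k3 : (a1 - a2) * (d1 + d3) = 0 := by linear_combination M1 - a2 * M0
  have k4 : d3 = - d1 := by
    rcases mul_eq_zero.mp k3 with h | h
    · exact absurd (sub_eq_zero.mp h) m12
    · linear_combination h
  have k5 : d4 = - d2 := by linear_combination M0 - k4
  subst k4
  subst k5
  have k6 : (a2 - a1) ^ 3 * (d1 * d2) = 0 := by linear_combination HQ
  rcases mul_eq_zero.mp k6 with h | h
  · exact m12 (sub_eq_zero.mp (pow_eq_zero_iff (by norm_num) |>.mp h)).symm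
  · exact (mul_ne_zero n1 n2) h

theorem no4_line {F : Type} [Field F] (P L L' : Fin 5 → F) (h : Adj12 P L) (h' : Adj12 P L')
    (hne : L ≠ L') : L 0 - L' 0 ≠ 0 := by
  intro e
  apply hne
  obtain ⟨a, b, c, d⟩ := h
  obtain ⟨a', b', c', d'⟩ := h'
  have e0 : L 0 = L' 0 := sub_eq_zero.mp e
  have e1 : L 1 = L' 1 := by linear_combination a - a' + P 0 * e0
  have e2 : L 2 = L' 2 := by linear_combination b - b' + P 0 * e1
  have e3 : L 3 = L' 3 := by linear_combination c - c' + P 0 * e2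
  have e4 : L 4 = L' 4 := by linear_combination d - d' + P 1 * e2 - P 2 * e1
  funext i
  fin_cases i
  · exact e0
  · exact e1
  · exact e2
  · exact e3
  · exact e4

theorem no4_point {F : Type} [Field F] (P P' L : Fin 5 → F) (h : Adj12 P L) (h' : Adj12 P' L)
    (hne : P ≠ P') : P 0 ≠ P' 0 := by
  intro e0
  apply hne
  obtain ⟨a, b, c, d⟩ := h
  obtain ⟨a', b', c', d'⟩ := h'
  have e1 : P 1 = P' 1 := by linear_combination a - a' + L 0 * e0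
  have e2 : P 2 = P' 2 := by linear_combination b - b' + L 1 * e0
  have e3 : P 3 = P' 3 := by linear_combination c - c' + L 2 * e0
  have e4 : P 4 = P' 4 := by linear_combination d - d' + L 2 * e1 - L 1 * e2
  funext i
  fin_cases i
  · exact e0
  · exact e1
  · exact e2
  · exact e3
  · exact e4

theorem no4_diff {F : Type} [Field F] (P L L' : Fin 5 → F) (h : Adj12 P L) (h' : Adj12 P L') :
    L 1 - L' 1 = P 0 * (L 0 - L' 0) ∧ L 2 - L' 2 = P 0 ^ 2 * (L 0 - L' 0) ∧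
    L 3 - L' 3 = P 0 ^ 3 * (L 0 - L' 0) ∧
    L 4 - L' 4 = P 0 * (L 0 - L' 0) * (P 0 ^ 2 * L 0 - 2 * P 0 * L 1 + L 2) := by
  obtain ⟨a, b, c, d⟩ := h
  obtain ⟨a', b', c', d'⟩ := h'
  have e1 : L 1 - L' 1 = P 0 * (L 0 - L' 0) := by linear_combination a - a'
  have e2 : L 2 - L' 2 = P 0 ^ 2 * (L 0 - L' 0) := by linear_combination b - b' + P 0 * e1
  have e3 : L 3 - L' 3 = P 0 ^ 3 * (L 0 - L' 0) := by linear_combination c - c' + P 0 * e2
  refine ⟨e1, e2, e3, ?_⟩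
  have e4 : L 4 - L' 4 = P 1 * (L 2 - L' 2) - P 2 * (L 1 - L' 1) := by
    linear_combination d - d'
  have f1 : P 1 = P 0 * L 0 - L 1 := by linear_combination a
  have f2 : P 2 = P 0 * L 1 - L 2 := by linear_combination b
  rw [e4, e1, e2, f1, f2]
  ring

-- TARGET (prove this)
theorem no4 {F : Type} [Field F] (h2 : (2 : F) ≠ 0) (P L : Fin 4 → Fin 5 → F)
    (h1 : ∀ i, Adj12 (P i) (L i)) (h3 : ∀ i, Adj12 (P (i + 1)) (L i))
    (hP : ∀ i, P i ≠ P (i + 1)) (hL : ∀ i, L i ≠ L (i + 1)) : False := by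
  have s0 : Adj12 (P 1) (L 0) := h3 0
  have s1 : Adj12 (P 2) (L 1) := h3 1
  have s2 : Adj12 (P 3) (L 2) := h3 2
  have s3 : Adj12 (P 0) (L 3) := h3 3
  have q0 : L 0 ≠ L 1 := hL 0
  have q1 : L 1 ≠ L 2 := hL 1
  have r0 : P 0 ≠ P 1 := hP 0
  have r1 : P 1 ≠ P 2 := hP 1
  have r2 : P 2 ≠ P 3 := hP 2
  have r3 : P 3 ≠ P 0 := hP 3
  have n1 := no4_line _ _ _ (h1 1) s0 q0.symm
  have n2 := no4_line _ _ _ (h1 2) s1 q1.symm
  have m12 := no4_point _ _ _ (h1 1) s1 r1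
  have m23 := no4_point _ _ _ (h1 2) s2 r2
  have m34 := no4_point _ _ _ (h1 3) s3 r3
  have m41 := no4_point _ _ _ (h1 0) s0 r0
  obtain ⟨a1, b1, c1, d1⟩ := no4_diff _ _ _ (h1 1) s0
  obtain ⟨a2, b2, c2, d2⟩ := no4_diff _ _ _ (h1 2) s1
  obtain ⟨a3, b3, c3, d3⟩ := no4_diff _ _ _ (h1 3) s2
  obtain ⟨a4, b4, c4, d4⟩ := no4_diff _ _ _ (h1 0) s3
  refine no4_core (P 1 0) (P 2 0) (P 3 0) (P 0 0) (L 1 0 - L 0 0) (L 2 0 - L 1 0)
    (L 3 0 - L 2 0) (L 0 0 - L 3 0) (L 0 0) (L 0 1) (L 0 2) n1 n2 m12 m23 m34 m41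
    (by ring) (by linear_combination - a1 - a2 - a3 - a4)
    (by linear_combination - b1 - b2 - b3 - b4) (by linear_combination - c1 - c2 - c3 - c4) ?_
  have w1 : L 0 1 + P 1 0 * (L 1 0 - L 0 0) = L 1 1 := by linear_combination - a1
  have w2 : L 1 1 + P 2 0 * (L 2 0 - L 1 0) = L 2 1 := by linear_combination - a2
  have w3 : L 2 1 + P 3 0 * (L 3 0 - L 2 0) = L 3 1 := by linear_combination - a3
  have w4 : L 3 1 + P 0 0 * (L 0 0 - L 3 0) = L 0 1 := by linear_combination - a4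
  have v1 : L 0 2 + P 1 0 ^ 2 * (L 1 0 - L 0 0) = L 1 2 := by linear_combination - b1
  have v2 : L 1 2 + P 2 0 ^ 2 * (L 2 0 - L 1 0) = L 2 2 := by linear_combination - b2
  have v3 : L 2 2 + P 3 0 ^ 2 * (L 3 0 - L 2 0) = L 3 2 := by linear_combination - b3
  have v4 : L 3 2 + P 0 0 ^ 2 * (L 0 0 - L 3 0) = L 0 2 := by linear_combination - b4
  rw [w1, v1, w2, v2, w3, v3, w4, v4]
  linear_combination - d1 - d2 - d3 - d4


end Jno4
export Jno4 (no4)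
end ED
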