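import Pool.Agent.Helper470.ED.Defs
set_option autoImplicit false
open Finset
open scoped Classical

namespace ED
namespace Jno5




theorem no5_alg {F : Type} [Field F] (h2 : (2 : F) ≠ 0) (a0 a1 a2 a3 a4 : F)
    (h01 : a0 - a1 ≠ 0) (h04 : a0 - a4 ≠ 0)
    (h12 : a1 - a2 ≠ 0) (h23 : a2 - a3 ≠ 0) (l : F) (hl : l ≠ 0)
    (d0 d1 d2 d3 d4 : F)
    (e0 : d0 * ((a0 - a1) * (a0 - a2) * (a0 - a3) * (a0 - a4)) = l)
    (e1 : d1 * ((a1 - a0) * (a1 - a2) * (a1 - a3) * (a1 - a4)) = l)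
    (e2 : d2 * ((a2 - a0) * (a2 - a1) * (a2 - a3) * (a2 - a4)) = l)
    (e3 : d3 * ((a3 - a0) * (a3 - a1) * (a3 - a2) * (a3 - a4)) = l)
    (e4 : d4 * ((a4 - a0) * (a4 - a1) * (a4 - a2) * (a4 - a3)) = l)
    (hT : d0 * d1 * (a1 - a0) ^ 3 + d0 * d2 * (a2 - a0) ^ 3 + d1 * d2 * (a2 - a1) ^ 3
      + d3 * d4 * (a4 - a3) ^ 3 = 0) : False := by
  have A1 : d0 * d1 * (a1 - a0) ^ 3 * ((a0 - a2) * (a1 - a3) * (a2 - a4) * (a0 - a3) * (a1 - a4)) *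
      ((a0 - a4) * (a1 - a2)) = -(a1 - a0) * (a2 - a4) * l ^ 2 := by
    have h : (d0 * ((a0 - a1) * (a0 - a2) * (a0 - a3) * (a0 - a4))) *
      (d1 * ((a1 - a0) * (a1 - a2) * (a1 - a3) * (a1 - a4))) = l * l := by rw [e0, e1]
    linear_combination (-(a1 - a0) * (a2 - a4)) * h
  have A2 : d0 * d2 * (a2 - a0) ^ 3 * ((a0 - a2) * (a1 - a3) * (a2 - a4) * (a0 - a3) * (a1 - a4)) *
      ((a0 - a1) * (a0 - a4) * (a2 - a1) * (a2 - a3)) = (a2 - a0) ^ 2 * (a1 - a3) * (a1 - a4) * l ^ 2 := by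
    have h : (d0 * ((a0 - a1) * (a0 - a2) * (a0 - a3) * (a0 - a4))) *
      (d2 * ((a2 - a0) * (a2 - a1) * (a2 - a3) * (a2 - a4))) = l * l := by rw [e0, e2]
    linear_combination ((a2 - a0) ^ 2 * (a1 - a3) * (a1 - a4)) * h
  have A3 : d1 * d2 * (a2 - a1) ^ 3 * ((a0 - a2) * (a1 - a3) * (a2 - a4) * (a0 - a3) * (a1 - a4)) *
      ((a1 - a0) * (a2 - a3)) = (a0 - a3) * (a2 - a1) * l ^ 2 := by
    have h : (d1 * ((a1 - a0) * (a1 - a2) * (a1 - a3) * (a1 - a4))) *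
      (d2 * ((a2 - a0) * (a2 - a1) * (a2 - a3) * (a2 - a4))) = l * l := by rw [e1, e2]
    linear_combination ((a0 - a3) * (a2 - a1)) * h
  have A4 : d3 * d4 * (a4 - a3) ^ 3 * ((a0 - a2) * (a1 - a3) * (a2 - a4) * (a0 - a3) * (a1 - a4)) *
      ((a3 - a2) * (a4 - a0)) = -(a4 - a3) * (a0 - a2) * l ^ 2 := by
    have h : (d3 * ((a3 - a0) * (a3 - a1) * (a3 - a2) * (a3 - a4))) *
      (d4 * ((a4 - a0) * (a4 - a1) * (a4 - a2) * (a4 - a3))) = l * l := by rw [e3, e4]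
    linear_combination (-(a4 - a3) * (a0 - a2)) * h
  have hS : d0 * d1 * (a1 - a0) ^ 3 * ((a0 - a2) * (a1 - a3) * (a2 - a4) * (a0 - a3) * (a1 - a4)) +
      d0 * d2 * (a2 - a0) ^ 3 * ((a0 - a2) * (a1 - a3) * (a2 - a4) * (a0 - a3) * (a1 - a4)) +
      d1 * d2 * (a2 - a1) ^ 3 * ((a0 - a2) * (a1 - a3) * (a2 - a4) * (a0 - a3) * (a1 - a4)) +
      d3 * d4 * (a4 - a3) ^ 3 * ((a0 - a2) * (a1 - a3) * (a2 - a4) * (a0 - a3) * (a1 - a4)) = 0 := by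
    rw [← add_mul, ← add_mul, ← add_mul, hT, zero_mul]
  generalize d0 * d1 * (a1 - a0) ^ 3 * ((a0 - a2) * (a1 - a3) * (a2 - a4) * (a0 - a3) * (a1 - a4)) = X1 at *
  generalize d0 * d2 * (a2 - a0) ^ 3 * ((a0 - a2) * (a1 - a3) * (a2 - a4) * (a0 - a3) * (a1 - a4)) = X2 at *
  generalize d1 * d2 * (a2 - a1) ^ 3 * ((a0 - a2) * (a1 - a3) * (a2 - a4) * (a0 - a3) * (a1 - a4)) = X3 at *
  generalize d3 * d4 * (a4 - a3) ^ 3 * ((a0 - a2) * (a1 - a3) * (a2 - a4) * (a0 - a3) * (a1 - a4)) = X4 at *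
  have key : 2 * l ^ 2 * ((a0 - a1) * (a0 - a4) * (a1 - a2) * (a2 - a3)) = 0 := by
    linear_combination (-((a0 - a1) * (a0 - a4) * (a1 - a2) * (a2 - a3))) * hS +
      (a0 - a1) * (a2 - a3) * A1 - A2 - (a0 - a4) * (a1 - a2) * A3 + (a0 - a1) * (a1 - a2) * A4
  have : 2 * l ^ 2 * ((a0 - a1) * (a0 - a4) * (a1 - a2) * (a2 - a3)) ≠ 0 := by
    refine mul_ne_zero (mul_ne_zero h2 (pow_ne_zero _ hl)) ?_
    exact mul_ne_zero (mul_ne_zero (mul_ne_zero h01 h04) h12) h23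
  exact this key

theorem no5_case2 {F : Type} [Field F] (a0 a1 a2 a3 a4 : F) (d0 d1 d2 d3 d4 : F)
    (M0 : d0 + d1 + d2 + d3 + d4 = 0)
    (M1 : a0 * d0 + a1 * d1 + a2 * d2 + a3 * d3 + a4 * d4 = 0)
    (M2 : a0 ^ 2 * d0 + a1 ^ 2 * d1 + a2 ^ 2 * d2 + a3 ^ 2 * d3 + a4 ^ 2 * d4 = 0)
    (M3 : a0 ^ 3 * d0 + a1 ^ 3 * d1 + a2 ^ 3 * d2 + a3 ^ 3 * d3 + a4 ^ 3 * d4 = 0)
    (h23 : a2 - a3 ≠ 0) (h34 : a3 - a4 ≠ 0) (h40 : a4 - a0 ≠ 0)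
    (n3 : d3 ≠ 0) (n4 : d4 ≠ 0)
    (h : a0 = a2) : False := by
  subst h
  have q1 : d3 * ((a3 - a0) * (a3 - a1) * (a3 - a4)) = 0 := by
    linear_combination M3 - (a0 + a1 + a4) * M2 + (a0 * a1 + a0 * a4 + a1 * a4) * M1 - (a0 * a1 * a4) * M0
  have h30 : a3 - a0 ≠ 0 := by rw [← neg_sub]; exact neg_ne_zero.mpr h23
  rcases mul_eq_zero.mp q1 with h | h
  · exact n3 h
  rcases mul_eq_zero.mp h with h | h
  · rcases mul_eq_zero.mp h with h | h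
    · exact h30 h
    · have h31 : a3 = a1 := sub_eq_zero.mp h
      have q2 : d4 * ((a4 - a0) * (a4 - a3)) = 0 := by
        rw [h31] at M1 M2 ⊢
        linear_combination M2 - (a0 + a1) * M1 + (a0 * a1) * M0
      have h43 : a4 - a3 ≠ 0 := by rw [← neg_sub]; exact neg_ne_zero.mpr h34
      exact (mul_ne_zero n4 (mul_ne_zero h40 h43)) q2
  · exact h34 h


theorem no5_lineEq {F : Type} [Field F] {P L L' : Fin 5 → F} (h : Adj12 P L) (h' : Adj12 P L')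
    (h0 : L 0 = L' 0) : L = L' := by
  obtain ⟨h1, h2, h3, h4⟩ := h
  obtain ⟨k1, k2, k3, k4⟩ := h'
  have e1 : L 1 = L' 1 := by linear_combination h1 - k1 + P 0 * h0
  have e2 : L 2 = L' 2 := by linear_combination h2 - k2 + P 0 * e1
  have e3 : L 3 = L' 3 := by linear_combination h3 - k3 + P 0 * e2
  have e4 : L 4 = L' 4 := by linear_combination h4 - k4 + P 1 * e2 - P 2 * e1
  funext i
  fin_cases i <;> assumption

theorem no5_ptEq {F : Type} [Field F] {P P' L : Fin 5 → F} (h : Adj12 P L) (h' : Adj12 P' L)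
    (h0 : P 0 = P' 0) : P = P' := by
  obtain ⟨h1, h2, h3, h4⟩ := h
  obtain ⟨k1, k2, k3, k4⟩ := h'
  have e1 : P 1 = P' 1 := by linear_combination h1 - k1 + L 0 * h0
  have e2 : P 2 = P' 2 := by linear_combination h2 - k2 + L 1 * h0
  have e3 : P 3 = P' 3 := by linear_combination h3 - k3 + L 2 * h0
  have e4 : P 4 = P' 4 := by linear_combination h4 - k4 + L 2 * e1 - L 1 * e2
  funext i
  fin_cases i <;> assumption

theorem no5_stepEq {F : Type} [Field F] {P L L' : Fin 5 → F} (h : Adj12 P L) (h' : Adj12 P L') :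
    L 1 - L' 1 = P 0 * (L 0 - L' 0) ∧ L 2 - L' 2 = P 0 ^ 2 * (L 0 - L' 0) ∧
    L 3 - L' 3 = P 0 ^ 3 * (L 0 - L' 0) ∧
    L 4 - L' 4 = P 1 * (P 0 ^ 2 * (L 0 - L' 0)) - P 2 * (P 0 * (L 0 - L' 0)) := by
  obtain ⟨h1, h2, h3, h4⟩ := h
  obtain ⟨k1, k2, k3, k4⟩ := h'
  have e1 : L 1 - L' 1 = P 0 * (L 0 - L' 0) := by linear_combination h1 - k1
  have e2 : L 2 - L' 2 = P 0 ^ 2 * (L 0 - L' 0) := by linear_combination h2 - k2 + P 0 * e1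
  have e3 : L 3 - L' 3 = P 0 ^ 3 * (L 0 - L' 0) := by linear_combination h3 - k3 + P 0 * e2
  refine ⟨e1, e2, e3, ?_⟩
  linear_combination h4 - k4 + P 1 * e2 - P 2 * e1

theorem no5_core {F : Type} [Field F] (h2 : (2 : F) ≠ 0) (a0 a1 a2 a3 a4 : F)
    (d0 d1 d2 d3 d4 : F)
    (M0 : d0 + d1 + d2 + d3 + d4 = 0)
    (M1 : a0 * d0 + a1 * d1 + a2 * d2 + a3 * d3 + a4 * d4 = 0)
    (M2 : a0 ^ 2 * d0 + a1 ^ 2 * d1 + a2 ^ 2 * d2 + a3 ^ 2 * d3 + a4 ^ 2 * d4 = 0)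
    (M3 : a0 ^ 3 * d0 + a1 ^ 3 * d1 + a2 ^ 3 * d2 + a3 ^ 3 * d3 + a4 ^ 3 * d4 = 0)
    (h01 : a0 - a1 ≠ 0) (h12 : a1 - a2 ≠ 0) (h23 : a2 - a3 ≠ 0) (h34 : a3 - a4 ≠ 0)
    (h40 : a4 - a0 ≠ 0)
    (n0 : d0 ≠ 0) (n1 : d1 ≠ 0) (n2 : d2 ≠ 0) (n3 : d3 ≠ 0) (n4 : d4 ≠ 0)
    (x0 x1 x2 : F)
    (E : d0 * a0 * (a0 ^ 2 * (x0 + d0) - 2 * a0 * (x1 + a0 * d0) + (x2 + a0 ^ 2 * d0)) +
      d1 * a1 * (a1 ^ 2 * (x0 + d0 + d1) - 2 * a1 * (x1 + a0 * d0 + a1 * d1) +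
        (x2 + a0 ^ 2 * d0 + a1 ^ 2 * d1)) +
      d2 * a2 * (a2 ^ 2 * (x0 + d0 + d1 + d2) - 2 * a2 * (x1 + a0 * d0 + a1 * d1 + a2 * d2) +
        (x2 + a0 ^ 2 * d0 + a1 ^ 2 * d1 + a2 ^ 2 * d2)) +
      d3 * a3 * (a3 ^ 2 * (x0 + d0 + d1 + d2 + d3) -
        2 * a3 * (x1 + a0 * d0 + a1 * d1 + a2 * d2 + a3 * d3) +
        (x2 + a0 ^ 2 * d0 + a1 ^ 2 * d1 + a2 ^ 2 * d2 + a3 ^ 2 * d3)) +
      d4 * a4 * (a4 ^ 2 * x0 - 2 * a4 * x1 + x2) = 0) : False := by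
  -- non-consecutive values are distinct
  have h02 : a0 - a2 ≠ 0 := fun h =>
    no5_case2 a0 a1 a2 a3 a4 d0 d1 d2 d3 d4 M0 M1 M2 M3 h23 h34 h40 n3 n4 (sub_eq_zero.mp h)
  have h13 : a1 - a3 ≠ 0 := fun h =>
    no5_case2 a1 a2 a3 a4 a0 d1 d2 d3 d4 d0 (by linear_combination M0) (by linear_combination M1)
      (by linear_combination M2) (by linear_combination M3) h34 h40 h01 n4 n0 (sub_eq_zero.mp h)
  have h24 : a2 - a4 ≠ 0 := fun h =>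
    no5_case2 a2 a3 a4 a0 a1 d2 d3 d4 d0 d1 (by linear_combination M0) (by linear_combination M1)
      (by linear_combination M2) (by linear_combination M3) h40 h01 h12 n0 n1 (sub_eq_zero.mp h)
  have h30 : a3 - a0 ≠ 0 := fun h =>
    no5_case2 a3 a4 a0 a1 a2 d3 d4 d0 d1 d2 (by linear_combination M0) (by linear_combination M1)
      (by linear_combination M2) (by linear_combination M3) h01 h12 h23 n1 n2 (sub_eq_zero.mp h)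
  have h41 : a4 - a1 ≠ 0 := fun h =>
    no5_case2 a4 a0 a1 a2 a3 d4 d0 d1 d2 d3 (by linear_combination M0) (by linear_combination M1)
      (by linear_combination M2) (by linear_combination M3) h12 h23 h34 n2 n3 (sub_eq_zero.mp h)
  have h42 : a4 - a2 ≠ 0 := by rw [← neg_sub]; exact neg_ne_zero.mpr h24
  have h43 : a4 - a3 ≠ 0 := by rw [← neg_sub]; exact neg_ne_zero.mpr h34
  have h04 : a0 - a4 ≠ 0 := by rw [← neg_sub]; exact neg_ne_zero.mpr h40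
  -- the quadratic relation
  have T : d0 * d1 * (a1 - a0) ^ 3 + d0 * d2 * (a2 - a0) ^ 3 + d0 * d3 * (a3 - a0) ^ 3
      + d0 * d4 * (a4 - a0) ^ 3 + d1 * d2 * (a2 - a1) ^ 3 + d1 * d3 * (a3 - a1) ^ 3
      + d1 * d4 * (a4 - a1) ^ 3 + d2 * d3 * (a3 - a2) ^ 3 + d2 * d4 * (a4 - a2) ^ 3
      + d3 * d4 * (a4 - a3) ^ 3 = 0 := by
    linear_combination 2 * E - 2 * x0 * M3 + 4 * x1 * M2 - 2 * x2 * M1
      - (d0 + d1 + d2 + d3 + d4) * M3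
      + (a0 * d0 + a1 * d1 + a2 * d2 + a3 * d3 + a4 * d4) * M2
      + 2 * d4 * a4 * (a4 ^ 2 * M0 - 2 * a4 * M1 + M2)
  -- the cubic sums
  have C4 : d0 * (a4 - a0) ^ 3 + d1 * (a4 - a1) ^ 3 + d2 * (a4 - a2) ^ 3 + d3 * (a4 - a3) ^ 3 = 0 := by
    linear_combination a4 ^ 3 * M0 - 3 * a4 ^ 2 * M1 + 3 * a4 * M2 - M3
  have C3 : d0 * (a3 - a0) ^ 3 + d1 * (a3 - a1) ^ 3 + d2 * (a3 - a2) ^ 3 + d4 * (a3 - a4) ^ 3 = 0 := by
    linear_combination a3 ^ 3 * M0 - 3 * a3 ^ 2 * M1 + 3 * a3 * M2 - M3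
  have T' : d0 * d1 * (a1 - a0) ^ 3 + d0 * d2 * (a2 - a0) ^ 3 + d1 * d2 * (a2 - a1) ^ 3
      + d3 * d4 * (a4 - a3) ^ 3 = 0 := by
    linear_combination T - d4 * C4 - d3 * C3
  -- the weights
  have R0 : d0 * ((a0 - a1) * (a0 - a2) * (a0 - a3)) + d4 * ((a4 - a1) * (a4 - a2) * (a4 - a3)) = 0 := by
    linear_combination M3 - (a1 + a2 + a3) * M2 + (a1 * a2 + a1 * a3 + a2 * a3) * M1 - (a1 * a2 * a3) * M0
  have R1 : d1 * ((a1 - a0) * (a1 - a2) * (a1 - a3)) + d4 * ((a4 - a0) * (a4 - a2) * (a4 - a3)) = 0 := by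
    linear_combination M3 - (a0 + a2 + a3) * M2 + (a0 * a2 + a0 * a3 + a2 * a3) * M1 - (a0 * a2 * a3) * M0
  have R2 : d2 * ((a2 - a0) * (a2 - a1) * (a2 - a3)) + d4 * ((a4 - a0) * (a4 - a1) * (a4 - a3)) = 0 := by
    linear_combination M3 - (a0 + a1 + a3) * M2 + (a0 * a1 + a0 * a3 + a1 * a3) * M1 - (a0 * a1 * a3) * M0
  have R3 : d3 * ((a3 - a0) * (a3 - a1) * (a3 - a2)) + d4 * ((a4 - a0) * (a4 - a1) * (a4 - a2)) = 0 := by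
    linear_combination M3 - (a0 + a1 + a2) * M2 + (a0 * a1 + a0 * a2 + a1 * a2) * M1 - (a0 * a1 * a2) * M0
  exact no5_alg h2 a0 a1 a2 a3 a4 h01 h04 h12 h23
    (d4 * ((a4 - a0) * (a4 - a1) * (a4 - a2) * (a4 - a3)))
    (mul_ne_zero n4 (mul_ne_zero (mul_ne_zero (mul_ne_zero h40 h41) h42) h43))
    d0 d1 d2 d3 d4
    (by linear_combination (a0 - a4) * R0)
    (by linear_combination (a1 - a4) * R1)
    (by linear_combination (a2 - a4) * R2)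
    (by linear_combination (a3 - a4) * R3)
    rfl T'

-- TARGET (prove this)
theorem no5 {F : Type} [Field F] (h2 : (2 : F) ≠ 0) (P L : Fin 5 → Fin 5 → F)
    (h1 : ∀ i, Adj12 (P i) (L i)) (h3 : ∀ i, Adj12 (P (i + 1)) (L i))
    (hP : ∀ i, P i ≠ P (i + 1)) (hL : ∀ i, L i ≠ L (i + 1)) : False := by
  have a00 : Adj12 (P 0) (L 0) := h1 0
  have a11 : Adj12 (P 1) (L 1) := h1 1
  have a22 : Adj12 (P 2) (L 2) := h1 2
  have a33 : Adj12 (P 3) (L 3) := h1 3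
  have a44 : Adj12 (P 4) (L 4) := h1 4
  have a10 : Adj12 (P 1) (L 0) := h3 0
  have a21 : Adj12 (P 2) (L 1) := h3 1
  have a32 : Adj12 (P 3) (L 2) := h3 2
  have a43 : Adj12 (P 4) (L 3) := h3 3
  have a04 : Adj12 (P 0) (L 4) := h3 4
  have p01 : P 0 ≠ P 1 := hP 0
  have p12 : P 1 ≠ P 2 := hP 1
  have p23 : P 2 ≠ P 3 := hP 2
  have p34 : P 3 ≠ P 4 := hP 3
  have p40 : P 4 ≠ P 0 := hP 4
  have l01 : L 0 ≠ L 1 := hL 0
  have l12 : L 1 ≠ L 2 := hL 1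
  have l23 : L 2 ≠ L 3 := hL 2
  have l34 : L 3 ≠ L 4 := hL 3
  have l40 : L 4 ≠ L 0 := hL 4
  have h01 : P 0 0 - P 1 0 ≠ 0 := fun h => p01 (no5_ptEq a00 a10 (sub_eq_zero.mp h))
  have h12 : P 1 0 - P 2 0 ≠ 0 := fun h => p12 (no5_ptEq a11 a21 (sub_eq_zero.mp h))
  have h23 : P 2 0 - P 3 0 ≠ 0 := fun h => p23 (no5_ptEq a22 a32 (sub_eq_zero.mp h))
  have h34 : P 3 0 - P 4 0 ≠ 0 := fun h => p34 (no5_ptEq a33 a43 (sub_eq_zero.mp h))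
  have h40 : P 4 0 - P 0 0 ≠ 0 := fun h => p40 (no5_ptEq a44 a04 (sub_eq_zero.mp h))
  have n0 : L 0 0 - L 4 0 ≠ 0 := fun h => l40 (no5_lineEq a00 a04 (sub_eq_zero.mp h)).symm
  have n1 : L 1 0 - L 0 0 ≠ 0 := fun h => l01 (no5_lineEq a11 a10 (sub_eq_zero.mp h)).symm
  have n2 : L 2 0 - L 1 0 ≠ 0 := fun h => l12 (no5_lineEq a22 a21 (sub_eq_zero.mp h)).symm
  have n3 : L 3 0 - L 2 0 ≠ 0 := fun h => l23 (no5_lineEq a33 a32 (sub_eq_zero.mp h)).symm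
  have n4 : L 4 0 - L 3 0 ≠ 0 := fun h => l34 (no5_lineEq a44 a43 (sub_eq_zero.mp h)).symm
  obtain ⟨s01, s02, s03, s04⟩ := no5_stepEq a00 a04
  obtain ⟨s11, s12, s13, s14⟩ := no5_stepEq a11 a10
  obtain ⟨s21, s22, s23, s24⟩ := no5_stepEq a22 a21
  obtain ⟨s31, s32, s33, s34⟩ := no5_stepEq a33 a32
  obtain ⟨s41, s42, s43, s44⟩ := no5_stepEq a44 a43
  obtain ⟨b01, b02, -, -⟩ := a00
  obtain ⟨b11, b12, -, -⟩ := a11
  obtain ⟨b21, b22, -, -⟩ := a22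
  obtain ⟨b31, b32, -, -⟩ := a33
  obtain ⟨b41, b42, -, -⟩ := a44
  have E1 : (P 0 1 * (P 0 0 ^ 2 * (L 0 0 - L 4 0)) - P 0 2 * (P 0 0 * (L 0 0 - L 4 0))) +
      (P 1 1 * (P 1 0 ^ 2 * (L 1 0 - L 0 0)) - P 1 2 * (P 1 0 * (L 1 0 - L 0 0))) +
      (P 2 1 * (P 2 0 ^ 2 * (L 2 0 - L 1 0)) - P 2 2 * (P 2 0 * (L 2 0 - L 1 0))) +
      (P 3 1 * (P 3 0 ^ 2 * (L 3 0 - L 2 0)) - P 3 2 * (P 3 0 * (L 3 0 - L 2 0))) +
      (P 4 1 * (P 4 0 ^ 2 * (L 4 0 - L 3 0)) - P 4 2 * (P 4 0 * (L 4 0 - L 3 0))) = 0 := by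
    linear_combination -(s04 + s14 + s24 + s34 + s44)
  have M0 : (L 0 0 - L 4 0) + (L 1 0 - L 0 0) + (L 2 0 - L 1 0) + (L 3 0 - L 2 0) +
      (L 4 0 - L 3 0) = 0 := by ring
  have M1 : P 0 0 * (L 0 0 - L 4 0) + P 1 0 * (L 1 0 - L 0 0) + P 2 0 * (L 2 0 - L 1 0) +
      P 3 0 * (L 3 0 - L 2 0) + P 4 0 * (L 4 0 - L 3 0) = 0 := by
    linear_combination -(s01 + s11 + s21 + s31 + s41)
  have M2 : P 0 0 ^ 2 * (L 0 0 - L 4 0) + P 1 0 ^ 2 * (L 1 0 - L 0 0) +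
      P 2 0 ^ 2 * (L 2 0 - L 1 0) + P 3 0 ^ 2 * (L 3 0 - L 2 0) + P 4 0 ^ 2 * (L 4 0 - L 3 0) = 0 := by
    linear_combination -(s02 + s12 + s22 + s32 + s42)
  have M3 : P 0 0 ^ 3 * (L 0 0 - L 4 0) + P 1 0 ^ 3 * (L 1 0 - L 0 0) +
      P 2 0 ^ 3 * (L 2 0 - L 1 0) + P 3 0 ^ 3 * (L 3 0 - L 2 0) + P 4 0 ^ 3 * (L 4 0 - L 3 0) = 0 := by
    linear_combination -(s03 + s13 + s23 + s33 + s43)
  refine no5_core h2 (P 0 0) (P 1 0) (P 2 0) (P 3 0) (P 4 0)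
    (L 0 0 - L 4 0) (L 1 0 - L 0 0) (L 2 0 - L 1 0) (L 3 0 - L 2 0) (L 4 0 - L 3 0)
    M0 M1 M2 M3 h01 h12 h23 h34 h40 n0 n1 n2 n3 n4 (L 4 0) (L 4 1) (L 4 2) ?_
  have u01 : L 4 1 + P 0 0 * (L 0 0 - L 4 0) = L 0 1 := by linear_combination -s01
  have u11 : L 0 1 + P 1 0 * (L 1 0 - L 0 0) = L 1 1 := by linear_combination -s11
  have u21 : L 1 1 + P 2 0 * (L 2 0 - L 1 0) = L 2 1 := by linear_combination -s21
  have u31 : L 2 1 + P 3 0 * (L 3 0 - L 2 0) = L 3 1 := by linear_combination -s31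
  have u02 : L 4 2 + P 0 0 ^ 2 * (L 0 0 - L 4 0) = L 0 2 := by linear_combination -s02
  have u12 : L 0 2 + P 1 0 ^ 2 * (L 1 0 - L 0 0) = L 1 2 := by linear_combination -s12
  have u22 : L 1 2 + P 2 0 ^ 2 * (L 2 0 - L 1 0) = L 2 2 := by linear_combination -s22
  have u32 : L 2 2 + P 3 0 ^ 2 * (L 3 0 - L 2 0) = L 3 2 := by linear_combination -s32
  have v0 : L 4 0 + (L 0 0 - L 4 0) = L 0 0 := by ring
  have v1 : L 0 0 + (L 1 0 - L 0 0) = L 1 0 := by ring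
  have v2 : L 1 0 + (L 2 0 - L 1 0) = L 2 0 := by ring
  have v3 : L 2 0 + (L 3 0 - L 2 0) = L 3 0 := by ring
  rw [u01, u11, u21, u31, u02, u12, u22, u32, v0, v1, v2, v3]
  have w01 : P 0 1 = P 0 0 * L 0 0 - L 0 1 := by linear_combination b01
  have w11 : P 1 1 = P 1 0 * L 1 0 - L 1 1 := by linear_combination b11
  have w21 : P 2 1 = P 2 0 * L 2 0 - L 2 1 := by linear_combination b21
  have w31 : P 3 1 = P 3 0 * L 3 0 - L 3 1 := by linear_combination b31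
  have w41 : P 4 1 = P 4 0 * L 4 0 - L 4 1 := by linear_combination b41
  have w02 : P 0 2 = P 0 0 * L 0 1 - L 0 2 := by linear_combination b02
  have w12 : P 1 2 = P 1 0 * L 1 1 - L 1 2 := by linear_combination b12
  have w22 : P 2 2 = P 2 0 * L 2 1 - L 2 2 := by linear_combination b22
  have w32 : P 3 2 = P 3 0 * L 3 1 - L 3 2 := by linear_combination b32
  have w42 : P 4 2 = P 4 0 * L 4 1 - L 4 2 := by linear_combination b42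
  rw [w01, w11, w21, w31, w41, w02, w12, w22, w32, w42] at E1
  linear_combination E1


end Jno5
export Jno5 (no5)
end ED
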