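import Pool.Agent.Helper470.ED.Defs
import Pool.Agent.Helper470.ED.Mbas2
import Pool.Agent.Helper470.ED.Mno23
import Pool.Agent.Helper470.ED.Mno4
import Pool.Agent.Helper470.ED.Mno5
set_option autoImplicit false
open Finset
open scoped Classical

namespace ED
namespace Jhost12














-- TARGET (prove this)
/-- helper graph -/
def adjR {F : Type} [Field F] : (Fin 5 → F) ⊕ (Fin 5 → F) → (Fin 5 → F) ⊕ (Fin 5 → F) → Prop
  | Sum.inl P, Sum.inr L => Adj12 P L
  | Sum.inr L, Sum.inl P => Adj12 P L
  | _, _ => False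

def GR (F : Type) [Field F] : SimpleGraph ((Fin 5 → F) ⊕ (Fin 5 → F)) where
  Adj := adjR
  symm := ⟨by
    intro x y h
    rcases x with P | L <;> rcases y with P' | L' <;> simp only [adjR] at h ⊢ <;> exact h⟩
  loopless := ⟨by
    intro x h
    rcases x with P | L <;> simp only [adjR] at h⟩

def prj {F : Type} (x : (Fin 5 → F) ⊕ (Fin 5 → F)) : Fin 5 → F := Sum.elim id id x

theorem adj_side {F : Type} [Field F] {x y : (Fin 5 → F) ⊕ (Fin 5 → F)} (h : (GR F).Adj x y) :
    y.isLeft = !x.isLeft := by
  change adjR x y at h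
  rcases x with P | L <;> rcases y with P' | L' <;> simp [adjR] at h ⊢

theorem adj_left {F : Type} [Field F] {x y : (Fin 5 → F) ⊕ (Fin 5 → F)} (h : (GR F).Adj x y)
    (hx : x.isLeft = true) : Adj12 (prj x) (prj y) := by
  change adjR x y at h
  rcases x with P | L <;> rcases y with P' | L' <;> simp [adjR, prj] at h hx ⊢
  exact h

theorem adj_right {F : Type} [Field F] {x y : (Fin 5 → F) ⊕ (Fin 5 → F)} (h : (GR F).Adj x y)
    (hx : x.isLeft = false) : Adj12 (prj y) (prj x) := by
  change adjR x y at h
  rcases x with P | L <;> rcases y with P' | L' <;> simp [adjR, prj] at h hx ⊢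
  exact h

theorem prj_ne {F : Type} {x y : (Fin 5 → F) ⊕ (Fin 5 → F)} (h : x.isLeft = y.isLeft)
    (hne : x ≠ y) : prj x ≠ prj y := by
  rcases x with P | L <;> rcases y with P' | L' <;> simp [prj] at h hne ⊢
  · exact hne
  · exact hne

theorem seq_false {F : Type} [Field F] (h2 : (2 : F) ≠ 0) (g : ℕ → (Fin 5 → F) ⊕ (Fin 5 → F))
    (s : ℕ) (hs2 : 2 ≤ s) (hs5 : s ≤ 5) (hper : ∀ k, g (k + 2 * s) = g k)
    (hadj : ∀ k, (GR F).Adj (g k) (g (k + 1))) (hne : ∀ k, g k ≠ g (k + 2))
    (h0 : (g 0).isLeft = true) : False := by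
  have hside : ∀ k, (g (2 * k)).isLeft = true ∧ (g (2 * k + 1)).isLeft = false := by
    intro k
    induction k with
    | zero =>
      refine ⟨h0, ?_⟩
      have := adj_side (hadj 0)
      rw [h0] at this
      simpa using this
    | succ k ih =>
      have a1 := adj_side (hadj (2 * k + 1))
      rw [ih.2] at a1
      have a2 := adj_side (hadj (2 * k + 1 + 1))
      rw [a1] at a2
      refine ⟨?_, ?_⟩
      · have : 2 * (k + 1) = 2 * k + 1 + 1 := by ring
        rw [this]; simpa using a1
      · have : 2 * (k + 1) + 1 = 2 * k + 1 + 1 + 1 := by ring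
        rw [this]; simpa using a2
  have A1 : ∀ k, Adj12 (prj (g (2 * k))) (prj (g (2 * k + 1))) := fun k =>
    adj_left (hadj (2 * k)) (hside k).1
  have A2 : ∀ k, Adj12 (prj (g (2 * (k + 1)))) (prj (g (2 * k + 1))) := fun k => by
    have := adj_right (hadj (2 * k + 1)) (hside k).2
    have e : 2 * (k + 1) = 2 * k + 1 + 1 := by ring
    rw [e]; exact this
  have A3 : ∀ k, prj (g (2 * k)) ≠ prj (g (2 * (k + 1))) := fun k =>
    prj_ne (by rw [(hside k).1, (hside (k + 1)).1]) (hne (2 * k))
  have A4 : ∀ k, prj (g (2 * k + 1)) ≠ prj (g (2 * (k + 1) + 1)) := fun k =>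
    prj_ne (by rw [(hside k).2, (hside (k + 1)).2]) (by
      have := hne (2 * k + 1)
      have e : 2 * (k + 1) + 1 = 2 * k + 1 + 2 := by ring
      rw [e]; exact this)
  have hp0 : g (2 * s) = g 0 := by have := hper 0; simpa using this
  have hp1 : g (2 * s + 1) = g 1 := by
    have := hper 1
    have e : 2 * s + 1 = 1 + 2 * s := by ring
    rw [e]; exact this
  have hs : s = 2 ∨ s = 3 ∨ s = 4 ∨ s = 5 := by omega
  rcases hs with rfl | rfl | rfl | rfl
  · refine no2 h2 (fun i => prj (g (2 * (i : ℕ)))) (fun i => prj (g (2 * (i : ℕ) + 1))) ?_ ?_ ?_ ?_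
    · intro i; exact A1 i
    · intro i; fin_cases i
      · exact A2 0
      · have := A2 1; rw [hp0] at this; exact this
    · intro i; fin_cases i
      · exact A3 0
      · have := A3 1; rw [hp0] at this; exact this
    · intro i; fin_cases i
      · exact A4 0
      · have := A4 1; rw [hp1] at this; exact this
  · refine no3 h2 (fun i => prj (g (2 * (i : ℕ)))) (fun i => prj (g (2 * (i : ℕ) + 1))) ?_ ?_ ?_ ?_
    · intro i; exact A1 i
    · intro i; fin_cases i
      · exact A2 0
      · exact A2 1
      · have := A2 2; rw [hp0] at this; exact this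
    · intro i; fin_cases i
      · exact A3 0
      · exact A3 1
      · have := A3 2; rw [hp0] at this; exact this
    · intro i; fin_cases i
      · exact A4 0
      · exact A4 1
      · have := A4 2; rw [hp1] at this; exact this
  · refine no4 h2 (fun i => prj (g (2 * (i : ℕ)))) (fun i => prj (g (2 * (i : ℕ) + 1))) ?_ ?_ ?_ ?_
    · intro i; exact A1 i
    · intro i; fin_cases i
      · exact A2 0
      · exact A2 1
      · exact A2 2
      · have := A2 3; rw [hp0] at this; exact this
    · intro i; fin_cases i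
      · exact A3 0
      · exact A3 1
      · exact A3 2
      · have := A3 3; rw [hp0] at this; exact this
    · intro i; fin_cases i
      · exact A4 0
      · exact A4 1
      · exact A4 2
      · have := A4 3; rw [hp1] at this; exact this
  · refine no5 h2 (fun i => prj (g (2 * (i : ℕ)))) (fun i => prj (g (2 * (i : ℕ) + 1))) ?_ ?_ ?_ ?_
    · intro i; exact A1 i
    · intro i; fin_cases i
      · exact A2 0
      · exact A2 1
      · exact A2 2
      · exact A2 3
      · have := A2 4; rw [hp0] at this; exact this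
    · intro i; fin_cases i
      · exact A3 0
      · exact A3 1
      · exact A3 2
      · exact A3 3
      · have := A3 4; rw [hp0] at this; exact this
    · intro i; fin_cases i
      · exact A4 0
      · exact A4 1
      · exact A4 2
      · exact A4 3
      · have := A4 4; rw [hp1] at this; exact this

theorem girth_GR (F : Type) [Field F] (h2 : (2 : F) ≠ 0) : GirthGe (GR F) 12 := by
  intro v c hc
  by_contra hlt
  push Not at hlt
  set m := c.length with hm
  have hm3 : 3 ≤ m := hc.three_le_length
  let g : ℕ → (Fin 5 → F) ⊕ (Fin 5 → F) := fun k => c.getVert (k % m)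
  have hper1 : ∀ k, g (k + m) = g k := by
    intro k
    simp only [g, Nat.add_mod_right]
  have hadj : ∀ k, (GR F).Adj (g k) (g (k + 1)) := by
    intro k
    have hk : k % m < m := Nat.mod_lt _ (by omega)
    have h1 := c.adj_getVert_succ hk
    rcases Nat.lt_or_ge (k % m + 1) m with h | h
    · have e : (k + 1) % m = k % m + 1 := by
        rw [Nat.add_mod, Nat.mod_eq_of_lt (show 1 < m by omega), Nat.mod_eq_of_lt h]
      simp only [g]
      rw [e]; exact h1
    · have hkm : k % m + 1 = m := by omega
      have e : (k + 1) % m = 0 := by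
        rw [Nat.add_mod, Nat.mod_eq_of_lt (show 1 < m by omega), hkm, Nat.mod_self]
      simp only [g]
      rw [e]
      rw [hkm] at h1
      have e2 : c.getVert m = c.getVert 0 := by
        rw [hm, SimpleGraph.Walk.getVert_length, SimpleGraph.Walk.getVert_zero]
      rw [e2] at h1
      exact h1
  have hinj := hc.getVert_injOn'
  have hne : ∀ k, g k ≠ g (k + 2) := by
    intro k h
    have hk : k % m < m := Nat.mod_lt _ (by omega)
    have hk2 : (k + 2) % m < m := Nat.mod_lt _ (by omega)
    have := hinj (show k % m ≤ c.length - 1 by omega) (show (k + 2) % m ≤ c.length - 1 by omega) h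
    have h3 : (k + 2) % m = (k % m + 2) % m := by
      rw [Nat.add_mod, Nat.mod_eq_of_lt (show 2 < m by omega)]
    rw [h3] at this
    generalize k % m = r at this hk
    rcases Nat.lt_or_ge (r + 2) m with h4 | h4
    · rw [Nat.mod_eq_of_lt h4] at this; omega
    · have h5 : (r + 2) % m = r + 2 - m := by
        rw [Nat.mod_eq_sub_mod h4, Nat.mod_eq_of_lt (by omega)]
      omega
  -- parity
  have hpar : ∀ k, (g k).isLeft = (if k % 2 = 0 then (g 0).isLeft else !(g 0).isLeft) := by
    intro k
    induction k with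
    | zero => simp
    | succ k ih =>
      have := adj_side (hadj k)
      rw [this, ih]
      rcases Nat.mod_two_eq_zero_or_one k with h | h
      · have h' : (k + 1) % 2 = 1 := by omega
        simp [h, h']
      · have h' : (k + 1) % 2 = 0 := by omega
        simp [h, h']
  have hmeven : m % 2 = 0 := by
    by_contra hodd
    have h1 := hpar m
    rw [if_neg hodd] at h1
    have h2 : g m = g 0 := by have := hper1 0; simpa using this
    rw [h2] at h1
    cases h : (g 0).isLeft <;> simp [h] at h1
  obtain ⟨s, hs⟩ : ∃ s, m = 2 * s := ⟨m / 2, by omega⟩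
  rcases Bool.eq_false_or_eq_true (g 0).isLeft with h | h
  · exact seq_false h2 g s (by omega) (by omega) (fun k => by rw [← hs]; exact hper1 k) hadj hne h
  · refine seq_false h2 (fun k => g (k + 1)) s (by omega) (by omega) (fun k => ?_)
      (fun k => hadj (k + 1)) (fun k => hne (k + 1)) ?_
    · show g (k + 2 * s + 1) = g (k + 1)
      rw [← hs, show k + m + 1 = k + 1 + m by ring]
      exact hper1 (k + 1)
    · show (g (0 + 1)).isLeft = true
      have := adj_side (hadj 0)
      rw [h] at this
      simpa using this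

theorem edges_GR (F : Type) [Field F] [Fintype F] :
    Fintype.card F ^ 6 ≤ (GR F).edgeSet.ncard := by
  let pt : F × (Fin 5 → F) → (Fin 5 → F) := fun x =>
    ![x.1, x.1 * x.2 0 - x.2 1, x.1 * x.2 1 - x.2 2, x.1 * x.2 2 - x.2 3,
      (x.1 * x.2 0 - x.2 1) * x.2 2 - (x.1 * x.2 1 - x.2 2) * x.2 1 - x.2 4]
  let φ : F × (Fin 5 → F) → Sym2 ((Fin 5 → F) ⊕ (Fin 5 → F)) := fun x =>
    s(Sum.inl (pt x), Sum.inr x.2)
  have hφ : Function.Injective φ := by
    intro x y h
    simp only [φ, Sym2.eq_iff] at h
    rcases h with ⟨h1, h2⟩ | ⟨h1, h2⟩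
    · have h3 := Sum.inl.inj h1
      have h4 := Sum.inr.inj h2
      have h5 : x.1 = y.1 := by
        have := congrFun h3 0
        simpa [pt] using this
      exact Prod.ext h5 h4
    · exact absurd h1 (by simp)
  have hsub : Set.range φ ⊆ (GR F).edgeSet := by
    rintro _ ⟨x, rfl⟩
    simp only [φ, SimpleGraph.mem_edgeSet]
    change adjR (Sum.inl (pt x)) (Sum.inr x.2)
    simp only [adjR, Adj12, pt]
    refine ⟨?_, ?_, ?_, ?_⟩ <;> simp
  have hcard : (Set.range φ).ncard = Fintype.card F ^ 6 := by
    rw [← Set.image_univ, Set.ncard_image_of_injective _ hφ, Set.ncard_univ, Nat.card_eq_fintype_card,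
      Fintype.card_prod, Fintype.card_fun, Fintype.card_fin]
    ring
  rw [← hcard]
  exact Set.ncard_le_ncard hsub (Set.toFinite _)

theorem host12 (p n : ℕ) (hp : p.Prime) (h3 : 3 ≤ p) (hn : 2 * p ^ 5 ≤ n) :
    ∃ G : SimpleGraph (Fin n), GirthGe G 12 ∧ p ^ 6 ≤ G.edgeSet.ncard := by
  haveI : Fact p.Prime := ⟨hp⟩
  have h2 : (2 : ZMod p) ≠ 0 := by
    intro h
    have h' : ((2 : ℕ) : ZMod p) = 0 := by exact_mod_cast h
    rw [ZMod.natCast_eq_zero_iff] at h'
    have := Nat.le_of_dvd (by norm_num) h'
    omega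
  have hcard : Fintype.card ((Fin 5 → ZMod p) ⊕ (Fin 5 → ZMod p)) ≤ Fintype.card (Fin n) := by
    rw [Fintype.card_sum, Fintype.card_fun, Fintype.card_fin, Fintype.card_fin, ZMod.card]
    omega
  obtain ⟨f⟩ := Function.Embedding.nonempty_of_card_le hcard
  refine ⟨(GR (ZMod p)).map f, girth_map f _ _ (girth_GR _ h2), ?_⟩
  rw [ncard_map]
  have := edges_GR (ZMod p)
  rwa [ZMod.card] at this



end Jhost12
export Jhost12 (host12)
end ED
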