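import Pool.Agent.Helper470.ED.Defs
set_option autoImplicit false
open Finset
open scoped Classical

namespace ED
namespace Jprime5


-- TARGET (prove this)
theorem prime5 (n : ℕ) (hn : 2048 ≤ n) : ∃ p : ℕ, p.Prime ∧ 3 ≤ p ∧ 2 * p ^ 5 ≤ n ∧
    (n : ℝ) ^ ((6 : ℝ) / 5) ≤ 148 * (p : ℝ) ^ 6 := by
  classical
  set m := Nat.findGreatest (fun k => 64 * k ^ 5 ≤ n) n with hm
  have h2 : 64 * 2 ^ 5 ≤ n := by norm_num; exact hn
  have hmP : 64 * m ^ 5 ≤ n :=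
    Nat.findGreatest_spec (P := fun k => 64 * k ^ 5 ≤ n) (m := 2) (n := n) (by omega) h2
  have hm2 : 2 ≤ m :=
    Nat.le_findGreatest (P := fun k => 64 * k ^ 5 ≤ n) (by omega) h2
  have hmlt : n < 64 * (m + 1) ^ 5 := by
    by_contra hcon
    push Not at hcon
    have hle : m + 1 ≤ n := by
      have h1 : m + 1 ≤ (m + 1) ^ 5 := Nat.le_self_pow (by norm_num) _
      omega
    have := Nat.le_findGreatest (P := fun k => 64 * k ^ 5 ≤ n) hle hcon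
    omega
  obtain ⟨p, hp, hmp, hp2⟩ := Nat.exists_prime_lt_and_le_two_mul m (by omega)
  have hp5 : p ^ 5 ≤ (2 * m) ^ 5 := Nat.pow_le_pow_left hp2 5
  have h3 : (2 * m) ^ 5 = 32 * m ^ 5 := by ring
  refine ⟨p, hp, by omega, by omega, ?_⟩
  have hnp : n ≤ 64 * p ^ 5 := by
    have : (m + 1) ^ 5 ≤ p ^ 5 := Nat.pow_le_pow_left (by omega) 5
    omega
  have hnpR : (n : ℝ) ≤ 64 * (p : ℝ) ^ 5 := by exact_mod_cast hnp
  have hn0 : (0 : ℝ) ≤ (n : ℝ) := Nat.cast_nonneg n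
  have hp0 : (0 : ℝ) ≤ (p : ℝ) := Nat.cast_nonneg p
  have h6 : (n : ℝ) ^ 6 ≤ (148 * (p : ℝ) ^ 6) ^ 5 := by
    calc (n : ℝ) ^ 6 ≤ (64 * (p : ℝ) ^ 5) ^ 6 := pow_le_pow_left₀ hn0 hnpR 6
      _ = 64 ^ 6 * (p : ℝ) ^ 30 := by ring
      _ ≤ 148 ^ 5 * (p : ℝ) ^ 30 := by
          apply mul_le_mul_of_nonneg_right (by norm_num) (by positivity)
      _ = (148 * (p : ℝ) ^ 6) ^ 5 := by ring
  have h7 : ((n : ℝ) ^ ((6 : ℝ) / 5)) ^ 5 = (n : ℝ) ^ 6 := by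
    rw [← Real.rpow_natCast, ← Real.rpow_mul hn0]
    norm_num
  have h8 : ((n : ℝ) ^ ((6 : ℝ) / 5)) ^ 5 ≤ (148 * (p : ℝ) ^ 6) ^ 5 := by rw [h7]; exact h6
  exact le_of_pow_le_pow_left₀ (by norm_num) (by positivity) h8


end Jprime5
export Jprime5 (prime5)
end ED
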