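import Pool.Agent.Helper470.ED.Defs
import Pool.Agent.Helper470.ED.Mhost12
import Pool.Agent.Helper470.ED.Mprime5
set_option autoImplicit false
open Finset
open scoped Classical

namespace ED
namespace Jb5






-- TARGET (prove this)
theorem big5 (n : ℕ) (hn : 2048 ≤ n) : ∃ G : SimpleGraph (Fin n), GirthGe G 12 ∧
    (n : ℝ) ^ ((6 : ℝ) / 5) ≤ 148 * (G.edgeSet.ncard : ℝ) := by
  obtain ⟨p, hp, h3, h1, h2⟩ := prime5 n hn
  obtain ⟨G, hG, he⟩ := host12 p n hp h3 h1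
  refine ⟨G, hG, h2.trans ?_⟩
  have : ((p ^ 6 : ℕ) : ℝ) ≤ (G.edgeSet.ncard : ℝ) := by exact_mod_cast he
  push_cast at this
  linarith


end Jb5
export Jb5 (big5)
end ED
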