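import Pool.Agent.Helper470.ED.Defs
set_option autoImplicit false
open Finset
open scoped Classical

namespace ED
namespace Jball


-- TARGET (prove this)
theorem ball_aux {V : Type} [Fintype V] (G : SimpleGraph V) (D : ℕ) (hD : 2 ≤ D)
    (h : ∀ v, (univ.filter (fun w => G.Adj v w)).card ≤ D) (m : ℕ) : ∀ u : V,
    (univ.filter (fun v => ∃ w : G.Walk u v, w.length ≤ m)).card + 1 ≤ 2 * D ^ m := by
  induction m with
  | zero =>
    intro u
    have hsub : (univ.filter (fun v => ∃ w : G.Walk u v, w.length ≤ 0)) ⊆ {u} := by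
      intro v hv
      obtain ⟨w, hw⟩ := (mem_filter.mp hv).2
      rw [mem_singleton]
      exact (SimpleGraph.Walk.eq_of_length_eq_zero (Nat.le_zero.mp hw)).symm
    have h1 := card_le_card hsub
    rw [card_singleton] at h1
    rw [pow_zero]
    omega
  | succ m ih =>
    intro u
    have hsub : (univ.filter (fun v => ∃ w : G.Walk u v, w.length ≤ m + 1)) ⊆
        insert u ((univ.filter (fun w => G.Adj u w)).biUnion
          (fun w => univ.filter (fun v => ∃ w' : G.Walk w v, w'.length ≤ m))) := by
      intro v hv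
      obtain ⟨w, hw⟩ := (mem_filter.mp hv).2
      cases w with
      | nil => exact mem_insert_self _ _
      | cons hadj p =>
        apply mem_insert_of_mem
        rw [mem_biUnion]
        refine ⟨_, mem_filter.mpr ⟨mem_univ _, hadj⟩, mem_filter.mpr ⟨mem_univ _, p, ?_⟩⟩
        rw [SimpleGraph.Walk.length_cons] at hw
        omega
    have h1 := card_le_card hsub
    have h2 := card_insert_le u ((univ.filter (fun w => G.Adj u w)).biUnion
          (fun w => univ.filter (fun v => ∃ w' : G.Walk w v, w'.length ≤ m)))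
    have h3 : ((univ.filter (fun w => G.Adj u w)).biUnion
          (fun w => univ.filter (fun v => ∃ w' : G.Walk w v, w'.length ≤ m))).card ≤
          ∑ w ∈ univ.filter (fun w => G.Adj u w), (univ.filter (fun v => ∃ w' : G.Walk w v, w'.length ≤ m)).card :=
      card_biUnion_le
    have h4 : ∑ w ∈ univ.filter (fun w => G.Adj u w), (univ.filter (fun v => ∃ w' : G.Walk w v, w'.length ≤ m)).card
        ≤ (univ.filter (fun w => G.Adj u w)).card • (2 * D ^ m - 1) := by
      apply sum_le_card_nsmul
      intro w _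
      have := ih w
      omega
    rw [smul_eq_mul] at h4
    have h5 : (univ.filter (fun w => G.Adj u w)).card * (2 * D ^ m - 1) ≤ D * (2 * D ^ m - 1) :=
      Nat.mul_le_mul_right _ (h u)
    have hpos : 1 ≤ D ^ m := Nat.one_le_pow _ _ (by omega)
    have h6 : D * (2 * D ^ m - 1) + D = 2 * D ^ (m + 1) := by
      obtain ⟨k, hk⟩ : ∃ k, 2 * D ^ m = k + 1 := ⟨2 * D ^ m - 1, by omega⟩
      rw [hk, Nat.add_sub_cancel, pow_succ, ← mul_assoc, hk]
      ring
    omega

theorem ball {V : Type} [Fintype V] (G : SimpleGraph V) (D : ℕ) (hD : 2 ≤ D)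
    (h : ∀ v, (univ.filter (fun w => G.Adj v w)).card ≤ D) (u : V) (m : ℕ) :
    (univ.filter (fun v => ∃ w : G.Walk u v, w.length ≤ m)).card ≤ 2 * D ^ m := by
  have := ball_aux G D hD h m u
  omega



end Jball
export Jball (ball)
end ED
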