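import Pool.Agent.Helper470.ED.Defs
set_option autoImplicit false
open Finset
open scoped Classical

namespace ED
namespace Jbas1


-- TARGET (prove this)
theorem subg {V : Type} [Fintype V] (G : SimpleGraph V) (e : ℕ) (h : e ≤ G.edgeSet.ncard) :
    ∃ H : SimpleGraph V, H ≤ G ∧ H.edgeSet.ncard = e := by
  obtain ⟨E, hE, hc⟩ := Set.exists_subset_card_eq h
  refine ⟨SimpleGraph.fromEdgeSet E, ?_, ?_⟩
  · intro a b hab
    rw [SimpleGraph.fromEdgeSet_adj] at hab
    exact hE hab.1
  · have h2 : (SimpleGraph.fromEdgeSet E).edgeSet = E := by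
      ext x
      induction x with
      | _ a b =>
        rw [SimpleGraph.mem_edgeSet, SimpleGraph.fromEdgeSet_adj]
        constructor
        · exact fun h => h.1
        · intro hx
          exact ⟨hx, (SimpleGraph.mem_edgeSet G).1 (hE hx) |>.ne⟩
    rw [h2, hc]

-- TARGET (prove this)
theorem girth_mono {V : Type} {G H : SimpleGraph V} (h : H ≤ G) (g : ℕ) (hG : GirthGe G g) : GirthGe H g := by
  intro v c hc
  have h1 := hG v (c.mapLe h) (hc.mapLe h)
  simpa using h1

-- TARGET (prove this)
theorem count {V : Type} [Fintype V] (G : SimpleGraph V) (g k : ℕ) (h : GirthGe G g) (hk : HasEDC G k) :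
    g * k ≤ G.edgeSet.ncard := by
  obtain ⟨v, c, hc, hd⟩ := hk
  have h1 : ∀ i, g ≤ ((c i).edges.toFinset).card := by
    intro i
    rw [List.toFinset_card_of_nodup (hc i).isCircuit.isTrail.edges_nodup,
      SimpleGraph.Walk.length_edges]
    exact h _ _ (hc i)
  have h2 : g * k ≤ ∑ i : Fin k, ((c i).edges.toFinset).card := by
    calc g * k = ∑ _i : Fin k, g := by simp [mul_comm]
      _ ≤ _ := Finset.sum_le_sum fun i _ => h1 i
  have h3 : ∑ i : Fin k, ((c i).edges.toFinset).card
      = ((Finset.univ : Finset (Fin k)).biUnion fun i => (c i).edges.toFinset).card := by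
    rw [Finset.card_biUnion]
    intro i _ j _ hij
    rw [Function.onFun, Finset.disjoint_left]
    intro e he he'
    rw [List.mem_toFinset] at he he'
    exact hd i j hij e he he'
  rw [h3] at h2
  refine h2.trans ?_
  rw [← Set.ncard_coe_finset]
  apply Set.ncard_le_ncard
  · intro e he
    rw [Finset.mem_coe, Finset.mem_biUnion] at he
    obtain ⟨i, _, hi⟩ := he
    rw [List.mem_toFinset] at hi
    exact (c i).edges_subset_edgeSet hi
  · exact Set.toFinite _


end Jbas1
export Jbas1 (subg girth_mono count)
end ED
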