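import Pool.Agent.Helper470.ED.Defs
import Pool.Agent.Helper470.ED.Mbas2
set_option autoImplicit false
open Finset
open scoped Classical

namespace ED
namespace Jhost3






-- TARGET (prove this)
def hInc (p : ℕ) : (ZMod p × ZMod p) ⊕ (ZMod p × ZMod p) → (ZMod p × ZMod p) ⊕ (ZMod p × ZMod p) → Prop
  | Sum.inl q, Sum.inr l => q.2 = l.1 * q.1 + l.2
  | Sum.inr l, Sum.inl q => q.2 = l.1 * q.1 + l.2
  | Sum.inl _, Sum.inl _ => False
  | Sum.inr _, Sum.inr _ => False

def hIG (p : ℕ) : SimpleGraph ((ZMod p × ZMod p) ⊕ (ZMod p × ZMod p)) where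
  Adj := hInc p
  symm := ⟨by
    intro u v h
    cases u <;> cases v <;> exact h⟩
  loopless := ⟨by
    intro u h
    cases u <;> exact h⟩

theorem hInc_side (p : ℕ) (u v : (ZMod p × ZMod p) ⊕ (ZMod p × ZMod p)) (h : hInc p u v) :
    v.isLeft = !u.isLeft := by
  cases u <;> cases v
  · exact h.elim
  · rfl
  · rfl
  · exact h.elim

theorem hInc_alg (p : ℕ) (hp : p.Prime) (q r l m : ZMod p × ZMod p)
    (h1 : q.2 = l.1 * q.1 + l.2) (h2 : r.2 = l.1 * r.1 + l.2)
    (h3 : r.2 = m.1 * r.1 + m.2) (h4 : q.2 = m.1 * q.1 + m.2) : q = r ∨ l = m := by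
  have : Fact p.Prime := ⟨hp⟩
  have h5 : (l.1 - m.1) * (q.1 - r.1) = 0 := by linear_combination h2 - h1 + h4 - h3
  rcases mul_eq_zero.1 h5 with h6 | h6
  · right
    have h7 : l.1 = m.1 := sub_eq_zero.1 h6
    refine Prod.ext h7 ?_
    rw [h7] at h1
    linear_combination h4 - h1
  · left
    have h7 : q.1 = r.1 := sub_eq_zero.1 h6
    refine Prod.ext h7 ?_
    rw [h7] at h1
    rw [h1, h2]

theorem hInc_four (p : ℕ) (hp : p.Prime) (u v w t : (ZMod p × ZMod p) ⊕ (ZMod p × ZMod p))
    (h1 : hInc p u v) (h2 : hInc p v w) (h3 : hInc p w t) (h4 : hInc p t u) : u = w ∨ v = t := by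
  rcases u with q | l
  · rcases v with q' | l
    · exact h1.elim
    rcases w with r | l'
    · rcases t with r' | m
      · exact h3.elim
      rcases hInc_alg p hp q r l m h1 h2 h3 h4 with h | h
      · left; rw [h]
      · right; rw [h]
    · exact h2.elim
  · rcases v with q | l'
    · rcases w with r | m
      · exact h2.elim
      rcases t with r | m'
      · rcases hInc_alg p hp q r l m h1 h4 h3 h2 with h | h
        · right; rw [h]
        · left; rw [h]
      · exact h3.elim
    · exact h1.elim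

theorem hIG_girth (p : ℕ) (hp : p.Prime) : GirthGe (hIG p) 6 := by
  intro v c hc
  by_contra hlt
  push Not at hlt
  have h3 := hc.three_le_length
  have hadj : ∀ i, i < c.length → hInc p (c.getVert i) (c.getVert (i + 1)) :=
    fun i hi => c.adj_getVert_succ hi
  have hside : ∀ i, i < c.length → (c.getVert (i + 1)).isLeft = !(c.getVert i).isLeft :=
    fun i hi => hInc_side p _ _ (hadj i hi)
  have hlast : c.getVert c.length = c.getVert 0 := by
    rw [c.getVert_length, c.getVert_zero]
  have hcases : c.length = 3 ∨ c.length = 4 ∨ c.length = 5 := by omega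
  rcases hcases with h | h | h
  · have s0 := hside 0 (by omega)
    have s1 := hside 1 (by omega)
    have s2 := hside 2 (by omega)
    rw [h] at hlast
    simp only [zero_add, Nat.reduceAdd] at s0 s1 s2
    rw [hlast, s1, s0] at s2
    revert s2
    cases (c.getVert 0).isLeft <;> simp
  · have a0 := hadj 0 (by omega)
    have a1 := hadj 1 (by omega)
    have a2 := hadj 2 (by omega)
    have a3 := hadj 3 (by omega)
    rw [h] at hlast
    simp only [zero_add, Nat.reduceAdd] at a0 a1 a2 a3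
    rw [hlast] at a3
    have hinj := hc.getVert_injOn'
    rcases hInc_four p hp _ _ _ _ a0 a1 a2 a3 with h5 | h5
    · have := hinj (by simp : (0 : ℕ) ∈ {i | i ≤ c.length - 1}) (by
        show 2 ≤ c.length - 1
        omega) h5
      omega
    · have := hinj (by
        show 1 ≤ c.length - 1
        omega) (by
        show 3 ≤ c.length - 1
        omega) h5
      omega
  · have s0 := hside 0 (by omega)
    have s1 := hside 1 (by omega)
    have s2 := hside 2 (by omega)
    have s3 := hside 3 (by omega)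
    have s4 := hside 4 (by omega)
    rw [h] at hlast
    simp only [zero_add, Nat.reduceAdd] at s0 s1 s2 s3 s4
    rw [hlast, s3, s2, s1, s0] at s4
    revert s4
    cases (c.getVert 0).isLeft <;> simp

theorem hIG_edges (p : ℕ) (hp : p.Prime) : p ^ 3 ≤ (hIG p).edgeSet.ncard := by
  have : Fact p.Prime := ⟨hp⟩
  have : NeZero p := ⟨hp.ne_zero⟩
  let φ : ZMod p × ZMod p × ZMod p → Sym2 ((ZMod p × ZMod p) ⊕ (ZMod p × ZMod p)) :=
    fun t => s(Sum.inl (t.1, t.2.1 * t.1 + t.2.2), Sum.inr (t.2.1, t.2.2))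
  have hφ : Function.Injective φ := by
    rintro ⟨x, a, b⟩ ⟨x', a', b'⟩ h
    simp only [φ, Sym2.eq_iff, Sum.inl.injEq, Prod.mk.injEq, Sum.inr.injEq, reduceCtorEq,
      false_and, or_false] at h
    obtain ⟨⟨h1, -⟩, h2, h3⟩ := h
    simp [h1, h2, h3]
  have hsub : Set.range φ ⊆ (hIG p).edgeSet := by
    rintro _ ⟨t, rfl⟩
    rw [SimpleGraph.mem_edgeSet]
    have h0 : hInc p (Sum.inl (t.1, t.2.1 * t.1 + t.2.2)) (Sum.inr (t.2.1, t.2.2)) := rfl
    exact h0
  have h1 : (Set.range φ).ncard = p ^ 3 := by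
    rw [← Set.image_univ, Set.ncard_image_of_injective _ hφ, Set.ncard_univ, Nat.card_prod,
      Nat.card_prod, Nat.card_zmod]
    ring
  rw [← h1]
  exact Set.ncard_le_ncard hsub (Set.toFinite _)

theorem host3 (p n : ℕ) (hp : p.Prime) (hn : 2 * p ^ 2 ≤ n) :
    ∃ G : SimpleGraph (Fin n), GirthGe G 6 ∧ p ^ 3 ≤ G.edgeSet.ncard := by
  have : Fact p.Prime := ⟨hp⟩
  have : NeZero p := ⟨hp.ne_zero⟩
  have hcard : Fintype.card ((ZMod p × ZMod p) ⊕ (ZMod p × ZMod p)) ≤ Fintype.card (Fin n) := by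
    rw [Fintype.card_sum, Fintype.card_prod, ZMod.card, Fintype.card_fin]
    nlinarith
  obtain ⟨f⟩ := Function.Embedding.nonempty_of_card_le hcard
  refine ⟨(hIG p).map f, girth_map f _ 6 (hIG_girth p hp), ?_⟩
  rw [ncard_map]
  exact hIG_edges p hp


end Jhost3
export Jhost3 (host3)
end ED
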