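import Pool.Agent.Helper470.ED.Defs
import Pool.Agent.Helper470.ED.Mbas2
set_option autoImplicit false
open Finset
open scoped Classical

namespace ED
namespace Jhost4






-- TARGET (prove this)
/-- incidence -/
def host4I {p : ℕ} (P L : ZMod p × ZMod p × ZMod p) : Prop :=
  P.2.1 + L.2.1 = P.1 * L.1 ∧ P.2.2 + L.2.2 = P.1 * L.2.1

/-- the Wenger graph -/
def host4W (p : ℕ) :
    SimpleGraph ((ZMod p × ZMod p × ZMod p) ⊕ (ZMod p × ZMod p × ZMod p)) where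
  Adj a b := (∃ P L, a = Sum.inl P ∧ b = Sum.inr L ∧ host4I P L) ∨
    (∃ P L, a = Sum.inr L ∧ b = Sum.inl P ∧ host4I P L)
  symm := ⟨by
    rintro a b (⟨P, L, h1, h2, h3⟩ | ⟨P, L, h1, h2, h3⟩)
    · exact Or.inr ⟨P, L, h2, h1, h3⟩
    · exact Or.inl ⟨P, L, h2, h1, h3⟩⟩
  loopless := ⟨by
    rintro a (⟨P, L, h1, h2, h3⟩ | ⟨P, L, h1, h2, h3⟩)
    · rw [h1] at h2; exact Sum.inl_ne_inr h2
    · rw [h1] at h2; exact Sum.inl_ne_inr h2.symm⟩

theorem host4_adjL {p : ℕ} {P : ZMod p × ZMod p × ZMod p} {y} (h : (host4W p).Adj (Sum.inl P) y) :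
    ∃ L, y = Sum.inr L ∧ host4I P L := by
  rcases h with ⟨P', L, h1, h2, h3⟩ | ⟨P', L, h1, h2, h3⟩
  · rw [Sum.inl.inj h1]
    exact ⟨L, h2, h3⟩
  · exact absurd h1 Sum.inl_ne_inr

theorem host4_adjR {p : ℕ} {L : ZMod p × ZMod p × ZMod p} {y} (h : (host4W p).Adj (Sum.inr L) y) :
    ∃ P, y = Sum.inl P ∧ host4I P L := by
  rcases h with ⟨P, L', h1, h2, h3⟩ | ⟨P, L', h1, h2, h3⟩
  · exact absurd h1 Sum.inr_ne_inl
  · rw [Sum.inr.inj h1]
    exact ⟨P, h2, h3⟩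

theorem host4_P {p : ℕ} [Fact p.Prime] {P P' L : ZMod p × ZMod p × ZMod p} (h : host4I P L)
    (h' : host4I P' L) (hne : P ≠ P') : P.1 - P'.1 ≠ 0 := by
  intro h0
  have h1 : P.1 = P'.1 := sub_eq_zero.1 h0
  apply hne
  obtain ⟨e1, e2⟩ := h
  obtain ⟨e3, e4⟩ := h'
  rw [h1] at e1 e2
  exact Prod.ext h1 (Prod.ext (by linear_combination e1 - e3) (by linear_combination e2 - e4))

theorem host4_L {p : ℕ} [Fact p.Prime] {P L L' : ZMod p × ZMod p × ZMod p} (h : host4I P L)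
    (h' : host4I P L') (hne : L ≠ L') : L.1 - L'.1 ≠ 0 := by
  intro h0
  have h1 : L.1 = L'.1 := sub_eq_zero.1 h0
  apply hne
  obtain ⟨e1, e2⟩ := h
  obtain ⟨e3, e4⟩ := h'
  rw [h1] at e1
  have h2 : L.2.1 = L'.2.1 := by linear_combination e1 - e3
  rw [h2] at e2
  exact Prod.ext h1 (Prod.ext h2 (by linear_combination e2 - e4))

theorem host4_q4 {p : ℕ} [Fact p.Prime] {P P' L L' : ZMod p × ZMod p × ZMod p}
    (h1 : host4I P L) (h2 : host4I P L') (h3 : host4I P' L) (h4 : host4I P' L')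
    (hP : P ≠ P') (hL : L ≠ L') : False := by
  have a1 := host4_P h1 h3 hP
  have a2 := host4_L h1 h2 hL
  have h : (P.1 - P'.1) * (L.1 - L'.1) = 0 := by
    linear_combination (-1) * h1.1 + h2.1 + h3.1 - h4.1
  rcases mul_eq_zero.1 h with h | h
  · exact a1 h
  · exact a2 h

theorem host4_q6 {p : ℕ} [Fact p.Prime] {P1 P2 P3 L1 L2 L3 : ZMod p × ZMod p × ZMod p}
    (h11 : host4I P1 L1) (h21 : host4I P2 L1) (h22 : host4I P2 L2) (h32 : host4I P3 L2)
    (h33 : host4I P3 L3) (h13 : host4I P1 L3)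
    (hP12 : P1 ≠ P2) (hP13 : P1 ≠ P3) (hL : L1 ≠ L3) : False := by
  have a1 := host4_P h11 h21 hP12
  have a2 := host4_P h13 h33 hP13
  have a3 := host4_L h11 h13 hL
  have E1 : P1.1 * (L1.1 - L3.1) + P2.1 * (L2.1 - L1.1) + P3.1 * (L3.1 - L2.1) = 0 := by
    linear_combination (-1) * h11.1 + h13.1 - h22.1 + h21.1 - h33.1 + h32.1
  have E2' : P1.1 * (L1.2.1 - L3.2.1) + P2.1 * (L2.2.1 - L1.2.1) + P3.1 * (L3.2.1 - L2.2.1) = 0 := by
    linear_combination (-1) * h11.2 + h13.2 - h22.2 + h21.2 - h33.2 + h32.2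
  have E2 : P1.1 ^ 2 * (L1.1 - L3.1) + P2.1 ^ 2 * (L2.1 - L1.1) + P3.1 ^ 2 * (L3.1 - L2.1) = 0 := by
    linear_combination E2' - P1.1 * (h11.1 - h13.1) - P2.1 * (h22.1 - h21.1)
      - P3.1 * (h33.1 - h32.1)
  have h : (P1.1 - P2.1) * (P1.1 - P3.1) * (L1.1 - L3.1) = 0 := by
    linear_combination E2 - (P2.1 + P3.1) * E1
  rcases mul_eq_zero.1 h with h | h
  · rcases mul_eq_zero.1 h with h | h
    · exact a1 h
    · exact a2 h
  · exact a3 h

theorem host4_no4 {p : ℕ} [Fact p.Prime] {x0 x1 x2 x3} (h0 : (host4W p).Adj x0 x1)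
    (h1 : (host4W p).Adj x1 x2) (h2 : (host4W p).Adj x2 x3) (h3 : (host4W p).Adj x3 x0)
    (e02 : x0 ≠ x2) (e13 : x1 ≠ x3) : False := by
  rcases x0 with P0 | L0
  · obtain ⟨L1, rfl, i1⟩ := host4_adjL h0
    obtain ⟨P2, rfl, i2⟩ := host4_adjR h1
    obtain ⟨L3, rfl, i3⟩ := host4_adjL h2
    obtain ⟨P4, e, i4⟩ := host4_adjR h3
    obtain rfl := Sum.inl.inj e
    exact host4_q4 i1 i4 i2 i3 (fun h => e02 (congrArg _ h)) (fun h => e13 (congrArg _ h))
  · obtain ⟨P1, rfl, i1⟩ := host4_adjR h0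
    obtain ⟨L2, rfl, i2⟩ := host4_adjL h1
    obtain ⟨P3, rfl, i3⟩ := host4_adjR h2
    obtain ⟨L4, e, i4⟩ := host4_adjL h3
    obtain rfl := Sum.inr.inj e
    exact host4_q4 i1 i2 i4 i3 (fun h => e13 (congrArg _ h)) (fun h => e02 (congrArg _ h))

theorem host4_no6 {p : ℕ} [Fact p.Prime] {x0 x1 x2 x3 x4 x5} (h0 : (host4W p).Adj x0 x1)
    (h1 : (host4W p).Adj x1 x2) (h2 : (host4W p).Adj x2 x3) (h3 : (host4W p).Adj x3 x4)
    (h4 : (host4W p).Adj x4 x5) (h5 : (host4W p).Adj x5 x0)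
    (e02 : x0 ≠ x2) (e04 : x0 ≠ x4) (e13 : x1 ≠ x3) (e15 : x1 ≠ x5) : False := by
  rcases x0 with P0 | L0
  · obtain ⟨L1, rfl, i1⟩ := host4_adjL h0
    obtain ⟨P2, rfl, i2⟩ := host4_adjR h1
    obtain ⟨L3, rfl, i3⟩ := host4_adjL h2
    obtain ⟨P4, rfl, i4⟩ := host4_adjR h3
    obtain ⟨L5, rfl, i5⟩ := host4_adjL h4
    obtain ⟨P6, e, i6⟩ := host4_adjR h5
    obtain rfl := Sum.inl.inj e
    exact host4_q6 i1 i2 i3 i4 i5 i6 (fun h => e02 (congrArg _ h)) (fun h => e04 (congrArg _ h))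
      (fun h => e15 (congrArg _ h))
  · obtain ⟨P1, rfl, i1⟩ := host4_adjR h0
    obtain ⟨L2, rfl, i2⟩ := host4_adjL h1
    obtain ⟨P3, rfl, i3⟩ := host4_adjR h2
    obtain ⟨L4, rfl, i4⟩ := host4_adjL h3
    obtain ⟨P5, rfl, i5⟩ := host4_adjR h4
    obtain ⟨L6, e, i6⟩ := host4_adjL h5
    obtain rfl := Sum.inr.inj e
    exact host4_q6 i2 i3 i4 i5 i6 i1 (fun h => e13 (congrArg _ h)) (fun h => e15 (congrArg _ h))
      (fun h => e02 (congrArg _ h.symm))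

/-- the two-colouring -/
def host4_col (p : ℕ) : (host4W p).Coloring Bool :=
  SimpleGraph.Coloring.mk Sum.isLeft (by
    rintro a b (⟨P, L, rfl, rfl, h3⟩ | ⟨P, L, rfl, rfl, h3⟩) <;> simp)

theorem host4_girth (p : ℕ) [Fact p.Prime] : GirthGe (host4W p) 8 := by
  intro v c hc
  by_contra hlt
  push Not at hlt
  have h3 := hc.three_le_length
  have heven : Even c.length := ((host4_col p).even_length_iff_congr c).2 Iff.rfl
  have hinj := hc.getVert_injOn'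
  have hadj : ∀ i, i < c.length → (host4W p).Adj (c.getVert i) (c.getVert (i+1)) :=
    fun i hi => c.adj_getVert_succ hi
  have hclose : c.getVert c.length = c.getVert 0 := by simp
  have hne : ∀ i j, i ≤ c.length - 1 → j ≤ c.length - 1 → i ≠ j →
      c.getVert i ≠ c.getVert j := fun i j hi hj hij h => hij (hinj hi hj h)
  have hlen : c.length = 4 ∨ c.length = 6 := by
    obtain ⟨k, hk⟩ := heven
    omega
  rcases hlen with hl | hl
  · rw [hl] at hclose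
    refine host4_no4 (hadj 0 (by omega)) (hadj 1 (by omega)) (hadj 2 (by omega)) ?_
      (hne 0 2 (by omega) (by omega) (by omega)) (hne 1 3 (by omega) (by omega) (by omega))
    have := hadj 3 (by omega)
    rwa [show 3 + 1 = 4 from rfl, hclose] at this
  · rw [hl] at hclose
    refine host4_no6 (hadj 0 (by omega)) (hadj 1 (by omega)) (hadj 2 (by omega))
      (hadj 3 (by omega)) (hadj 4 (by omega)) ?_
      (hne 0 2 (by omega) (by omega) (by omega)) (hne 0 4 (by omega) (by omega) (by omega))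
      (hne 1 3 (by omega) (by omega) (by omega)) (hne 1 5 (by omega) (by omega) (by omega))
    have := hadj 5 (by omega)
    rwa [show 5 + 1 = 6 from rfl, hclose] at this

theorem host4_edges (p : ℕ) [Fact p.Prime] : p ^ 4 ≤ (host4W p).edgeSet.ncard := by
  let g : ZMod p × ZMod p × ZMod p × ZMod p →
      Sym2 ((ZMod p × ZMod p × ZMod p) ⊕ (ZMod p × ZMod p × ZMod p)) := fun t =>
    s(Sum.inl (t.1, t.1 * t.2.1 - t.2.2.1, t.1 * t.2.2.1 - t.2.2.2), Sum.inr t.2)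
  have hg : Function.Injective g := by
    intro t t' h
    have h1 : s(Sum.inl (t.1, t.1 * t.2.1 - t.2.2.1, t.1 * t.2.2.1 - t.2.2.2), Sum.inr t.2) =
      s(Sum.inl (t'.1, t'.1 * t'.2.1 - t'.2.2.1, t'.1 * t'.2.2.1 - t'.2.2.2),
        (Sum.inr t'.2 : (ZMod p × ZMod p × ZMod p) ⊕ (ZMod p × ZMod p × ZMod p))) := h
    rw [Sym2.eq_iff] at h1
    rcases h1 with ⟨h2, h3⟩ | ⟨h2, h3⟩
    · have h4 := Sum.inl.inj h2
      have h5 : t.1 = t'.1 := (Prod.mk.inj h4).1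
      exact Prod.ext h5 (Sum.inr.inj h3)
    · exact absurd h2 Sum.inl_ne_inr
  have hsub : g '' Set.univ ⊆ (host4W p).edgeSet := by
    rintro _ ⟨t, -, rfl⟩
    show (host4W p).Adj _ _
    refine Or.inl ⟨_, _, rfl, rfl, ?_, ?_⟩
    · show t.1 * t.2.1 - t.2.2.1 + t.2.2.1 = t.1 * t.2.1
      ring
    · show t.1 * t.2.2.1 - t.2.2.2 + t.2.2.2 = t.1 * t.2.2.1
      ring
  have hcard : (g '' Set.univ).ncard = p ^ 4 := by
    rw [Set.ncard_image_of_injective _ hg, Set.ncard_univ, Nat.card_eq_fintype_card]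
    simp only [Fintype.card_prod, ZMod.card]
    ring
  rw [← hcard]
  exact Set.ncard_le_ncard hsub (Set.toFinite _)

theorem host4 (p n : ℕ) (hp : p.Prime) (hn : 2 * p ^ 3 ≤ n) :
    ∃ G : SimpleGraph (Fin n), GirthGe G 8 ∧ p ^ 4 ≤ G.edgeSet.ncard := by
  haveI : Fact p.Prime := ⟨hp⟩
  have hcard : Fintype.card ((ZMod p × ZMod p × ZMod p) ⊕ (ZMod p × ZMod p × ZMod p)) ≤
      Fintype.card (Fin n) := by
    simp only [Fintype.card_sum, Fintype.card_prod, ZMod.card, Fintype.card_fin]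
    refine le_trans (le_of_eq ?_) hn
    ring
  obtain ⟨f⟩ := Function.Embedding.nonempty_of_card_le hcard
  refine ⟨(host4W p).map f, girth_map f _ 8 (host4_girth p), ?_⟩
  rw [ncard_map]
  exact host4_edges p


end Jhost4
export Jhost4 (host4)
end ED
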