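import Pool.Agent.Helper470.ED.Defs
set_option autoImplicit false
open Finset
open scoped Classical

namespace ED
namespace Jprimes


theorem rpow_bd (n p a b k : ℕ) (hk : k ≠ 0) (r : ℝ) (c : ℕ) (hr : r * k = a) (h : n ^ a ≤ (c * p ^ b) ^ k) :
    (n : ℝ) ^ r ≤ c * (p : ℝ) ^ b := by
  have h0 : (0 : ℝ) ≤ (n : ℝ) ^ r := Real.rpow_nonneg (Nat.cast_nonneg n) r
  have h1 : ((n : ℝ) ^ r) ^ k = (n : ℝ) ^ a := by
    rw [← Real.rpow_natCast, ← Real.rpow_mul (Nat.cast_nonneg n), hr, Real.rpow_natCast]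
  have h2 : (n : ℝ) ^ a ≤ (c * (p : ℝ) ^ b) ^ k := by exact_mod_cast h
  rw [← h1] at h2
  exact (pow_le_pow_iff_left₀ h0 (by positivity) hk).1 h2

-- TARGET (prove this)
theorem prime3 (n : ℕ) (hn : 8 ≤ n) : ∃ p : ℕ, p.Prime ∧ 2 * p ^ 2 ≤ n ∧
    (n : ℝ) ^ ((3 : ℝ) / 2) ≤ 23 * (p : ℝ) ^ 3 := by
  obtain ⟨m, hm⟩ : ∃ m, m = Nat.sqrt (n / 8) := ⟨_, rfl⟩
  have h8 : 1 ≤ n / 8 := by omega
  have hm0 : m ≠ 0 := by
    rw [hm]
    exact (Nat.sqrt_pos.2 h8).ne'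
  have h1 : m ^ 2 ≤ n / 8 := by rw [hm]; exact Nat.sqrt_le' _
  have h2 : n / 8 < (m + 1) ^ 2 := by rw [hm]; exact Nat.lt_succ_sqrt' _
  obtain ⟨p, hp, hmp, hpm⟩ := Nat.exists_prime_lt_and_le_two_mul m hm0
  refine ⟨p, hp, ?_, ?_⟩
  · have h3 : p ^ 2 ≤ (2 * m) ^ 2 := Nat.pow_le_pow_left hpm 2
    have h4 : (2 * m) ^ 2 = 4 * m ^ 2 := by ring
    omega
  · have h5 : (m + 1) ^ 2 ≤ p ^ 2 := Nat.pow_le_pow_left hmp 2
    have h6 : n ≤ 8 * p ^ 2 := by omega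
    have h7 := rpow_bd n p 3 3 2 (by norm_num) (3 / 2) 23 (by norm_num) (by
      calc n ^ 3 ≤ (8 * p ^ 2) ^ 3 := Nat.pow_le_pow_left h6 3
        _ = 512 * p ^ 6 := by ring
        _ ≤ 529 * p ^ 6 := Nat.mul_le_mul_right _ (by norm_num)
        _ = (23 * p ^ 3) ^ 2 := by ring)
    exact_mod_cast h7

-- TARGET (prove this)
theorem prime4 (n : ℕ) (hn : 16 ≤ n) : ∃ p : ℕ, p.Prime ∧ 2 * p ^ 3 ≤ n ∧
    (n : ℝ) ^ ((4 : ℝ) / 3) ≤ 41 * (p : ℝ) ^ 4 := by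
  obtain ⟨m, hm⟩ : ∃ m, m = Nat.findGreatest (fun m => 16 * m ^ 3 ≤ n) n := ⟨_, rfl⟩
  have hm1 : 1 ≤ m := by
    rw [hm]
    exact Nat.le_findGreatest (by omega) (by omega)
  have h1 : 16 * m ^ 3 ≤ n := by
    rw [hm]
    exact Nat.findGreatest_spec (P := fun m => 16 * m ^ 3 ≤ n) (m := 1) (by omega) (by omega)
  have h2 : n < 16 * (m + 1) ^ 3 := by
    rcases Nat.lt_or_ge n (m + 1) with h | h
    · have h3 : m + 1 ≤ (m + 1) ^ 3 := Nat.le_self_pow (by norm_num) _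
      omega
    · have h3 := Nat.findGreatest_is_greatest (P := fun m => 16 * m ^ 3 ≤ n) (n := n) (k := m + 1)
        (by rw [← hm]; exact Nat.lt_succ_self m) h
      exact Nat.lt_of_not_le h3
  obtain ⟨p, hp, hmp, hpm⟩ := Nat.exists_prime_lt_and_le_two_mul m (by omega)
  refine ⟨p, hp, ?_, ?_⟩
  · have h3 : p ^ 3 ≤ (2 * m) ^ 3 := Nat.pow_le_pow_left hpm 3
    have h4 : (2 * m) ^ 3 = 8 * m ^ 3 := by ring
    omega
  · have h5 : (m + 1) ^ 3 ≤ p ^ 3 := Nat.pow_le_pow_left hmp 3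
    have h6 : n ≤ 16 * p ^ 3 := by omega
    have h7 := rpow_bd n p 4 4 3 (by norm_num) (4 / 3) 41 (by norm_num) (by
      calc n ^ 4 ≤ (16 * p ^ 3) ^ 4 := Nat.pow_le_pow_left h6 4
        _ = 65536 * p ^ 12 := by ring
        _ ≤ 68921 * p ^ 12 := Nat.mul_le_mul_right _ (by norm_num)
        _ = (41 * p ^ 4) ^ 3 := by ring)
    exact_mod_cast h7


end Jprimes
export Jprimes (prime3 prime4)
end ED
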