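import Pool.Agent.Helper470.ED.Defs
import Pool.Agent.Helper470.ED.Mhost3
import Pool.Agent.Helper470.ED.Mhost4
import Pool.Agent.Helper470.ED.Mprimes
set_option autoImplicit false
open Finset
open scoped Classical

namespace ED
namespace Jbig










-- TARGET (prove this)
theorem big3 (n : ℕ) (hn : 8 ≤ n) : ∃ G : SimpleGraph (Fin n), GirthGe G 6 ∧
    (n : ℝ) ^ ((3 : ℝ) / 2) ≤ 23 * (G.edgeSet.ncard : ℝ) := by
  obtain ⟨p, hp, h1, h2⟩ := prime3 n hn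
  obtain ⟨G, hG, he⟩ := host3 p n hp h1
  refine ⟨G, hG, h2.trans ?_⟩
  have : ((p ^ 3 : ℕ) : ℝ) ≤ (G.edgeSet.ncard : ℝ) := by exact_mod_cast he
  push_cast at this
  linarith

-- TARGET (prove this)
theorem big4 (n : ℕ) (hn : 16 ≤ n) : ∃ G : SimpleGraph (Fin n), GirthGe G 8 ∧
    (n : ℝ) ^ ((4 : ℝ) / 3) ≤ 41 * (G.edgeSet.ncard : ℝ) := by
  obtain ⟨p, hp, h1, h2⟩ := prime4 n hn
  obtain ⟨G, hG, he⟩ := host4 p n hp h1
  refine ⟨G, hG, h2.trans ?_⟩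
  have : ((p ^ 4 : ℕ) : ℝ) ≤ (G.edgeSet.ncard : ℝ) := by exact_mod_cast he
  push_cast at this
  linarith


end Jbig
export Jbig (big3 big4)
end ED
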