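import Pool.Agent.Helper470.ED.Defs
import Pool.Agent.Helper470.ED.Mbas1
import Pool.Agent.Helper470.ED.Mxbas
set_option autoImplicit false
open Finset
open scoped Classical

namespace ED
namespace Jbip








/-- the crossing subgraph -/
def bip_H {n : ℕ} (G : SimpleGraph (Fin n)) (f : Fin n → Bool) : SimpleGraph (Fin n) :=
  G ⊓ (⊤ : SimpleGraph Bool).comap f

theorem bip_H_adj {n : ℕ} (G : SimpleGraph (Fin n)) (f : Fin n → Bool) (a b : Fin n) :
    (bip_H G f).Adj a b ↔ G.Adj a b ∧ f a ≠ f b := by
  simp [bip_H]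

theorem bip_H_girth {n : ℕ} (G : SimpleGraph (Fin n)) (f : Fin n → Bool) (l : ℕ)
    (hG : GirthGe G (2 * l + 1)) : GirthGe (bip_H G f) (2 * l + 1 + 1) := by
  intro v c hc
  have h1 := girth_mono (show bip_H G f ≤ G from inf_le_left) _ hG v c hc
  have col : (bip_H G f).Coloring Bool := SimpleGraph.Coloring.mk f (by
    intro a b hab
    exact ((bip_H_adj G f a b).1 hab).2)
  have h2 : Even c.length := (col.even_length_iff_congr c).2 Iff.rfl
  obtain ⟨r, hr⟩ := h2
  omega

theorem bip_half {n : ℕ} (a b : Fin n) (hab : a ≠ b) :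
    2 * (Finset.univ.filter (fun f : Fin n → Bool => f a ≠ f b)).card
      = Fintype.card (Fin n → Bool) := by
  have h1 : (Finset.univ.filter (fun f : Fin n → Bool => f a ≠ f b)).card
      = (Finset.univ.filter (fun f : Fin n → Bool => ¬ (f a ≠ f b))).card := by
    refine Finset.card_nbij' (fun f => Function.update f a (!f a))
      (fun f => Function.update f a (!f a)) ?_ ?_ ?_ ?_
    · intro f hf
      rw [Finset.mem_coe, Finset.mem_filter] at hf ⊢
      refine ⟨Finset.mem_univ _, ?_⟩
      have h2 := hf.2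
      beta_reduce
      rw [Function.update_self, Function.update_of_ne hab.symm]
      cases h3 : f a <;> cases h4 : f b <;> simp_all
    · intro f hf
      rw [Finset.mem_coe, Finset.mem_filter] at hf ⊢
      refine ⟨Finset.mem_univ _, ?_⟩
      have h2 := hf.2
      beta_reduce
      rw [Function.update_self, Function.update_of_ne hab.symm]
      cases h3 : f a <;> cases h4 : f b <;> simp_all
    · intro f _
      simp
    · intro f _
      simp
  have h2 := Finset.card_filter_add_card_filter_not (s := (Finset.univ : Finset (Fin n → Bool)))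
    (fun f : Fin n → Bool => f a ≠ f b)
  rw [← h1] at h2
  rw [two_mul, h2, Finset.card_univ]

theorem bip_ncard {n : ℕ} (G : SimpleGraph (Fin n)) (f : Fin n → Bool) :
    (bip_H G f).edgeSet.ncard
      = (G.edgeFinset.filter (fun e => e ∈ (bip_H G f).edgeSet)).card := by
  rw [← Set.ncard_coe_finset]
  congr 1
  ext e
  rw [Finset.mem_coe, Finset.mem_filter, SimpleGraph.mem_edgeFinset]
  constructor
  · intro h
    exact ⟨SimpleGraph.edgeSet_mono (show bip_H G f ≤ G from inf_le_left) h, h⟩
  · intro h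
    exact h.2

theorem bip_sum {n : ℕ} (G : SimpleGraph (Fin n)) :
    2 * ∑ f : Fin n → Bool, (bip_H G f).edgeSet.ncard
      = G.edgeSet.ncard * Fintype.card (Fin n → Bool) := by
  have hE : G.edgeSet.ncard = G.edgeFinset.card := by
    rw [← Set.ncard_coe_finset, SimpleGraph.coe_edgeFinset]
  rw [hE, Finset.sum_congr rfl (fun f _ => bip_ncard G f)]
  simp_rw [Finset.card_filter]
  rw [Finset.sum_comm, Finset.mul_sum]
  rw [Finset.sum_congr rfl (g := fun _ => Fintype.card (Fin n → Bool))]
  · rw [Finset.sum_const, smul_eq_mul]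
  · intro e he
    rw [SimpleGraph.mem_edgeFinset] at he
    revert he
    refine Sym2.ind (fun a b => ?_) e
    intro he
    rw [SimpleGraph.mem_edgeSet] at he
    rw [← bip_half a b he.ne, Finset.card_filter]
    congr 1
    refine Finset.sum_congr rfl (fun f _ => ?_)
    have h9 : (s(a, b) ∈ (bip_H G f).edgeSet) ↔ (G.Adj a b ∧ f a ≠ f b) := by
      rw [SimpleGraph.mem_edgeSet, bip_H_adj]
    by_cases h : f a ≠ f b
    · rw [if_pos (h9.2 ⟨he, h⟩), if_pos h]
    · rw [if_neg (fun h' => h (h9.1 h').2), if_neg h]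

-- TARGET (prove this)
theorem bip (l n : ℕ) : X (2 * l) n ≤ 2 * X (2 * l + 1) n := by
  obtain ⟨G, hG, hX⟩ := X_max (2 * l) n
  have hex : ∃ f : Fin n → Bool, G.edgeSet.ncard ≤ 2 * (bip_H G f).edgeSet.ncard := by
    by_contra hcon
    push Not at hcon
    have h1 : ∑ f : Fin n → Bool, 2 * (bip_H G f).edgeSet.ncard
        < ∑ f : Fin n → Bool, G.edgeSet.ncard :=
      Finset.sum_lt_sum_of_nonempty Finset.univ_nonempty (fun f _ => hcon f)
    rw [← Finset.mul_sum, bip_sum, Finset.sum_const, Finset.card_univ, smul_eq_mul] at h1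
    rw [mul_comm] at h1
    exact lt_irrefl _ h1
  obtain ⟨f, hf⟩ := hex
  have h2 := X_le (2 * l + 1) n (bip_H G f) (bip_H_girth G f l hG)
  omega


end Jbip
export Jbip (bip)
end ED
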