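import Pool.Agent.Helper470.ED.Defs
import Pool.Agent.Helper470.ED.Mbas1
import Pool.Agent.Helper470.ED.Mexd1
set_option autoImplicit false
open Finset
open scoped Classical

namespace ED
namespace Jlow










-- TARGET (prove this)
theorem low (n g k : ℕ) (hg : 1 ≤ g) (hk : 1 ≤ k) (G : SimpleGraph (Fin n)) (hG : GirthGe G g)
    (he : g * k ≤ G.edgeSet.ncard + 1) : g * k ≤ exd n k + 1 := by
  have h1 : 1 ≤ g * k := Nat.mul_pos hg hk
  obtain ⟨H, hH, hc⟩ := subg G (g * k - 1) (by omega)
  have hno : ¬ HasEDC H k := by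
    intro h
    have := count H g k (girth_mono hH g hG) h
    omega
  have := le_exd n k H hno
  omega


end Jlow
export Jlow (low)
end ED
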