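import Pool.Agent.Helper470.ED.Defs
set_option autoImplicit false
open Finset
open scoped Classical

namespace ED
namespace Jlow2core


theorem l2_edgesA {n : ℕ} (A B : SimpleGraph (Fin n)) (X : Finset (Fin n))
    (hA : ∀ u v, A.Adj u v → u ∈ X ∧ v ∈ X) (hB : ∀ u v, B.Adj u v → u ∉ X ∧ v ∉ X)
    {u v : Fin n} (w : (A ⊔ B).Walk u v) : u ∈ X → ∀ e ∈ w.edges, e ∈ A.edgeSet := by
  induction w with
  | nil =>
    intro _ e he
    simp at he
  | @cons a b _ h p ih =>
    intro hu e he
    have h1 : A.Adj a b := by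
      rcases h with h | h
      · exact h
      · exact absurd hu (hB _ _ h).1
    rw [SimpleGraph.Walk.edges_cons, List.mem_cons] at he
    rcases he with rfl | he
    · exact h1
    · exact ih (hA _ _ h1).2 e he

theorem l2_edgesB {n : ℕ} (A B : SimpleGraph (Fin n)) (X : Finset (Fin n))
    (hA : ∀ u v, A.Adj u v → u ∈ X ∧ v ∈ X) (hB : ∀ u v, B.Adj u v → u ∉ X ∧ v ∉ X)
    {u v : Fin n} (w : (A ⊔ B).Walk u v) : u ∉ X → ∀ e ∈ w.edges, e ∈ B.edgeSet := by
  induction w with
  | nil =>
    intro _ e he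
    simp at he
  | @cons a b _ h p ih =>
    intro hu e he
    have h1 : B.Adj a b := by
      rcases h with h | h
      · exact absurd (hA _ _ h).1 hu
      · exact h
    rw [SimpleGraph.Walk.edges_cons, List.mem_cons] at he
    rcases he with rfl | he
    · exact h1
    · exact ih (hB _ _ h1).2 e he

theorem l2_count {n k : ℕ} (G H : SimpleGraph (Fin n)) (g : ℕ) (gH : GirthGe H g) (v : Fin k → Fin n)
    (c : ∀ i, G.Walk (v i) (v i)) (hc : ∀ i, (c i).IsCycle)
    (hd : ∀ i j, i ≠ j → ∀ e ∈ (c i).edges, e ∉ (c j).edges) (I : Finset (Fin k))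
    (hI : ∀ i ∈ I, ∀ e ∈ (c i).edges, e ∈ H.edgeSet) : g * I.card ≤ H.edgeSet.ncard := by
  have h1 : ∀ i ∈ I, g ≤ ((c i).edges.toFinset).card := by
    intro i hi
    rw [List.toFinset_card_of_nodup (hc i).isCircuit.isTrail.edges_nodup,
      SimpleGraph.Walk.length_edges]
    have h2 := gH _ ((c i).transfer H (hI i hi)) ((hc i).transfer (hI i hi))
    rwa [SimpleGraph.Walk.length_transfer] at h2
  calc g * I.card = ∑ _i ∈ I, g := by rw [Finset.sum_const, smul_eq_mul, mul_comm]
    _ ≤ ∑ i ∈ I, ((c i).edges.toFinset).card := Finset.sum_le_sum h1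
    _ = (I.biUnion fun i => (c i).edges.toFinset).card := by
        rw [Finset.card_biUnion]
        intro i _ j _ hij
        refine Finset.disjoint_left.2 ?_
        intro e he he'
        exact hd i j hij e (List.mem_toFinset.1 he) (List.mem_toFinset.1 he')
    _ = ((I.biUnion fun i => (c i).edges.toFinset : Finset (Sym2 (Fin n))) :
          Set (Sym2 (Fin n))).ncard := by
        rw [Set.ncard_coe_finset]
    _ ≤ H.edgeSet.ncard := by
        refine Set.ncard_le_ncard ?_ (Set.toFinite _)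
        intro e he
        rw [Finset.mem_coe, Finset.mem_biUnion] at he
        obtain ⟨i, hi, he⟩ := he
        exact hI i hi e (List.mem_toFinset.1 he)

-- TARGET (prove this)
theorem low2core (n g1 g2 k : ℕ) (A B : SimpleGraph (Fin n)) (X : Finset (Fin n))
    (hA : ∀ u v, A.Adj u v → u ∈ X ∧ v ∈ X) (hB : ∀ u v, B.Adj u v → u ∉ X ∧ v ∉ X)
    (gA : GirthGe A g1) (gB : GirthGe B g2)
    (h : g2 * A.edgeSet.ncard + g1 * B.edgeSet.ncard < g1 * g2 * k) : ¬ HasEDC (A ⊔ B) k := by
  rintro ⟨v, c, hc, hd⟩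
  have h1 := l2_count (A ⊔ B) A g1 gA v c hc hd (Finset.univ.filter fun i => v i ∈ X)
    (fun i hi => l2_edgesA A B X hA hB (c i) (Finset.mem_filter.1 hi).2)
  have h2 := l2_count (A ⊔ B) B g2 gB v c hc hd (Finset.univ.filter fun i => ¬ (v i ∈ X))
    (fun i hi => l2_edgesB A B X hA hB (c i) (Finset.mem_filter.1 hi).2)
  have h3 := Finset.card_filter_add_card_filter_not (s := (Finset.univ : Finset (Fin k)))
    (fun i => v i ∈ X)
  rw [Finset.card_univ, Fintype.card_fin] at h3
  rw [← h3] at h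
  have h4 := Nat.mul_le_mul_left g2 h1
  have h5 := Nat.mul_le_mul_left g1 h2
  have h6 : g1 * g2 * ((Finset.univ.filter fun i => v i ∈ X).card +
      (Finset.univ.filter fun i => ¬ (v i ∈ X)).card) =
      g2 * (g1 * (Finset.univ.filter fun i => v i ∈ X).card) +
      g1 * (g2 * (Finset.univ.filter fun i => ¬ (v i ∈ X)).card) := by ring
  omega


end Jlow2core
export Jlow2core (low2core)
end ED
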