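import Pool.Agent.Helper470.ED.Defs
import Pool.Agent.Helper470.ED.Mbas1
import Pool.Agent.Helper470.ED.Mbas2
import Pool.Agent.Helper470.ED.Mexd1
import Pool.Agent.Helper470.ED.Mlow2core
set_option autoImplicit false
open Finset
open scoped Classical

namespace ED
namespace Jlow2














-- TARGET (prove this)
theorem low2 (n1 n2 g1 g2 e1 e2 k : ℕ) (G1 : SimpleGraph (Fin n1)) (G2 : SimpleGraph (Fin n2))
    (h1 : GirthGe G1 g1) (h2 : GirthGe G2 g2) (he1 : e1 ≤ G1.edgeSet.ncard) (he2 : e2 ≤ G2.edgeSet.ncard)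
    (h : g2 * e1 + g1 * e2 < g1 * g2 * k) : e1 + e2 ≤ exd (n1 + n2) k := by
  obtain ⟨H1, hH1, c1⟩ := subg G1 e1 he1
  obtain ⟨H2, hH2, c2⟩ := subg G2 e2 he2
  let A : SimpleGraph (Fin (n1 + n2)) := H1.map (Fin.castAddEmb n2)
  let B : SimpleGraph (Fin (n1 + n2)) := H2.map (Fin.natAddEmb n1)
  let X : Finset (Fin (n1 + n2)) := univ.filter (fun v => v.val < n1)
  have hA : ∀ u v, A.Adj u v → u ∈ X ∧ v ∈ X := by
    intro u v huv
    obtain ⟨a, b, -, rfl, rfl⟩ := (SimpleGraph.map_adj _ _ _ _).1 huv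
    constructor
    · exact Finset.mem_filter.mpr ⟨Finset.mem_univ _, a.2⟩
    · exact Finset.mem_filter.mpr ⟨Finset.mem_univ _, b.2⟩
  have hB : ∀ u v, B.Adj u v → u ∉ X ∧ v ∉ X := by
    intro u v huv
    obtain ⟨a, b, -, rfl, rfl⟩ := (SimpleGraph.map_adj _ _ _ _).1 huv
    constructor
    · intro hmem
      have h5 : (n1 + a.val) < n1 := (Finset.mem_filter.mp hmem).2
      omega
    · intro hmem
      have h5 : (n1 + b.val) < n1 := (Finset.mem_filter.mp hmem).2
      omega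
  have gA : GirthGe A g1 := girth_map _ _ _ (girth_mono hH1 _ h1)
  have gB : GirthGe B g2 := girth_map _ _ _ (girth_mono hH2 _ h2)
  have nA : A.edgeSet.ncard = e1 := by rw [← c1]; exact ncard_map _ _
  have nB : B.edgeSet.ncard = e2 := by rw [← c2]; exact ncard_map _ _
  have hno : ¬ HasEDC (A ⊔ B) k := low2core (n1 + n2) g1 g2 k A B X hA hB gA gB (by rw [nA, nB]; exact h)
  have hcard : (A ⊔ B).edgeSet.ncard = e1 + e2 := by
    rw [SimpleGraph.edgeSet_sup, Set.ncard_union_eq _ (Set.toFinite _) (Set.toFinite _), nA, nB]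
    rw [Set.disjoint_left]
    intro e
    induction e using Sym2.ind with
    | _ u v =>
      intro ha hb
      rw [SimpleGraph.mem_edgeSet] at ha hb
      exact (hB u v hb).1 (hA u v ha).1
  have := le_exd (n1 + n2) k (A ⊔ B) hno
  omega


end Jlow2
export Jlow2 (low2)
end ED
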