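import Pool.Agent.Helper470.ED.Defs
import Pool.Agent.Helper470.ED.Mlow
import Pool.Agent.Helper470.ED.Mlow2
import Pool.Agent.Helper470.ED.Mxbas
set_option autoImplicit false
open Finset
open scoped Classical

namespace ED
namespace Jlowx








-- TARGET (prove this)
theorem lowX (g h n1 n2 k : ℕ) (hg : 1 ≤ g) (hgh : g ≤ h) (hk : 1 ≤ k) (h1 : g * k ≤ X (g - 1) n1)
    (h2 : X (h - 1) n2 ≤ h * k) : g * h * k + (h - g) * X (h - 1) n2 ≤ h * exd (n1 + n2) k + h := by
  obtain ⟨G1, hG1, hc1⟩ := X_max (g - 1) n1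
  obtain ⟨G2, hG2, hc2⟩ := X_max (h - 1) n2
  have hh : 1 ≤ h := hg.trans hgh
  rw [Nat.sub_add_cancel hg] at hG1
  rw [Nat.sub_add_cancel hh] at hG2
  set X2 := X (h - 1) n2 with hX2
  set D := exd (n1 + n2) k with hD
  have hP : 1 ≤ h * k := Nat.mul_pos hh hk
  have hgle : g * X2 ≤ h * X2 := Nat.mul_le_mul_right _ hgh
  rw [Nat.sub_mul, Nat.mul_assoc]
  by_cases hcase : X2 + 1 ≤ h * k
  · have hgX : g * X2 + g ≤ g * (h * k) := by
      have := Nat.mul_le_mul_left g hcase
      rw [Nat.mul_add, Nat.mul_one] at this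
      exact this
    set m := g * (h * k) - 1 - g * X2 with hm
    have hm1 : m + 1 + g * X2 = g * (h * k) := by omega
    set e1 := m / h with he1
    have hd1 : h * e1 ≤ m := Nat.mul_div_le m h
    have hd2 : m < h * e1 + h := by
      have := Nat.lt_mul_div_succ m hh
      rw [Nat.mul_add, Nat.mul_one] at this
      exact this
    have hle1 : e1 ≤ g * k := by
      by_contra hcon
      have h3 : g * k + 1 ≤ e1 := by omega
      have h4 := Nat.mul_le_mul_left h h3
      rw [Nat.mul_add, Nat.mul_one] at h4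
      have h5 : h * (g * k) = g * (h * k) := by ring
      omega
    have hl : e1 + X2 ≤ D := low2 n1 n2 g h e1 X2 k G1 G2 hG1 hG2 (by rw [hc1]; exact hle1.trans h1)
      (by rw [hc2]) (by rw [Nat.mul_assoc]; omega)
    have h6 := Nat.mul_le_mul_left h hl
    rw [Nat.mul_add] at h6
    omega
  · have hX : X2 = h * k := by omega
    have hl : 0 + (h * k - 1) ≤ D := low2 n1 n2 g h 0 (h * k - 1) k G1 G2 hG1 hG2 (Nat.zero_le _)
      (by rw [hc2]; omega) (by
        rw [Nat.mul_assoc, Nat.mul_zero, Nat.zero_add]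
        exact Nat.mul_lt_mul_of_pos_left (by omega) hg)
    have h6 := Nat.mul_le_mul_left h hl
    rw [Nat.zero_add, Nat.mul_sub, Nat.mul_one] at h6
    have h7 : h ≤ h * (h * k) := Nat.le_mul_of_pos_right _ hP
    rw [hX] at hgle ⊢
    omega


end Jlowx
export Jlowx (lowX)
end ED
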