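import Pool.Agent.Helper470.ED.Defs
import Pool.Agent.Helper470.ED.Mbas2
import Pool.Agent.Helper470.ED.Mxbas
set_option autoImplicit false
open Finset
open scoped Classical

namespace ED
namespace Jxmono










-- TARGET (prove this)
theorem X_mono (g m n : ℕ) (h : m ≤ n) : X g m ≤ X g n := by
  obtain ⟨G, hG, hc⟩ := X_max g m
  have := X_le g n (G.map (Fin.castLEEmb h)) (girth_map _ G _ hG)
  rw [ncard_map] at this
  omega

-- TARGET (prove this)
theorem X_tree (g n : ℕ) : n ≤ X g n + 1 := by
  rcases Nat.eq_zero_or_pos n with h0 | h0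
  · omega
  · haveI : Nonempty (Fin n) := ⟨⟨0, h0⟩⟩
    have hconn : (⊤ : SimpleGraph (Fin n)).Connected := SimpleGraph.connected_top
    obtain ⟨T, hT, hT2⟩ := hconn.exists_isTree_le
    have h1 := hT2.card_edgeFinset
    have h2 : T.edgeSet.ncard = T.edgeFinset.card := by
      rw [← SimpleGraph.coe_edgeFinset, Set.ncard_coe_finset]
    have h3 := X_le g n T (fun v c hc => absurd hc (hT2.2 c))
    rw [Fintype.card_fin] at h1
    omega

-- TARGET (prove this)
theorem X_triv (g n : ℕ) : 2 * X g n ≤ n * (n - 1) := by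
  obtain ⟨G, hG, hc⟩ := X_max g n
  have h2 : G.edgeSet.ncard = G.edgeFinset.card := by
    rw [← SimpleGraph.coe_edgeFinset, Set.ncard_coe_finset]
  have h3 := G.card_edgeFinset_le_card_choose_two
  rw [Fintype.card_fin, Nat.choose_two_right] at h3
  have h4 := Nat.div_mul_le_self (n * (n - 1)) 2
  omega


end Jxmono
export Jxmono (X_mono X_tree X_triv)
end ED
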