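import Pool.Agent.Helper470.ED.Defs
import Pool.Agent.Helper470.ED.Mavg
import Pool.Agent.Helper470.ED.Mbip
import Pool.Agent.Helper470.ED.Mlowx
import Pool.Agent.Helper470.ED.Mxbas
import Pool.Agent.Helper470.ED.Mxmono
set_option autoImplicit false
open Finset
open scoped Classical

namespace ED
namespace Jclean
















theorem clean_half (n : ℕ) (hn : 400 ≤ n) : n * (n - 1) ≤ 5 * ((n / 2) * (n / 2 - 1)) := by
  obtain ⟨p, hp⟩ : ∃ p, n / 2 = p + 1 := ⟨n / 2 - 1, by omega⟩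
  have hp2 : 199 ≤ p := by omega
  have h1 : n ≤ 2 * p + 3 := by omega
  have h2 : n - 1 ≤ 2 * p + 2 := by omega
  rw [hp, Nat.add_sub_cancel]
  calc n * (n - 1) ≤ (2 * p + 3) * (2 * p + 2) := Nat.mul_le_mul h1 h2
    _ ≤ 5 * ((p + 1) * p) := by nlinarith

-- TARGET (prove this)
theorem clean (l n k : ℕ) (hl : 2 ≤ l) (hk : 1 ≤ k) (h1 : X (2 * l) n ≤ k)
    (h2 : 100 * l * k ≤ X (2 * l - 2) n) :
    2 * (l : ℝ) * k + (X (2 * l) n : ℝ) / (30 * l) ≤ exd n k := by
  set x0 := X (2 * l) n with hx0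
  have ht := X_tree (2 * l) n
  rw [← hx0] at ht
  have hty := X_triv (2 * l - 2) n
  have hlk : 1 ≤ l * k := Nat.mul_pos (by omega) hk
  have hn2 : 2 ≤ n := by
    by_contra hcon
    have h3 : n * (n - 1) = 0 := by
      have : n = 0 ∨ n = 1 := by omega
      rcases this with h | h <;> simp [h]
    rw [h3] at hty
    have : 100 * l * k = 100 * (l * k) := by ring
    omega
  have hn200 : 200 * l ≤ n := by
    have h3 : 200 * l * (n - 1) ≤ n * (n - 1) := by
      calc 200 * l * (n - 1) ≤ 200 * l * k := Nat.mul_le_mul_left _ (by omega)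
        _ = 2 * (100 * l * k) := by ring
        _ ≤ 2 * X (2 * l - 2) n := Nat.mul_le_mul_left _ h2
        _ ≤ n * (n - 1) := hty
    exact Nat.le_of_mul_le_mul_right h3 (by omega)
  have hn400 : 400 ≤ n := by omega
  have hhalf := clean_half n hn400
  have hpos : 0 < n * (n - 1) := Nat.mul_pos (by omega) (by omega)
  -- first part
  have hb1 := bip (l - 1) n
  have e1 : 2 * (l - 1) = 2 * l - 2 := by omega
  have e2 : 2 * l - 2 + 1 = 2 * l - 1 := by omega
  rw [e1, e2] at hb1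
  have ha1 := avg (2 * l - 1) (n / 2) n (Nat.div_le_self n 2)
  have ha1' : X (2 * l - 1) n ≤ 5 * X (2 * l - 1) (n / 2) := by
    have h3 : X (2 * l - 1) n * (n * (n - 1)) ≤ 5 * X (2 * l - 1) (n / 2) * (n * (n - 1)) := by
      calc X (2 * l - 1) n * (n * (n - 1))
          ≤ X (2 * l - 1) n * (5 * ((n / 2) * (n / 2 - 1))) := Nat.mul_le_mul_left _ hhalf
        _ = 5 * (X (2 * l - 1) n * ((n / 2) * (n / 2 - 1))) := by ring
        _ ≤ 5 * (X (2 * l - 1) (n / 2) * (n * (n - 1))) := Nat.mul_le_mul_left _ ha1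
        _ = _ := by ring
    exact Nat.le_of_mul_le_mul_right h3 hpos
  have hg : 2 * l * k ≤ X (2 * l - 1) (n / 2) := by
    have e3 : 100 * l * k = 100 * (l * k) := by ring
    have e4 : 2 * l * k = 2 * (l * k) := by ring
    omega
  -- second part
  have hm : X (2 * l + 2 - 1) (n - n / 2) ≤ (2 * l + 2) * k := by
    have e5 : 2 * l + 2 - 1 = 2 * l + 1 := by omega
    rw [e5]
    calc X (2 * l + 1) (n - n / 2) ≤ X (2 * l) (n - n / 2) := X_anti _ _ _ (by omega)
      _ ≤ X (2 * l) n := X_mono _ _ _ (Nat.sub_le _ _)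
      _ ≤ k := h1
      _ ≤ (2 * l + 2) * k := Nat.le_mul_of_pos_left _ (by omega)
  have hlow := lowX (2 * l) (2 * l + 2) (n / 2) (n - n / 2) k (by omega) (by omega) hk hg hm
  have e6 : n / 2 + (n - n / 2) = n := by omega
  have e7 : 2 * l + 2 - 2 * l = 2 := by omega
  have e5 : 2 * l + 2 - 1 = 2 * l + 1 := by omega
  rw [e6, e7, e5] at hlow
  have ha2 := avg (2 * l + 1) (n - n / 2) n (Nat.sub_le _ _)
  have hhalf2 : n * (n - 1) ≤ 5 * ((n - n / 2) * (n - n / 2 - 1)) := by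
    refine hhalf.trans (Nat.mul_le_mul_left _ (Nat.mul_le_mul (by omega) (by omega)))
  have ha2' : X (2 * l + 1) n ≤ 5 * X (2 * l + 1) (n - n / 2) := by
    have h3 : X (2 * l + 1) n * (n * (n - 1)) ≤
        5 * X (2 * l + 1) (n - n / 2) * (n * (n - 1)) := by
      calc X (2 * l + 1) n * (n * (n - 1))
          ≤ X (2 * l + 1) n * (5 * ((n - n / 2) * (n - n / 2 - 1))) :=
            Nat.mul_le_mul_left _ hhalf2
        _ = 5 * (X (2 * l + 1) n * ((n - n / 2) * (n - n / 2 - 1))) := by ring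
        _ ≤ 5 * (X (2 * l + 1) (n - n / 2) * (n * (n - 1))) := Nat.mul_le_mul_left _ ha2
        _ = _ := by ring
    exact Nat.le_of_mul_le_mul_right h3 hpos
  have hb2 := bip l n
  rw [← hx0] at hb2
  have h10 : x0 ≤ 10 * X (2 * l + 1) (n - n / 2) := by omega
  -- final
  have hR : (2 * (l:ℝ)) * (2 * l + 2) * k + 2 * (X (2 * l + 1) (n - n / 2) : ℝ) ≤
      (2 * l + 2) * (exd n k : ℝ) + (2 * l + 2) := by exact_mod_cast hlow
  have h10R : (x0 : ℝ) ≤ 10 * (X (2 * l + 1) (n - n / 2) : ℝ) := by exact_mod_cast h10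
  have hlR : (2:ℝ) ≤ l := by exact_mod_cast hl
  have hx0R : 200 * (l:ℝ) - 1 ≤ x0 := by
    have h3 : 200 * l ≤ x0 + 1 := by omega
    have h4 : 200 * (l:ℝ) ≤ (x0:ℝ) + 1 := by exact_mod_cast h3
    linarith
  have hl0 : (0:ℝ) < l := by linarith
  have hkey : (x0:ℝ) / (30 * l) ≤ (x0:ℝ) / (20 * (l + 1)) := by
    apply div_le_div_of_nonneg_left (Nat.cast_nonneg _) (by positivity)
    linarith
  have hone : 1 ≤ (x0:ℝ) / (20 * (l + 1)) := by
    rw [le_div_iff₀ (by positivity)]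
    linarith
  have hsplit : (x0:ℝ) / (20 * (l + 1)) + (x0:ℝ) / (20 * (l + 1)) = (x0:ℝ) / (10 * (l + 1)) := by
    field_simp
    ring
  have hfin : 2 * (l:ℝ) * k + (x0:ℝ) / (10 * (l + 1)) - 1 ≤ exd n k := by
    have h3 : (2 * (l:ℝ) + 2) * (2 * (l:ℝ) * k + (x0:ℝ) / (10 * (l + 1)) - 1) ≤
        (2 * (l:ℝ) + 2) * (exd n k : ℝ) := by
      have h5 : (2 * (l:ℝ) + 2) * ((x0:ℝ) / (10 * (l + 1))) = x0 / 5 := by
        field_simp
        ring
      have h6 : (2 * (l:ℝ) + 2) * (2 * (l:ℝ) * k + (x0:ℝ) / (10 * (l + 1)) - 1) =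
          (2 * (l:ℝ)) * (2 * l + 2) * k + (2 * (l:ℝ) + 2) * ((x0:ℝ) / (10 * (l + 1))) -
            (2 * l + 2) := by ring
      rw [h6, h5]
      linarith
    exact le_of_mul_le_mul_left h3 (by positivity)
  linarith


end Jclean
export Jclean (clean)
end ED
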