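import Pool.Agent.Helper470.ED.Defs
set_option autoImplicit false
open Finset
open scoped Classical

namespace ED
namespace Jcontract



theorem aux_adj444 {V : Type} (G : SimpleGraph V) (u v w x y : V)
    (h : (G.deleteEdges {s(v, u), s(v, w)} ⊔ SimpleGraph.edge u w).Adj x y) :
    (G.Adj x y ∧ s(x, y) ≠ s(v, u) ∧ s(x, y) ≠ s(v, w)) ∨ s(x, y) = s(u, w) := by
  rw [SimpleGraph.sup_adj, SimpleGraph.deleteEdges_adj, SimpleGraph.edge_adj] at h
  rcases h with ⟨h, h'⟩ | ⟨h, _⟩
  · left
    refine ⟨h, ?_, ?_⟩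
    · intro e; apply h'; rw [e]; simp
    · intro e; apply h'; rw [e]; simp
  · right
    rcases h with ⟨rfl, rfl⟩ | ⟨rfl, rfl⟩
    · rfl
    · exact Sym2.eq_swap

theorem aux_edge444 {V : Type} (G : SimpleGraph V) (u v w : V) (e : Sym2 V)
    (h : e ∈ (G.deleteEdges {s(v, u), s(v, w)} ⊔ SimpleGraph.edge u w).edgeSet) :
    (e ∈ G.edgeSet ∧ e ≠ s(v, u) ∧ e ≠ s(v, w)) ∨ e = s(u, w) := by
  induction e with
  | h x y =>
    rw [SimpleGraph.mem_edgeSet] at h
    exact aux_adj444 G u v w x y h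

theorem aux_cycle444 {V : Type} (G : SimpleGraph V) (u v w : V) (huw : u ≠ w) (h1 : G.Adj v u) (h2 : G.Adj v w)
    (hdeg : ∀ x, G.Adj v x → x = u ∨ x = w) (a : V)
    (c : (G.deleteEdges {s(v, u), s(v, w)} ⊔ SimpleGraph.edge u w).Walk a a) (hc : c.IsCycle) :
    ∃ (b : V) (c' : G.Walk b b), c'.IsCycle ∧ ∀ e ∈ c'.edges,
      e ∈ c.edges ∨ ((e = s(v, u) ∨ e = s(v, w)) ∧ s(u, w) ∈ c.edges) := by
  by_cases hm : s(u, w) ∈ c.edges
  · -- the cycle uses the new edge
    set H : SimpleGraph V := SimpleGraph.fromEdgeSet {e | e ∈ c.edges} with hH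
    have hcH : ∀ e ∈ c.edges, e ∈ H.edgeSet := by
      intro e he
      rw [hH, SimpleGraph.edgeSet_fromEdgeSet]
      refine ⟨he, ?_⟩
      have := c.edges_subset_edgeSet he
      exact SimpleGraph.not_isDiag_of_mem_edgeSet _ this
    have hex : ∃ (x : V) (p : H.Walk x x), p.IsCycle ∧ s(u, w) ∈ p.edges :=
      ⟨a, c.transfer H hcH, hc.transfer hcH, by rw [SimpleGraph.Walk.edges_transfer]; exact hm⟩
    have hr := (SimpleGraph.adj_and_reachable_delete_edges_iff_exists_cycle.mpr hex).2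
    obtain ⟨p, hp⟩ := hr.symm.exists_isPath
    have hpe : ∀ e ∈ p.edges, e ∈ c.edges ∧ e ≠ s(u, w) := by
      intro e he
      have := p.edges_subset_edgeSet he
      rw [SimpleGraph.edgeSet_deleteEdges, hH, SimpleGraph.edgeSet_fromEdgeSet] at this
      obtain ⟨⟨hx1, hx2⟩, hx3⟩ := this
      exact ⟨hx1, hx3⟩
    have hpG : ∀ e ∈ p.edges, e ∈ G.edgeSet ∧ e ≠ s(v, u) ∧ e ≠ s(v, w) := by
      intro e he
      obtain ⟨h3, h4⟩ := hpe e he
      rcases aux_edge444 G u v w e (c.edges_subset_edgeSet h3) with h5 | h5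
      · exact h5
      · exact absurd h5 h4
    have hv : v ∉ p.support := by
      intro hv
      have hne : v ≠ w := h2.ne
      obtain ⟨y, hy, q', hq'⟩ := SimpleGraph.Walk.exists_eq_cons_of_ne hne ((p.takeUntil v hv).reverse)
      have he : s(v, y) ∈ p.edges := by
        apply p.edges_takeUntil_subset hv
        have : s(v, y) ∈ ((p.takeUntil v hv).reverse).edges := by
          rw [hq']; simp
        simpa using this
      obtain ⟨g1, g2, g3⟩ := hpG _ he
      rcases hdeg y g1 with rfl | rfl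
      · exact g2 rfl
      · exact g3 rfl
    set p' : G.Walk w u := p.transfer G (fun e he => (hpG e he).1) with hp'
    have hp'path : p'.IsPath := hp.transfer _
    have hp'supp : v ∉ p'.support := by
      rw [hp', SimpleGraph.Walk.support_transfer]; exact hv
    refine ⟨u, SimpleGraph.Walk.cons h1.symm (SimpleGraph.Walk.cons h2 p'), ?_, ?_⟩
    · rw [SimpleGraph.Walk.cons_isCycle_iff]
      refine ⟨(SimpleGraph.Walk.cons_isPath_iff _ _).mpr ⟨hp'path, hp'supp⟩, ?_⟩
      rw [SimpleGraph.Walk.edges_cons, List.mem_cons]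
      rintro (h | h)
      · rw [Sym2.eq_iff] at h
        rcases h with ⟨h, _⟩ | ⟨h, _⟩
        · exact h1.ne h.symm
        · exact huw h
      · exact hp'supp (p'.snd_mem_support_of_mem_edges h)
    · intro e he
      rw [SimpleGraph.Walk.edges_cons, List.mem_cons, SimpleGraph.Walk.edges_cons, List.mem_cons, hp',
        SimpleGraph.Walk.edges_transfer] at he
      rcases he with he | he | he
      · right; exact ⟨Or.inl (by rw [he]; exact Sym2.eq_swap), hm⟩
      · right; exact ⟨Or.inr he, hm⟩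
      · left; exact (hpe e he).1
  · have hcG : ∀ e ∈ c.edges, e ∈ G.edgeSet := by
      intro e he
      rcases aux_edge444 G u v w e (c.edges_subset_edgeSet he) with h5 | h5
      · exact h5.1
      · rw [h5] at he; exact absurd he hm
    refine ⟨a, c.transfer G hcG, hc.transfer hcG, ?_⟩
    intro e he
    rw [SimpleGraph.Walk.edges_transfer] at he
    exact Or.inl he

-- TARGET (prove this)
theorem contract {V : Type} (G : SimpleGraph V) (u v w : V) (huw : u ≠ w) (h1 : G.Adj v u) (h2 : G.Adj v w)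
    (h3 : ¬ G.Adj u w) (hdeg : ∀ x, G.Adj v x → x = u ∨ x = w) (k : ℕ)
    (h : HasEDC (G.deleteEdges {s(v, u), s(v, w)} ⊔ SimpleGraph.edge u w) k) : HasEDC G k := by
  obtain ⟨vv, c, hc, hd⟩ := h
  choose b c' hc' he' using fun i => aux_cycle444 G u v w huw h1 h2 hdeg (vv i) (c i) (hc i)
  refine ⟨b, c', hc', ?_⟩
  intro i j hij e hei hej
  have hno : ∀ i, ∀ e ∈ (c i).edges, ¬ (e = s(v, u) ∨ e = s(v, w)) := by
    intro i e he hh
    rcases aux_edge444 G u v w e ((c i).edges_subset_edgeSet he) with h5 | h5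
    · rcases hh with hh | hh
      · exact h5.2.1 hh
      · exact h5.2.2 hh
    · rw [h5] at hh
      rcases hh with hh | hh
      · rw [Sym2.eq_iff] at hh
        rcases hh with ⟨q, _⟩ | ⟨_, q⟩
        · exact h1.ne q.symm
        · exact h2.ne q.symm
      · rw [Sym2.eq_iff] at hh
        rcases hh with ⟨q, _⟩ | ⟨q, _⟩
        · exact h1.ne q.symm
        · exact huw q
  rcases he' i e hei with h4 | h4 <;> rcases he' j e hej with h5 | h5
  · exact hd i j hij e h4 h5
  · exact hno i e h4 h5.1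
  · exact hno j e h5 h4.1
  · exact hd i j hij _ h4.2 h5.2


end Jcontract
export Jcontract (contract)
end ED
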