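import Pool.Agent.Helper470.ED.Defs
import Pool.Agent.Helper470.ED.Mbas1
import Pool.Agent.Helper470.ED.Mexd1
set_option autoImplicit false
open Finset
open scoped Classical

namespace ED
namespace Jdense_core







theorem h338_par {V : Type} {G : SimpleGraph V} (P : V → Prop) {u w : V} (p : G.Walk u w)
    (h : ∀ a b, s(a, b) ∈ p.edges → (P a ↔ ¬ P b)) : (P u ↔ P w) ↔ Even p.length := by
  induction p with
  | nil => simp
  | @cons u x w hadj p ih =>
    have h1 := h u x (by simp)
    have h2 := ih (fun a b hab => h a b (by simp [hab]))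
    rw [SimpleGraph.Walk.length_cons, Nat.even_add_one, ← h2]
    tauto

-- TARGET (prove this)
theorem dense_core (n t k : ℕ) (ht : n ^ 2 / 4 + t ≤ n * (n - 1) / 2) (h : n ^ 2 / 4 + 2 * t < 4 * k) :
    n ^ 2 / 4 + t ≤ exd n k := by
  obtain ⟨A, hA⟩ : ∃ A : Finset (Fin n), A = Finset.univ.filter (fun v => v.val < n / 2) := ⟨_, rfl⟩
  have hAc : A.card = n / 2 := by
    rw [hA, Fin.card_filter_val_lt]
    exact min_eq_right (Nat.div_le_self n 2)
  obtain ⟨E0, hE0⟩ : ∃ E0 : Finset (Sym2 (Fin n)), E0 = (A ×ˢ Aᶜ).image (fun p => s(p.1, p.2)) := ⟨_, rfl⟩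
  have hmem0 : ∀ a b : Fin n, s(a, b) ∈ E0 → (a ∈ A ↔ ¬ b ∈ A) := by
    intro a b hab
    rw [hE0, Finset.mem_image] at hab
    obtain ⟨⟨x, y⟩, hxy, he⟩ := hab
    rw [Finset.mem_product, Finset.mem_compl] at hxy
    obtain ⟨hx, hy⟩ := hxy
    rw [Sym2.eq_iff] at he
    simp only at hx hy he
    rcases he with ⟨h1, h2⟩ | ⟨h1, h2⟩
    · subst h1; subst h2; tauto
    · subst h1; subst h2; tauto
  have hcard0 : E0.card = n ^ 2 / 4 := by
    rw [hE0, Finset.card_image_of_injOn, Finset.card_product, Finset.card_compl, hAc, Fintype.card_fin]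
    · rcases Nat.even_or_odd' n with ⟨m, hm | hm⟩
      · subst hm
        have e1 : 2 * m / 2 = m := by omega
        have e2 : (2 * m) ^ 2 / 4 = m * m := by
          have : (2 * m) ^ 2 = 4 * (m * m) := by ring
          rw [this]; omega
        rw [e1, e2]
        have : 2 * m - m = m := by omega
        rw [this]
      · subst hm
        have e1 : (2 * m + 1) / 2 = m := by omega
        have e2 : (2 * m + 1) ^ 2 / 4 = m * (m + 1) := by
          have : (2 * m + 1) ^ 2 = 4 * (m * (m + 1)) + 1 := by ring
          rw [this]; omega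
        rw [e1, e2]
        have : 2 * m + 1 - m = m + 1 := by omega
        rw [this]
    · rintro ⟨x, y⟩ hxy ⟨x', y'⟩ hxy' he
      simp only [Finset.coe_product, Set.mem_prod, Finset.mem_coe, Finset.mem_compl] at hxy hxy'
      simp only [Sym2.eq_iff] at he
      rcases he with ⟨h1, h2⟩ | ⟨h1, h2⟩
      · rw [h1, h2]
      · exfalso
        rw [h1] at hxy
        exact hxy'.2 hxy.1
  obtain ⟨E1, hE1⟩ : ∃ E1 : Finset (Sym2 (Fin n)), E1 = (⊤ : SimpleGraph (Fin n)).edgeFinset := ⟨_, rfl⟩
  have hE1c : E1.card = n * (n - 1) / 2 := by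
    rw [hE1, SimpleGraph.card_edgeFinset_top_eq_card_choose_two, Fintype.card_fin, Nat.choose_two_right]
  have hE01 : E0 ⊆ E1 := by
    intro e he
    induction e using Sym2.ind with
    | _ a b =>
      have h1 := hmem0 a b he
      rw [hE1, SimpleGraph.mem_edgeFinset, SimpleGraph.mem_edgeSet, SimpleGraph.top_adj]
      intro hab
      rw [hab] at h1
      tauto
  obtain ⟨E, hE0E, hEE1, hEc⟩ := Finset.exists_subsuperset_card_eq hE01
    (show E0.card ≤ n ^ 2 / 4 + t by omega) (show n ^ 2 / 4 + t ≤ E1.card by omega)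
  obtain ⟨G, hG⟩ : ∃ G : SimpleGraph (Fin n), G = SimpleGraph.fromEdgeSet (E : Set (Sym2 (Fin n))) := ⟨_, rfl⟩
  have hGE : G.edgeSet = (E : Set (Sym2 (Fin n))) := by
    rw [hG, SimpleGraph.edgeSet_fromEdgeSet]
    ext e
    constructor
    · intro he; exact he.1
    · intro he
      refine ⟨he, ?_⟩
      have h1 := hEE1 (Finset.mem_coe.mp he)
      rw [hE1, SimpleGraph.mem_edgeFinset] at h1
      exact SimpleGraph.not_isDiag_of_mem_edgeSet _ h1
  have hnot : ¬ HasEDC G k := by
    rintro ⟨v, c, hc, hdis⟩
    have hLE : ∀ i, (c i).edges.toFinset ⊆ E := by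
      intro i e he
      rw [List.mem_toFinset] at he
      have := (c i).edges_subset_edgeSet he
      rw [hGE] at this
      exact Finset.mem_coe.mp this
    have hLc : ∀ i, (c i).edges.toFinset.card = (c i).length := by
      intro i
      rw [List.toFinset_card_of_nodup (hc i).isCircuit.isTrail.edges_nodup, SimpleGraph.Walk.length_edges]
    have hLd : ∀ i j, i ≠ j → Disjoint (c i).edges.toFinset (c j).edges.toFinset := by
      intro i j hij
      rw [Finset.disjoint_left]
      intro e he1 he2
      rw [List.mem_toFinset] at he1 he2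
      exact hdis i j hij e he1 he2
    have hsum1 : ∑ i : Fin k, (c i).edges.toFinset.card ≤ E.card := by
      rw [← Finset.card_biUnion (fun i _ j _ hij => hLd i j hij)]
      exact Finset.card_le_card (Finset.biUnion_subset.mpr fun i _ => hLE i)
    have hsum2 : ∑ i : Fin k, ((c i).edges.toFinset ∩ (E \ E0)).card ≤ (E \ E0).card := by
      rw [← Finset.card_biUnion (fun i _ j _ hij =>
        (hLd i j hij).mono Finset.inter_subset_left Finset.inter_subset_left)]
      exact Finset.card_le_card (Finset.biUnion_subset.mpr fun i _ => Finset.inter_subset_right)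
    have hEE0 : (E \ E0).card = t := by
      rw [Finset.card_sdiff_of_subset hE0E, hEc, hcard0]; omega
    have heach : ∀ i, 4 ≤ (c i).edges.toFinset.card + ((c i).edges.toFinset ∩ (E \ E0)).card := by
      intro i
      have h3 := (hc i).three_le_length
      rw [hLc i]
      by_cases h4 : 4 ≤ (c i).length
      · omega
      · have h5 : (c i).length = 3 := by omega
        have h6 : ((c i).edges.toFinset ∩ (E \ E0)).Nonempty := by
          by_contra hne
          rw [Finset.not_nonempty_iff_eq_empty] at hne
          have hall : ∀ a b, s(a, b) ∈ (c i).edges → (a ∈ A ↔ ¬ b ∈ A) := by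
            intro a b hab
            apply hmem0
            by_contra hnot
            have hm : s(a, b) ∈ (c i).edges.toFinset ∩ (E \ E0) := by
              rw [Finset.mem_inter, Finset.mem_sdiff]
              exact ⟨List.mem_toFinset.mpr hab, hLE i (List.mem_toFinset.mpr hab), hnot⟩
            rw [hne] at hm
            exact absurd hm (Finset.notMem_empty _)
          have hp := (h338_par (fun x => x ∈ A) (c i) hall).mp Iff.rfl
          rw [h5] at hp
          exact absurd hp (by decide)
        have h7 := h6.card_pos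
        omega
    have htot : ∑ i : Fin k, 4 ≤ ∑ i : Fin k, ((c i).edges.toFinset.card
        + ((c i).edges.toFinset ∩ (E \ E0)).card) := Finset.sum_le_sum fun i _ => heach i
    rw [Finset.sum_add_distrib, Finset.sum_const, Finset.card_univ, Fintype.card_fin, smul_eq_mul] at htot
    omega
  have hfin := le_exd n k G hnot
  rw [hGE, Set.ncard_coe_finset, hEc] at hfin
  exact hfin



end Jdense_core
export Jdense_core (dense_core)
end ED
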