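import Pool.Agent.Helper470.ED.Defs
set_option autoImplicit false
open Finset
open scoped Classical

namespace ED
namespace Jhost2


def bipG (n : ℕ) : SimpleGraph (Fin n) where
  Adj a b := ¬ (a.val < n / 2 ↔ b.val < n / 2)
  symm := ⟨fun a b h => by tauto⟩
  loopless := ⟨fun a h => h Iff.rfl⟩

theorem bipG_parity (n : ℕ) {u v : Fin n} (p : (bipG n).Walk u v) :
    Even p.length ↔ (u.val < n / 2 ↔ v.val < n / 2) := by
  induction p with
  | nil => simp
  | cons h p ih =>
    have h' := h
    simp only [bipG] at h'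
    rw [SimpleGraph.Walk.length_cons, Nat.even_add_one, ih]
    tauto

theorem bipG_card (n : ℕ) : n ^ 2 / 4 ≤ (bipG n).edgeSet.ncard := by
  let f : Fin (n / 2) × Fin (n - n / 2) → Sym2 (Fin n) := fun p =>
    s((⟨p.1.val, by have := p.1.isLt; omega⟩ : Fin n), (⟨n / 2 + p.2.val, by have := p.2.isLt; omega⟩ : Fin n))
  have hf : Function.Injective f := by
    rintro ⟨a, b⟩ ⟨a', b'⟩ h
    have h2 := Sym2.eq_iff.mp h
    have ha := a.isLt
    have ha' := a'.isLt
    rcases h2 with ⟨h3, h4⟩ | ⟨h3, h4⟩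
    · have e1' := congrArg Fin.val h3
      have e2' := congrArg Fin.val h4
      have e1 : a.val = a'.val := e1'
      have e2 : n / 2 + b.val = n / 2 + b'.val := e2'
      have e3 : a = a' := Fin.ext e1
      have e4 : b = b' := Fin.ext (by omega)
      rw [e3, e4]
    · have e1' := congrArg Fin.val h3
      have e1 : a.val = n / 2 + b'.val := e1'
      omega
  have hsub : f '' Set.univ ⊆ (bipG n).edgeSet := by
    rintro e ⟨p, -, rfl⟩
    have hp := p.1.isLt
    show ¬ (p.1.val < n / 2 ↔ n / 2 + p.2.val < n / 2)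
    omega
  have h1 := Set.ncard_le_ncard hsub (Set.toFinite _)
  rw [Set.ncard_image_of_injective _ hf, Set.ncard_univ, Nat.card_eq_fintype_card, Fintype.card_prod,
    Fintype.card_fin, Fintype.card_fin] at h1
  refine le_trans ?_ h1
  rcases Nat.even_or_odd' n with ⟨m, h | h⟩
  · subst h
    have e1 : 2 * m / 2 = m := by omega
    rw [e1]
    have e2 : 2 * m - m = m := by omega
    rw [e2]
    apply Nat.div_le_of_le_mul
    nlinarith
  · subst h
    have e1 : (2 * m + 1) / 2 = m := by omega
    rw [e1]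
    have e2 : 2 * m + 1 - m = m + 1 := by omega
    rw [e2]
    apply Nat.le_of_lt_succ
    apply Nat.div_lt_of_lt_mul
    nlinarith

-- TARGET (prove this)
theorem host2 (n : ℕ) : ∃ G : SimpleGraph (Fin n), GirthGe G 4 ∧ n ^ 2 / 4 ≤ G.edgeSet.ncard := by
  refine ⟨bipG n, ?_, bipG_card n⟩
  intro v c hc
  have h3 := hc.three_le_length
  have he : Even c.length := (bipG_parity n c).mpr Iff.rfl
  obtain ⟨k, hk⟩ := he
  omega


end Jhost2
export Jhost2 (host2)
end ED
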