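import Pool.Agent.Helper470.ED.Defs
import Pool.Agent.Helper470.ED.Mbig
import Pool.Agent.Helper470.ED.Mhost2
import Pool.Agent.Helper470.ED.Mlow
set_option autoImplicit false
open Finset
open scoped Classical

namespace ED
namespace Jlowers










-- TARGET (prove this)
theorem lower2 (n k : ℕ) (hk : 1 ≤ k) (h : 16 * k ≤ n ^ 2) : 4 * k ≤ exd n k + 1 := by
  obtain ⟨G, hG, he⟩ := host2 n
  refine low n 4 k (by norm_num) hk G hG ?_
  omega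

-- TARGET (prove this)
theorem lower3 : ∃ c : ℝ, 0 < c ∧ ∀ n k : ℕ, 1 ≤ k → (k : ℝ) ≤ c * (n : ℝ) ^ ((3 : ℝ) / 2) → 6 * k ≤ exd n k + 1 := by
  refine ⟨1 / 200, by norm_num, ?_⟩
  intro n k hk h
  have hk' : (1:ℝ) ≤ k := by exact_mod_cast hk
  have hn : 8 ≤ n := by
    by_contra hlt
    push Not at hlt
    have h7 : (n:ℝ) ≤ 7 := by exact_mod_cast (by omega : n ≤ 7)
    have h1 : (n : ℝ) ^ ((3 : ℝ) / 2) ≤ (7:ℝ) ^ ((3 : ℝ) / 2) :=
      Real.rpow_le_rpow (Nat.cast_nonneg n) h7 (by norm_num)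
    have h2 : (7:ℝ) ^ ((3 : ℝ) / 2) ≤ (7:ℝ) ^ (2 : ℝ) :=
      Real.rpow_le_rpow_of_exponent_le (by norm_num) (by norm_num)
    have h3 : (7:ℝ) ^ (2 : ℝ) = 49 := by
      rw [Real.rpow_two]; norm_num
    linarith
  obtain ⟨G, hG, he⟩ := big3 n hn
  refine low n 6 k (by norm_num) hk G hG ?_
  have h4 : (6 * k : ℝ) ≤ (G.edgeSet.ncard : ℝ) := by linarith
  have h5 : 6 * k ≤ G.edgeSet.ncard := by exact_mod_cast h4
  omega

-- TARGET (prove this)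
theorem lower4 : ∃ c : ℝ, 0 < c ∧ ∀ n k : ℕ, 1 ≤ k → (k : ℝ) ≤ c * (n : ℝ) ^ ((4 : ℝ) / 3) → 8 * k ≤ exd n k + 1 := by
  refine ⟨1 / 400, by norm_num, ?_⟩
  intro n k hk h
  have hk' : (1:ℝ) ≤ k := by exact_mod_cast hk
  have hn : 16 ≤ n := by
    by_contra hlt
    push Not at hlt
    have h7 : (n:ℝ) ≤ 15 := by exact_mod_cast (by omega : n ≤ 15)
    have h1 : (n : ℝ) ^ ((4 : ℝ) / 3) ≤ (15:ℝ) ^ ((4 : ℝ) / 3) :=
      Real.rpow_le_rpow (Nat.cast_nonneg n) h7 (by norm_num)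
    have h2 : (15:ℝ) ^ ((4 : ℝ) / 3) ≤ (15:ℝ) ^ (2 : ℝ) :=
      Real.rpow_le_rpow_of_exponent_le (by norm_num) (by norm_num)
    have h3 : (15:ℝ) ^ (2 : ℝ) = 225 := by
      rw [Real.rpow_two]; norm_num
    linarith
  obtain ⟨G, hG, he⟩ := big4 n hn
  refine low n 8 k (by norm_num) hk G hG ?_
  have h4 : (8 * k : ℝ) ≤ (G.edgeSet.ncard : ℝ) := by linarith
  have h5 : 8 * k ≤ G.edgeSet.ncard := by exact_mod_cast h4
  omega


end Jlowers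
export Jlowers (lower2 lower3 lower4)
end ED
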