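import Pool.Agent.Helper470.ED.Defs
import Pool.Agent.Helper470.ED.Mdense_core
import Pool.Agent.Helper470.ED.Mlowers
set_option autoImplicit false
open Finset
open scoped Classical

namespace ED
namespace Jdense_low






-- TARGET (prove this)
theorem dense_low (n k : ℕ) (hn : 4 ≤ n) (h1 : n ^ 2 ≤ 16 * k) (h2 : 6 * k ≤ n * (n - 1)) :
    2 * (k : ℝ) + (n : ℝ) ^ 2 / 8 - 2 ≤ exd n k := by
  have hmod : n ^ 2 % 4 = 0 ∨ n ^ 2 % 4 = 1 := by
    obtain ⟨c, hc | hc⟩ := Nat.even_or_odd' n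
    · left
      have : n ^ 2 = 4 * c ^ 2 := by rw [hc]; ring
      omega
    · right
      have : n ^ 2 = 4 * (c ^ 2 + c) + 1 := by rw [hc]; ring
      omega
  have h16 : 16 ≤ n ^ 2 := by nlinarith
  have hk : 1 ≤ k := by omega
  obtain ⟨n', rfl⟩ : ∃ n', n = n' + 1 := ⟨n - 1, by omega⟩
  have hsub : n' + 1 - 1 = n' := by omega
  rw [hsub] at h2
  obtain ⟨Q, hQ⟩ : ∃ Q, (n' + 1) ^ 2 / 4 = Q := ⟨_, rfl⟩
  have hQ1 : 4 * Q ≤ (n' + 1) ^ 2 := by omega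
  have hQ2 : (n' + 1) ^ 2 ≤ 4 * Q + 1 := by omega
  have hN : (n' + 1) ^ 2 = n' * n' + 2 * n' + 1 := by ring
  have hQ1' : 4 * (Q : ℝ) ≤ ((n' + 1 : ℕ) : ℝ) ^ 2 := by exact_mod_cast hQ1
  have hQ2' : ((n' + 1 : ℕ) : ℝ) ^ 2 ≤ 4 * (Q : ℝ) + 1 := by exact_mod_cast hQ2
  by_cases hc : 4 * k = Q
  · have h3 : 16 * k ≤ (n' + 1) ^ 2 := by omega
    have h4 := lower2 (n' + 1) k hk h3
    have h4' : 4 * (k : ℝ) ≤ (exd (n' + 1) k : ℝ) + 1 := by exact_mod_cast h4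
    have hc' : 4 * (k : ℝ) = Q := by exact_mod_cast hc
    linarith
  · have hlt : Q < 4 * k := by omega
    obtain ⟨t, ht⟩ : ∃ t, (4 * k - Q - 1) / 2 = t := ⟨_, rfl⟩
    have ht1 : Q + 2 * t < 4 * k := by omega
    have ht2 : 4 * k ≤ Q + 2 * t + 2 := by omega
    have hle : Q + t ≤ (n' + 1) * n' / 2 := by
      rw [Nat.le_div_iff_mul_le (by norm_num)]
      have e : (n' + 1) * n' = n' * n' + n' := by ring
      rw [e] at h2 ⊢
      have h5 : 0 ≤ ((n' : ℤ) - 1) ^ 2 := sq_nonneg _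
      have h6 : 2 * (n' : ℤ) ≤ (n' : ℤ) * n' + 1 := by nlinarith
      have h7 : 2 * n' ≤ n' * n' + 1 := by exact_mod_cast h6
      omega
    have h8 := dense_core (n' + 1) t k (by rw [hQ, hsub]; exact hle) (by rw [hQ]; exact ht1)
    rw [hQ] at h8
    have h8' : (Q : ℝ) + t ≤ exd (n' + 1) k := by exact_mod_cast h8
    have ht2' : 4 * (k : ℝ) ≤ Q + 2 * t + 2 := by exact_mod_cast ht2
    linarith


end Jdense_low
export Jdense_low (dense_low)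
end ED
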