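import Pool.Agent.Helper470.ED.Defs
set_option autoImplicit false
open Finset
open scoped Classical

namespace ED
namespace Jmatchlem


/-- a matching of size `s` in `N` -/
def MM {V : Type} (G : SimpleGraph V) (N : Finset V) (s : ℕ) (f g : Fin s → V) : Prop :=
  (∀ i, f i ∈ N ∧ g i ∈ N ∧ G.Adj (f i) (g i)) ∧
      (∀ i j, f i ≠ g j) ∧ Function.Injective f ∧ Function.Injective g

theorem ml_update_inj {V : Type} {s : ℕ} (f : Fin s → V) (hf : Function.Injective f) (i : Fin s) (v : V)
    (hv : ∀ j, v ≠ f j) : Function.Injective (Function.update f i v) := by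
  intro a b hab
  by_cases ha : a = i
  · by_cases hb : b = i
    · rw [ha, hb]
    · subst ha
      rw [Function.update_self, Function.update_of_ne hb] at hab
      exact absurd hab (hv b)
  · by_cases hb : b = i
    · subst hb
      rw [Function.update_self, Function.update_of_ne ha] at hab
      exact absurd hab.symm (hv a)
    · rw [Function.update_of_ne ha, Function.update_of_ne hb] at hab
      exact hf hab

theorem ml_caseA {V : Type} (G : SimpleGraph V) (N : Finset V) (s : ℕ) (f g : Fin s → V)
    (h : MM G N s f g) (u w : V) (hu : u ∈ N) (hw : w ∈ N) (huw : G.Adj u w)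
    (hun : ∀ i, u ≠ f i ∧ u ≠ g i) (hwn : ∀ i, w ≠ f i ∧ w ≠ g i) :
    ∃ f' g' : Fin (s+1) → V, MM G N (s+1) f' g' := by
  obtain ⟨h1, h2, h3, h4⟩ := h
  refine ⟨Fin.cons u f, Fin.cons w g, ?_, ?_, ?_, ?_⟩
  · intro k
    refine Fin.cases ?_ (fun k => ?_) k
    · simpa using ⟨hu, hw, huw⟩
    · simpa using h1 k
  · intro k l
    refine Fin.cases ?_ (fun k => ?_) k
    · refine Fin.cases ?_ (fun l => ?_) l
      · simpa using huw.ne
      · simpa using (hun l).2
    · refine Fin.cases ?_ (fun l => ?_) l
      · simpa using (hwn k).1.symm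
      · simpa using h2 k l
  · rw [Fin.cons_injective_iff]
    refine ⟨?_, h3⟩
    rintro ⟨k, hk⟩
    exact (hun k).1 hk.symm
  · rw [Fin.cons_injective_iff]
    refine ⟨?_, h4⟩
    rintro ⟨k, hk⟩
    exact (hwn k).2 hk.symm

theorem ml_caseB {V : Type} (G : SimpleGraph V) (N : Finset V) (s : ℕ) (f g : Fin s → V)
    (h : MM G N s f g) (u v : V) (hu : u ∈ N) (hv : v ∈ N) (huv : u ≠ v)
    (hun : ∀ i, u ≠ f i ∧ u ≠ g i) (hvn : ∀ i, v ≠ f i ∧ v ≠ g i) (i : Fin s)
    (ha : G.Adj u (f i)) (hb : G.Adj v (g i)) :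
    ∃ f' g' : Fin (s+1) → V, MM G N (s+1) f' g' := by
  obtain ⟨h1, h2, h3, h4⟩ := h
  refine ⟨Fin.cons u (Function.update f i v), Fin.cons (f i) g, ?_, ?_, ?_, ?_⟩
  · intro k
    refine Fin.cases ?_ (fun k => ?_) k
    · simpa using ⟨hu, (h1 i).1, ha⟩
    · by_cases hk : k = i
      · subst hk
        simpa using ⟨hv, (h1 k).2.1, hb⟩
      · simpa [Function.update_of_ne hk] using h1 k
  · intro k l
    refine Fin.cases ?_ (fun k => ?_) k
    · refine Fin.cases ?_ (fun l => ?_) l
      · simpa using ha.ne
      · simpa using (hun l).2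
    · by_cases hk : k = i
      · subst hk
        refine Fin.cases ?_ (fun l => ?_) l
        · simpa using (hvn k).1
        · simpa using (hvn l).2
      · refine Fin.cases ?_ (fun l => ?_) l
        · simpa [Function.update_of_ne hk] using fun e => hk (h3 e)
        · simpa [Function.update_of_ne hk] using h2 k l
  · rw [Fin.cons_injective_iff]
    refine ⟨?_, ml_update_inj f h3 i v (fun j => (hvn j).1)⟩
    rintro ⟨k, hk⟩
    by_cases hki : k = i
    · subst hki
      rw [Function.update_self] at hk
      exact huv hk.symm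
    · rw [Function.update_of_ne hki] at hk
      exact (hun k).1 hk.symm
  · rw [Fin.cons_injective_iff]
    refine ⟨?_, h4⟩
    rintro ⟨k, hk⟩
    exact h2 i k hk.symm

theorem ml_step {V : Type} [Fintype V] (G : SimpleGraph V) (N : Finset V) (d s : ℕ)
    (hd : ∀ v ∈ N, d ≤ (N.filter (fun w => G.Adj v w)).card) (hs : s + 1 ≤ d)
    (hs2 : 2 * (s + 1) ≤ N.card) (h : ∃ f g : Fin s → V, MM G N s f g) :
    ∃ f' g' : Fin (s+1) → V, MM G N (s+1) f' g' := by
  obtain ⟨f, g, h⟩ := h
  set S : Finset V := Finset.univ.image f ∪ Finset.univ.image g with hS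
  have hScard : S.card ≤ 2 * s := by
    refine (Finset.card_union_le _ _).trans ?_
    have e1 := Finset.card_image_le (s := (Finset.univ : Finset (Fin s))) (f := f)
    have e2 := Finset.card_image_le (s := (Finset.univ : Finset (Fin s))) (f := g)
    rw [Finset.card_univ, Fintype.card_fin] at e1 e2
    omega
  have hdiff : 1 < (N \ S).card := by
    have := Finset.le_card_sdiff S N
    omega
  obtain ⟨u, hu, v, hv, huv⟩ := Finset.one_lt_card.mp hdiff
  have hnot : ∀ w, w ∈ N \ S → w ∈ N ∧ ∀ i, w ≠ f i ∧ w ≠ g i := by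
    intro w hw
    rw [Finset.mem_sdiff] at hw
    refine ⟨hw.1, fun i => ⟨?_, ?_⟩⟩
    · rintro rfl
      exact hw.2 (by simp [hS])
    · rintro rfl
      exact hw.2 (by simp [hS])
  have main : ∀ w, w ∈ N \ S → (∃ f' g' : Fin (s+1) → V, MM G N (s+1) f' g') ∨
      d ≤ (Finset.univ.filter (fun i => G.Adj w (f i))).card +
        (Finset.univ.filter (fun i => G.Adj w (g i))).card := by
    intro w hw
    by_cases hex : ∃ x ∈ N \ S, G.Adj w x
    · obtain ⟨x, hx, hwx⟩ := hex
      left
      exact ml_caseA G N s f g h w x (hnot w hw).1 (hnot x hx).1 hwx (hnot w hw).2 (hnot x hx).2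
    · right
      push Not at hex
      have hsub : N.filter (fun x => G.Adj w x) ⊆
          (Finset.univ.filter (fun i => G.Adj w (f i))).image f ∪
          (Finset.univ.filter (fun i => G.Adj w (g i))).image g := by
        intro x hx
        rw [Finset.mem_filter] at hx
        have hxS : x ∈ S := by
          by_contra hc
          exact hex x (Finset.mem_sdiff.mpr ⟨hx.1, hc⟩) hx.2
        rw [hS, Finset.mem_union] at hxS
        rw [Finset.mem_union]
        rcases hxS with hxS | hxS
        · left
          obtain ⟨i, _, rfl⟩ := Finset.mem_image.mp hxS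
          exact Finset.mem_image.mpr ⟨i, by simpa using hx.2, rfl⟩
        · right
          obtain ⟨i, _, rfl⟩ := Finset.mem_image.mp hxS
          exact Finset.mem_image.mpr ⟨i, by simpa using hx.2, rfl⟩
      refine (hd w (hnot w hw).1).trans ((Finset.card_le_card hsub).trans
        ((Finset.card_union_le _ _).trans ?_))
      exact Nat.add_le_add Finset.card_image_le Finset.card_image_le
  rcases main u hu with hh | hU
  · exact hh
  rcases main v hv with hh | hV
  · exact hh
  by_cases e1 : ∃ i, G.Adj u (f i) ∧ G.Adj v (g i)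
  · obtain ⟨i, hi1, hi2⟩ := e1
    exact ml_caseB G N s f g h u v (hnot u hu).1 (hnot v hv).1 huv (hnot u hu).2 (hnot v hv).2 i hi1 hi2
  by_cases e2 : ∃ i, G.Adj v (f i) ∧ G.Adj u (g i)
  · obtain ⟨i, hi1, hi2⟩ := e2
    exact ml_caseB G N s f g h v u (hnot v hv).1 (hnot u hu).1 huv.symm (hnot v hv).2 (hnot u hu).2 i hi1 hi2
  exfalso
  push Not at e1 e2
  have c1 : (Finset.univ.filter (fun i => G.Adj u (f i))).card +
      (Finset.univ.filter (fun i => G.Adj v (g i))).card ≤ s := by
    rw [← Finset.card_union_of_disjoint]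
    · refine (Finset.card_le_univ _).trans ?_
      rw [Fintype.card_fin]
    · rw [Finset.disjoint_left]
      intro i hi hi'
      simp only [Finset.mem_filter, Finset.mem_univ, true_and] at hi hi'
      exact e1 i hi hi'
  have c2 : (Finset.univ.filter (fun i => G.Adj v (f i))).card +
      (Finset.univ.filter (fun i => G.Adj u (g i))).card ≤ s := by
    rw [← Finset.card_union_of_disjoint]
    · refine (Finset.card_le_univ _).trans ?_
      rw [Fintype.card_fin]
    · rw [Finset.disjoint_left]
      intro i hi hi'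
      simp only [Finset.mem_filter, Finset.mem_univ, true_and] at hi hi'
      exact e2 i hi hi'
  omega

-- TARGET (prove this)
theorem matchlem {V : Type} [Fintype V] (G : SimpleGraph V) (N : Finset V) (d r : ℕ)
    (hd : ∀ v ∈ N, d ≤ (N.filter (fun w => G.Adj v w)).card) (hr : r ≤ d) (hr2 : 2 * r ≤ N.card) :
    ∃ f g : Fin r → V, (∀ i, f i ∈ N ∧ g i ∈ N ∧ G.Adj (f i) (g i)) ∧
      (∀ i j, f i ≠ g j) ∧ Function.Injective f ∧ Function.Injective g := by
  change ∃ f g : Fin r → V, MM G N r f g
  induction r with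
  | zero =>
    exact ⟨fun i => i.elim0, fun i => i.elim0, fun i => i.elim0, fun i => i.elim0,
      fun i => i.elim0, fun i => i.elim0⟩
  | succ s ih =>
    exact ml_step G N d s hd hr hr2 (ih (by omega) (by omega))


end Jmatchlem
export Jmatchlem (matchlem)
end ED
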