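import Pool.Agent.Helper470.ED.Defs
import Pool.Agent.Helper470.ED.Mmatchlem
set_option autoImplicit false
open Finset
open scoped Classical

namespace ED
namespace Jegp




/-- deletion of a triangle -/
def delT {V : Type} (G : SimpleGraph V) (x y z : V) : SimpleGraph V :=
  G.deleteEdges {s(x, y), s(y, z), s(x, z)}

/-- `H` arises from `G` by deleting `a` edge-disjoint triangles -/
def RT {V : Type} : ℕ → SimpleGraph V → SimpleGraph V → Prop
  | 0, G, H => G = H
  | a + 1, G, H => ∃ x y z, G.Adj x y ∧ G.Adj y z ∧ G.Adj x z ∧ RT a (delT G x y z) H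

theorem RT_trans {V : Type} (a : ℕ) : ∀ (b : ℕ) (G H K : SimpleGraph V), RT a G H → RT b H K →
    RT (a + b) G K := by
  induction a with
  | zero =>
    intro b G H K h1 h2
    have h1' : G = H := h1
    subst h1'
    rwa [Nat.zero_add]
  | succ a ih =>
    intro b G H K h1 h2
    obtain ⟨x, y, z, e1, e2, e3, h⟩ := h1
    have : a + 1 + b = (a + b) + 1 := by omega
    rw [this]
    exact ⟨x, y, z, e1, e2, e3, ih b _ _ _ h h2⟩

theorem RT_le {V : Type} (a : ℕ) : ∀ (G H : SimpleGraph V), RT a G H → H ≤ G := by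
  induction a with
  | zero =>
    intro G H h
    have h1' : G = H := h
    exact h1'.symm.le
  | succ a ih =>
    intro G H h
    obtain ⟨x, y, z, e1, e2, e3, h⟩ := h
    exact (ih _ _ h).trans (SimpleGraph.deleteEdges_le _)

theorem RT_card {V : Type} [Fintype V] (a : ℕ) : ∀ (G H : SimpleGraph V), RT a G H →
    G.edgeSet.ncard = H.edgeSet.ncard + 3 * a := by
  induction a with
  | zero =>
    intro G H h
    have h1' : G = H := h
    subst h1'
    rfl
  | succ a ih =>
    intro G H h
    obtain ⟨x, y, z, e1, e2, e3, h⟩ := h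
    have h1 := ih _ _ h
    have h2 : (delT G x y z).edgeSet = G.edgeSet \ {s(x, y), s(y, z), s(x, z)} := by
      unfold delT
      rw [SimpleGraph.edgeSet_deleteEdges]
    have h3 : ({s(x, y), s(y, z), s(x, z)} : Set (Sym2 V)) ⊆ G.edgeSet := by
      intro e he
      rcases he with rfl | rfl | rfl
      · exact e1
      · exact e2
      · exact e3
    have hxy : x ≠ y := e1.ne
    have hyz : y ≠ z := e2.ne
    have hxz : x ≠ z := e3.ne
    have h4 : ({s(x, y), s(y, z), s(x, z)} : Set (Sym2 V)).ncard = 3 := by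
      rw [Set.ncard_eq_three]
      refine ⟨_, _, _, ?_, ?_, ?_, rfl⟩
      · simp only [ne_eq, Sym2.eq_iff]
        tauto
      · simp only [ne_eq, Sym2.eq_iff]
        tauto
      · simp only [ne_eq, Sym2.eq_iff]
        tauto
    have h5 := Set.ncard_sdiff_add_ncard_of_subset h3 (Set.toFinite _)
    rw [← h2, h4, h1] at h5
    omega

theorem tri_cycle {V : Type} (G : SimpleGraph V) (x y z : V) (e1 : G.Adj x y) (e2 : G.Adj y z)
    (e3 : G.Adj x z) : (SimpleGraph.Walk.cons e1 (SimpleGraph.Walk.cons e2
      (SimpleGraph.Walk.cons e3.symm SimpleGraph.Walk.nil))).IsCycle := by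
  have hxy : x ≠ y := e1.ne
  have hyz : y ≠ z := e2.ne
  have hxz : x ≠ z := e3.ne
  rw [SimpleGraph.Walk.cons_isCycle_iff]
  constructor
  · simp [SimpleGraph.Walk.cons_isPath_iff, hxy, hyz, hxz, hxy.symm, hyz.symm, hxz.symm]
  · simp only [SimpleGraph.Walk.edges_cons, SimpleGraph.Walk.edges_nil, List.mem_cons,
      List.not_mem_nil, Sym2.eq_iff, or_false]
    tauto

theorem HasEDC_tri {V : Type} (G : SimpleGraph V) (x y z : V) (e1 : G.Adj x y) (e2 : G.Adj y z)
    (e3 : G.Adj x z) (k : ℕ) (h : HasEDC (delT G x y z) k) : HasEDC G (k + 1) := by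
  obtain ⟨v, c, hc, hd⟩ := h
  have hle : delT G x y z ≤ G := SimpleGraph.deleteEdges_le _
  have key : ∀ i, ∀ e ∈ (c i).edges, e ≠ s(x, y) ∧ e ≠ s(y, z) ∧ e ≠ s(x, z) := by
    intro i e he
    have h1 := (c i).edges_subset_edgeSet he
    unfold delT at h1
    rw [SimpleGraph.edgeSet_deleteEdges] at h1
    have h2 := h1.2
    simp only [Set.mem_insert_iff, Set.mem_singleton_iff, not_or] at h2
    exact h2
  let v' : Fin (k + 1) → V := fun i => Fin.cases (motive := fun _ => V) x v i
  let c' : ∀ i : Fin (k + 1), G.Walk (v' i) (v' i) := fun i => @Fin.cases k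
    (fun i => G.Walk (v' i) (v' i))
    (show G.Walk x x from (SimpleGraph.Walk.cons e1 (SimpleGraph.Walk.cons e2
      (SimpleGraph.Walk.cons e3.symm SimpleGraph.Walk.nil))))
    (fun i => show G.Walk (v i) (v i) from (c i).mapLe hle) i
  refine ⟨v', c', ?_, ?_⟩
  · intro i
    refine Fin.cases ?_ (fun i => ?_) i
    · exact tri_cycle G x y z e1 e2 e3
    · exact (hc i).mapLe hle
  · intro i j
    refine Fin.cases ?_ (fun i => ?_) i
    · refine Fin.cases ?_ (fun j => ?_) j
      · intro h
        exact absurd rfl h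
      · intro _ e he
        have he' : e ∈ (SimpleGraph.Walk.cons e1 (SimpleGraph.Walk.cons e2
          (SimpleGraph.Walk.cons e3.symm SimpleGraph.Walk.nil))).edges := he
        show e ∉ ((c j).mapLe hle).edges
        rw [SimpleGraph.Walk.edges_mapLe_eq_edges]
        intro h2
        obtain ⟨k1, k2, k3⟩ := key j e h2
        simp only [SimpleGraph.Walk.edges_cons, SimpleGraph.Walk.edges_nil, List.mem_cons,
          List.not_mem_nil, or_false] at he'
        rcases he' with h | h | h
        · exact k1 h
        · exact k2 h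
        · exact k3 (h.trans Sym2.eq_swap)
    · refine Fin.cases ?_ (fun j => ?_) j
      · intro _ e he
        have he' : e ∈ ((c i).mapLe hle).edges := he
        rw [SimpleGraph.Walk.edges_mapLe_eq_edges] at he'
        obtain ⟨k1, k2, k3⟩ := key i e he'
        show e ∉ (SimpleGraph.Walk.cons e1 (SimpleGraph.Walk.cons e2
          (SimpleGraph.Walk.cons e3.symm SimpleGraph.Walk.nil))).edges
        simp only [SimpleGraph.Walk.edges_cons, SimpleGraph.Walk.edges_nil, List.mem_cons,
          List.not_mem_nil, or_false]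
        rintro (h | h | h)
        · exact k1 h
        · exact k2 h
        · exact k3 (h.trans Sym2.eq_swap)
      · intro hij e he
        have he' : e ∈ ((c i).mapLe hle).edges := he
        rw [SimpleGraph.Walk.edges_mapLe_eq_edges] at he'
        show e ∉ ((c j).mapLe hle).edges
        rw [SimpleGraph.Walk.edges_mapLe_eq_edges]
        exact hd i j (fun h => hij (by rw [h])) e he'

theorem RT_edc {V : Type} (a : ℕ) : ∀ (G H : SimpleGraph V), RT a G H → ∀ b, HasEDC H b →
    HasEDC G (a + b) := by
  induction a with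
  | zero =>
    intro G H h b hb
    have h1' : G = H := h
    subst h1'
    rwa [Nat.zero_add]
  | succ a ih =>
    intro G H h b hb
    obtain ⟨x, y, z, e1, e2, e3, h⟩ := h
    have h1 := HasEDC_tri G x y z e1 e2 e3 _ (ih _ _ h b hb)
    have : a + 1 + b = (a + b) + 1 := by omega
    rwa [this]

theorem RT_sup {V : Type} (a : ℕ) : ∀ (G H E : SimpleGraph V), (∀ u v, G.Adj u v → ¬ E.Adj u v) →
    RT a G H → RT a (G ⊔ E) (H ⊔ E) := by
  induction a with
  | zero =>
    intro G H E _ h
    have h1' : G = H := h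
    show G ⊔ E = H ⊔ E
    rw [h1']
  | succ a ih =>
    intro G H E hd h
    obtain ⟨x, y, z, e1, e2, e3, h⟩ := h
    refine ⟨x, y, z, Or.inl e1, Or.inl e2, Or.inl e3, ?_⟩
    have h1 : delT (G ⊔ E) x y z = delT G x y z ⊔ E := by
      ext u v
      unfold delT
      rw [SimpleGraph.sup_adj, SimpleGraph.deleteEdges_adj, SimpleGraph.deleteEdges_adj,
        SimpleGraph.sup_adj]
      constructor
      · rintro ⟨h1 | h1, h2⟩
        · exact Or.inl ⟨h1, h2⟩
        · exact Or.inr h1
      · rintro (⟨h1, h2⟩ | h1)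
        · exact ⟨Or.inl h1, h2⟩
        · refine ⟨Or.inr h1, ?_⟩
          intro h2
          have h3 : G.Adj u v := by
            rw [← SimpleGraph.mem_edgeSet]
            rcases h2 with h2 | h2 | h2
            · rw [h2]; exact e1
            · rw [h2]; exact e2
            · rw [Set.mem_singleton_iff] at h2
              rw [h2]; exact e3
          exact hd u v h3 h1
    rw [h1]
    refine ih _ _ _ ?_ h
    intro u v huv
    exact hd u v ((SimpleGraph.deleteEdges_le _ : delT G x y z ≤ G) huv)

/-- edges of the fan of triangles -/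
def fanE {V : Type} {r : ℕ} (x : V) (f g : Fin r → V) : Set (Sym2 V) :=
  {e | ∃ i, e = s(x, f i) ∨ e = s(x, g i) ∨ e = s(f i, g i)}

theorem RT_fan {V : Type} (r : ℕ) : ∀ (G : SimpleGraph V) (x : V) (f g : Fin r → V),
    (∀ i, G.Adj x (f i)) → (∀ i, G.Adj x (g i)) → (∀ i, G.Adj (f i) (g i)) →
    (∀ i j, f i ≠ g j) → Function.Injective f → Function.Injective g →
    RT r G (G.deleteEdges (fanE x f g)) := by
  induction r with
  | zero =>
    intro G x f g _ _ _ _ _ _
    show G = _
    ext u v
    rw [SimpleGraph.deleteEdges_adj]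
    constructor
    · intro h
      exact ⟨h, fun ⟨i, _⟩ => i.elim0⟩
    · intro h
      exact h.1
  | succ r ih =>
    intro G x f g hf hg hfg hne hfi hgi
    have hxf : ∀ i, x ≠ f i := fun i => (hf i).ne
    have hxg : ∀ i, x ≠ g i := fun i => (hg i).ne
    refine ⟨x, f 0, g 0, hf 0, hfg 0, hg 0, ?_⟩
    have hsf : ∀ i : Fin r, f i.succ ≠ f 0 := fun i h => absurd (hfi h) (Fin.succ_ne_zero i)
    have hsg : ∀ i : Fin r, g i.succ ≠ g 0 := fun i h => absurd (hgi h) (Fin.succ_ne_zero i)
    have h1 := ih (delT G x (f 0) (g 0)) x (fun i => f i.succ) (fun i => g i.succ) ?_ ?_ ?_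
      (fun i j => hne _ _) (fun i j h => Fin.succ_injective _ (hfi h))
      (fun i j h => Fin.succ_injective _ (hgi h))
    · have h2 : (delT G x (f 0) (g 0)).deleteEdges
          (fanE x (fun i => f i.succ) (fun i => g i.succ)) = G.deleteEdges (fanE x f g) := by
        ext u v
        unfold delT
        rw [SimpleGraph.deleteEdges_adj, SimpleGraph.deleteEdges_adj, SimpleGraph.deleteEdges_adj]
        constructor
        · rintro ⟨⟨h1, h2⟩, h3⟩
          refine ⟨h1, ?_⟩
          rintro ⟨i, hi⟩
          revert hi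
          refine Fin.cases ?_ (fun i => ?_) i
          · intro hi
            apply h2
            rcases hi with hi | hi | hi
            · exact Or.inl hi
            · exact Or.inr (Or.inr hi)
            · exact Or.inr (Or.inl hi)
          · intro hi
            exact h3 ⟨i, hi⟩
        · rintro ⟨h1, h2⟩
          refine ⟨⟨h1, ?_⟩, ?_⟩
          · intro h3
            apply h2
            rcases h3 with h3 | h3 | h3
            · exact ⟨0, Or.inl h3⟩
            · exact ⟨0, Or.inr (Or.inr h3)⟩
            · exact ⟨0, Or.inr (Or.inl h3)⟩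
          · rintro ⟨i, hi⟩
            exact h2 ⟨i.succ, hi⟩
      rw [h2] at h1
      exact h1
    · intro i
      unfold delT
      rw [SimpleGraph.deleteEdges_adj]
      refine ⟨hf _, ?_⟩
      simp only [Set.mem_insert_iff, Set.mem_singleton_iff, Sym2.eq_iff, not_or]
      have a1 := hsf i
      have a2 := hne i.succ 0
      have a3 := hxf 0
      have a4 := hxg 0
      refine ⟨?_, ?_, ?_⟩
      · tauto
      · tauto
      · tauto
    · intro i
      unfold delT
      rw [SimpleGraph.deleteEdges_adj]
      refine ⟨hg _, ?_⟩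
      simp only [Set.mem_insert_iff, Set.mem_singleton_iff, Sym2.eq_iff, not_or]
      have a1 := hsg i
      have a2 := (hne 0 i.succ).symm
      have a3 := hxf 0
      have a4 := hxg 0
      refine ⟨?_, ?_, ?_⟩
      · tauto
      · tauto
      · tauto
    · intro i
      unfold delT
      rw [SimpleGraph.deleteEdges_adj]
      refine ⟨hfg _, ?_⟩
      simp only [Set.mem_insert_iff, Set.mem_singleton_iff, Sym2.eq_iff, not_or]
      have a1 := hsg i
      have a2 := (hne 0 i.succ).symm
      have a3 := (hxf i.succ).symm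
      have a4 := (hxg i.succ).symm
      have a5 := hsf i
      have a6 := hne i.succ 0
      refine ⟨?_, ?_, ?_⟩
      · tauto
      · tauto
      · tauto

theorem egp_aux {V : Type} [Fintype V] (n : ℕ) : ∀ (S : Finset V) (G : SimpleGraph V),
    S.card = n → (∀ u v, G.Adj u v → u ∈ S ∧ v ∈ S) →
    ∃ (H : SimpleGraph V) (a : ℕ), RT a G H ∧ H.edgeSet.ncard + a ≤ n ^ 2 / 4 := by
  induction n with
  | zero =>
    intro S G hS hG
    refine ⟨G, 0, rfl, ?_⟩
    have h1 : G.edgeSet = ∅ := by
      rw [Set.eq_empty_iff_forall_notMem]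
      intro e
      refine Sym2.ind (fun u v => ?_) e
      intro h
      have h2 := (hG u v h).1
      rw [Finset.card_eq_zero.1 hS] at h2
      exact absurd h2 (Finset.notMem_empty u)
    rw [h1, Set.ncard_empty]
    simp
  | succ n ih =>
    intro S G hS hG
    have hne : S.Nonempty := by
      rw [← Finset.card_pos]
      omega
    obtain ⟨x, hxS, hmin⟩ := Finset.exists_min_image S
      (fun v => (univ.filter (fun w => G.Adj v w)).card) hne
    set N : Finset V := univ.filter (fun w => G.Adj x w) with hN
    set d := N.card with hd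
    have hmemN : ∀ w, w ∈ N ↔ G.Adj x w := by
      intro w
      rw [hN, Finset.mem_filter]
      simp
    have hNS : N ⊆ S.erase x := by
      intro w hw
      rw [hmemN] at hw
      rw [Finset.mem_erase]
      exact ⟨hw.ne', (hG x w hw).2⟩
    have hdn : d ≤ n := by
      have h1 := Finset.card_le_card hNS
      rw [Finset.card_erase_of_mem hxS, hS] at h1
      omega
    set r := d - (n + 1) / 2 with hr
    have hdeg : ∀ v ∈ N, r ≤ (N.filter (fun w => G.Adj v w)).card := by
      intro v hv
      have hvS : v ∈ S := (hG x v ((hmemN v).1 hv)).2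
      have h1 := hmin v hvS
      have h2 : (univ.filter (fun w => G.Adj v w)).card ≤
          (N.filter (fun w => G.Adj v w)).card + (S \ N).card := by
        rw [← Finset.card_union_of_disjoint]
        · refine Finset.card_le_card ?_
          intro w hw
          rw [Finset.mem_filter] at hw
          rw [Finset.mem_union, Finset.mem_filter, Finset.mem_sdiff]
          by_cases hwN : w ∈ N
          · exact Or.inl ⟨hwN, hw.2⟩
          · exact Or.inr ⟨(hG v w hw.2).2, hwN⟩
        · rw [Finset.disjoint_left]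
          intro w hw1 hw2
          rw [Finset.mem_filter] at hw1
          rw [Finset.mem_sdiff] at hw2
          exact hw2.2 hw1.1
      have h3 : (S \ N).card = n + 1 - d := by
        rw [Finset.card_sdiff_of_subset (hNS.trans (Finset.erase_subset _ _)), hS]
      rw [h3] at h2
      have h4 : d ≤ (univ.filter (fun w => G.Adj v w)).card := h1
      omega
    obtain ⟨f, g, hfg, hne', hfi, hgi⟩ := matchlem G N r r hdeg le_rfl (by omega)
    have hxf : ∀ i, G.Adj x (f i) := fun i => (hmemN _).1 (hfg i).1
    have hxg : ∀ i, G.Adj x (g i) := fun i => (hmemN _).1 (hfg i).2.1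
    have hR1 := RT_fan r G x f g hxf hxg (fun i => (hfg i).2.2) hne' hfi hgi
    set G1 := G.deleteEdges (fanE x f g) with hG1
    -- split off the star at x
    let St : SimpleGraph V := SimpleGraph.mk (fun u v => G1.Adj u v ∧ (u = x ∨ v = x))
      ⟨fun u v h => ⟨h.1.symm, h.2.symm⟩⟩ ⟨fun u h => G1.loopless.irrefl u h.1⟩
    let G' : SimpleGraph V := SimpleGraph.mk (fun u v => G1.Adj u v ∧ ¬ (u = x ∨ v = x))
      ⟨fun u v h => ⟨h.1.symm, fun h' => h.2 h'.symm⟩⟩ ⟨fun u h => G1.loopless.irrefl u h.1⟩
    have hsplit : G' ⊔ St = G1 := by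
      ext u v
      rw [SimpleGraph.sup_adj]
      show (G1.Adj u v ∧ ¬ (u = x ∨ v = x)) ∨ (G1.Adj u v ∧ (u = x ∨ v = x)) ↔ G1.Adj u v
      tauto
    have hG'S : ∀ u v, G'.Adj u v → u ∈ S.erase x ∧ v ∈ S.erase x := by
      intro u v h
      have h1 : G.Adj u v := (SimpleGraph.deleteEdges_le _ : G1 ≤ G) h.1
      have h2 := hG u v h1
      have h3 : ¬ (u = x ∨ v = x) := h.2
      rw [Finset.mem_erase, Finset.mem_erase]
      exact ⟨⟨fun e => h3 (Or.inl e), h2.1⟩, ⟨fun e => h3 (Or.inr e), h2.2⟩⟩
    obtain ⟨H', a', hR2, hcount⟩ := ih (S.erase x) G'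
      (by rw [Finset.card_erase_of_mem hxS, hS]; omega) hG'S
    have hR3 : RT a' (G' ⊔ St) (H' ⊔ St) := RT_sup a' G' H' St (fun u v h h' => h.2 h'.2) hR2
    rw [hsplit] at hR3
    refine ⟨H' ⊔ St, r + a', RT_trans r a' G G1 _ hR1 hR3, ?_⟩
    -- the number of edges of the star
    have hSt : St.edgeSet.ncard ≤ d - 2 * r := by
      have hsub : St.edgeSet ⊆ (fun w => s(x, w)) ''
          ((N \ (Finset.univ.image f ∪ Finset.univ.image g) : Finset V) : Set V) := by
        have hmem : ∀ w, St.Adj x w → w ∈ (N \ (Finset.univ.image f ∪ Finset.univ.image g)) := by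
          intro w h
          have h1 : G1.Adj x w := h.1
          rw [hG1, SimpleGraph.deleteEdges_adj] at h1
          rw [Finset.mem_sdiff, hmemN]
          refine ⟨h1.1, ?_⟩
          rw [Finset.mem_union, Finset.mem_image, Finset.mem_image]
          rintro (⟨i, _, hi⟩ | ⟨i, _, hi⟩)
          · exact h1.2 ⟨i, Or.inl (by rw [hi])⟩
          · exact h1.2 ⟨i, Or.inr (Or.inl (by rw [hi]))⟩
        intro e
        refine Sym2.ind (fun u v => ?_) e
        intro h
        have h0 : St.Adj u v := h
        rcases h0.2 with h1 | h1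
        · subst h1
          exact ⟨v, hmem v h0, rfl⟩
        · subst h1
          exact ⟨u, hmem u h0.symm, Sym2.eq_swap⟩
      have h1 := Set.ncard_le_ncard hsub (Set.toFinite _)
      have h2 := Set.ncard_image_le (f := fun w => s(x, w))
        (s := ((N \ (Finset.univ.image f ∪ Finset.univ.image g) : Finset V) : Set V))
        (Set.toFinite _)
      rw [Set.ncard_coe_finset] at h2
      have h3 : (Finset.univ.image f ∪ Finset.univ.image g).card = 2 * r := by
        rw [Finset.card_union_of_disjoint, Finset.card_image_of_injective _ hfi,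
          Finset.card_image_of_injective _ hgi, Finset.card_univ, Fintype.card_fin]
        · omega
        · rw [Finset.disjoint_left]
          intro w h1 h2
          rw [Finset.mem_image] at h1 h2
          obtain ⟨i, _, hi⟩ := h1
          obtain ⟨j, _, hj⟩ := h2
          exact hne' i j (hi.trans hj.symm)
      have h4 : (Finset.univ.image f ∪ Finset.univ.image g) ⊆ N := by
        intro w hw
        rw [Finset.mem_union, Finset.mem_image, Finset.mem_image] at hw
        rcases hw with ⟨i, _, hi⟩ | ⟨i, _, hi⟩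
        · rw [← hi]; exact (hfg i).1
        · rw [← hi]; exact (hfg i).2.1
      rw [Finset.card_sdiff_of_subset h4, h3] at h2
      exact h1.trans h2
    have hun : (H' ⊔ St).edgeSet.ncard ≤ H'.edgeSet.ncard + St.edgeSet.ncard := by
      rw [SimpleGraph.edgeSet_sup]
      exact Set.ncard_union_le _ _
    have harith : (n + 1) ^ 2 / 4 = n ^ 2 / 4 + (n + 1) / 2 := by
      obtain ⟨m, hm | hm⟩ := Nat.even_or_odd' n
      · subst hm
        have e1 : (2 * m + 1) ^ 2 = 4 * (m ^ 2 + m) + 1 := by ring
        have e2 : (2 * m) ^ 2 = 4 * m ^ 2 := by ring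
        rw [e1, e2]
        omega
      · subst hm
        have e1 : (2 * m + 1) ^ 2 = 4 * (m ^ 2 + m) + 1 := by ring
        have e2 : (2 * m + 1 + 1) ^ 2 = 4 * (m ^ 2 + 2 * m + 1) := by ring
        rw [e1, e2]
        omega
    rw [harith]
    have h2r : 2 * r ≤ d := by omega
    omega

-- TARGET (prove this)
theorem egp {V : Type} [Fintype V] (G : SimpleGraph V) : ∃ (H : SimpleGraph V) (a : ℕ), H ≤ G ∧
    G.edgeSet.ncard = H.edgeSet.ncard + 3 * a ∧ H.edgeSet.ncard + a ≤ (Fintype.card V) ^ 2 / 4 ∧
    ∀ b, HasEDC H b → HasEDC G (a + b) := by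
  obtain ⟨H, a, hR, hc⟩ := egp_aux (Fintype.card V) Finset.univ G Finset.card_univ
    (fun u v _ => ⟨Finset.mem_univ u, Finset.mem_univ v⟩)
  exact ⟨H, a, RT_le a G H hR, RT_card a G H hR, hc, RT_edc a G H hR⟩


end Jegp
export Jegp (egp)
end ED
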