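import Pool.Agent.Helper470.ED.Defs
import Pool.Agent.Helper470.ED.Maddcyc
import Pool.Agent.Helper470.ED.Mxbas
set_option autoImplicit false
open Finset
open scoped Classical

namespace ED
namespace Jpeel






-- TARGET (prove this)
theorem peel (g n a : ℕ) (G : SimpleGraph (Fin n)) (h : a = 0 ∨ X g n + g * a < G.edgeSet.ncard + g) :
    ∃ H : SimpleGraph (Fin n), G.edgeSet.ncard ≤ H.edgeSet.ncard + g * a ∧ ∀ b, HasEDC H b → HasEDC G (a + b) := by
  induction a generalizing G with
  | zero =>
    refine ⟨G, by simp, ?_⟩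
    intro b hb
    rw [Nat.zero_add]
    exact hb
  | succ a ih =>
    have h1 : X g n + g * a < G.edgeSet.ncard := by
      rcases h with h | h
      · omega
      · rw [Nat.mul_succ] at h
        omega
    have h2 : ¬ GirthGe G (g + 1) := by
      intro hg
      have := X_le g n G hg
      omega
    unfold GirthGe at h2
    push Not at h2
    obtain ⟨v, c, hc, hlen⟩ := h2
    have h3 : ({e | e ∈ c.edges} : Set (Sym2 (Fin n))).ncard ≤ g := by
      have e1 : ({e | e ∈ c.edges} : Set (Sym2 (Fin n))) = ↑(c.edges.toFinset) := by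
        ext e; simp
      rw [e1, Set.ncard_coe_finset]
      refine (List.toFinset_card_le _).trans ?_
      rw [SimpleGraph.Walk.length_edges]
      omega
    have h4 : G.edgeSet.ncard ≤ (G.deleteEdges {e | e ∈ c.edges}).edgeSet.ncard + g := by
      rw [SimpleGraph.edgeSet_deleteEdges]
      have h5 := Set.ncard_le_ncard_diff_add_ncard G.edgeSet
        ({e | e ∈ c.edges} : Set (Sym2 (Fin n))) (Set.toFinite _)
      omega
    obtain ⟨H, hH1, hH2⟩ := ih (G.deleteEdges {e | e ∈ c.edges}) (Or.inr (by omega))
    refine ⟨H, ?_, ?_⟩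
    · rw [Nat.mul_succ]
      omega
    · intro b hb
      have h6 := addcyc G v c hc (a + b) (hH2 b hb)
      have h7 : a + 1 + b = a + b + 1 := by omega
      rw [h7]
      exact h6


end Jpeel
export Jpeel (peel)
end ED
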