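import Pool.Agent.Helper470.ED.Defs
import Pool.Agent.Helper470.ED.Megp
import Pool.Agent.Helper470.ED.Mexd1
import Pool.Agent.Helper470.ED.Mpeel
import Pool.Agent.Helper470.ED.Mxbas
set_option autoImplicit false
open Finset
open scoped Classical

namespace ED
namespace Jdense_up










theorem edc_zero {V : Type} (G : SimpleGraph V) : HasEDC G 0 :=
  ⟨fun i => i.elim0, fun i => i.elim0, fun i => i.elim0, fun i => i.elim0⟩

theorem edc_mono {V : Type} (G : SimpleGraph V) {k m : ℕ} (hkm : k ≤ m) (h : HasEDC G m) :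
    HasEDC G k := by
  obtain ⟨v, c, h1, h2⟩ := h
  refine ⟨fun i => v (Fin.castLE hkm i), fun i => c (Fin.castLE hkm i), fun i => h1 _, ?_⟩
  intro i j hij
  exact h2 _ _ (fun h => hij (Fin.castLE_injective hkm h))

-- TARGET (prove this)
theorem dense_up (n k : ℕ) (hk : 1 ≤ k) : 3 * exd n k ≤ 8 * k + n ^ 2 / 4 + 2 * X 4 n := by
  have key : ∀ G : SimpleGraph (Fin n), ¬ HasEDC G k →
      3 * G.edgeSet.ncard ≤ 8 * k + n ^ 2 / 4 + 2 * X 4 n := by
    intro G hG
    obtain ⟨H, a, _, h1, h2, h3⟩ := egp G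
    rw [Fintype.card_fin] at h2
    have hak : a < k := by
      by_contra hc
      push Not at hc
      exact hG (edc_mono G hc (h3 0 (edc_zero H)))
    obtain ⟨b, hb⟩ : ∃ b, a + b = k := ⟨k - a, by omega⟩
    have h4 : H.edgeSet.ncard + 4 ≤ X 4 n + 4 * b := by
      by_contra hc
      push Not at hc
      obtain ⟨H', _, h5⟩ := peel 4 n b H (Or.inr hc)
      have h6 := h5 0 (edc_zero H')
      have h7 := h3 b h6
      rw [hb] at h7
      exact hG h7
    omega
  have hB := exd_le n k hk (((8 * k + n ^ 2 / 4 + 2 * X 4 n : ℕ) : ℝ) / 3) (by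
    intro G hG
    have h1 := key G hG
    rw [le_div_iff₀ (by norm_num)]
    have h2 : ((3 * G.edgeSet.ncard : ℕ) : ℝ) ≤ ((8 * k + n ^ 2 / 4 + 2 * X 4 n : ℕ) : ℝ) := by
      exact_mod_cast h1
    rw [Nat.cast_mul] at h2
    push_cast at h2 ⊢
    linarith)
  rw [le_div_iff₀ (by norm_num)] at hB
  have h3 : ((3 * exd n k : ℕ) : ℝ) ≤ ((8 * k + n ^ 2 / 4 + 2 * X 4 n : ℕ) : ℝ) := by
    rw [Nat.cast_mul]
    have : ((3:ℕ):ℝ) = 3 := by norm_num
    rw [this]
    linarith
  exact_mod_cast h3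


end Jdense_up
export Jdense_up (dense_up)
end ED
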