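import Pool.Agent.Helper470.ED.Defs
import Pool.Agent.Helper470.ED.Mexd1
set_option autoImplicit false
open Finset
open scoped Classical

namespace ED
namespace Jexd2






-- TARGET (prove this)
theorem mono (n k k' : ℕ) (hk : 1 ≤ k) (h : k ≤ k') : exd n k ≤ exd n k' := by
  have h1 : (exd n k : ℝ) ≤ ((exd n k' : ℕ) : ℝ) := by
    apply exd_le n k hk
    intro G hG
    have hG' : ¬ HasEDC G k' := by
      rintro ⟨v, c, hc, hd⟩
      apply hG
      refine ⟨fun i => v (Fin.castLE h i), fun i => c (Fin.castLE h i), fun i => hc _, ?_⟩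
      intro i j hij
      apply hd
      intro heq
      exact hij (Fin.castLE_injective h heq)
    exact_mod_cast le_exd n k' G hG'
  exact_mod_cast h1

-- TARGET (prove this)
theorem tree (n k : ℕ) (hk : 1 ≤ k) : n ≤ exd n k + 1 := by
  rcases Nat.eq_zero_or_pos n with h0 | hpos
  · omega
  · haveI : Nonempty (Fin n) := ⟨⟨0, hpos⟩⟩
    have hconn : (⊤ : SimpleGraph (Fin n)).Connected := SimpleGraph.connected_top
    obtain ⟨T, hTle, hT⟩ := hconn.exists_isTree_le
    have hcard := hT.card_edgeFinset
    rw [Fintype.card_fin] at hcard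
    have hno : ¬ HasEDC T k := by
      rintro ⟨v, c, hc, _⟩
      exact hT.IsAcyclic (c ⟨0, hk⟩) (hc ⟨0, hk⟩)
    have h1 := le_exd n k T hno
    rw [Set.ncard_eq_toFinset_card'] at h1
    unfold SimpleGraph.edgeFinset at hcard
    have h2 : T.edgeSet.toFinset.card ≤ exd n k := by
      convert h1
    omega


end Jexd2
export Jexd2 (mono tree)
end ED
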