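import Pool.Agent.Helper470.ED.Defs
import Pool.Agent.Helper470.ED.Maddedge
import Pool.Agent.Helper470.ED.Mball
set_option autoImplicit false
open Finset
open scoped Classical

namespace ED
namespace Jgreedy






-- TARGET (prove this)
theorem greedy (n g D : ℕ) (hg : 3 ≤ g) (hD : 2 ≤ D) (hn : 4 * D ^ (g - 2) ≤ n) :
    ∃ G : SimpleGraph (Fin n), GirthGe G g ∧ n * D ≤ 4 * G.edgeSet.ncard := by
  set S : Finset (SimpleGraph (Fin n)) := univ.filter (fun G => GirthGe G g ∧
    ∀ v, (univ.filter (fun w => G.Adj v w)).card ≤ D) with hS
  have hne : S.Nonempty := by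
    refine ⟨⊥, ?_⟩
    rw [hS, mem_filter]
    refine ⟨mem_univ _, ?_, ?_⟩
    · intro v c hc
      exfalso
      cases c with
      | nil => exact hc.ne_nil rfl
      | cons h p => exact h
    · intro v
      simp
  obtain ⟨G, hGS, hmax⟩ := S.exists_max_image (fun G => G.edgeSet.ncard) hne
  rw [hS, mem_filter] at hGS
  obtain ⟨-, hgir, hdeg⟩ := hGS
  refine ⟨G, hgir, ?_⟩
  set U : Finset (Fin n) := univ.filter (fun v => (univ.filter (fun w => G.Adj v w)).card < D) with hU
  have hlink : ∀ u ∈ U, ∀ v ∈ U, ∃ w : G.Walk u v, w.length ≤ g - 2 := by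
    intro u hu v hv
    by_cases huv : u = v
    · subst huv
      exact ⟨SimpleGraph.Walk.nil, by simp⟩
    by_contra hcon
    push Not at hcon
    have hw : ∀ w : G.Walk u v, g ≤ w.length + 1 := by
      intro w
      have := hcon w
      omega
    have hnadj : ¬ G.Adj u v := by
      intro ha
      have := hw (SimpleGraph.Walk.cons ha SimpleGraph.Walk.nil)
      simp at this
      omega
    have h1 := addedge G g hgir u v huv hw
    have hadj : ∀ a b, (G ⊔ SimpleGraph.edge u v).Adj a b ↔
        (G.Adj a b ∨ (a = u ∧ b = v) ∨ (a = v ∧ b = u)) := by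
      intro a b
      rw [SimpleGraph.sup_adj, SimpleGraph.edge_adj]
      constructor
      · rintro (h | ⟨h, -⟩)
        · exact Or.inl h
        · rcases h with ⟨rfl, rfl⟩ | ⟨rfl, rfl⟩ <;> tauto
      · rintro (h | ⟨rfl, rfl⟩ | ⟨rfl, rfl⟩)
        · exact Or.inl h
        · exact Or.inr ⟨by tauto, huv⟩
        · exact Or.inr ⟨by tauto, Ne.symm huv⟩
    have h2 : ∀ a, (univ.filter (fun w => (G ⊔ SimpleGraph.edge u v).Adj a w)).card ≤ D := by
      intro a
      rw [hU, mem_filter] at hu hv
      by_cases hau : a = u
      · subst hau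
        have : (univ.filter (fun w => (G ⊔ SimpleGraph.edge a v).Adj a w)) ⊆
            insert v (univ.filter (fun w => G.Adj a w)) := by
          intro w hw'
          rw [mem_filter, hadj] at hw'
          rw [mem_insert, mem_filter]
          rcases hw'.2 with h | ⟨-, h⟩ | ⟨h, -⟩
          · exact Or.inr ⟨mem_univ _, h⟩
          · exact Or.inl h
          · exact absurd h huv
        have h3 := card_le_card this
        have h4 := card_insert_le v (univ.filter (fun w => G.Adj a w))
        have h5 := hu.2
        omega
      · by_cases hav : a = v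
        · subst hav
          have : (univ.filter (fun w => (G ⊔ SimpleGraph.edge u a).Adj a w)) ⊆
              insert u (univ.filter (fun w => G.Adj a w)) := by
            intro w hw'
            rw [mem_filter, hadj] at hw'
            rw [mem_insert, mem_filter]
            rcases hw'.2 with h | ⟨h, -⟩ | ⟨-, h⟩
            · exact Or.inr ⟨mem_univ _, h⟩
            · exact absurd h hau
            · exact Or.inl h
          have h3 := card_le_card this
          have h4 := card_insert_le u (univ.filter (fun w => G.Adj a w))
          have h5 := hv.2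
          omega
        · have : (univ.filter (fun w => (G ⊔ SimpleGraph.edge u v).Adj a w)) ⊆
              (univ.filter (fun w => G.Adj a w)) := by
            intro w hw'
            rw [mem_filter, hadj] at hw'
            rw [mem_filter]
            rcases hw'.2 with h | ⟨h, -⟩ | ⟨h, -⟩
            · exact ⟨mem_univ _, h⟩
            · exact absurd h hau
            · exact absurd h hav
          exact (card_le_card this).trans (hdeg a)
    have hin : (G ⊔ SimpleGraph.edge u v) ∈ S := by
      rw [hS, mem_filter]
      exact ⟨mem_univ _, h1, fun a => by convert h2 a⟩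
    have h3 : (G ⊔ SimpleGraph.edge u v).edgeSet.ncard ≤ G.edgeSet.ncard := hmax _ hin
    have h4 : G.edgeSet ⊂ (G ⊔ SimpleGraph.edge u v).edgeSet := by
      rw [SimpleGraph.edgeSet_ssubset_edgeSet]
      refine lt_of_le_of_ne le_sup_left ?_
      intro heq
      apply hnadj
      rw [heq, hadj]
      tauto
    have h5 := Set.ncard_lt_ncard h4 (Set.toFinite _)
    omega
  have hUcard : U.card ≤ 2 * D ^ (g - 2) := by
    rcases U.eq_empty_or_nonempty with hE | ⟨u, hu⟩
    · rw [hE]; simp
    · refine le_trans (card_le_card ?_) (ball G D hD hdeg u (g - 2))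
      intro v hv
      rw [mem_filter]
      exact ⟨mem_univ _, hlink u hu v hv⟩
  have hsum : ∑ v, G.degree v = 2 * G.edgeSet.ncard := by
    rw [SimpleGraph.sum_degrees_eq_twice_card_edges, ← SimpleGraph.coe_edgeFinset,
      Set.ncard_coe_finset]
  have hdegeq : ∀ v, G.degree v = (univ.filter (fun w => G.Adj v w)).card := by
    intro v
    rw [← SimpleGraph.card_neighborFinset_eq_degree]
    congr 1
    ext w
    simp
  have hlow : (univ \ U).card * D ≤ ∑ v, G.degree v := by
    calc (univ \ U).card * D = ∑ v ∈ univ \ U, D := by rw [sum_const, smul_eq_mul]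
      _ ≤ ∑ v ∈ univ \ U, G.degree v := by
        apply sum_le_sum
        intro v hv
        rw [mem_sdiff, hU, mem_filter] at hv
        rw [hdegeq]
        by_contra hc
        push Not at hc
        exact hv.2 ⟨mem_univ _, hc⟩
      _ ≤ ∑ v, G.degree v := sum_le_sum_of_subset (subset_univ _)
  have hc : (univ \ U).card + U.card = n := by
    have := card_sdiff_add_card_eq_card (subset_univ U)
    simpa using this
  have h6 : n ≤ 2 * (univ \ U).card := by omega
  calc n * D ≤ (2 * (univ \ U).card) * D := Nat.mul_le_mul_right _ h6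
    _ = 2 * ((univ \ U).card * D) := by ring
    _ ≤ 2 * (∑ v, G.degree v) := Nat.mul_le_mul_left _ hlow
    _ = 4 * G.edgeSet.ncard := by rw [hsum]; ring


end Jgreedy
export Jgreedy (greedy)
end ED
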