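import Pool.Agent.Helper470.ED.Defs
import Pool.Agent.Helper470.ED.Mgreedy
import Pool.Agent.Helper470.ED.Mlow
set_option autoImplicit false
open Finset
open scoped Classical

namespace ED
namespace Jlg






-- TARGET (prove this)
theorem lowg (n g D k : ℕ) (hg : 3 ≤ g) (hD : 2 ≤ D) (hn : 4 * D ^ (g - 2) ≤ n) (hk : 1 ≤ k)
    (h : 4 * g * k ≤ n * D) : g * k ≤ exd n k + 1 := by
  obtain ⟨G, hG, he⟩ := greedy n g D hg hD hn
  refine low n g k (by omega) hk G hG ?_
  have : 4 * (g * k) ≤ 4 * G.edgeSet.ncard := by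
    calc 4 * (g * k) = 4 * g * k := by ring
      _ ≤ n * D := h
      _ ≤ _ := he
  omega


end Jlg
export Jlg (lowg)
end ED
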