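import Pool.Agent.Helper470.ED.Defs
import Pool.Agent.Helper470.ED.Mexd2
import Pool.Agent.Helper470.ED.Mlg
import Pool.Agent.Helper470.ED.Mlowers
set_option autoImplicit false
open Finset
open scoped Classical

namespace ED
namespace Jolower










-- TARGET (prove this)
theorem order_lower (n k : ℕ) (hn : 2 ≤ n) (hk : 1 ≤ k) (hkn : k ≤ n ^ 2) :
    ((n : ℝ) + k * Real.log n / Real.log (2 + k * Real.log n / n)) ≤ 200 * (exd n k : ℝ) := by
  have hN2 : (2:ℝ) ≤ (n:ℝ) := by exact_mod_cast hn
  have hK1 : (1:ℝ) ≤ (k:ℝ) := by exact_mod_cast hk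
  have hKN : (k:ℝ) ≤ (n:ℝ) ^ 2 := by exact_mod_cast hkn
  have htree : (n:ℝ) ≤ (exd n k : ℝ) + 1 := by exact_mod_cast tree n k hk
  set E : ℝ := (exd n k : ℝ) with hE
  set L : ℝ := Real.log n with hL
  set x : ℝ := k * L / n with hx
  have hNpos : (0:ℝ) < (n:ℝ) := by linarith
  have hlog2 : (0.69:ℝ) < Real.log 2 := by
    have := Real.log_two_gt_d9; linarith
  have hLpos : 0 < L := Real.log_pos (by linarith)
  have hxpos : 0 < x := by rw [hx]; positivity
  have hKL : (k:ℝ) * L = n * x := by rw [hx]; field_simp
  have hlog2x : Real.log 2 ≤ Real.log (2 + x) := Real.log_le_log (by norm_num) (by linarith)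
  have hlogpos : 0 < Real.log (2 + x) := by linarith
  have hNE : (n:ℝ) ≤ 2 * E := by linarith
  have hEpos : 1 ≤ E := by linarith
  rcases le_or_gt x 4 with h4 | h4
  · have h1 : (k:ℝ) * L / Real.log (2 + x) ≤ 6 * n := by
      rw [hKL, div_le_iff₀ hlogpos]
      have : (n:ℝ) * x ≤ n * 4 := mul_le_mul_of_nonneg_left h4 hNpos.le
      have h2 : 6 * (n:ℝ) * 0.69 ≤ 6 * n * Real.log (2 + x) :=
        mul_le_mul_of_nonneg_left (by linarith) (by positivity)
      linarith
    linarith
  · have hlogx : Real.log 4 ≤ Real.log x := Real.log_le_log (by norm_num) h4.le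
    have hlog4 : Real.log 4 = 2 * Real.log 2 := by
      rw [show (4:ℝ) = 2 ^ 2 by norm_num, Real.log_pow]; norm_num
    have hlogx1 : 1.38 < Real.log x := by linarith
    have hlogxx : Real.log x ≤ Real.log (2 + x) := Real.log_le_log (by linarith) (by linarith)
    rcases lt_or_ge L (8 * Real.log x) with h8 | h8
    · -- case 2
      have h1 : (k:ℝ) * L / Real.log (2 + x) ≤ 8 * k := by
        rw [div_le_iff₀ hlogpos]
        have : (k:ℝ) * L ≤ k * (8 * Real.log (2 + x)) :=
          mul_le_mul_of_nonneg_left (by linarith) (by linarith)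
        linarith
      have hn4 : 4 ≤ n := by
        by_contra hcon
        push Not at hcon
        have hNx : (4:ℝ) * n < k * L := by rw [hKL]; nlinarith
        have hn3 : n = 2 ∨ n = 3 := by omega
        rcases hn3 with h | h
        · have hn' : (n:ℝ) = 2 := by rw [h]; norm_num
          have hL2 : L ≤ 1 := by
            rw [hL, hn']
            have := Real.log_two_lt_d9
            linarith
          rw [hn'] at hNx hKN
          nlinarith
        · have hn' : (n:ℝ) = 3 := by rw [h]; norm_num
          have hL2 : L ≤ 4/3 := by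
            rw [hL, hn', Real.log_le_iff_le_exp (by norm_num)]
            have := Real.quadratic_le_exp_of_nonneg (x := 4/3) (by norm_num)
            linarith
          rw [hn'] at hNx hKN
          nlinarith
      have hn16 : 16 ≤ n ^ 2 := by nlinarith
      set k' : ℕ := min k (n ^ 2 / 16) with hk'
      have hq : 1 ≤ n ^ 2 / 16 := by omega
      have hk'1 : 1 ≤ k' := by rw [hk']; exact le_min hk hq
      have hk'k : k' ≤ k := min_le_left _ _
      have hk'16 : 16 * k' ≤ n ^ 2 := by
        have : k' ≤ n ^ 2 / 16 := min_le_right _ _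
        omega
      have hk32 : k ≤ 32 * k' := by
        rcases le_total k (n ^ 2 / 16) with h | h
        · rw [hk', min_eq_left h]; omega
        · rw [hk', min_eq_right h]; omega
      have h2 := lower2 n k' hk'1 hk'16
      have h3 := mono n k' k hk'1 hk'k
      have h4' : (4:ℝ) * k' ≤ E + 1 := by
        have : 4 * k' ≤ exd n k + 1 := by omega
        rw [hE]
        exact_mod_cast this
      have h5 : (k:ℝ) ≤ 32 * k' := by exact_mod_cast hk32
      have h6 : (1:ℝ) ≤ k' := by exact_mod_cast hk'1
      linarith
    · -- case 3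
      have hlogxpos : 0 < Real.log x := by linarith
      set u : ℝ := L / (8 * Real.log x) with hu
      have hu1 : 1 ≤ u := by rw [hu, le_div_iff₀ (by positivity)]; linarith
      have huL : u * (8 * Real.log x) = L := by rw [hu]; field_simp
      set j : ℕ := ⌊u⌋₊ with hj
      have hj1 : 1 ≤ j := by rw [hj]; exact Nat.le_floor (by simpa using hu1)
      have hju : (j:ℝ) ≤ u := Nat.floor_le (by linarith)
      have hju' : u < j + 1 := Nat.lt_floor_add_one u
      set D : ℕ := ⌈2 * x⌉₊ with hD
      have hD1 : 2 * x ≤ D := Nat.le_ceil _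
      have hD2 : (D:ℝ) < 2 * x + 1 := Nat.ceil_lt_add_one (by linarith)
      have hD3 : (D:ℝ) ≤ x ^ 2 := by nlinarith
      have hDge : 2 ≤ D := by
        have : (2:ℝ) ≤ D := by linarith
        exact_mod_cast this
      have hL11 : 11 ≤ L := by linarith
      have hpow : (4:ℝ) * (D:ℝ) ^ j ≤ n := by
        have h1 : (D:ℝ) ^ j ≤ (x ^ 2) ^ j := pow_le_pow_left₀ (by positivity) hD3 j
        have h2 : (x ^ 2) ^ j = Real.exp (2 * j * Real.log x) := by
          rw [← pow_mul, ← Real.rpow_natCast, Real.rpow_def_of_pos hxpos]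
          congr 1
          push_cast
          ring
        have h3 : Real.exp (2 * j * Real.log x) ≤ Real.exp (L / 4) := by
          apply Real.exp_le_exp.2
          have : (j:ℝ) * (8 * Real.log x) ≤ L := by
            rw [← huL]
            exact mul_le_mul_of_nonneg_right hju (by positivity)
          linarith
        have h4e : (4:ℝ) ≤ Real.exp (3 * L / 4) := by
          have := Real.add_one_le_exp (3 * L / 4)
          linarith
        have h5 : (n:ℝ) = Real.exp (3 * L / 4) * Real.exp (L / 4) := by
          rw [← Real.exp_add, show 3 * L / 4 + L / 4 = L by ring, hL, Real.exp_log hNpos]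
        rw [h5]
        have h6 : (D:ℝ) ^ j ≤ Real.exp (L / 4) := by linarith
        exact mul_le_mul h4e h6 (by positivity) (by positivity)
      have hpowN : 4 * D ^ (j + 2 - 2) ≤ n := by
        rw [Nat.add_sub_cancel]
        exact_mod_cast hpow
      have hx2 : (k:ℝ) = n * x / L := by rw [← hKL]; field_simp
      have hjL : (j:ℝ) ≤ L / 8 := by
        have : u * 8 ≤ L := by
          rw [← huL]; nlinarith
        linarith
      have hgk : (4:ℝ) * (j + 2) * k ≤ n * D := by
        have h1 : 2 * ((j:ℝ) + 2) ≤ L := by linarith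
        have h2 : 4 * ((j:ℝ) + 2) * k ≤ 2 * L * k :=
          mul_le_mul_of_nonneg_right (by linarith) (by linarith)
        have h3 : 2 * L * (k:ℝ) = n * (2 * x) := by
          linarith [hKL]
        have h4' : (n:ℝ) * (2 * x) ≤ n * D := mul_le_mul_of_nonneg_left hD1 hNpos.le
        linarith
      have hgkN : 4 * (j + 2) * k ≤ n * D := by exact_mod_cast hgk
      have hfin := lowg n (j + 2) D k (by omega) hDge hpowN hk hgkN
      have hfin' : ((j:ℝ) + 2) * k ≤ E + 1 := by
        rw [hE]
        exact_mod_cast hfin
      have h7 : u * k ≤ E := by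
        have : u * k ≤ ((j:ℝ) + 1) * k := mul_le_mul_of_nonneg_right hju'.le (by linarith)
        linarith
      have h9 : (k:ℝ) * L / Real.log (2 + x) ≤ 8 * (u * k) := by
        rw [div_le_iff₀ hlogpos]
        have h10 : (k:ℝ) * L = 8 * (u * k) * Real.log x := by rw [← huL]; ring
        rw [h10]
        exact mul_le_mul_of_nonneg_left hlogxx (by positivity)
      linarith


end Jolower
export Jolower (order_lower)
end ED
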