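import Pool.Agent.Helper470.ED.Defs
import Pool.Agent.Helper470.ED.Mexd1
set_option autoImplicit false
open Finset
open scoped Classical

namespace ED
namespace Jk4




theorem k4_w3 {V : Type} {G : SimpleGraph V} {u w : V} (c : G.Walk u w) (h : c.length = 3) :
    ∃ a b, G.Adj u a ∧ G.Adj a b ∧ G.Adj b w ∧ c.edges = [s(u, a), s(a, b), s(b, w)] := by
  cases c with
  | nil => simp at h
  | cons h1 p =>
    cases p with
    | nil => simp at h
    | cons h2 q =>
      cases q with
      | nil => simp at h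
      | cons h3 r =>
        cases r with
        | nil => exact ⟨_, _, h1, h2, h3, by simp⟩
        | cons h4 t => simp at h

end Jk4
end ED
theorem ED_k4_fin : ∀ v a b w x y : Fin 4, v ≠ a → a ≠ b → b ≠ v → w ≠ x → x ≠ y → y ≠ w →
    ∃ e ∈ ([(v, a), (a, b), (b, v)] : List (Fin 4 × Fin 4)),
      ∃ f ∈ ([(w, x), (x, y), (y, w)] : List (Fin 4 × Fin 4)),
        e = f ∨ e = (f.2, f.1) := by
  decide +kernel

namespace ED
namespace Jk4
-- TARGET (prove this)
theorem k4 : 6 ≤ exd 4 2 := by
  have hE : (⊤ : SimpleGraph (Fin 4)).edgeSet.ncard = 6 := by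
    rw [← SimpleGraph.coe_edgeFinset, Set.ncard_coe_finset,
      SimpleGraph.card_edgeFinset_top_eq_card_choose_two]
    rfl
  rw [← hE]
  apply le_exd
  rintro ⟨v, c, hc, hd⟩
  have h01 := hd 0 1 (by decide)
  have hn0 : (c 0).edges.Nodup := (hc 0).isTrail.edges_nodup
  have hn1 : (c 1).edges.Nodup := (hc 1).isTrail.edges_nodup
  have hl0 : 3 ≤ (c 0).length := (hc 0).three_le_length
  have hl1 : 3 ≤ (c 1).length := (hc 1).three_le_length
  have hn : ((c 0).edges ++ (c 1).edges).Nodup := by
    rw [List.nodup_append]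
    refine ⟨hn0, hn1, ?_⟩
    intro e he f hf hef
    subst hef
    exact h01 e he hf
  have hcard : ((c 0).edges ++ (c 1).edges).toFinset.card ≤ 6 := by
    rw [← hE, ← SimpleGraph.coe_edgeFinset, Set.ncard_coe_finset]
    apply Finset.card_le_card
    intro e he
    rw [List.mem_toFinset, List.mem_append] at he
    rw [SimpleGraph.mem_edgeFinset]
    rcases he with he | he
    · exact (c 0).edges_subset_edgeSet he
    · exact (c 1).edges_subset_edgeSet he
  rw [List.toFinset_card_of_nodup hn, List.length_append, SimpleGraph.Walk.length_edges,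
    SimpleGraph.Walk.length_edges] at hcard
  obtain ⟨a, b, h1, h2, h3, he⟩ := k4_w3 (c 0) (by omega)
  obtain ⟨x, y, g1, g2, g3, hf⟩ := k4_w3 (c 1) (by omega)
  obtain ⟨e, he1, f, hf1, hef⟩ := ED_k4_fin (v 0) a b (v 1) x y h1.ne h2.ne h3.ne g1.ne g2.ne g3.ne
  have m1 : s(e.1, e.2) ∈ (c 0).edges := by
    rw [he]
    simp only [List.mem_cons, List.not_mem_nil, or_false] at he1 ⊢
    rcases he1 with rfl | rfl | rfl
    · exact Or.inl rfl
    · exact Or.inr (Or.inl rfl)
    · exact Or.inr (Or.inr rfl)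
  have m2 : s(f.1, f.2) ∈ (c 1).edges := by
    rw [hf]
    simp only [List.mem_cons, List.not_mem_nil, or_false] at hf1 ⊢
    rcases hf1 with rfl | rfl | rfl
    · exact Or.inl rfl
    · exact Or.inr (Or.inl rfl)
    · exact Or.inr (Or.inr rfl)
  have m3 : s(e.1, e.2) = s(f.1, f.2) := by
    rcases hef with rfl | rfl
    · rfl
    · exact Sym2.eq_swap
  rw [m3] at m1
  exact h01 _ m1 m2


end Jk4
export Jk4 (k4)
end ED
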