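import Pool.Agent.Helper470.ED.Defs
import Pool.Agent.Helper470.ED.Mattach
import Pool.Agent.Helper470.ED.Mexd2
import Pool.Agent.Helper470.ED.Mk4
import Pool.Agent.Helper470.ED.Mlg
set_option autoImplicit false
open Finset
open scoped Classical

namespace ED
namespace Jsparse_low










-- TARGET (prove this)
theorem sparse_low : ∃ c : ℝ, 0 < c ∧ ∀ n k : ℕ, 6 ≤ n → 2 ≤ k → (k : ℝ) * Real.log k ≤ n →
    (n : ℝ) + c * (k * Real.log k) ≤ exd n k := by
  refine ⟨1 / 1000, by norm_num, ?_⟩
  intro n k hn hk hkn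
  have hkR : (2 : ℝ) ≤ k := by exact_mod_cast hk
  have hlog0 : 0 ≤ Real.log k := Real.log_nonneg (by linarith)
  by_cases hk25 : k < 25
  · have h1 : exd 4 2 + (n - 4) ≤ exd n 2 := attach 4 n 2 (by norm_num) (by omega) (by norm_num)
    have h2 : exd n 2 ≤ exd n k := mono n 2 k (by norm_num) hk
    have h3 := k4
    have h4 : n + 2 ≤ exd n k := by omega
    have h5 : (n : ℝ) + 2 ≤ exd n k := by exact_mod_cast h4
    have h6 : Real.log k ≤ (k : ℝ) - 1 := Real.log_le_sub_one_of_pos (by linarith)
    have h7 : (k : ℝ) ≤ 24 := by exact_mod_cast (by omega : k ≤ 24)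
    have h8 : (k : ℝ) * Real.log k ≤ 24 * 23 := mul_le_mul h7 (by linarith) hlog0 (by norm_num)
    linarith
  · have hk25' : 25 ≤ k := by omega
    obtain ⟨l, hl⟩ : ∃ l, l = Nat.log 5 k := ⟨_, rfl⟩
    have hl2 : 2 ≤ l := by
      rw [hl]
      exact Nat.le_log_of_pow_le (by norm_num) (by simpa using hk25')
    have hpow : 5 ^ l ≤ k := by
      rw [hl]
      exact Nat.pow_log_le_self 5 (by omega)
    have hlt : k < 5 ^ (l + 1) := by
      rw [hl]
      exact Nat.lt_pow_succ_log_self (by norm_num) k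
    have l5 : (3 / 2 : ℝ) ≤ Real.log 5 := by
      have h1 : (9 : ℝ) * Real.log 2 ≤ 4 * Real.log 5 := by
        have e1 : (9 : ℝ) * Real.log 2 = Real.log ((2 : ℝ) ^ 9) := by
          rw [Real.log_pow]; norm_num
        have e2 : (4 : ℝ) * Real.log 5 = Real.log ((5 : ℝ) ^ 4) := by
          rw [Real.log_pow]; norm_num
        rw [e1, e2]
        exact Real.log_le_log (by norm_num) (by norm_num)
      have h2 := Real.log_two_gt_d9
      linarith
    have l5u : Real.log 5 ≤ 4 := by
      have := Real.log_le_sub_one_of_pos (show (0 : ℝ) < 5 by norm_num)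
      linarith
    have hA : (l : ℝ) * Real.log 5 ≤ Real.log k := by
      rw [← Real.log_pow]
      exact Real.log_le_log (by positivity) (by exact_mod_cast hpow)
    have hB : Real.log k ≤ ((l : ℝ) + 1) * Real.log 5 := by
      have h1 : Real.log k ≤ Real.log ((5 : ℝ) ^ (l + 1)) :=
        Real.log_le_log (by linarith) (by exact_mod_cast hlt.le)
      rw [Real.log_pow] at h1
      push_cast at h1
      exact h1
    have hlR : (2 : ℝ) ≤ l := by exact_mod_cast hl2
    have hg : (l : ℝ) + 1 ≤ Real.log k := by nlinarith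
    have hB' : Real.log k ≤ ((l : ℝ) + 1) * 4 :=
      hB.trans (mul_le_mul_of_nonneg_left l5u (by linarith))
    obtain ⟨m, hm⟩ : ∃ m, m = (l + 1) * k := ⟨_, rfl⟩
    have hm3 : 3 * k ≤ m := by
      rw [hm]
      exact Nat.mul_le_mul_right k (by omega)
    have hmR : (m : ℝ) = ((l : ℝ) + 1) * k := by
      rw [hm]; push_cast; ring
    have hmn : m ≤ n := by
      have h1 : (m : ℝ) ≤ n := by
        rw [hmR]
        have h2 : ((l : ℝ) + 1) * k ≤ Real.log k * k := mul_le_mul_of_nonneg_right hg (by linarith)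
        linarith
      exact_mod_cast h1
    obtain ⟨q, hq⟩ : ∃ q, q = 5 ^ (l + 1 - 2) := ⟨_, rfl⟩
    have hq5 : 5 * q ≤ k := by
      have h1 : 5 * q = 5 ^ l := by
        rw [hq]
        have h2 : l = (l + 1 - 2) + 1 := by omega
        conv_rhs => rw [h2]
        rw [pow_succ]
        ring
      omega
    have hlow := lowg ((4 * m + 4) / 5) (l + 1) 5 k (by omega) (by norm_num)
      (by rw [← hq]; omega) (by omega)
      (by
        have h1 : 4 * (l + 1) * k = 4 * m := by rw [hm]; ring
        rw [h1]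
        omega)
    have hatt := attach ((4 * m + 4) / 5) n k (by omega) (by omega) (by omega)
    rw [← hm] at hlow
    have hfin : 5 * n + m ≤ 5 * exd n k + 9 := by omega
    have hfinR : 5 * (n : ℝ) + m ≤ 5 * exd n k + 9 := by exact_mod_cast hfin
    have hkl : (k : ℝ) * Real.log k ≤ 4 * m := by
      rw [hmR]
      have h2 : (k : ℝ) * Real.log k ≤ k * (((l : ℝ) + 1) * 4) := mul_le_mul_of_nonneg_left hB' (by linarith)
      linarith
    have hm75 : (75 : ℝ) ≤ m := by exact_mod_cast (by omega : 75 ≤ m)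
    linarith


end Jsparse_low
export Jsparse_low (sparse_low)
end ED
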