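import Pool.Agent.Helper470.ED.Defs
import Pool.Agent.Helper470.ED.Mexd2
import Pool.Agent.Helper470.ED.Molower
import Pool.Agent.Helper470.ED.Msparse_low
set_option autoImplicit false
open Finset
open scoped Classical

namespace ED
namespace Jelow








-- TARGET (prove this)
theorem excess_lower : ∃ c : ℝ, 0 < c ∧ ∀ n k : ℕ, 6 ≤ n → 2 ≤ k → k ≤ n ^ 2 →
    (n : ℝ) + c * (k * Real.log k / Real.log (2 + k * Real.log k / n)) ≤ exd n k := by
  obtain ⟨c0, hc0, hs⟩ := sparse_low
  refine ⟨min (c0 / 180000000) (1 / 1600), by positivity, ?_⟩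
  intro n k hn hk hkn
  have hk2 : (2 : ℝ) ≤ k := by exact_mod_cast hk
  have hn6 : (6 : ℝ) ≤ n := by exact_mod_cast hn
  have hlogk : 0 < Real.log k := Real.log_pos (by linarith)
  have hc1 : min (c0 / 180000000) (1 / 1600) ≤ c0 / 180000000 := min_le_left _ _
  have hc2 : min (c0 / 180000000) (1 / 1600) ≤ 1 / 1600 := min_le_right _ _
  have hcp : 0 < min (c0 / 180000000) (1 / 1600) := by positivity
  generalize min (c0 / 180000000) (1 / 1600) = c at hc1 hc2 hcp
  have hnpos : (0 : ℝ) < n := by linarith
  have hKlpos : 0 < (k : ℝ) * Real.log k := by positivity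
  have hlog2 : (1 / 2 : ℝ) ≤ Real.log 2 := by have := Real.log_two_gt_d9; linarith
  have hlog2' : Real.log 2 ≤ 1 := by have := Real.log_two_lt_d9; linarith
  obtain ⟨y, hy⟩ : ∃ y : ℝ, y = (k : ℝ) * Real.log k / n := ⟨_, rfl⟩
  have hyn : (k : ℝ) * Real.log k = y * n := by rw [hy]; field_simp
  rw [← hy]
  have hy0 : 0 < y := by rw [hy]; positivity
  have hL : (1 / 2 : ℝ) ≤ Real.log (2 + y) :=
    le_trans hlog2 (Real.log_le_log (by norm_num) (by linarith))
  have hLpos : 0 < Real.log (2 + y) := by linarith
  have hE : (k : ℝ) * Real.log k / Real.log (2 + y) ≤ 2 * (k * Real.log k) := by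
    rw [div_le_iff₀ hLpos]; nlinarith
  have hEpos : 0 ≤ (k : ℝ) * Real.log k / Real.log (2 + y) := by positivity
  by_cases h1 : (k : ℝ) * Real.log k ≤ n
  · have h := hs n k hn hk h1
    have : c * ((k : ℝ) * Real.log k / Real.log (2 + y)) ≤ c0 * (k * Real.log k) := by
      calc c * ((k : ℝ) * Real.log k / Real.log (2 + y))
          ≤ (c0 / 180000000) * (2 * (k * Real.log k)) :=
            mul_le_mul hc1 hE hEpos (by positivity)
        _ ≤ c0 * (k * Real.log k) := by nlinarith [mul_pos hc0 hKlpos]
    linarith
  · push Not at h1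
    by_cases h2 : y ≤ 30000000
    · -- middle case
      classical
      let P : ℕ → Prop := fun j => 2 ≤ j ∧ (j : ℝ) * Real.log j ≤ n
      have hP2 : P 2 := ⟨le_refl _, by push_cast; nlinarith⟩
      have hspec : P (Nat.findGreatest P k) := Nat.findGreatest_spec hk hP2
      have hle : Nat.findGreatest P k ≤ k := Nat.findGreatest_le k
      have hne : Nat.findGreatest P k ≠ k := by
        intro h
        have h' := hspec
        rw [h] at h'
        exact absurd h'.2 (not_le.mpr h1)
      have hlt : Nat.findGreatest P k < k := lt_of_le_of_ne hle hne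
      have hnot : ¬ P (Nat.findGreatest P k + 1) :=
        Nat.findGreatest_is_greatest (Nat.lt_succ_self _) hlt
      generalize Nat.findGreatest P k = k' at hspec hle hne hlt hnot
      obtain ⟨hk'2, hk'n⟩ := hspec
      have hk'r : (2 : ℝ) ≤ k' := by exact_mod_cast hk'2
      have hnot' : (n : ℝ) < ((k' + 1 : ℕ) : ℝ) * Real.log ((k' + 1 : ℕ) : ℝ) := by
        by_contra hcon
        exact hnot ⟨by omega, not_lt.mp hcon⟩
      push_cast at hnot'
      have hlk' : 0 < Real.log k' := Real.log_pos (by linarith)
      have hl1 : Real.log ((k' : ℝ) + 1) ≤ 2 * Real.log k' := by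
        have : Real.log ((k' : ℝ) ^ 2) = 2 * Real.log k' := by
          rw [Real.log_pow]; norm_num
        rw [← this]
        exact Real.log_le_log (by linarith) (by nlinarith)
      have h3 : (n : ℝ) ≤ 3 * ((k' : ℝ) * Real.log k') := by
        have : ((k' : ℝ) + 1) * Real.log ((k' : ℝ) + 1) ≤ (3 / 2 * k') * (2 * Real.log k') :=
          mul_le_mul (by linarith) hl1 (Real.log_nonneg (by linarith)) (by positivity)
        linarith
      have h4 := hs n k' hn hk'2 hk'n
      have h5 : (exd n k' : ℝ) ≤ exd n k := by
        exact_mod_cast mono n k' k (by omega) hle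
      have h6 : c * ((k : ℝ) * Real.log k / Real.log (2 + y)) ≤ c0 * (n / 3) := by
        calc c * ((k : ℝ) * Real.log k / Real.log (2 + y))
            ≤ (c0 / 180000000) * (2 * (k * Real.log k)) :=
              mul_le_mul hc1 hE hEpos (by positivity)
          _ = (c0 / 180000000) * (2 * (y * n)) := by rw [hyn]
          _ ≤ (c0 / 180000000) * (2 * (30000000 * n)) := by gcongr
          _ = c0 * (n / 3) := by ring
      have h7 : c0 * ((n : ℝ) / 3) ≤ c0 * ((k' : ℝ) * Real.log k') :=
        mul_le_mul_of_nonneg_left (by linarith) hc0.le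
      linarith
    · push Not at h2
      have ho := order_lower n k (by omega) (by omega) hkn
      have hlogn : 0 < Real.log n := Real.log_pos (by linarith)
      have hlk : Real.log k ≤ 2 * Real.log n := by
        have h : Real.log ((n : ℝ) ^ 2) = 2 * Real.log n := by rw [Real.log_pow]; norm_num
        rw [← h]
        exact Real.log_le_log (by linarith) (by exact_mod_cast hkn)
      have hlogkk : Real.log k ≤ k := by
        have := Real.log_le_sub_one_of_pos (show (0 : ℝ) < k by linarith)
        linarith
      have hnk : (n : ℝ) ≤ (k : ℝ) ^ 2 := by nlinarith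
      have hln : Real.log n ≤ 2 * Real.log k := by
        have h : Real.log ((k : ℝ) ^ 2) = 2 * Real.log k := by rw [Real.log_pow]; norm_num
        rw [← h]
        exact Real.log_le_log hnpos hnk
      have hz : (k : ℝ) * Real.log n / n ≤ 2 * y := by
        rw [div_le_iff₀ hnpos]
        nlinarith
      have hz0 : 0 < (k : ℝ) * Real.log n / n := by positivity
      have hlz : Real.log (2 + k * Real.log n / n) ≤ 2 * Real.log (2 + y) := by
        have h : Real.log ((2 + y) ^ 2) = 2 * Real.log (2 + y) := by rw [Real.log_pow]; norm_num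
        rw [← h]
        exact Real.log_le_log (by linarith) (by nlinarith)
      have hlz0 : 0 < Real.log (2 + k * Real.log n / n) := Real.log_pos (by linarith)
      have hq : (k : ℝ) * Real.log k / Real.log (2 + y) / 4
          ≤ k * Real.log n / Real.log (2 + k * Real.log n / n) := by
        rw [div_div, div_le_div_iff₀ (by positivity) hlz0]
        have e1 : (k : ℝ) * Real.log k ≤ 2 * (k * Real.log n) := by nlinarith
        have e2 : (k : ℝ) * Real.log k * Real.log (2 + k * Real.log n / n)
            ≤ (2 * (k * Real.log n)) * (2 * Real.log (2 + y)) :=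
          mul_le_mul e1 hlz hlz0.le (by positivity)
        linarith
      have hsq : Real.sqrt (2 + y) ≤ y / 3200 := by
        rw [Real.sqrt_le_left (by positivity)]
        nlinarith
      have hls : Real.log (2 + y) ≤ 2 * Real.sqrt (2 + y) := by
        have hsp : 0 < Real.sqrt (2 + y) := Real.sqrt_pos.mpr (by linarith)
        have h : Real.log (2 + y) = 2 * Real.log (Real.sqrt (2 + y)) := by
          rw [Real.log_sqrt (by linarith)]; ring
        have h' := Real.log_le_sub_one_of_pos hsp
        linarith
      have hbig : 1600 * (n : ℝ) ≤ (k : ℝ) * Real.log k / Real.log (2 + y) := by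
        rw [le_div_iff₀ hLpos, hyn]
        have : Real.log (2 + y) ≤ y / 1600 := by linarith
        nlinarith
      have hc3 : c * ((k : ℝ) * Real.log k / Real.log (2 + y))
          ≤ (1 / 1600) * ((k : ℝ) * Real.log k / Real.log (2 + y)) :=
        mul_le_mul_of_nonneg_right hc2 hEpos
      linarith


end Jelow
export Jelow (excess_lower)
end ED
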