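import Pool.Agent.Helper470.ED.Defs
set_option autoImplicit false
open Finset
open scoped Classical

namespace ED
namespace Jmindeg


-- TARGET (prove this)
theorem mindeg {V : Type} [Fintype V] (G : SimpleGraph V) (D : ℕ)
    (h : D * Fintype.card V < G.edgeSet.ncard) :
    ∃ S : Finset V, S.Nonempty ∧ ∀ v ∈ S, D < (S.filter (fun w => G.Adj v w)).card := by
  have main : ∀ S : Finset V, D * S.card < {e ∈ G.edgeSet | ∀ v ∈ e, v ∈ S}.ncard →
      ∃ S : Finset V, S.Nonempty ∧ ∀ v ∈ S, D < (S.filter (fun w => G.Adj v w)).card := by
    intro S
    induction S using Finset.strongInduction with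
    | H S ih =>
      intro hS
      by_cases hall : ∀ v ∈ S, D < (S.filter (fun w => G.Adj v w)).card
      · refine ⟨S, ?_, hall⟩
        by_contra hne
        rw [Finset.not_nonempty_iff_eq_empty] at hne
        subst hne
        have h0 : {e ∈ G.edgeSet | ∀ v ∈ e, v ∈ (∅ : Finset V)} = ∅ := by
          ext e
          simp only [Set.mem_sep_iff, Set.mem_empty_iff_false, iff_false, not_and]
          intro _ he
          induction e using Sym2.ind with
          | _ a b =>
            exact absurd (he a (Sym2.mem_mk_left a b)) (Finset.notMem_empty a)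
        rw [h0, Set.ncard_empty] at hS
        omega
      · push Not at hall
        obtain ⟨v, hv, hvD⟩ := hall
        apply ih (S.erase v) (Finset.erase_ssubset hv)
        have hsub : {e ∈ G.edgeSet | ∀ u ∈ e, u ∈ S} ⊆
            {e ∈ G.edgeSet | ∀ u ∈ e, u ∈ S.erase v} ∪
              (((S.filter (fun w => G.Adj v w)).image (fun w => s(v, w)) : Finset (Sym2 V)) :
                Set (Sym2 V)) := by
          rintro e ⟨he, heS⟩
          by_cases hve : v ∈ e
          · right
            obtain ⟨w, rfl⟩ := Sym2.mem_iff_exists.mp hve
            rw [Finset.mem_coe, Finset.mem_image]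
            refine ⟨w, ?_, rfl⟩
            rw [Finset.mem_filter]
            exact ⟨heS w (Sym2.mem_mk_right v w), he⟩
          · left
            refine ⟨he, fun u hu => ?_⟩
            rw [Finset.mem_erase]
            exact ⟨fun h => hve (h ▸ hu), heS u hu⟩
        have h1 : {e ∈ G.edgeSet | ∀ u ∈ e, u ∈ S}.ncard ≤
            {e ∈ G.edgeSet | ∀ u ∈ e, u ∈ S.erase v}.ncard + D := by
          refine (Set.ncard_le_ncard hsub (Set.toFinite _)).trans ?_
          refine (Set.ncard_union_le _ _).trans ?_
          have h2 : (((S.filter (fun w => G.Adj v w)).image (fun w => s(v, w)) :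
              Finset (Sym2 V)) : Set (Sym2 V)).ncard ≤ D := by
            rw [Set.ncard_coe_finset]
            exact Finset.card_image_le.trans hvD
          omega
        have h3 : S.card = (S.erase v).card + 1 := by
          rw [Finset.card_erase_of_mem hv]
          have := Finset.card_pos.mpr ⟨v, hv⟩
          omega
        rw [h3, Nat.mul_add, Nat.mul_one] at hS
        omega
  apply main Finset.univ
  have : {e ∈ G.edgeSet | ∀ v ∈ e, v ∈ (Finset.univ : Finset V)} = G.edgeSet := by
    ext e
    simp
  rw [this, Finset.card_univ]
  exact h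


end Jmindeg
export Jmindeg (mindeg)
end ED
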