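import Pool.Agent.Helper470.ED.Defs
set_option autoImplicit false
open Finset
open scoped Classical

namespace ED
namespace Juniq


-- TARGET (prove this)
theorem uniq {V : Type} (G : SimpleGraph V) (l : ℕ) (h : GirthGe G (2 * l + 1)) (u v : V)
    (p q : G.Walk u v) (hp : p.IsPath) (hq : q.IsPath) (hpl : p.length ≤ l) (hql : q.length ≤ l) : p = q := by
  by_contra hne
  let H : SimpleGraph V := SimpleGraph.fromEdgeSet {e | e ∈ p.edges ∨ e ∈ q.edges}
  have hHG : H ≤ G := by
    intro a b hab
    have hab' : (s(a, b) ∈ p.edges ∨ s(a, b) ∈ q.edges) ∧ a ≠ b := by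
      simpa [H] using hab
    rcases hab'.1 with h1 | h1
    · exact p.adj_of_mem_edges h1
    · exact q.adj_of_mem_edges h1
  have hpe : ∀ e ∈ p.edges, e ∈ H.edgeSet := by
    intro e he
    rw [SimpleGraph.edgeSet_fromEdgeSet]
    exact ⟨Or.inl he, fun hd => G.not_isDiag_of_mem_edgeSet (p.edges_subset_edgeSet he) hd⟩
  have hqe : ∀ e ∈ q.edges, e ∈ H.edgeSet := by
    intro e he
    rw [SimpleGraph.edgeSet_fromEdgeSet]
    exact ⟨Or.inr he, fun hd => G.not_isDiag_of_mem_edgeSet (q.edges_subset_edgeSet he) hd⟩
  by_cases hac : H.IsAcyclic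
  · have hP : (p.transfer H hpe).IsPath := hp.transfer hpe
    have hQ : (q.transfer H hqe).IsPath := hq.transfer hqe
    have heq := hac.path_unique ⟨_, hP⟩ ⟨_, hQ⟩
    have heq' : p.transfer H hpe = q.transfer H hqe := congrArg Subtype.val heq
    have hm := congrArg (fun w : H.Walk u v => w.mapLe hHG) heq'
    apply hne
    have key : ∀ (a b : V) (w : G.Walk a b) (hw : ∀ e ∈ w.edges, e ∈ H.edgeSet),
        (w.transfer H hw).mapLe hHG = w := by
      intro a b w
      induction w with
      | nil => intro hw; rfl
      | cons hadj w ih =>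
        intro hw
        have h0 : ∀ e ∈ w.edges, e ∈ H.edgeSet := fun e he => hw e (by simp [he])
        have h1 := ih h0
        have h2 : ((SimpleGraph.Walk.cons hadj w).transfer H hw) =
            SimpleGraph.Walk.cons (hw _ (List.mem_cons_self)) (w.transfer H h0) := rfl
        rw [h2]
        show SimpleGraph.Walk.cons _ ((w.transfer H h0).mapLe hHG) = SimpleGraph.Walk.cons _ w
        rw [h1]
    have h1 := key u v p hpe
    have h2 := key u v q hqe
    have hm' : (p.transfer H hpe).mapLe hHG = (q.transfer H hqe).mapLe hHG := hm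
    rw [h1, h2] at hm'
    exact hm'
  · unfold SimpleGraph.IsAcyclic at hac
    push Not at hac
    obtain ⟨x, c, hc⟩ := hac
    have hcyc : (c.mapLe hHG).IsCycle := (SimpleGraph.Walk.mapLe_isCycle hHG).2 hc
    have h1 := h x (c.mapLe hHG) hcyc
    have h2 : (c.mapLe hHG).length = c.length := by simp [SimpleGraph.Walk.mapLe]
    have h3 : c.edges ⊆ p.edges ++ q.edges := by
      intro e he
      have := c.edges_subset_edgeSet he
      rw [SimpleGraph.edgeSet_fromEdgeSet] at this
      have h4 := this.1
      rw [List.mem_append]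
      exact h4
    have h4 : c.edges.length ≤ (p.edges ++ q.edges).length :=
      (List.subperm_of_subset hc.edges_nodup h3).length_le
    rw [List.length_append, SimpleGraph.Walk.length_edges, SimpleGraph.Walk.length_edges,
      SimpleGraph.Walk.length_edges] at h4
    omega


end Juniq
export Juniq (uniq)
end ED
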