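import Pool.Agent.Helper470.ED.Defs
import Pool.Agent.Helper470.ED.Muniq
set_option autoImplicit false
open Finset
open scoped Classical

namespace ED
namespace Jpaths




theorem back {V : Type} (G : SimpleGraph V) (l : ℕ) (hl : 1 ≤ l) (h : GirthGe G (2 * l + 1))
    (u w x : V) (p : G.Walk u w) (hp : p.IsPath) (hpl : p.length ≤ l) (hx : x ∈ p.support)
    (ha : G.Adj w x) : x = p.penultimate := by
  have hq : (SimpleGraph.Walk.cons ha.symm SimpleGraph.Walk.nil : G.Walk x w).IsPath := by
    simp [ha.ne']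
  have h1 := uniq G l h x w (p.dropUntil x hx) (SimpleGraph.Walk.cons ha.symm SimpleGraph.Walk.nil)
    (hp.dropUntil hx) hq ((p.length_dropUntil_le_length hx).trans hpl) (by simpa using hl)
  have h2 : s(w, x) ∈ (p.dropUntil x hx).edges := by
    rw [h1]
    simp [Sym2.eq_swap]
  exact hp.eq_penultimate_of_mem_edges (p.edges_dropUntil_subset_edges hx h2)

theorem grow {V : Type} [Fintype V] (G : SimpleGraph V) (l D : ℕ) (hl : 1 ≤ l)
    (h : GirthGe G (2 * l + 1)) (S : Finset V) (v0 : V) (hv0 : v0 ∈ S)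
    (hd : ∀ v ∈ S, D < (S.filter (fun w => G.Adj v w)).card) (j : ℕ) (hj : j ≤ l) :
    D ^ j ≤ (univ.filter (fun w => ∃ p : G.Walk v0 w, p.IsPath ∧ p.length = j ∧
      ∀ x ∈ p.support, x ∈ S)).card := by
  induction j with
  | zero =>
    rw [pow_zero, Finset.one_le_card]
    refine ⟨v0, ?_⟩
    rw [mem_filter]
    exact ⟨mem_univ _, SimpleGraph.Walk.nil, by simp, by simp, by simpa using hv0⟩
  | succ j ih =>
    have ih' := ih (by omega)
    set P := univ.filter (fun w => ∃ p : G.Walk v0 w, p.IsPath ∧ p.length = j ∧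
      ∀ x ∈ p.support, x ∈ S) with hP
    set Nb : V → Finset V := fun w => S.filter (fun x => G.Adj w x ∧
      ∃ p : G.Walk v0 w, (p.IsPath ∧ p.length = j ∧ ∀ y ∈ p.support, y ∈ S) ∧
        x ∉ p.support) with hNb
    have hcard : ∀ w ∈ P, D ≤ (Nb w).card := by
      intro w hw
      obtain ⟨p, q1, q2, q3⟩ := (mem_filter.1 hw).2
      have hwS : w ∈ S := q3 w (SimpleGraph.Walk.end_mem_support _)
      have h1 := hd w hwS
      have h2 : S.filter (fun x => G.Adj w x) ⊆ insert p.penultimate (Nb w) := by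
        intro x hx
        obtain ⟨hxS, hxa⟩ := mem_filter.1 hx
        rw [mem_insert]
        by_cases hxp : x ∈ p.support
        · left
          exact back G l hl h v0 w x p q1 (by omega) hxp hxa
        · right
          exact mem_filter.2 ⟨hxS, hxa, p, ⟨q1, q2, q3⟩, hxp⟩
      have h3 := (card_le_card h2).trans (card_insert_le _ _)
      omega
    have hdisj : ∀ w ∈ P, ∀ w' ∈ P, w ≠ w' → Disjoint (Nb w) (Nb w') := by
      intro w hw w' hw' hne
      rw [Finset.disjoint_left]
      intro x hx hx'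
      obtain ⟨hxS, hxa, p, ⟨q1, q2, q3⟩, hxn⟩ := mem_filter.1 hx
      obtain ⟨_, hxa', p', ⟨r1, r2, r3⟩, hxn'⟩ := mem_filter.1 hx'
      have e1 := uniq G l h v0 x (p.concat hxa) (p'.concat hxa')
        (q1.concat hxn hxa) (r1.concat hxn' hxa')
        (by rw [SimpleGraph.Walk.length_concat]; omega)
        (by rw [SimpleGraph.Walk.length_concat]; omega)
      obtain ⟨hww, _⟩ := SimpleGraph.Walk.concat_inj e1
      exact hne hww
    have hsub : P.biUnion Nb ⊆ univ.filter (fun w => ∃ p : G.Walk v0 w, p.IsPath ∧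
        p.length = j + 1 ∧ ∀ x ∈ p.support, x ∈ S) := by
      intro x hx
      obtain ⟨w, hw, hxw⟩ := mem_biUnion.1 hx
      obtain ⟨hxS, hxa, p, ⟨q1, q2, q3⟩, hxn⟩ := mem_filter.1 hxw
      refine mem_filter.2 ⟨mem_univ _, p.concat hxa, q1.concat hxn hxa, ?_, ?_⟩
      · rw [SimpleGraph.Walk.length_concat, q2]
      · intro y hy
        rw [SimpleGraph.Walk.support_concat] at hy
        have hy' : y ∈ p.support ∨ y = x := by simpa using hy
        rcases hy' with hy' | hy'
        · exact q3 y hy'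
        · rw [hy']
          exact hxS
    calc D ^ (j + 1) = D ^ j * D := pow_succ _ _
      _ ≤ P.card * D := Nat.mul_le_mul_right _ ih'
      _ ≤ ∑ w ∈ P, (Nb w).card := by
        rw [← smul_eq_mul]
        exact Finset.card_nsmul_le_sum _ _ _ hcard
      _ = (P.biUnion Nb).card := (card_biUnion hdisj).symm
      _ ≤ _ := card_le_card hsub

-- TARGET (prove this)
theorem paths {V : Type} [Fintype V] (G : SimpleGraph V) (l D : ℕ) (hl : 1 ≤ l)
    (h : GirthGe G (2 * l + 1)) (S : Finset V) (hS : S.Nonempty)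
    (hd : ∀ v ∈ S, D < (S.filter (fun w => G.Adj v w)).card) : D ^ l < Fintype.card V := by
  obtain ⟨v0, hv0⟩ := hS
  refine lt_of_le_of_lt (grow G l D hl h S v0 hv0 hd l le_rfl) ?_
  rw [← Finset.card_univ]
  refine Finset.card_lt_card ?_
  rw [Finset.ssubset_univ_iff]
  intro hcon
  have h1 := mem_univ v0
  rw [← hcon, mem_filter] at h1
  obtain ⟨_, p, hp, hlen, _⟩ := h1
  rw [SimpleGraph.Walk.isPath_iff_nil] at hp
  have := SimpleGraph.Walk.nil_iff_length_eq.1 hp
  omega


end Jpaths
export Jpaths (paths)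
end ED
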