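import Pool.Agent.Helper470.ED.Defs
import Pool.Agent.Helper470.ED.Mmindeg
import Pool.Agent.Helper470.ED.Mpaths
set_option autoImplicit false
open Finset
open scoped Classical

namespace ED
namespace Jmoore






-- TARGET (prove this)
theorem moore {V : Type} [Fintype V] (G : SimpleGraph V) (l : ℕ) (hl : 1 ≤ l) (h : GirthGe G (2 * l + 1)) :
    (G.edgeSet.ncard : ℝ) ≤ 2 * (Fintype.card V : ℝ) ^ (1 + 1 / (l : ℝ)) := by
  rcases Nat.eq_zero_or_pos (Fintype.card V) with h0 | hpos
  · haveI : IsEmpty V := Fintype.card_eq_zero_iff.1 h0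
    have he : G.edgeSet = ∅ := by
      ext e
      induction e using Sym2.ind with
      | _ a b => exact isEmptyElim a
    rw [he, Set.ncard_empty]
    have : (0 : ℝ) ≤ (Fintype.card V : ℝ) ^ (1 + 1 / (l : ℝ)) := by positivity
    push_cast
    linarith
  · by_contra hcon
    push Not at hcon
    set n : ℕ := Fintype.card V with hn
    have hn1 : (1 : ℝ) ≤ (n : ℝ) := by exact_mod_cast hpos
    have hn0 : (0 : ℝ) < (n : ℝ) := by linarith
    set x : ℝ := (n : ℝ) ^ (1 / (l : ℝ)) with hx
    have hl0 : (0 : ℝ) < (l : ℝ) := by exact_mod_cast hl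
    have hx1 : 1 ≤ x := Real.one_le_rpow hn1 (by positivity)
    have hxl : x ^ l = (n : ℝ) := by
      rw [hx, ← Real.rpow_natCast, ← Real.rpow_mul hn0.le]
      rw [one_div, inv_mul_cancel₀ hl0.ne', Real.rpow_one]
    have hsplit : (n : ℝ) ^ (1 + 1 / (l : ℝ)) = n * x := by
      rw [Real.rpow_add hn0, Real.rpow_one]
    rw [hsplit] at hcon
    set D : ℕ := ⌊2 * x⌋₊ with hD
    have hDle : (D : ℝ) ≤ 2 * x := Nat.floor_le (by linarith)
    have hDgt : 2 * x < (D : ℝ) + 1 := Nat.lt_floor_add_one _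
    have h1 : D * n < G.edgeSet.ncard := by
      have : ((D * n : ℕ) : ℝ) < (G.edgeSet.ncard : ℝ) := by
        push_cast
        calc (D : ℝ) * n ≤ 2 * x * n := by nlinarith
          _ = 2 * (n * x) := by ring
          _ < _ := hcon
      exact_mod_cast this
    obtain ⟨S, hS, hd⟩ := mindeg G D h1
    have h2 := paths G l D hl h S hS hd
    have h3 : ((D ^ l : ℕ) : ℝ) < (n : ℝ) := by exact_mod_cast h2
    have h4 : x ^ l ≤ (D : ℝ) ^ l := pow_le_pow_left₀ (by linarith) (by linarith) l
    push_cast at h3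
    linarith


end Jmoore
export Jmoore (moore)
end ED
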