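import Pool.Agent.Helper470.ED.Defs
import Pool.Agent.Helper470.ED.Mmoore
set_option autoImplicit false
open Finset
open scoped Classical

namespace ED
namespace Jpack




-- TARGET (prove this)
theorem pack {V : Type} [Fintype V] (l : ℕ) (hl : 1 ≤ l) (k : ℕ) (G : SimpleGraph V)
    (h : 2 * (Fintype.card V : ℝ) ^ (1 + 1 / (l : ℝ)) + 2 * l * k < (G.edgeSet.ncard : ℝ) + 2 * l) : HasEDC G k := by
  induction k generalizing G with
  | zero => exact ⟨fun i => i.elim0, fun i => i.elim0, fun i => i.elim0, fun i => i.elim0⟩
  | succ k ih =>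
    push_cast at h
    have hlk : (0:ℝ) ≤ 2 * l * k := by positivity
    have hng : ¬ GirthGe G (2 * l + 1) := by
      intro hg
      have := moore G l hl hg
      nlinarith
    unfold GirthGe at hng
    push Not at hng
    obtain ⟨v0, c0, hc0, hlen⟩ := hng
    have hlen' : c0.length ≤ 2 * l := by omega
    obtain ⟨s, hs⟩ : ∃ s : Set (Sym2 V), s = {e | e ∈ c0.edges} := ⟨_, rfl⟩
    have hsf : s = (c0.edges.toFinset : Set (Sym2 V)) := by rw [hs]; ext e; simp
    have hscard : s.ncard ≤ 2 * l := by
      rw [hsf, Set.ncard_coe_finset]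
      refine (List.toFinset_card_le _).trans ?_
      rw [SimpleGraph.Walk.length_edges]
      exact hlen'
    have hsfin : s.Finite := by rw [hsf]; exact Finset.finite_toSet _
    have hcard : G.edgeSet.ncard ≤ (G.deleteEdges s).edgeSet.ncard + 2 * l := by
      rw [SimpleGraph.edgeSet_deleteEdges]
      have := Set.ncard_le_ncard_sdiff_add_ncard G.edgeSet s hsfin
      omega
    have hcard' : (G.edgeSet.ncard : ℝ) ≤ ((G.deleteEdges s).edgeSet.ncard : ℝ) + 2 * l := by
      exact_mod_cast hcard
    obtain ⟨v', c', hc', hd'⟩ := ih (G.deleteEdges s) (by nlinarith)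
    have hle : G.deleteEdges s ≤ G := SimpleGraph.deleteEdges_le s
    have hnot : ∀ i, ∀ e ∈ (c' i).edges, e ∉ c0.edges := by
      intro i e he hec
      have h1 := SimpleGraph.Walk.edges_subset_edgeSet _ he
      rw [SimpleGraph.edgeSet_deleteEdges] at h1
      apply h1.2
      rw [hs]; exact hec
    refine ⟨Fin.cons v0 v', fun i => Fin.cases (motive := fun i => G.Walk ((Fin.cons v0 v' : Fin (k+1) → V) i) ((Fin.cons v0 v' : Fin (k+1) → V) i)) c0 (fun i => (c' i).mapLe hle) i, ?_, ?_⟩
    · intro i
      refine Fin.cases ?_ ?_ i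
      · exact hc0
      · intro i
        exact (hc' i).mapLe hle
    · intro i j
      refine Fin.cases ?_ ?_ i
      · refine Fin.cases ?_ ?_ j
        · intro h; exact absurd rfl h
        · intro j _ e he
          show e ∉ ((c' j).mapLe hle).edges
          rw [SimpleGraph.Walk.edges_mapLe_eq_edges]
          intro h2
          exact hnot j e h2 he
      · intro i
        refine Fin.cases ?_ ?_ j
        · intro _ e he
          change e ∈ ((c' i).mapLe hle).edges at he
          rw [SimpleGraph.Walk.edges_mapLe_eq_edges] at he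
          exact hnot i e he
        · intro j hij e he
          change e ∈ ((c' i).mapLe hle).edges at he
          show e ∉ ((c' j).mapLe hle).edges
          rw [SimpleGraph.Walk.edges_mapLe_eq_edges] at he ⊢
          exact hd' i j (fun h => hij (by rw [h])) e he


end Jpack
export Jpack (pack)
end ED
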