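import Pool.Agent.Helper470.ED.Defs
import Pool.Agent.Helper470.ED.Mexd1
import Pool.Agent.Helper470.ED.Mpack
set_option autoImplicit false
open Finset
open scoped Classical

namespace ED
namespace Jupper






-- TARGET (prove this)
theorem upper (l : ℕ) (hl : 1 ≤ l) (n k : ℕ) (hk : 1 ≤ k) :
    (exd n k : ℝ) ≤ 2 * l * k + 2 * (n : ℝ) ^ (1 + 1 / (l : ℝ)) := by
  apply exd_le n k hk
  intro G hG
  by_contra hcon
  apply hG
  apply pack l hl k G
  rw [Fintype.card_fin]
  have hl0 : (0 : ℝ) ≤ (l : ℝ) := Nat.cast_nonneg l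
  linarith [not_le.mp hcon]


end Jupper
export Jupper (upper)
end ED
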