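import Pool.Agent.Helper470.ED.Defs
import Pool.Agent.Helper470.ED.Mupper
set_option autoImplicit false
open Finset
open scoped Classical

namespace ED
namespace Joupper




-- TARGET (prove this)
theorem order_upper (n k : ℕ) (hn : 2 ≤ n) (hk : 1 ≤ k) (hkn : k ≤ n ^ 2) :
    (exd n k : ℝ) ≤ 14 * ((n : ℝ) + k * Real.log n / Real.log (2 + k * Real.log n / n)) := by
  obtain ⟨N, hNdef⟩ : ∃ N : ℝ, N = (n : ℝ) := ⟨_, rfl⟩
  obtain ⟨K, hKdef⟩ : ∃ K : ℝ, K = (k : ℝ) := ⟨_, rfl⟩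
  have hN2 : (2:ℝ) ≤ N := by rw [hNdef]; exact_mod_cast hn
  have hK1 : (1:ℝ) ≤ K := by rw [hKdef]; exact_mod_cast hk
  have hKN : K ≤ N ^ 2 := by rw [hNdef, hKdef]; exact_mod_cast hkn
  have hN0 : (0:ℝ) < N := by linarith
  have hK0 : (0:ℝ) < K := by linarith
  obtain ⟨g, hg⟩ : ∃ g : ℝ, g = Real.log N := ⟨_, rfl⟩
  have hg0 : 0 < g := by rw [hg]; exact Real.log_pos (by linarith)
  obtain ⟨x, hx⟩ : ∃ x : ℝ, x = K * g / N := ⟨_, rfl⟩
  have hx0 : 0 < x := by rw [hx]; positivity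
  have hNx : N * x = K * g := by rw [hx]; field_simp
  obtain ⟨L, hL⟩ : ∃ L : ℝ, L = Real.log (2 + x) := ⟨_, rfl⟩
  have hL0 : 0 < L := by rw [hL]; exact Real.log_pos (by linarith)
  rw [← hNdef, ← hKdef, ← hg, ← hx, ← hL]
  obtain ⟨l, hl⟩ : ∃ l : ℕ, l = ⌈2 * g / L⌉₊ := ⟨_, rfl⟩
  have hq0 : 0 < 2 * g / L := by positivity
  have hl1 : 1 ≤ l := by rw [hl]; exact Nat.one_le_iff_ne_zero.2 (Nat.ceil_pos.2 hq0).ne'
  have hlge : 2 * g / L ≤ l := by rw [hl]; exact Nat.le_ceil _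
  have hllt : (l : ℝ) ≤ 2 * g / L + 1 := by rw [hl]; exact (Nat.ceil_lt_add_one hq0.le).le
  have hl0 : (0:ℝ) < l := by exact_mod_cast hl1
  have hup := upper l hl1 n k hk
  rw [← hNdef, ← hKdef] at hup
  obtain ⟨s, hs⟩ : ∃ s : ℝ, s = Real.exp (L / 2) := ⟨_, rfl⟩
  have hs1 : L / 2 + 1 ≤ s := by rw [hs]; exact Real.add_one_le_exp _
  have hs0 : 1 ≤ s := by linarith
  have hss : s * s = 2 + x := by
    rw [hs, ← Real.exp_add, add_halves, hL, Real.exp_log (by linarith)]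
  -- N^(1+1/l) ≤ N * s
  have hpow : N ^ (1 + 1 / (l : ℝ)) ≤ N * s := by
    rw [Real.rpow_add hN0, Real.rpow_one]
    apply mul_le_mul_of_nonneg_left _ hN0.le
    rw [Real.rpow_def_of_pos hN0, ← hg, hs]
    apply Real.exp_le_exp.2
    rw [mul_one_div, div_le_div_iff₀ hl0 (by norm_num)]
    rw [div_le_iff₀ hL0] at hlge
    linarith
  -- s ≤ 2 (1 + x / L)
  have hs2 : s ≤ 2 + 2 * (x / L) := by
    have hs' : 0 < s := by linarith
    have h1 : x / (2 * s) ≤ x / L :=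
      div_le_div_of_nonneg_left hx0.le hL0 (by linarith)
    have h2 : 2 * (x / (2 * s)) = x / s := by field_simp
    have h3 : s ≤ 2 + x / s := by
      have h4 : x / s * s = x := by field_simp
      have h5 : s * s ≤ (2 + x / s) * s := by
        rw [add_mul, h4, hss]; linarith
      exact le_of_mul_le_mul_right h5 hs'
    linarith
  have hNs : N * s ≤ 2 * N + 2 * (K * g / L) := by
    have h1 : N * s ≤ N * (2 + 2 * (x / L)) := mul_le_mul_of_nonneg_left hs2 hN0.le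
    have h2 : N * (2 + 2 * (x / L)) = 2 * N + 2 * (N * x / L) := by ring
    rw [h2, hNx] at h1
    exact h1
  -- L ≤ 3 g
  have hL3 : L ≤ 3 * g := by
    have h1 : g ≤ N - 1 := by rw [hg]; exact Real.log_le_sub_one_of_pos hN0
    have h2 : x ≤ N * (N - 1) := by
      rw [hx, div_le_iff₀ hN0]
      calc K * g ≤ N ^ 2 * (N - 1) := mul_le_mul hKN h1 hg0.le (by positivity)
        _ = N * (N - 1) * N := by ring
    have h3 : 2 + x ≤ N ^ 3 := by nlinarith [sq_nonneg (N - 2), mul_pos hN0 hN0]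
    have h4 : L ≤ Real.log (N ^ 3) := by rw [hL]; exact Real.log_le_log (by linarith) h3
    rw [Real.log_pow, ← hg] at h4
    push_cast at h4
    exact h4
  have hK2 : K ≤ 3 * (K * g / L) := by
    have h1 : 3 * (K * g / L) = K * (3 * g / L) := by ring
    rw [h1]
    have h2 : 1 ≤ 3 * g / L := by rw [le_div_iff₀ hL0]; linarith
    nlinarith
  have hlK : 2 * l * K ≤ 10 * (K * g / L) := by
    have h1 : l * K ≤ (2 * g / L + 1) * K := mul_le_mul_of_nonneg_right hllt hK0.le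
    have h2 : (2 * g / L + 1) * K = 2 * (K * g / L) + K := by ring
    nlinarith
  have hF : 0 < K * g / L := by positivity
  nlinarith


end Joupper
export Joupper (order_upper)
end ED
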