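import Pool.Agent.Helper470.ED.Defs
set_option autoImplicit false
open Finset
open scoped Classical

namespace ED
namespace Jfnum


-- TARGET (prove this)
theorem fnum (k : ℕ) (hk : 2 ≤ k) :
    2 * Nat.clog 2 (2 * (32 * (k - 1) * (Nat.log 2 k + 1))) + 32 * (k - 1 - 1) * (Nat.log 2 (k - 1) + 1) ≤
      32 * (k - 1) * (Nat.log 2 k + 1) := by
  obtain ⟨m, rfl⟩ : ∃ m, k = m + 2 := ⟨k - 2, by omega⟩
  have h1 : m + 2 - 1 = m + 1 := by omega
  have h2 : m + 1 - 1 = m := by omega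
  rw [h1, h2]
  have hlog : Nat.log 2 (m + 1) ≤ Nat.log 2 (m + 2) := Nat.log_mono_right (by omega)
  have hlt : m + 2 < 2 ^ (Nat.log 2 (m + 2) + 1) := Nat.lt_pow_succ_log_self (by norm_num) _
  set L := Nat.log 2 (m + 2) with hL
  have hL2 : L + 1 < 2 ^ (L + 1) := Nat.lt_two_pow_self
  have hc : Nat.clog 2 (2 * (32 * (m + 1) * (L + 1))) ≤ 2 * L + 8 := by
    apply Nat.clog_le_of_le_pow
    have e : 2 ^ (2 * L + 8) = 64 * (2 ^ (L + 1) * 2 ^ (L + 1)) := by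
      rw [← pow_add, show (64 : ℕ) = 2 ^ 6 by norm_num, ← pow_add]
      congr 1
      ring
    rw [e]
    calc 2 * (32 * (m + 1) * (L + 1)) = 64 * ((m + 1) * (L + 1)) := by ring
      _ ≤ 64 * (2 ^ (L + 1) * 2 ^ (L + 1)) :=
        Nat.mul_le_mul_left _ (Nat.mul_le_mul (by omega) (by omega))
  have h3 : 32 * m * (Nat.log 2 (m + 1) + 1) ≤ 32 * m * (L + 1) :=
    Nat.mul_le_mul_left _ (by omega)
  calc 2 * Nat.clog 2 (2 * (32 * (m + 1) * (L + 1))) + 32 * m * (Nat.log 2 (m + 1) + 1)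
      ≤ 2 * (2 * L + 8) + 32 * m * (L + 1) := by omega
    _ ≤ 32 * (m + 1) * (L + 1) := by
      have : 32 * (m + 1) * (L + 1) = 32 * m * (L + 1) + 32 * (L + 1) := by ring
      rw [this]
      omega


end Jfnum
export Jfnum (fnum)
end ED
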