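import Pool.Agent.Helper470.ED.Defs
import Pool.Agent.Helper470.ED.Maddcyc
import Pool.Agent.Helper470.ED.Mcontract
import Pool.Agent.Helper470.ED.Mfnum
import Pool.Agent.Helper470.ED.Mpaths
set_option autoImplicit false
open Finset
open scoped Classical

namespace ED
namespace Jsparse_up










theorem su_mono {V : Type} {G H : SimpleGraph V} (hGH : G ≤ H) (k : ℕ) (h : HasEDC G k) :
    HasEDC H k := by
  obtain ⟨v, c, hc, hd⟩ := h
  refine ⟨v, fun i => (c i).mapLe hGH, fun i => (hc i).mapLe hGH, ?_⟩
  intro i j hij e he
  rw [SimpleGraph.Walk.edges_mapLe_eq_edges] at he ⊢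
  exact hd i j hij e he

theorem su_zero {V : Type} (G : SimpleGraph V) : HasEDC G 0 :=
  ⟨fun i => i.elim0, fun i => i.elim0, fun i => i.elim0, fun i => i.elim0⟩

theorem su_del {V : Type} [Fintype V] (G : SimpleGraph V) (s : Set (Sym2 V)) :
    G.edgeSet.ncard ≤ (G.deleteEdges s).edgeSet.ncard + s.ncard := by
  rw [SimpleGraph.edgeSet_deleteEdges]
  have := Set.ncard_le_ncard_sdiff_add_ncard G.edgeSet s (Set.toFinite _)
  exact this

/-- one cycle step -/
theorem su_cyc {V : Type} [Fintype V] (G : SimpleGraph V) (k : ℕ) (hk : 1 ≤ k) (S : Finset V)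
    (f : ℕ → ℕ)
    (hin : ∀ a b, G.Adj a b → a ∈ S)
    (he : S.card + f k ≤ G.edgeSet.ncard)
    (IH : 2 ≤ k → ∀ G' : SimpleGraph V, (∀ a b, G'.Adj a b → a ∈ S) →
      S.card + f (k-1) ≤ G'.edgeSet.ncard → HasEDC G' (k-1))
    (v : V) (c : G.Walk v v) (hc : c.IsCycle) (hlen : 2 ≤ k → c.length + f (k-1) ≤ f k) :
    HasEDC G k := by
  obtain ⟨m, rfl⟩ : ∃ m, k = m + 1 := ⟨k - 1, by omega⟩
  apply addcyc G v c hc m
  rcases Nat.eq_zero_or_pos m with hm | hm
  · subst hm; exact su_zero _
  · have h1 := IH (by omega) (G.deleteEdges {e | e ∈ c.edges})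
      (fun a b hab => hin a b (SimpleGraph.deleteEdges_le _ hab))
    apply h1
    have h2 := su_del G {e | e ∈ c.edges}
    have h3 : ({e | e ∈ c.edges} : Set (Sym2 V)).ncard ≤ c.length := by
      have h4 : ({e | e ∈ c.edges} : Set (Sym2 V)) = (c.edges.toFinset : Set (Sym2 V)) := by
        ext e; simp
      rw [h4, Set.ncard_coe_finset]
      exact (List.toFinset_card_le _).trans (le_of_eq c.length_edges)
    have h5 := hlen (by omega)
    omega

theorem su_deg {V : Type} [Fintype V] (G : SimpleGraph V) (v : V) :
    (G.incidenceSet v).ncard = G.degree v := by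
  rw [← SimpleGraph.card_incidenceSet_eq_degree, Set.ncard_eq_toFinset_card']
  simp

theorem su_ec {V : Type} [Fintype V] (G : SimpleGraph V) : G.edgeSet.ncard = G.edgeFinset.card := by
  rw [← SimpleGraph.coe_edgeFinset, Set.ncard_coe_finset]

theorem su_key {V : Type} [Fintype V] (f : ℕ → ℕ)
    (f1 : f 1 = 0) (f2 : ∀ k, 2 ≤ k → 3 + f (k-1) ≤ f k)
    (f3 : ∀ k, 2 ≤ k → 2 * Nat.clog 2 (2 * f k) + f (k-1) ≤ f k) :
    ∀ (N k : ℕ) (S : Finset V) (G : SimpleGraph V), k + S.card ≤ N → 1 ≤ k → S.Nonempty →
      (∀ a b, G.Adj a b → a ∈ S) → S.card + f k ≤ G.edgeSet.ncard → HasEDC G k := by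
  intro N
  induction N with
  | zero => intro k S G h1 h2; omega
  | succ N ih =>
    intro k S G0 hN hk hS hin0 he0
    -- pass to a subgraph
    obtain ⟨T, hT, hTc⟩ := Set.exists_subset_card_eq he0
    have hTd : (SimpleGraph.fromEdgeSet T).edgeSet = T := by
      rw [SimpleGraph.edgeSet_fromEdgeSet]
      ext e
      simp only [Set.mem_sdiff]
      constructor
      · exact fun h => h.1
      · intro h
        exact ⟨h, fun hd => G0.not_isDiag_of_mem_edgeSet (hT h) hd⟩
    obtain ⟨G, hG⟩ : ∃ G, G = SimpleGraph.fromEdgeSet T := ⟨_, rfl⟩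
    have hle : G ≤ G0 := by
      rw [← SimpleGraph.edgeSet_subset_edgeSet, hG, hTd]; exact hT
    apply su_mono hle
    have he : G.edgeSet.ncard = S.card + f k := by rw [hG, hTd, hTc]
    have hin : ∀ a b, G.Adj a b → a ∈ S := fun a b hab => hin0 a b (hle hab)
    clear hin0 he0
    have hS1 : 1 ≤ S.card := hS.card_pos
    -- erasing a vertex
    have herase : ∀ v ∈ S, ∀ u, G.Adj v u → (S.erase v).Nonempty := by
      intro v hv u hu
      exact ⟨u, mem_erase.mpr ⟨hu.ne', hin u v hu.symm⟩⟩
    by_cases hlow : ∃ v ∈ S, G.degree v ≤ 2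
    · obtain ⟨v, hv, hdv⟩ := hlow
      have hec : (S.erase v).card = S.card - 1 := card_erase_of_mem hv
      rcases Nat.lt_or_ge (G.degree v) 2 with hd1 | hd2
      · -- degree ≤ 1
        have hne : (S.erase v).Nonempty := by
          by_contra hemp
          rw [not_nonempty_iff_eq_empty] at hemp
          have hz : G.edgeSet = ∅ := by
            rw [SimpleGraph.edgeSet_eq_empty]
            ext a b
            simp only [SimpleGraph.bot_adj, iff_false]
            intro hab
            have ha : a = v := by
              by_contra hav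
              have := mem_erase.mpr ⟨hav, hin a b hab⟩
              rw [hemp] at this
              exact absurd this (notMem_empty _)
            have hb : b = v := by
              by_contra hbv
              have := mem_erase.mpr ⟨hbv, hin b a hab.symm⟩
              rw [hemp] at this
              exact absurd this (notMem_empty _)
            exact hab.ne (ha.trans hb.symm)
          rw [hz, Set.ncard_empty] at he
          omega
        have h1 := su_del G (G.incidenceSet v)
        rw [su_deg] at h1
        apply su_mono (SimpleGraph.deleteEdges_le (G.incidenceSet v))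
        apply ih k (S.erase v) _ (by omega) hk hne
        · intro a b hab
          rw [SimpleGraph.deleteEdges_adj] at hab
          refine mem_erase.mpr ⟨?_, hin a b hab.1⟩
          rintro rfl
          exact hab.2 ⟨hab.1, Sym2.mem_mk_left _ _⟩
        · omega
      · have hd : G.degree v = 2 := by omega
        rw [← SimpleGraph.card_neighborFinset_eq_degree, card_eq_two] at hd
        obtain ⟨u, w, huw, hnb⟩ := hd
        have hadj : ∀ x, G.Adj v x ↔ (x = u ∨ x = w) := by
          intro x
          rw [← SimpleGraph.mem_neighborFinset, hnb]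
          simp
        have hu : G.Adj v u := (hadj u).mpr (Or.inl rfl)
        have hw : G.Adj v w := (hadj w).mpr (Or.inr rfl)
        by_cases h3 : G.Adj u w
        · -- triangle
          obtain ⟨v0, c, hc, hcl⟩ := SimpleGraph.is3Clique_iff_exists_cycle_length_three.mp
            ⟨{v, u, w}, SimpleGraph.is3Clique_triple_iff.mpr ⟨hu, hw, h3⟩⟩
          apply su_cyc G k hk S f hin he.ge _ v0 c hc
          · intro h2; rw [hcl]; exact f2 k h2
          · intro h2 G' hin' he'
            exact ih (k-1) S G' (by omega) (by omega) hS hin' he'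
        · -- contract
          apply contract G u v w huw hu hw h3 (fun x hx => (hadj x).mp hx) k
          apply ih k (S.erase v) _ (by omega) hk (herase v hv u hu)
          · intro a b hab
            rw [SimpleGraph.sup_adj, SimpleGraph.deleteEdges_adj, SimpleGraph.edge_adj] at hab
            rcases hab with ⟨hab, hnot⟩ | ⟨hab, _⟩
            · refine mem_erase.mpr ⟨?_, hin a b hab⟩
              rintro rfl
              apply hnot
              rcases (hadj b).mp hab with rfl | rfl
              · exact Or.inl rfl
              · exact Or.inr rfl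
            · rcases hab with ⟨rfl, rfl⟩ | ⟨rfl, rfl⟩
              · exact mem_erase.mpr ⟨hu.ne', hin _ _ hu.symm⟩
              · exact mem_erase.mpr ⟨hw.ne', hin _ _ hw.symm⟩
          · -- edges
            have h1 : G.edgeSet.ncard + 1 ≤ (G.deleteEdges {s(v, u), s(v, w)} ⊔
                SimpleGraph.edge u w).edgeSet.ncard + 2 := by
              have h2 := su_del G {s(v, u), s(v, w)}
              have h4 : ({s(v, u), s(v, w)} : Set (Sym2 V)).ncard ≤ 2 := by
                refine (Set.ncard_insert_le _ _).trans ?_
                rw [Set.ncard_singleton]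
              have h5 : (G.deleteEdges {s(v, u), s(v, w)}).edgeSet.ncard + 1 ≤
                  (G.deleteEdges {s(v, u), s(v, w)} ⊔ SimpleGraph.edge u w).edgeSet.ncard := by
                rw [SimpleGraph.edgeSet_sup, SimpleGraph.edgeSet_edge_of_ne huw]
                have h6 : s(u, w) ∉ (G.deleteEdges {s(v, u), s(v, w)}).edgeSet := by
                  intro h7
                  rw [SimpleGraph.mem_edgeSet, SimpleGraph.deleteEdges_adj] at h7
                  exact h3 h7.1
                rw [Set.union_singleton, Set.ncard_insert_of_notMem h6 (Set.toFinite _)]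
              omega
            omega
    · -- all degrees at least 3
      push Not at hlow
      have hsum : 3 * S.card ≤ 2 * G.edgeSet.ncard := by
        rw [su_ec, ← SimpleGraph.sum_degrees_eq_twice_card_edges]
        calc 3 * S.card = ∑ v ∈ S, 3 := by rw [sum_const, smul_eq_mul, mul_comm]
          _ ≤ ∑ v ∈ S, G.degree v := sum_le_sum fun v hv => hlow v hv
          _ ≤ ∑ v, G.degree v := sum_le_sum_of_subset (subset_univ _)
      rw [he] at hsum
      have hk2 : 2 ≤ k := by
        by_contra hk1
        have : k = 1 := by omega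
        rw [this, f1] at hsum
        omega
      have hS2 : S.card ≤ 2 * f k := by omega
      have hS3 : 2 ≤ S.card := by
        obtain ⟨v, hv⟩ := hS
        have h1 := hlow v hv
        rw [← SimpleGraph.card_neighborFinset_eq_degree] at h1
        have h2 : G.neighborFinset v ⊆ S := by
          intro x hx
          rw [SimpleGraph.mem_neighborFinset] at hx
          exact hin x v hx.symm
        have := card_le_card h2
        omega
      have hl1 : 1 ≤ Nat.clog 2 S.card := Nat.clog_pos (by norm_num) (by omega)
      have hnot : ¬ GirthGe (G.comap (Subtype.val : {x // x ∈ S} → V)) (2 * Nat.clog 2 S.card + 1) := by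
        intro hg
        have hp := paths (G.comap (Subtype.val : {x // x ∈ S} → V)) (Nat.clog 2 S.card) 2 hl1 hg univ
          ⟨⟨hS.choose, hS.choose_spec⟩, mem_univ _⟩ (by
            intro v _
            have h1 := hlow v.1 v.2
            rw [← SimpleGraph.card_neighborFinset_eq_degree] at h1
            refine lt_of_lt_of_le h1 ?_
            have h2 : G.neighborFinset v.1 ⊆ (univ.filter (fun w : {x // x ∈ S} =>
                (G.comap (Subtype.val : {x // x ∈ S} → V)).Adj v w)).image Subtype.val := by
              intro x hx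
              rw [SimpleGraph.mem_neighborFinset] at hx
              rw [mem_image]
              refine ⟨⟨x, hin x v.1 hx.symm⟩, ?_, rfl⟩
              rw [mem_filter]
              exact ⟨mem_univ _, hx⟩
            exact (card_le_card h2).trans card_image_le)
        rw [Fintype.card_coe] at hp
        have := Nat.le_pow_clog (b := 2) (by norm_num) S.card
        omega
      unfold GirthGe at hnot
      push Not at hnot
      obtain ⟨v0, c, hc, hcl⟩ := hnot
      let φ : (G.comap (Subtype.val : {x // x ∈ S} → V)) →g G :=
        ⟨Subtype.val, fun {a b} h => h⟩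
      have hinj : Function.Injective φ := Subtype.val_injective
      apply su_cyc G k hk S f hin he.ge _ (φ v0) (c.map φ) (hc.map hinj)
      · intro _
        rw [SimpleGraph.Walk.length_map]
        have h1 := f3 k hk2
        have h2 := Nat.clog_mono_right 2 hS2
        omega
      · intro h2 G' hin' he'
        exact ih (k-1) S G' (by omega) (by omega) hS hin' he'

-- TARGET (prove this)
theorem sparse_up {V : Type} [Fintype V] [Nonempty V] (G : SimpleGraph V) (k : ℕ) (hk : 1 ≤ k)
    (h : Fintype.card V + 32 * (k - 1) * (Nat.log 2 k + 1) ≤ G.edgeSet.ncard) : HasEDC G k := by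
  apply su_key (fun k => 32 * (k - 1) * (Nat.log 2 k + 1)) (by simp) _ _ (k + Fintype.card V) k univ G
    (by rw [card_univ]) hk univ_nonempty (fun a _ _ => mem_univ a)
  · rw [card_univ]; exact h
  · intro k hk
    have h1 : Nat.log 2 (k-1) ≤ Nat.log 2 k := Nat.log_mono_right (by omega)
    obtain ⟨m, rfl⟩ : ∃ m, k = m + 2 := ⟨k - 2, by omega⟩
    have e1 : m + 2 - 1 - 1 = m := by omega
    have e2 : m + 2 - 1 = m + 1 := by omega
    rw [e1]
    rw [e2] at h1 ⊢
    nlinarith
  · intro k hk
    exact fnum k hk


end Jsparse_up
export Jsparse_up (sparse_up)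
end ED
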