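import Pool.Agent.Helper470.ED.Defs
import Pool.Agent.Helper470.ED.Mexd1
import Pool.Agent.Helper470.ED.Msparse_up
set_option autoImplicit false
open Finset
open scoped Classical

namespace ED
namespace Jsparse_exd






-- TARGET (prove this)
theorem sparse_exd (n k : ℕ) (hn : 1 ≤ n) (hk : 1 ≤ k) :
    exd n k + 1 ≤ n + 32 * (k - 1) * (Nat.log 2 k + 1) := by
  haveI : Nonempty (Fin n) := ⟨⟨0, hn⟩⟩
  have h1 : (exd n k : ℝ) ≤ ((n + 32 * (k - 1) * (Nat.log 2 k + 1) - 1 : ℕ) : ℝ) := by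
    apply exd_le n k hk
    intro G hG
    have h2 : G.edgeSet.ncard < n + 32 * (k - 1) * (Nat.log 2 k + 1) := by
      by_contra h3
      apply hG
      apply sparse_up G k hk
      rw [Fintype.card_fin]
      exact not_lt.1 h3
    exact_mod_cast (by omega : G.edgeSet.ncard ≤ n + 32 * (k - 1) * (Nat.log 2 k + 1) - 1)
  have h4 : exd n k ≤ n + 32 * (k - 1) * (Nat.log 2 k + 1) - 1 := by exact_mod_cast h1
  omega


end Jsparse_exd
export Jsparse_exd (sparse_exd)
end ED
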