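import Pool.Agent.Helper470.ED.Defs
import Pool.Agent.Helper470.ED.Moupper
import Pool.Agent.Helper470.ED.Msparse_exd
set_option autoImplicit false
open Finset
open scoped Classical

namespace ED
namespace Jeup






-- TARGET (prove this)
theorem excess_upper : ∃ C : ℝ, 0 < C ∧ ∀ n k : ℕ, 6 ≤ n → 2 ≤ k → k ≤ n ^ 2 →
    (exd n k : ℝ) ≤ n + C * (k * Real.log k / Real.log (2 + k * Real.log k / n)) := by
  refine ⟨200, by norm_num, ?_⟩
  intro n k hn hk hkn
  have hl2 : (0.6931471803 : ℝ) < Real.log 2 := Real.log_two_gt_d9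
  have hnR : (6 : ℝ) ≤ n := by exact_mod_cast hn
  have hkR : (2 : ℝ) ≤ k := by exact_mod_cast hk
  have hn0 : (0 : ℝ) < n := by linarith
  have hk0 : (0 : ℝ) < k := by linarith
  have hL : Real.log 2 ≤ Real.log k := Real.log_le_log (by norm_num) hkR
  have hL0 : 0 < Real.log k := by linarith
  obtain ⟨y, hy⟩ : ∃ y : ℝ, y = k * Real.log k / n := ⟨_, rfl⟩
  have hy0 : 0 < y := by
    rw [hy]
    positivity
  have hyn : y * n = k * Real.log k := by
    rw [hy]
    field_simp
  rw [← hy]
  have hlog0 : 0 < Real.log (2 + y) := Real.log_pos (by linarith)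
  have hlog1 : Real.log (2 + y) ≤ 1 + y := by
    have := Real.log_le_sub_one_of_pos (show (0 : ℝ) < 2 + y by linarith)
    linarith
  obtain ⟨E, hE⟩ : ∃ E : ℝ, E = k * Real.log k / Real.log (2 + y) := ⟨_, rfl⟩
  rw [← hE]
  have hE0 : 0 < E := by
    rw [hE]
    positivity
  have hEl : E * Real.log (2 + y) = k * Real.log k := by
    rw [hE]
    field_simp
  rcases le_or_gt y 1 with hy1 | hy1
  · have h1 := sparse_exd n k (by omega) (by omega)
    have h2 : ((exd n k + 1 : ℕ) : ℝ) ≤ ((n + 32 * (k - 1) * (Nat.log 2 k + 1) : ℕ) : ℝ) := by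
      exact_mod_cast h1
    push_cast [Nat.cast_sub (show 1 ≤ k by omega)] at h2
    have h3 : (Nat.log 2 k : ℝ) * Real.log 2 ≤ Real.log k := by
      rw [← Real.log_pow]
      apply Real.log_le_log (by positivity)
      exact_mod_cast Nat.pow_log_le_self 2 (by omega)
    have h4 : 32 * ((k : ℝ) - 1) * ((Nat.log 2 k : ℝ) + 1) ≤ 32 * k * ((Nat.log 2 k : ℝ) + 1) := by
      apply mul_le_mul_of_nonneg_right _ (by positivity)
      linarith
    have h5 : ((Nat.log 2 k : ℝ) + 1) * Real.log 2 ≤ 2 * Real.log k := by linarith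
    have h6 : ((Nat.log 2 k : ℝ) + 1) ≤ 3 * Real.log k := by
      have h7 : ((Nat.log 2 k : ℝ) + 1) * 0.6931471803 ≤ ((Nat.log 2 k : ℝ) + 1) * Real.log 2 :=
        mul_le_mul_of_nonneg_left hl2.le (by positivity)
      nlinarith
    have h8 : k * Real.log k ≤ 2 * E := by
      rw [← hEl]
      have : E * Real.log (2 + y) ≤ E * 2 := mul_le_mul_of_nonneg_left (by linarith) hE0.le
      linarith
    have h9 : 32 * k * ((Nat.log 2 k : ℝ) + 1) ≤ 32 * k * (3 * Real.log k) :=
      mul_le_mul_of_nonneg_left h6 (by positivity)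
    have h10 : 32 * k * (3 * Real.log k) = 96 * (k * Real.log k) := by ring
    linarith
  · have h1 := order_upper n k (by omega) (by omega) hkn
    have hlogk : Real.log k ≤ k := by
      have := Real.log_le_sub_one_of_pos hk0
      linarith
    have hnk : (n : ℝ) ≤ k ^ 2 := by
      have h2 : (n : ℝ) ≤ y * n := by nlinarith
      rw [hyn] at h2
      nlinarith
    have hln1 : Real.log n ≤ 2 * Real.log k := by
      have h2 := Real.log_le_log hn0 hnk
      rw [Real.log_pow] at h2
      push_cast at h2
      exact h2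
    have hln2 : Real.log k ≤ 2 * Real.log n := by
      have h3 : (k : ℝ) ≤ (n : ℝ) ^ 2 := by exact_mod_cast hkn
      have h2 := Real.log_le_log hk0 h3
      rw [Real.log_pow] at h2
      push_cast at h2
      exact h2
    have hln0 : 0 < Real.log n := by linarith
    have hw : y / 2 ≤ k * Real.log n / n := by
      rw [hy, div_div, mul_comm (n : ℝ) 2, ← div_div]
      apply div_le_div_of_nonneg_right _ hn0.le
      nlinarith
    have hlogw : (1 / 2) * Real.log (2 + y) ≤ Real.log (2 + k * Real.log n / n) := by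
      have h2 : Real.log (2 + y / 2) ≤ Real.log (2 + k * Real.log n / n) :=
        Real.log_le_log (by linarith) (by linarith)
      have h3 : Real.log (2 + y) ≤ Real.log ((2 + y / 2) ^ 2) := by
        apply Real.log_le_log (by linarith)
        nlinarith
      rw [Real.log_pow] at h3
      push_cast at h3
      linarith
    have hlogw0 : 0 < Real.log (2 + k * Real.log n / n) := by linarith
    have h2 : k * Real.log n / Real.log (2 + k * Real.log n / n) ≤ 4 * E := by
      rw [div_le_iff₀ hlogw0]
      have h3 : 4 * E * ((1 / 2) * Real.log (2 + y)) ≤ 4 * E * Real.log (2 + k * Real.log n / n) :=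
        mul_le_mul_of_nonneg_left hlogw (by positivity)
      have h4 : 4 * E * ((1 / 2) * Real.log (2 + y)) = 2 * (k * Real.log k) := by
        rw [← hEl]
        ring
      have h5 : k * Real.log n ≤ 2 * (k * Real.log k) := by
        have := mul_le_mul_of_nonneg_left hln1 hk0.le
        linarith
      linarith
    have h3 : (n : ℝ) ≤ 2 * E := by
      have h4 : y * n ≤ y * (2 * E) := by
        rw [hyn, ← hEl]
        have : E * Real.log (2 + y) ≤ E * (2 * y) := mul_le_mul_of_nonneg_left (by linarith) hE0.le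
        linarith
      exact le_of_mul_le_mul_left h4 hy0
    linarith


end Jeup
export Jeup (excess_upper)
end ED
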