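import Pool.Agent.Helper470.ED.Defs
import Pool.Agent.Helper470.ED.Mlow
set_option autoImplicit false
open Finset
open scoped Classical

namespace ED
namespace Jlow3




-- TARGET (prove this)
theorem low3 (n k : ℕ) (hk : 1 ≤ k) (h : 6 * k ≤ n * (n - 1) + 2) : 3 * k ≤ exd n k + 1 := by
  refine low n 3 k (by norm_num) hk ⊤ (fun v c hc => hc.three_le_length) ?_
  have h1 : (⊤ : SimpleGraph (Fin n)).edgeSet.ncard = n.choose 2 := by
    rw [← SimpleGraph.coe_edgeFinset, Set.ncard_coe_finset, SimpleGraph.card_edgeFinset_top_eq_card_choose_two]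
    simp
  rw [h1, Nat.choose_two_right]
  obtain ⟨m, hm⟩ := Nat.even_mul_pred_self n
  omega


end Jlow3
export Jlow3 (low3)
end ED
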