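import Pool.Agent.Helper470.ED.Defs
import Pool.Agent.Helper470.ED.Mb5
import Pool.Agent.Helper470.ED.Mlow
set_option autoImplicit false
open Finset
open scoped Classical

namespace ED
namespace Jlower6






-- TARGET (prove this)
theorem lower6 : ∃ c : ℝ, 0 < c ∧ ∀ n k : ℕ, 1 ≤ k → (k : ℝ) ≤ c * (n : ℝ) ^ ((6 : ℝ) / 5) → 12 * k ≤ exd n k + 1 := by
  refine ⟨1 / 20000, by norm_num, fun n k hk h => ?_⟩
  have hk1 : (1 : ℝ) ≤ k := by exact_mod_cast hk
  have h1 : 20000 * (k : ℝ) ≤ (n : ℝ) ^ ((6 : ℝ) / 5) := by linarith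
  have hn : 2048 ≤ n := by
    by_contra hlt
    rw [not_le] at hlt
    have h2 : (n : ℝ) ≤ 2048 := by exact_mod_cast hlt.le
    have h3 : (n : ℝ) ^ ((6 : ℝ) / 5) ≤ (2048 : ℝ) ^ ((6 : ℝ) / 5) :=
      Real.rpow_le_rpow (Nat.cast_nonneg n) h2 (by norm_num)
    have h4 : (2048 : ℝ) ^ ((6 : ℝ) / 5) ≤ 16384 := by
      have h5 : (2048 : ℝ) = (2 : ℝ) ^ (11 : ℝ) := by
        have : ((11 : ℕ) : ℝ) = 11 := by norm_num
        rw [← this, Real.rpow_natCast]
        norm_num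
      have h6 : (16384 : ℝ) = (2 : ℝ) ^ (14 : ℝ) := by
        have : ((14 : ℕ) : ℝ) = 14 := by norm_num
        rw [← this, Real.rpow_natCast]
        norm_num
      rw [h5, h6, ← Real.rpow_mul (by norm_num)]
      exact Real.rpow_le_rpow_of_exponent_le (by norm_num) (by norm_num)
    linarith
  obtain ⟨G, hG, he⟩ := big5 n hn
  apply low n 12 k (by norm_num) hk G hG
  have h5 : 12 * (k : ℝ) ≤ (G.edgeSet.ncard : ℝ) := by linarith
  have h6 : 12 * k ≤ G.edgeSet.ncard := by exact_mod_cast h5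
  omega


end Jlower6
export Jlower6 (lower6)
end ED
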