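import Pool.Agent.Helper470.ED.Defs
import Pool.Agent.Helper470.ED.Mbig
import Pool.Agent.Helper470.ED.Mhost2
import Pool.Agent.Helper470.ED.Mlow2
set_option autoImplicit false
open Finset
open scoped Classical

namespace ED
namespace Jsecond2








-- TARGET (prove this)
theorem second2 : ∃ c : ℝ, 0 < c ∧ ∀ n k : ℕ, (n : ℝ) ^ ((3 : ℝ) / 2) ≤ k → (k : ℝ) ≤ c * (n : ℝ) ^ 2 → 1 ≤ k →
    4 * (k : ℝ) + c * (n : ℝ) ^ ((3 : ℝ) / 2) ≤ exd n k := by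
  refine ⟨1 / 10000, by norm_num, ?_⟩
  intro n k h1 h2 hk
  have hkr : (1 : ℝ) ≤ k := by exact_mod_cast hk
  have hn0 : (0 : ℝ) ≤ n := Nat.cast_nonneg n
  obtain ⟨s, hs⟩ : ∃ s, s = Real.sqrt n := ⟨_, rfl⟩
  have hs0 : 0 ≤ s := by rw [hs]; exact Real.sqrt_nonneg _
  have hsn : s ^ 2 = n := by rw [hs]; exact Real.sq_sqrt hn0
  have hN : (n : ℝ) ^ ((3 : ℝ) / 2) = s ^ 3 := by
    rw [hs, Real.sqrt_eq_rpow, ← Real.rpow_natCast, ← Real.rpow_mul hn0]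
    norm_num
  rw [hN] at h1
  have hspos : 0 < s := by
    rcases hs0.lt_or_eq with h | h
    · exact h
    · exfalso
      rw [← hsn, ← h] at h2
      norm_num at h2
      linarith
  have h3 : s ^ 3 ≤ 1 / 10000 * s ^ 4 := by
    have : (n : ℝ) ^ 2 = s ^ 4 := by rw [← hsn]; ring
    rw [this] at h2
    linarith
  have hs4 : 10000 ≤ s := by
    have h4 : 0 < s ^ 3 := by positivity
    have h5 : s ^ 3 * 10000 ≤ s ^ 3 * s := by nlinarith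
    exact le_of_mul_le_mul_left h5 h4
  have hnbig : (100000000 : ℝ) ≤ n := by rw [← hsn]; nlinarith
  have hnbig' : 100000000 ≤ n := by exact_mod_cast hnbig
  have hNbig : (1000000 : ℝ) ≤ s ^ 3 := by
    have h6 : (10000 : ℝ) ^ 3 ≤ s ^ 3 := pow_le_pow_left₀ (by norm_num) hs4 3
    norm_num at h6
    linarith
  have hkn : 10000 * k ≤ n ^ 2 := by
    have : (10000 : ℝ) * k ≤ (n : ℝ) ^ 2 := by linarith
    exact_mod_cast this
  obtain ⟨n1, hn1⟩ : ∃ n1, n1 = n / 2 := ⟨_, rfl⟩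
  obtain ⟨n2, hn2⟩ : ∃ n2, n2 = n - n1 := ⟨_, rfl⟩
  have hsum : n1 + n2 = n := by omega
  obtain ⟨G1, hG1, hE1⟩ := host2 n1
  obtain ⟨G2, hG2, hE2⟩ := big3 n2 (by omega)
  obtain ⟨e2, he2⟩ : ∃ e2, e2 = min G2.edgeSet.ncard k := ⟨_, rfl⟩
  obtain ⟨e1, he1⟩ : ∃ e1, e1 = 4 * k - 1 - (2 * e2 + 2) / 3 := ⟨_, rfl⟩
  have he2k : e2 ≤ k := by rw [he2]; exact min_le_right _ _
  have he2G : e2 ≤ G2.edgeSet.ncard := by rw [he2]; exact min_le_left _ _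
  have h16 : 16 * k ≤ n1 ^ 2 := by
    have h7 : n ≤ 3 * n1 := by omega
    have h8 : n ^ 2 ≤ (3 * n1) ^ 2 := Nat.pow_le_pow_left h7 2
    have h9 : (3 * n1) ^ 2 = 9 * n1 ^ 2 := by ring
    rw [h9] at h8
    omega
  have he1G : e1 ≤ G1.edgeSet.ncard := by
    refine le_trans ?_ hE1
    rw [Nat.le_div_iff_mul_le (by norm_num)]
    omega
  have hlow := low2 n1 n2 4 6 e1 e2 k G1 G2 hG1 hG2 he1G he2G (by omega)
  rw [hsum] at hlow
  have hA : 12 * k + e2 ≤ 3 * (e1 + e2) + 5 := by omega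
  have hA' : 12 * (k : ℝ) + e2 ≤ 3 * ((e1 + e2 : ℕ) : ℝ) + 5 := by exact_mod_cast hA
  have hlow' : ((e1 + e2 : ℕ) : ℝ) ≤ (exd n k : ℝ) := by exact_mod_cast hlow
  have hn2r : (n : ℝ) / 2 ≤ n2 := by
    have h10 : n ≤ 2 * n2 := by omega
    have h11 : (n : ℝ) ≤ 2 * n2 := by exact_mod_cast h10
    linarith
  have hn2p : s ^ 3 / 4 ≤ (n2 : ℝ) ^ ((3 : ℝ) / 2) := by
    have h12 : ((n : ℝ) / 2) ^ ((3 : ℝ) / 2) ≤ (n2 : ℝ) ^ ((3 : ℝ) / 2) :=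
      Real.rpow_le_rpow (by positivity) hn2r (by norm_num)
    have h13 : ((n : ℝ) / 2) ^ ((3 : ℝ) / 2) = s ^ 3 * (1 / 2 : ℝ) ^ ((3 : ℝ) / 2) := by
      rw [div_eq_mul_one_div, Real.mul_rpow hn0 (by norm_num), hN]
    have h14 : (1 / 4 : ℝ) ≤ (1 / 2 : ℝ) ^ ((3 : ℝ) / 2) := by
      have h15 := Real.rpow_le_rpow_of_exponent_ge (x := (1 / 2 : ℝ)) (y := 2) (z := 3 / 2)
        (by norm_num) (by norm_num) (by norm_num)
      have h16' : (1 / 2 : ℝ) ^ (2 : ℝ) = 1 / 4 := by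
        rw [show (2 : ℝ) = ((2 : ℕ) : ℝ) by norm_num, Real.rpow_natCast]
        norm_num
      rw [h16'] at h15
      exact h15
    rw [h13] at h12
    have h17 : 0 < s ^ 3 := by positivity
    nlinarith
  have he2r : s ^ 3 / 92 ≤ e2 := by
    rw [he2, Nat.cast_min]
    apply le_min
    · linarith
    · have h17 : 0 < s ^ 3 := by positivity
      linarith
  rw [hN]
  linarith


end Jsecond2
export Jsecond2 (second2)
end ED
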