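import Pool.Agent.Helper470.ED.Defs
import Pool.Agent.Helper470.ED.Mbig
import Pool.Agent.Helper470.ED.Mhost2
import Pool.Agent.Helper470.ED.Mlow2
set_option autoImplicit false
open Finset
open scoped Classical

namespace ED
namespace Jsecond2eps








-- TARGET (prove this)
theorem second2eps (ε : ℝ) (hε : 0 < ε) : ∃ c : ℝ, 0 < c ∧ ∃ n0 : ℕ, ∀ n k : ℕ, n0 ≤ n → 1 ≤ k → (n : ℝ) ^ ((3 : ℝ) / 2) ≤ k →
    (k : ℝ) ≤ (1 / 16 - ε) * (n : ℝ) ^ 2 → 4 * (k : ℝ) + c * (n : ℝ) ^ ((3 : ℝ) / 2) ≤ exd n k := by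
  by_cases hb : 1 / 16 ≤ ε
  · refine ⟨1, one_pos, 0, ?_⟩
    intro n k _ hk1 _ hk
    exfalso
    have h1 : (1:ℝ) ≤ k := by exact_mod_cast hk1
    have h2 : (1 / 16 - ε) * (n : ℝ) ^ 2 ≤ 0 :=
      mul_nonpos_of_nonpos_of_nonneg (by linarith) (sq_nonneg _)
    linarith
  have hb : ε < 1 / 16 := not_le.mp hb
  refine ⟨ε ^ ((3:ℝ)/2) / 138, by positivity, ⌈138/ε⌉₊, ?_⟩
  intro n k hn hk1 hkn hk
  have hnr : 138 / ε ≤ n := (Nat.le_ceil _).trans (by exact_mod_cast hn)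
  have hεn : 138 ≤ ε * n := by
    rw [div_le_iff₀ hε] at hnr
    linarith
  have hnpos : (0:ℝ) < n := by
    by_contra h
    have h' : (n:ℝ) ≤ 0 := not_lt.mp h
    have : ε * n ≤ 0 := mul_nonpos_of_nonneg_of_nonpos hε.le h'
    linarith
  have hn16 : ε * n ≤ n / 16 := by nlinarith
  have hnbig : (138 * 16 : ℝ) ≤ n := by linarith
  obtain ⟨n2, hn2⟩ : ∃ n2, n2 = ⌈ε * n⌉₊ := ⟨_, rfl⟩
  have h2l : ε * n ≤ n2 := by rw [hn2]; exact Nat.le_ceil _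
  have h2u : (n2:ℝ) < ε * n + 1 := by rw [hn2]; exact Nat.ceil_lt_add_one (by positivity)
  have h2n : n2 ≤ n := by
    have : (n2:ℝ) < n := by linarith
    exact_mod_cast this.le
  obtain ⟨G1, hg1, hm1⟩ := host2 (n - n2)
  obtain ⟨G2, hg2, hm2⟩ := big3 n2 (by
    have : (8:ℝ) ≤ n2 := by linarith
    exact_mod_cast this)
  obtain ⟨m2, hm2e⟩ : ∃ m2, m2 = G2.edgeSet.ncard := ⟨_, rfl⟩
  rw [← hm2e] at hm2
  obtain ⟨e2, he2⟩ : ∃ e2, e2 = min m2 k := ⟨_, rfl⟩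
  obtain ⟨e1, he1⟩ : ∃ e1, e1 = (24*k - 1 - 4*e2)/6 := ⟨_, rfl⟩
  have he2k : e2 ≤ k := by rw [he2]; exact min_le_right _ _
  have he2m : e2 ≤ m2 := by rw [he2]; exact min_le_left _ _
  have he1a : 6*e1 ≤ 24*k - 1 - 4*e2 := by omega
  have he1b : 24*k - 4*e2 ≤ 6*e1+6 := by omega
  have h6 : 6*e1 + 4*e2 < 4*6*k := by omega
  have he1m : e1 ≤ G1.edgeSet.ncard := by
    refine le_trans ?_ hm1
    rw [Nat.le_div_iff_mul_le (by norm_num)]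
    have h1 : e1 + 1 ≤ 4*k := by omega
    have h1r : (e1:ℝ) + 1 ≤ 4*k := by exact_mod_cast h1
    have hc : ((n - n2 : ℕ):ℝ) = (n:ℝ) - n2 := Nat.cast_sub h2n
    have h3 : (1 - ε) * n - 1 ≤ ((n - n2 : ℕ):ℝ) := by rw [hc]; linarith
    have h4 : 0 ≤ (1 - ε) * n - 1 := by nlinarith
    have h5 : ((1 - ε) * n - 1)^2 ≤ ((n - n2 : ℕ):ℝ)^2 := pow_le_pow_left₀ h4 h3 2
    have h7 : (e1:ℝ) * 4 ≤ ((1 - ε) * n - 1)^2 := by
      have h8 : 16 * (k:ℝ) ≤ (1 - 16*ε) * (n:ℝ)^2 := by linarith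
      have h9 : 138 * (n:ℝ) ≤ ε * n * n := mul_le_mul_of_nonneg_right hεn hnpos.le
      nlinarith [sq_nonneg (ε * n)]
    have h10 : (e1:ℝ) * 4 ≤ ((n - n2 : ℕ):ℝ)^2 := h7.trans h5
    exact_mod_cast h10
  have hlow := low2 (n - n2) n2 4 6 e1 e2 k G1 G2 hg1 hg2 he1m (by rw [← hm2e]; exact he2m) h6
  rw [Nat.sub_add_cancel h2n] at hlow
  have hlowr : (e1:ℝ) + e2 ≤ exd n k := by exact_mod_cast hlow
  have he1r : 24 * (k:ℝ) ≤ 6 * e1 + 6 + 4 * e2 := by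
    have : 24 * k ≤ 6 * e1 + 6 + 4 * e2 := by omega
    exact_mod_cast this
  have hE0 : 0 < ε ^ ((3:ℝ)/2) := by positivity
  have hE1 : ε ^ ((3:ℝ)/2) ≤ 1 := Real.rpow_le_one hε.le (by linarith) (by norm_num)
  have hN0 : 0 < (n:ℝ) ^ ((3:ℝ)/2) := by positivity
  have hmul : (ε * n) ^ ((3:ℝ)/2) = ε ^ ((3:ℝ)/2) * (n:ℝ) ^ ((3:ℝ)/2) :=
    Real.mul_rpow hε.le hnpos.le
  have hbig : 138 ≤ ε ^ ((3:ℝ)/2) * (n:ℝ) ^ ((3:ℝ)/2) := by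
    rw [← hmul]
    have h1 : (ε * n) ^ (1:ℝ) ≤ (ε * n) ^ ((3:ℝ)/2) :=
      Real.rpow_le_rpow_of_exponent_le (by linarith) (by norm_num)
    rw [Real.rpow_one] at h1
    linarith
  have he2r : ε ^ ((3:ℝ)/2) * (n:ℝ) ^ ((3:ℝ)/2) ≤ 23 * e2 := by
    rcases le_total m2 k with h | h
    · have : e2 = m2 := by rw [he2]; exact min_eq_left h
      rw [this, ← hmul]
      exact (Real.rpow_le_rpow (by positivity) h2l (by norm_num)).trans hm2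
    · have : e2 = k := by rw [he2]; exact min_eq_right h
      rw [this]
      nlinarith
  have hfin : ε ^ ((3:ℝ)/2) / 138 * (n:ℝ) ^ ((3:ℝ)/2)
      = (ε ^ ((3:ℝ)/2) * (n:ℝ) ^ ((3:ℝ)/2)) / 138 := by ring
  rw [hfin]
  linarith


end Jsecond2eps
export Jsecond2eps (second2eps)
end ED
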