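import Pool.Agent.Helper470.ED.Defs
import Pool.Agent.Helper470.ED.Mbig
import Pool.Agent.Helper470.ED.Mlow2
set_option autoImplicit false
open Finset
open scoped Classical

namespace ED
namespace Jsecond3








-- TARGET (prove this)
theorem second3 : ∃ c : ℝ, 0 < c ∧ ∀ n k : ℕ, (n : ℝ) ^ ((4 : ℝ) / 3) ≤ k → (k : ℝ) ≤ c * (n : ℝ) ^ ((3 : ℝ) / 2) → 1 ≤ k →
    6 * (k : ℝ) + c * (n : ℝ) ^ ((4 : ℝ) / 3) ≤ exd n k := by
  refine ⟨1/10000, by norm_num, ?_⟩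
  intro n k h1 h2 hk
  have hk1 : (1:ℝ) ≤ k := by exact_mod_cast hk
  have hN0 : (0:ℝ) < n := by
    rcases (Nat.cast_nonneg n : (0:ℝ) ≤ n).eq_or_lt with h | h
    · exfalso
      rw [← h, Real.zero_rpow (by norm_num)] at h2
      linarith
    · exact h
  obtain ⟨N, hN⟩ : ∃ N : ℝ, N = (n:ℝ) := ⟨_, rfl⟩
  rw [← hN] at h1 h2 hN0 ⊢
  obtain ⟨x, hx⟩ : ∃ x, x = N ^ ((1:ℝ)/6) := ⟨_, rfl⟩
  have hx0 : 0 < x := by rw [hx]; exact Real.rpow_pos_of_pos hN0 _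
  have e6 : N = x ^ 6 := by
    rw [hx, ← Real.rpow_natCast, ← Real.rpow_mul hN0.le]; norm_num
  have e9 : N ^ ((3:ℝ)/2) = x ^ 9 := by
    rw [hx, ← Real.rpow_natCast, ← Real.rpow_mul hN0.le]; norm_num
  have e8 : N ^ ((4:ℝ)/3) = x ^ 8 := by
    rw [hx, ← Real.rpow_natCast, ← Real.rpow_mul hN0.le]; norm_num
  have h8 : 0 < x^8 := by positivity
  rw [e8] at h1 ⊢
  rw [e9] at h2
  have hx4 : 10000 ≤ x := by
    have h3 : x^8 ≤ 1/10000 * x^9 := h1.trans h2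
    have h9 : x^9 = x^8 * x := by ring
    rw [h9] at h3
    have h4 : x^8 * 10000 ≤ x^8 * x := by linarith
    exact le_of_mul_le_mul_left h4 h8
  have hx8 : (10000:ℝ)^8 ≤ x^8 := pow_le_pow_left₀ (by norm_num) hx4 8
  have hx9 : (0:ℝ) < x^9 := by positivity
  have hnbig : 100 ≤ n := by
    have : (100:ℝ) ≤ (n:ℝ) := by
      rw [← hN, e6]
      calc (100:ℝ) ≤ 10000^6 := by norm_num
        _ ≤ x^6 := pow_le_pow_left₀ (by norm_num) hx4 6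
    exact_mod_cast this
  obtain ⟨G1, hG1, hG1e⟩ := big3 (n/2) (by omega)
  obtain ⟨G2, hG2, hG2e⟩ := big4 (n - n/2) (by omega)
  have p1 : x^9/8 ≤ ((n/2 : ℕ) : ℝ) ^ ((3:ℝ)/2) := by
    have h4 : N/4 ≤ ((n/2:ℕ):ℝ) := by
      have h5 : n ≤ 4 * (n/2) := by omega
      have h6 : (n:ℝ) ≤ 4 * ((n/2:ℕ):ℝ) := by exact_mod_cast h5
      rw [hN]; linarith
    have h5 : (N/4) ^ ((3:ℝ)/2) = x^9/8 := by
      rw [Real.div_rpow hN0.le (by norm_num), e9]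
      congr 1
      have : (4:ℝ) = 2 ^ (2:ℝ) := by norm_num
      rw [this, ← Real.rpow_mul (by norm_num)]; norm_num
    rw [← h5]
    exact Real.rpow_le_rpow (by positivity) h4 (by norm_num)
  have p2 : x^8/16 ≤ ((n - n/2 : ℕ) : ℝ) ^ ((4:ℝ)/3) := by
    have h4 : N/8 ≤ ((n - n/2:ℕ):ℝ) := by
      have h5 : n ≤ 8 * (n - n/2) := by omega
      have h6 : (n:ℝ) ≤ 8 * ((n - n/2:ℕ):ℝ) := by exact_mod_cast h5
      rw [hN]; linarith
    have h5 : (N/8) ^ ((4:ℝ)/3) = x^8/16 := by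
      rw [Real.div_rpow hN0.le (by norm_num), e8]
      congr 1
      have : (8:ℝ) = 2 ^ (3:ℝ) := by norm_num
      rw [this, ← Real.rpow_mul (by norm_num)]; norm_num
    rw [← h5]
    exact Real.rpow_le_rpow (by positivity) h4 (by norm_num)
  obtain ⟨m1, hm1⟩ : ∃ m : ℕ, m = G1.edgeSet.ncard := ⟨_, rfl⟩
  obtain ⟨m2, hm2⟩ : ∃ m : ℕ, m = G2.edgeSet.ncard := ⟨_, rfl⟩
  rw [← hm1] at hG1e
  rw [← hm2] at hG2e
  have q1 : x^9/184 ≤ (m1:ℝ) := by linarith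
  have q2 : x^8/656 ≤ (m2:ℝ) := by linarith
  obtain ⟨e2, he2⟩ : ∃ e : ℕ, e = min m2 k := ⟨_, rfl⟩
  obtain ⟨e1, he1⟩ : ∃ e : ℕ, e = 6*k - 1 - (3*e2+3)/4 := ⟨_, rfl⟩
  have h6k : 6 * k ≤ m1 := by
    have : (6:ℝ) * k ≤ m1 := by linarith
    exact_mod_cast this
  have he2m : e2 ≤ m2 := by omega
  have he2k : e2 ≤ k := by omega
  have hlow := low2 (n/2) (n-n/2) 6 8 e1 e2 k G1 G2 hG1 hG2 (by omega) (by omega) (by omega)
  have hsum : n/2 + (n - n/2) = n := by omega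
  rw [hsum] at hlow
  have hint : 24 * k + e2 ≤ 4 * (e1 + e2) + 7 := by omega
  have hreal : (24:ℝ) * k + e2 ≤ 4 * (e1 + e2) + 7 := by exact_mod_cast hint
  have he2r : x^8/656 ≤ (e2:ℝ) := by
    rcases le_total m2 k with h | h
    · rw [he2, min_eq_left h]; exact q2
    · rw [he2, min_eq_right h]; linarith
  have hlowr : ((e1:ℝ) + e2) ≤ exd n k := by exact_mod_cast hlow
  have h10 : (7:ℝ)/4 ≤ x^8 * (1/2624 - 1/10000) := by
    have : (10000:ℝ)^8 * (1/2624 - 1/10000) ≤ x^8 * (1/2624 - 1/10000) :=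
      mul_le_mul_of_nonneg_right hx8 (by norm_num)
    have h11 : (7:ℝ)/4 ≤ (10000:ℝ)^8 * (1/2624 - 1/10000) := by norm_num
    linarith
  linarith


end Jsecond3
export Jsecond3 (second3)
end ED
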