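import Pool.Agent.Helper470.ED.Defs
import Pool.Agent.Helper470.ED.Mavg
import Pool.Agent.Helper470.ED.Mbip
import Pool.Agent.Helper470.ED.Mlowx
import Pool.Agent.Helper470.ED.Mxbas
import Pool.Agent.Helper470.ED.Mxmono
set_option autoImplicit false
open Finset
open scoped Classical

namespace ED
namespace Jsharp
















theorem hz_low (a b b1 n n1 η lk : ℝ) (hη0 : 0 < η) (ha : 0 ≤ a) (hP : 0 < n * (n-1)) (hn : 2 ≤ n)
    (h0 : lk ≤ η^2/8 * a) (hab : a ≤ 2 * b) (hn1a : η * n ≤ n1) (hηn : 2 ≤ η * n)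
    (avg1R : b * (n1 * (n1 - 1)) ≤ b1 * (n * (n-1))) : 2 * lk ≤ b1 := by
  have h1 : η^2 * (n * (n-1)) / 2 ≤ n1 * (n1 - 1) := by
    have a1 : η * n / 2 ≤ n1 - 1 := by linarith
    have a2 : η * n * (η * n / 2) ≤ n1 * (n1 - 1) := mul_le_mul hn1a a1 (by linarith) (by linarith)
    have a3 : η * n * (η * n / 2) - η^2 * (n * (n-1)) / 2 = η^2 * n / 2 := by ring
    have a4 : 0 ≤ η^2 * n / 2 := by
      have : 0 ≤ n := by linarith
      positivity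
    linarith
  have h2 : a/2 * (η^2 * (n * (n-1)) / 2) ≤ b * (n1 * (n1 - 1)) := by
    refine mul_le_mul (by linarith) h1 ?_ (by linarith)
    have : 0 ≤ η^2 := by positivity
    have := mul_nonneg this hP.le
    linarith
  have h3 : (a * η^2/4) * (n * (n-1)) ≤ b1 * (n * (n-1)) := by
    have : a/2 * (η^2 * (n * (n-1)) / 2) = (a * η^2/4) * (n * (n-1)) := by ring
    linarith
  have h4 := le_of_mul_le_mul_right h3 hP
  linarith

theorem hz_up (c c2 n n2 η : ℝ) (hη0 : 0 < η) (hη1 : η ≤ 1/8) (hc : 0 ≤ c) (hP : 0 < n * (n-1)) (hn : 2 ≤ n)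
    (hn2big : (1 - 2*η) * n ≤ n2 - 1) (avg2R : c * (n2 * (n2 - 1)) ≤ c2 * (n * (n-1))) :
    (1 - 4*η) * c ≤ c2 := by
  have b0 : 0 ≤ (1 - 2*η) * n := mul_nonneg (by linarith) (by linarith)
  have b1 : ((1 - 2*η) * n) * ((1 - 2*η) * n) ≤ n2 * (n2 - 1) :=
    mul_le_mul (by linarith) hn2big b0 (by linarith)
  have b2 : (1 - 4*η) * (n * (n-1)) ≤ n2 * (n2 - 1) := by
    have c1 : (1 - 4*η) * (n * (n-1)) ≤ (1 - 4*η) * (n * n) := by
      apply mul_le_mul_of_nonneg_left _ (by linarith)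
      linarith
    have c2 : ((1 - 2*η) * n) * ((1 - 2*η) * n) - (1 - 4*η) * (n * n) = 4 * ((η * n) * (η * n)) := by ring
    have c3 : 0 ≤ (η * n) * (η * n) := mul_self_nonneg _
    linarith
  have b3 : c * ((1 - 4*η) * (n * (n-1))) ≤ c * (n2 * (n2 - 1)) := mul_le_mul_of_nonneg_left b2 hc
  have b4 : ((1 - 4*η) * c) * (n * (n-1)) ≤ c2 * (n * (n-1)) := by
    have : ((1 - 4*η) * c) * (n * (n-1)) = c * ((1 - 4*η) * (n * (n-1))) := by ring
    linarith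
  exact le_of_mul_le_mul_right b4 hP

theorem hz_end (ε e l k n c c2 E : ℝ) (he0 : 0 < e) (he1 : e ≤ 1) (hee : e ≤ ε) (hl : 2 ≤ l) (hn : 2 ≤ n)
    (hc : 0 ≤ c) (hnc : n ≤ c + 1) (hln : 2 * l ≤ (e/8)^2/8 * n) (hc2 : (1 - 4*(e/8)) * c ≤ c2)
    (hlowR : 2 * l * (2 * l + 2) * k + 2 * c2 ≤ (2 * l + 2) * E + (2 * l + 2)) :
    2 * l * k + (1 - ε) * c / (l + 1) ≤ E := by
  have hl1 : 0 < l + 1 := by linarith
  have hfin : (l + 1) ≤ (ε - e/2) * c := by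
    have d1 : (e/2) * c ≤ (ε - e/2) * c := mul_le_mul_of_nonneg_right (by linarith) hc
    have d2 : (e/2) * (n - 1) ≤ (e/2) * c := mul_le_mul_of_nonneg_left (by linarith) (by positivity)
    have d3 : (e/2) * (n/2) ≤ (e/2) * (n - 1) := mul_le_mul_of_nonneg_left (by linarith) (by positivity)
    have d4 : (e/8)^2/8 * n ≤ (e/4) * n := by
      apply mul_le_mul_of_nonneg_right _ (by linarith)
      have : e * e ≤ e * 1 := mul_le_mul_of_nonneg_left he1 he0.le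
      have : (e/8)^2/8 = e * e / 512 := by ring
      linarith
    linarith
  have hgoal : 2 * l * k * (l+1) + (1 - ε) * c ≤ E * (l+1) := by
    have f1 : (1 - 4*(e/8)) * c = (1 - ε) * c + (ε - e/2) * c := by ring
    have f2 : 2 * l * (2 * l + 2) * k = 2 * (2 * l * k * (l+1)) := by ring
    have f3 : (2 * l + 2) * E = 2 * (E * (l+1)) := by ring
    linarith
  rw [← sub_nonneg]
  have : E - (2 * l * k + (1 - ε) * c / (l + 1)) = (E * (l+1) - (2 * l * k * (l+1) + (1 - ε) * c)) / (l+1) := by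
    field_simp
  rw [this]
  exact div_nonneg (by linarith) hl1.le

-- TARGET (prove this)
theorem sharp (ε : ℝ) (hε : 0 < ε) : ∃ δ : ℝ, 0 < δ ∧ ∀ l n k : ℕ, 2 ≤ l → 1 ≤ k → X (2 * l) n ≤ k →
    (l : ℝ) * k ≤ δ * X (2 * l - 2) n →
    2 * (l : ℝ) * k + (1 - ε) * (X (2 * l + 1) n : ℝ) / (l + 1) ≤ exd n k := by
  obtain ⟨e, he0, he1, hee⟩ : ∃ e : ℝ, 0 < e ∧ e ≤ 1 ∧ e ≤ ε :=
    ⟨min ε 1, lt_min hε one_pos, min_le_right _ _, min_le_left _ _⟩
  refine ⟨(e/8)^2/8, by positivity, ?_⟩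
  intro l n k hl hk hX hlk
  obtain ⟨η, hη⟩ : ∃ η, η = e/8 := ⟨_, rfl⟩
  rw [← hη] at hlk
  obtain ⟨δ, hδ⟩ : ∃ δ, δ = η^2/8 := ⟨_, rfl⟩
  rw [← hδ] at hlk
  have hη0 : 0 < η := by rw [hη]; positivity
  have hη1 : η ≤ 1/8 := by rw [hη]; linarith
  have hδ0 : 0 < δ := by rw [hδ]; positivity
  have tri := X_triv (2*l-2) n
  have hlR : (2:ℝ) ≤ l := by exact_mod_cast hl
  have hkR : (1:ℝ) ≤ k := by exact_mod_cast hk
  have hlk0 : (0:ℝ) < (l:ℝ) * k := by positivity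
  have hXpos : (0:ℝ) < X (2*l-2) n := by
    by_contra hcon
    have h0 : (X (2*l-2) n : ℝ) ≤ 0 := not_lt.mp hcon
    nlinarith
  have hXposN : 0 < X (2*l-2) n := by exact_mod_cast hXpos
  have hn2 : 2 ≤ n := by
    by_contra hcon
    have h0 : n * (n-1) = 0 := by
      have h01 : n = 0 ∨ n = 1 := by omega
      rcases h01 with h | h <;> simp [h]
    omega
  have triR : 2 * (X (2*l-2) n : ℝ) ≤ n * (n - 1) := by
    have h0 : ((2 * X (2*l-2) n : ℕ):ℝ) ≤ ((n * (n-1) : ℕ) : ℝ) := by exact_mod_cast tri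
    rw [Nat.cast_mul, Nat.cast_mul, Nat.cast_sub (by omega)] at h0
    simpa using h0
  have htree := X_tree (2*l) n
  have hnk : (n:ℝ) - 1 ≤ k := by
    have h0 : n ≤ k + 1 := by omega
    have h1 : (n:ℝ) ≤ k + 1 := by exact_mod_cast h0
    linarith
  have hnR : (2:ℝ) ≤ n := by exact_mod_cast hn2
  have hn1' : (0:ℝ) < (n:ℝ) - 1 := by linarith
  have hn_big : 2 * (l:ℝ) ≤ δ * n := by
    have h1 : (l:ℝ) * (n-1) ≤ l * k := mul_le_mul_of_nonneg_left hnk (by linarith)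
    have h2 : δ * X (2*l-2) n ≤ δ * (n * (n-1)/2) := mul_le_mul_of_nonneg_left (by linarith) hδ0.le
    have h3 : (l:ℝ) * (n-1) ≤ (δ * n / 2) * (n-1) := by
      have : δ * (n * (n-1)/2) = (δ * n / 2) * (n-1) := by ring
      linarith
    have h4 := le_of_mul_le_mul_right h3 hn1'
    linarith
  have hηn : 2 ≤ η * n := by
    have h1 : δ ≤ η := by rw [hδ]; nlinarith
    have h2 : δ * n ≤ η * n := mul_le_mul_of_nonneg_right h1 (by linarith)
    linarith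
  obtain ⟨n1, hn1a, hn1b⟩ : ∃ n1 : ℕ, η * n ≤ n1 ∧ (n1:ℝ) < η*n+1 :=
    ⟨⌈η * n⌉₊, Nat.le_ceil _, Nat.ceil_lt_add_one (by positivity)⟩
  have hn1n : n1 < n := by
    have : η * n ≤ 1/8 * n := mul_le_mul_of_nonneg_right hη1 (by linarith)
    have : (n1:ℝ) < n := by linarith
    exact_mod_cast this
  obtain ⟨n2, hsum⟩ : ∃ n2, n1 + n2 = n := ⟨n - n1, by omega⟩
  have hsumR : (n1:ℝ) + n2 = n := by exact_mod_cast hsum
  have hn1pos : 1 ≤ n1 := by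
    have : (1:ℝ) ≤ n1 := by linarith
    exact_mod_cast this
  have hP : (0:ℝ) < n * (n-1) := by apply mul_pos <;> linarith
  have avg1 := avg (2*l-1) n1 n (by omega)
  have avg1R : (X (2*l-1) n : ℝ) * (n1 * (n1 - 1)) ≤ X (2*l-1) n1 * (n * (n-1)) := by
    have h0 : ((X (2*l-1) n * (n1 * (n1-1)) : ℕ):ℝ) ≤ ((X (2*l-1) n1 * (n * (n-1)) : ℕ):ℝ) := by
      exact_mod_cast avg1
    rw [Nat.cast_mul, Nat.cast_mul, Nat.cast_mul, Nat.cast_mul, Nat.cast_sub hn1pos,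
      Nat.cast_sub (by omega : 1 ≤ n)] at h0
    simpa using h0
  have hbip := bip (l-1) n
  rw [show 2*(l-1) = 2*l-2 by omega, show 2*l-2+1 = 2*l-1 by omega] at hbip
  have hbipR : (X (2*l-2) n : ℝ) ≤ 2 * X (2*l-1) n := by exact_mod_cast hbip
  have hb1 : 2 * ((l:ℝ) * k) ≤ X (2*l-1) n1 := by
    rw [hδ] at hlk
    exact hz_low _ _ _ n n1 η _ hη0 hXpos.le hP hnR hlk hbipR hn1a hηn avg1R
  have hn2big : (1 - 2*η) * n ≤ (n2:ℝ) - 1 := by linarith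
  have hn2pos : 1 ≤ n2 := by
    have : 0 ≤ (1 - 2*η) * (n:ℝ) := mul_nonneg (by linarith) (by linarith)
    have : (1:ℝ) ≤ n2 := by linarith
    exact_mod_cast this
  have avg2 := avg (2*l+1) n2 n (by omega)
  have avg2R : (X (2*l+1) n : ℝ) * (n2 * (n2 - 1)) ≤ X (2*l+1) n2 * (n * (n-1)) := by
    have h0 : ((X (2*l+1) n * (n2 * (n2-1)) : ℕ):ℝ) ≤ ((X (2*l+1) n2 * (n * (n-1)) : ℕ):ℝ) := by
      exact_mod_cast avg2
    rw [Nat.cast_mul, Nat.cast_mul, Nat.cast_mul, Nat.cast_mul, Nat.cast_sub hn2pos,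
      Nat.cast_sub (by omega : 1 ≤ n)] at h0
    simpa using h0
  have hc2 : (1 - 4*η) * (X (2*l+1) n : ℝ) ≤ X (2*l+1) n2 :=
    hz_up _ _ n n2 η hη0 hη1 (Nat.cast_nonneg _) hP hnR hn2big avg2R
  have htree2 : (n:ℝ) ≤ X (2*l+1) n + 1 := by exact_mod_cast X_tree (2*l+1) n
  have hh1 : 2 * l * k ≤ X (2*l-1) n1 := by
    have : ((2 * l * k : ℕ):ℝ) ≤ X (2*l-1) n1 := by push_cast; linarith
    exact_mod_cast this
  have hh2 : X (2*l+2-1) n2 ≤ (2*l+2) * k := by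
    rw [show 2*l+2-1 = 2*l+1 by omega]
    have c1 := X_mono (2*l+1) n2 n (by omega)
    have c2 := X_anti (2*l) (2*l+1) n (by omega)
    have c3 : k ≤ (2*l+2) * k := Nat.le_mul_of_pos_left _ (by omega)
    omega
  have hlow := lowX (2*l) (2*l+2) n1 n2 k (by omega) (by omega) hk hh1 hh2
  rw [show 2*l+2-1 = 2*l+1 by omega, show 2*l+2-2*l = 2 by omega, hsum] at hlow
  have hlowR : 2 * (l:ℝ) * (2 * l + 2) * k + 2 * X (2*l+1) n2 ≤ (2 * l + 2) * exd n k + (2 * l + 2) := by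
    exact_mod_cast hlow
  rw [hη] at hc2
  rw [hδ, hη] at hn_big
  exact hz_end ε e l k n _ _ _ he0 he1 hee hlR hnR (Nat.cast_nonneg _) htree2 hn_big hc2 hlowR


end Jsharp
export Jsharp (sharp)
end ED
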