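import Pool.Agent.Helper470.ED.Defs
import Pool.Agent.Helper470.ED.Mavg
import Pool.Agent.Helper470.ED.Mbip
import Pool.Agent.Helper470.ED.Mlowx
import Pool.Agent.Helper470.ED.Mxbas
import Pool.Agent.Helper470.ED.Mxmono
set_option autoImplicit false
open Finset
open scoped Classical

namespace ED
namespace Jsharp2
















set_option maxHeartbeats 4000000 in
theorem sharp2_aux (l : ℕ) (hl : 2 ≤ l) (ε : ℝ) (hε : 0 < ε) (hε1 : ε ≤ 1) : ∃ δ : ℝ, 0 < δ ∧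
    ∀ n k : ℕ, 1 ≤ k →
    X (2 * l + 1) n ≤ (2 * l + 2) * k → (k : ℝ) ≤ δ * X (2 * l - 2) n →
    2 * (l : ℝ) * k + (1 - ε) * (X (2 * l + 1) n : ℝ) / (l + 1) ≤ exd n k := by
  refine ⟨ε ^ 2 / (512 * ((l : ℝ) + 1) ^ 2), by positivity, fun n k hk hY hkZ => ?_⟩
  have hl' : (2:ℝ) ≤ l := by exact_mod_cast hl
  have hk' : (1:ℝ) ≤ k := by exact_mod_cast hk
  set L : ℝ := (l : ℝ) with hL
  have hL1 : 0 < L + 1 := by linarith
  set δ : ℝ := ε ^ 2 / (512 * (L + 1) ^ 2) with hδ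
  have hδ0 : 0 < δ := by positivity
  have hδL : δ * (512 * (L + 1) ^ 2) = ε ^ 2 := by
    rw [hδ]; field_simp
  have hZpos : 0 < (X (2 * l - 2) n : ℝ) := by
    by_contra hcon
    have h0 : δ * (X (2 * l - 2) n : ℝ) ≤ 0 :=
      mul_nonpos_of_nonneg_of_nonpos hδ0.le (not_lt.mp hcon)
    linarith
  have htriv := X_triv (2 * l - 2) n
  have hZnat : 0 < X (2 * l - 2) n := by exact_mod_cast hZpos
  have hn2 : 2 ≤ n := by
    by_contra hcon
    have : n = 0 ∨ n = 1 := by omega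
    rcases this with h | h <;> subst h <;> simp at htriv <;> omega
  have hn2' : (2:ℝ) ≤ n := by exact_mod_cast hn2
  have htriv' : 2 * (X (2 * l - 2) n : ℝ) ≤ n * (n - 1) := by
    have h1 : ((2 * X (2 * l - 2) n : ℕ) : ℝ) ≤ ((n * (n - 1) : ℕ) : ℝ) := by exact_mod_cast htriv
    rw [Nat.cast_mul, Nat.cast_mul, Nat.cast_sub (by omega : 1 ≤ n)] at h1
    push_cast at h1
    exact h1
  have htree : (n:ℝ) ≤ X (2 * l + 1) n + 1 := by exact_mod_cast X_tree (2 * l + 1) n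
  have hYk : (X (2 * l + 1) n : ℝ) ≤ (2 * L + 2) * k := by
    have h1 : ((X (2 * l + 1) n : ℕ) : ℝ) ≤ (((2 * l + 2) * k : ℕ) : ℝ) := by exact_mod_cast hY
    push_cast at h1
    exact h1
  set Y : ℝ := (X (2 * l + 1) n : ℝ) with hYdef
  set Z : ℝ := (X (2 * l - 2) n : ℝ) with hZdef
  have hbig : 1 ≤ (L + 1) * δ * n := by
    have h1 : ((n:ℝ) - 1) ≤ ((L + 1) * δ * n) * (n - 1) := by
      calc (n:ℝ) - 1 ≤ Y := by linarith
        _ ≤ (2 * L + 2) * k := hYk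
        _ ≤ (2 * L + 2) * (δ * Z) := by
            apply mul_le_mul_of_nonneg_left hkZ; linarith
        _ = ((L + 1) * δ) * (2 * Z) := by ring
        _ ≤ ((L + 1) * δ) * (n * (n - 1)) := by
            apply mul_le_mul_of_nonneg_left htriv'; positivity
        _ = ((L + 1) * δ * n) * (n - 1) := by ring
    have h2 : (0:ℝ) < n - 1 := by linarith
    by_contra hcon
    push Not at hcon
    have := mul_lt_mul_of_pos_right hcon h2
    linarith
  have hn512 : 512 * (L + 1) ≤ ε ^ 2 * n := by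
    have h1 : 512 * (L + 1) * 1 ≤ 512 * (L + 1) * ((L + 1) * δ * n) :=
      mul_le_mul_of_nonneg_left hbig (by positivity)
    have h2 : 512 * (L + 1) * ((L + 1) * δ * n) = δ * (512 * (L + 1) ^ 2) * n := by ring
    rw [h2, hδL] at h1
    linarith
  have hn16 : 512 * (L + 1) ≤ ε * n := by
    have h1 : ε ^ 2 * n ≤ ε * n := by
      apply mul_le_mul_of_nonneg_right _ (by linarith)
      nlinarith
    linarith
  -- n1
  set n1 : ℕ := ⌈ε / 8 * n⌉₊ with hn1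
  have hlo : ε / 8 * n ≤ n1 := Nat.le_ceil _
  have hhi : (n1 : ℝ) < ε / 8 * n + 1 := Nat.ceil_lt_add_one (by positivity)
  have hn1n : n1 ≤ n := by
    apply Nat.ceil_le.mpr
    nlinarith
  have hn1pos : 1 ≤ n1 := by
    have : (1:ℝ) ≤ n1 := by linarith
    exact_mod_cast this
  set n2 : ℕ := n - n1 with hn2def
  have hn2c : (n2 : ℝ) = n - n1 := by rw [hn2def, Nat.cast_sub hn1n]
  have hn2n : n2 ≤ n := Nat.sub_le _ _
  have hn2lo : (1 - ε / 4) * n ≤ n2 := by rw [hn2c]; nlinarith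
  have hn2pos : 1 ≤ n2 := by
    have : (1:ℝ) ≤ n2 := by nlinarith
    exact_mod_cast this
  have hnpos : (0:ℝ) < n := by linarith
  -- first average
  have hW : Z ≤ 2 * (X (2 * l - 1) n : ℝ) := by
    have h1 := bip (l - 1) n
    have e1 : 2 * (l - 1) = 2 * l - 2 := by omega
    have e2 : 2 * (l - 1) + 1 = 2 * l - 1 := by omega
    rw [e2, e1] at h1
    rw [hZdef]
    exact_mod_cast h1
  have havg1 : (X (2 * l - 1) n : ℝ) * (n1 * (n1 - 1)) ≤ X (2 * l - 1) n1 * (n * (n - 1)) := by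
    have h1 := avg (2 * l - 1) n1 n hn1n
    have h2 : ((X (2 * l - 1) n * (n1 * (n1 - 1)) : ℕ) : ℝ) ≤
        ((X (2 * l - 1) n1 * (n * (n - 1)) : ℕ) : ℝ) := by exact_mod_cast h1
    rw [Nat.cast_mul, Nat.cast_mul, Nat.cast_mul, Nat.cast_mul, Nat.cast_sub hn1pos,
      Nat.cast_sub (by omega : 1 ≤ n)] at h2
    push_cast at h2
    exact h2
  have ha : ε ^ 2 / 256 * Z ≤ (X (2 * l - 1) n1 : ℝ) := by
    set A : ℝ := (X (2 * l - 1) n1 : ℝ) with hA
    set W : ℝ := (X (2 * l - 1) n : ℝ) with hWd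
    have hA0 : 0 ≤ A := Nat.cast_nonneg _
    have hW0 : 0 ≤ W := Nat.cast_nonneg _
    have h1 : (ε / 8 * n) ^ 2 / 2 ≤ (n1:ℝ) * (n1 - 1) := by
      have h3 : 2 ≤ ε / 8 * n := by linarith
      nlinarith
    have h2 : W * ((ε / 8 * n) ^ 2 / 2) ≤ A * n ^ 2 := by
      calc W * ((ε / 8 * n) ^ 2 / 2) ≤ W * ((n1:ℝ) * (n1 - 1)) :=
            mul_le_mul_of_nonneg_left h1 hW0
        _ ≤ A * (n * (n - 1)) := havg1
        _ ≤ A * n ^ 2 := by
            apply mul_le_mul_of_nonneg_left _ hA0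
            nlinarith
    have h3 : (Z / 2) * ((ε / 8 * n) ^ 2 / 2) ≤ A * n ^ 2 := by
      have : (Z / 2) * ((ε / 8 * n) ^ 2 / 2) ≤ W * ((ε / 8 * n) ^ 2 / 2) := by
        apply mul_le_mul_of_nonneg_right (by linarith) (by positivity)
      linarith
    have h4 : (ε ^ 2 / 256 * Z) * n ^ 2 ≤ A * n ^ 2 := by
      have : (ε ^ 2 / 256 * Z) * n ^ 2 = (Z / 2) * ((ε / 8 * n) ^ 2 / 2) := by ring
      rw [this]; exact h3
    exact le_of_mul_le_mul_right h4 (by positivity)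
  have h1 : 2 * l * k ≤ X (2 * l - 1) n1 := by
    have h2 : ((2 * l * k : ℕ) : ℝ) ≤ (X (2 * l - 1) n1 : ℝ) := by
      push_cast
      calc 2 * L * (k:ℝ) ≤ 2 * L * (δ * Z) := by
            apply mul_le_mul_of_nonneg_left hkZ; linarith
        _ = (2 * L * δ) * Z := by ring
        _ ≤ (ε ^ 2 / 256) * Z := by
            apply mul_le_mul_of_nonneg_right _ hZpos.le
            rw [← hδL]
            have : L ≤ (L + 1) ^ 2 := by nlinarith
            nlinarith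
        _ ≤ _ := ha
    exact_mod_cast h2
  have h2 : X (2 * l + 2 - 1) n2 ≤ (2 * l + 2) * k := by
    have e1 : 2 * l + 2 - 1 = 2 * l + 1 := by omega
    rw [e1]
    exact (X_mono (2 * l + 1) n2 n hn2n).trans hY
  have hlow := lowX (2 * l) (2 * l + 2) n1 n2 k (by omega) (by omega) hk h1 h2
  have e1 : 2 * l + 2 - 1 = 2 * l + 1 := by omega
  have e2 : 2 * l + 2 - 2 * l = 2 := by omega
  have e3 : n1 + n2 = n := by omega
  rw [e1, e2, e3] at hlow
  have hlow' : 2 * L * (2 * L + 2) * k + 2 * (X (2 * l + 1) n2 : ℝ) ≤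
      (2 * L + 2) * (exd n k : ℝ) + (2 * L + 2) := by
    have h3 : ((2 * l * (2 * l + 2) * k + 2 * X (2 * l + 1) n2 : ℕ) : ℝ) ≤
        (((2 * l + 2) * exd n k + (2 * l + 2) : ℕ) : ℝ) := by exact_mod_cast hlow
    push_cast at h3
    exact h3
  have havg2 : Y * ((n2:ℝ) * (n2 - 1)) ≤ X (2 * l + 1) n2 * (n * (n - 1)) := by
    have h1 := avg (2 * l + 1) n2 n hn2n
    have h2 : ((X (2 * l + 1) n * (n2 * (n2 - 1)) : ℕ) : ℝ) ≤
        ((X (2 * l + 1) n2 * (n * (n - 1)) : ℕ) : ℝ) := by exact_mod_cast h1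
    rw [Nat.cast_mul, Nat.cast_mul, Nat.cast_mul, Nat.cast_mul, Nat.cast_sub hn2pos,
      Nat.cast_sub (by omega : 1 ≤ n)] at h2
    push_cast at h2
    exact h2
  have hb : (1 - 5 * ε / 8) * Y ≤ (X (2 * l + 1) n2 : ℝ) := by
    set B : ℝ := (X (2 * l + 1) n2 : ℝ) with hB
    have hB0 : 0 ≤ B := Nat.cast_nonneg _
    have hY0 : 0 ≤ Y := Nat.cast_nonneg _
    have h3 : (1 - 3 * ε / 8) * n ≤ (n2:ℝ) - 1 := by nlinarith
    have h4 : ((1 - ε / 4) * n) * ((1 - 3 * ε / 8) * n) ≤ (n2:ℝ) * (n2 - 1) := by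
      apply mul_le_mul hn2lo h3
      · apply mul_nonneg _ hnpos.le
        linarith
      · exact Nat.cast_nonneg _
    have h5 : (1 - 5 * ε / 8) * (n:ℝ) ^ 2 ≤ ((1 - ε / 4) * n) * ((1 - 3 * ε / 8) * n) := by
      have : ((1 - ε / 4) * n) * ((1 - 3 * ε / 8) * n) - (1 - 5 * ε / 8) * (n:ℝ) ^ 2 =
          3 * ε ^ 2 / 32 * (n:ℝ) ^ 2 := by ring
      have h6 : 0 ≤ 3 * ε ^ 2 / 32 * (n:ℝ) ^ 2 := by positivity
      linarith
    have h6 : ((1 - 5 * ε / 8) * Y) * (n:ℝ) ^ 2 ≤ B * (n:ℝ) ^ 2 := by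
      calc ((1 - 5 * ε / 8) * Y) * (n:ℝ) ^ 2 = Y * ((1 - 5 * ε / 8) * (n:ℝ) ^ 2) := by ring
        _ ≤ Y * ((n2:ℝ) * (n2 - 1)) := mul_le_mul_of_nonneg_left (h5.trans h4) hY0
        _ ≤ B * (n * (n - 1)) := havg2
        _ ≤ B * (n:ℝ) ^ 2 := by
            apply mul_le_mul_of_nonneg_left _ hB0
            nlinarith
    exact le_of_mul_le_mul_right h6 (by positivity)
  have hlast : L + 1 ≤ 3 * ε / 8 * Y := by
    have h3 : 3 * ε / 8 * ((n:ℝ) - 1) ≤ 3 * ε / 8 * Y := by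
      apply mul_le_mul_of_nonneg_left (by linarith) (by positivity)
    nlinarith
  -- conclude
  have hfin : (2 * L * k + (1 - ε) * Y / (L + 1)) * (L + 1) ≤ (exd n k : ℝ) * (L + 1) := by
    have e4 : (2 * L * k + (1 - ε) * Y / (L + 1)) * (L + 1) = 2 * L * k * (L + 1) + (1 - ε) * Y := by
      field_simp
    rw [e4]
    nlinarith
  exact le_of_mul_le_mul_right hfin hL1

-- TARGET (prove this)
theorem sharp2 (l : ℕ) (hl : 2 ≤ l) (ε : ℝ) (hε : 0 < ε) : ∃ δ : ℝ, 0 < δ ∧ ∀ n k : ℕ, 1 ≤ k →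
    X (2 * l + 1) n ≤ (2 * l + 2) * k → (k : ℝ) ≤ δ * X (2 * l - 2) n →
    2 * (l : ℝ) * k + (1 - ε) * (X (2 * l + 1) n : ℝ) / (l + 1) ≤ exd n k := by
  rcases le_or_gt ε 1 with h1 | h1
  · exact sharp2_aux l hl ε hε h1
  · obtain ⟨δ, hδ, H⟩ := sharp2_aux l hl 1 one_pos le_rfl
    refine ⟨δ, hδ, fun n k hk hY hkZ => ?_⟩
    have h2 := H n k hk hY hkZ
    have h3 : (1 - ε) * (X (2 * l + 1) n : ℝ) / (l + 1) ≤
        (1 - 1) * (X (2 * l + 1) n : ℝ) / (l + 1) := by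
      apply div_le_div_of_nonneg_right _ (by positivity)
      apply mul_le_mul_of_nonneg_right (by linarith) (Nat.cast_nonneg _)
    linarith



end Jsharp2
export Jsharp2 (sharp2)
end ED
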