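import Pool.Agent.Helper470.ED.Defs
import Pool.Agent.Helper470.ED.Mavg
import Pool.Agent.Helper470.ED.Mbip
import Pool.Agent.Helper470.ED.Mlowx
import Pool.Agent.Helper470.ED.Mxbas
import Pool.Agent.Helper470.ED.Mxmono
set_option autoImplicit false
open Finset
open scoped Classical

namespace ED
namespace Jsharp3
















set_option maxHeartbeats 1600000 in
theorem sharp3_aux (ε : ℝ) (hε : 0 < ε) (hε1 : ε ≤ 1) (l n k : ℕ) (hl : 2 ≤ l) (hk : 1 ≤ k)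
    (hX : X (2 * l) n ≤ k) (hY : (l : ℝ) * k ≤ (ε ^ 2 / 512) * X (2 * l - 2) n) :
    2 * (l : ℝ) * k + (1 - ε) * (X (2 * l) n : ℝ) / (2 * l + 1) ≤ exd n k := by
  obtain ⟨η, hη⟩ : ∃ η : ℝ, η = ε / 8 := ⟨_, rfl⟩
  have hη0 : 0 < η := by rw [hη]; positivity
  have hη1 : η ≤ 1 / 8 := by rw [hη]; linarith
  have hδ : ε ^ 2 / 512 = η ^ 2 / 8 := by rw [hη]; ring
  have hε8 : ε = 8 * η := by rw [hη]; ring
  rw [hδ] at hY
  have hl' : (2:ℝ) ≤ l := by exact_mod_cast hl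
  have hk' : (1:ℝ) ≤ k := by exact_mod_cast hk
  have htriv := X_triv (2 * l - 2) n
  have hbip := bip (l - 1) n
  rw [show 2 * (l - 1) + 1 = 2 * l - 1 by omega, show 2 * (l - 1) = 2 * l - 2 by omega] at hbip
  have htree := X_tree (2 * l) n
  have hlk : (2:ℝ) ≤ l * k := by nlinarith
  have hy0 : (0:ℝ) < X (2 * l - 2) n := by
    by_contra h
    have h1 : η ^ 2 / 8 * (X (2 * l - 2) n : ℝ) ≤ 0 :=
      mul_nonpos_of_nonneg_of_nonpos (by positivity) (not_lt.1 h)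
    linarith
  have hn2 : 2 ≤ n := by
    by_contra h
    have h1 : n = 0 ∨ n = 1 := by omega
    have h2 : (0 : ℕ) < X (2 * l - 2) n := by exact_mod_cast hy0
    rcases h1 with h1 | h1 <;> rw [h1] at htriv h2 <;> simp at htriv <;> omega
  have hN2 : (2:ℝ) ≤ n := by exact_mod_cast hn2
  have htrivR : 2 * (X (2 * l - 2) n : ℝ) ≤ n * ((n : ℝ) - 1) := by
    have h1 : ((2 * X (2 * l - 2) n : ℕ) : ℝ) ≤ ((n * (n - 1) : ℕ) : ℝ) := by exact_mod_cast htriv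
    rw [Nat.cast_mul, Nat.cast_mul, Nat.cast_sub (by omega : 1 ≤ n)] at h1
    simpa using h1
  have htreeR : (n : ℝ) - 1 ≤ X (2 * l) n := by
    have h1 : (n : ℝ) ≤ X (2 * l) n + 1 := by exact_mod_cast htree
    linarith
  have hXR : (X (2 * l) n : ℝ) ≤ k := by exact_mod_cast hX
  have hbipR : (X (2 * l - 2) n : ℝ) ≤ 2 * X (2 * l - 1) n := by exact_mod_cast hbip
  have hNl : 16 * (l : ℝ) ≤ η ^ 2 * n := by
    have h1 : (l : ℝ) * ((n : ℝ) - 1) ≤ (η ^ 2 / 16 * n) * ((n : ℝ) - 1) := by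
      have h2 : (l : ℝ) * ((n : ℝ) - 1) ≤ l * k :=
        mul_le_mul_of_nonneg_left (by linarith) (by linarith)
      have h3 : η ^ 2 / 8 * (X (2 * l - 2) n : ℝ) ≤ η ^ 2 / 8 * (n * ((n : ℝ) - 1) / 2) :=
        mul_le_mul_of_nonneg_left (by linarith) (by positivity)
      calc (l : ℝ) * ((n : ℝ) - 1) ≤ l * k := h2
        _ ≤ η ^ 2 / 8 * (X (2 * l - 2) n : ℝ) := hY
        _ ≤ η ^ 2 / 8 * (n * ((n : ℝ) - 1) / 2) := h3
        _ = _ := by ring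
    have h2 := le_of_mul_le_mul_right h1 (by linarith)
    linarith
  have hηn : 128 * (l : ℝ) ≤ η * n := by
    have h1 : η ^ 2 * n ≤ 1 / 8 * (η * n) := by
      have : η ^ 2 * n = η * (η * n) := by ring
      rw [this]
      exact mul_le_mul_of_nonneg_right hη1 (by positivity)
    linarith
  have hηn2 : 2 ≤ η * n := by linarith
  obtain ⟨n1, hn1⟩ : ∃ n1 : ℕ, n1 = ⌈η * n⌉₊ := ⟨_, rfl⟩
  have h1a : η * n ≤ n1 := by rw [hn1]; exact Nat.le_ceil _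
  have h1b : (n1 : ℝ) < η * n + 1 := by rw [hn1]; exact Nat.ceil_lt_add_one (by positivity)
  have h1c : n1 ≤ n := by
    rw [hn1, Nat.ceil_le]
    nlinarith
  obtain ⟨n2, hn2'⟩ : ∃ n2 : ℕ, n2 = n - n1 := ⟨_, rfl⟩
  have hsum : n1 + n2 = n := by omega
  have hn2R : (n2 : ℝ) = n - n1 := by
    have : ((n1 + n2 : ℕ) : ℝ) = n := by rw [hsum]
    push_cast at this
    linarith
  have hn1pos : 1 ≤ n1 := by
    have : (1:ℝ) ≤ n1 := by linarith
    exact_mod_cast this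
  have hn2big : (1 - 2 * η) * n ≤ n2 := by rw [hn2R]; linarith
  have hn2pos : 1 ≤ n2 := by
    have : (1:ℝ) ≤ n2 := by nlinarith
    exact_mod_cast this
  have havg1 : (X (2 * l - 1) n : ℝ) * (n1 * ((n1 : ℝ) - 1)) ≤
      X (2 * l - 1) n1 * (n * ((n : ℝ) - 1)) := by
    have h1 : ((X (2 * l - 1) n * (n1 * (n1 - 1)) : ℕ) : ℝ) ≤
        ((X (2 * l - 1) n1 * (n * (n - 1)) : ℕ) : ℝ) := by
      exact_mod_cast avg (2 * l - 1) n1 n h1c
    rw [Nat.cast_mul, Nat.cast_mul, Nat.cast_mul, Nat.cast_mul, Nat.cast_sub hn1pos,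
      Nat.cast_sub (by omega : 1 ≤ n)] at h1
    simpa using h1
  have havg2 : (X (2 * l) n : ℝ) * (n2 * ((n2 : ℝ) - 1)) ≤
      X (2 * l) n2 * (n * ((n : ℝ) - 1)) := by
    have h1 : ((X (2 * l) n * (n2 * (n2 - 1)) : ℕ) : ℝ) ≤
        ((X (2 * l) n2 * (n * (n - 1)) : ℕ) : ℝ) := by
      exact_mod_cast avg (2 * l) n2 n (by omega)
    rw [Nat.cast_mul, Nat.cast_mul, Nat.cast_mul, Nat.cast_mul, Nat.cast_sub hn2pos,
      Nat.cast_sub (by omega : 1 ≤ n)] at h1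
    simpa using h1
  have hq : 2 * l * k ≤ X (2 * l - 1) n1 := by
    have h1 : η ^ 2 / 2 * (n : ℝ) ^ 2 ≤ n1 * ((n1 : ℝ) - 1) := by
      have h2 : η * n * (η * n - 1) ≤ n1 * ((n1 : ℝ) - 1) :=
        mul_le_mul h1a (by linarith) (by linarith) (by positivity)
      have h3 : η ^ 2 / 2 * (n : ℝ) ^ 2 = η * n * (η * n / 2) := by ring
      rw [h3]
      refine le_trans (mul_le_mul_of_nonneg_left ?_ (by positivity)) h2
      linarith
    have h4 : (X (2 * l - 1) n : ℝ) * (η ^ 2 / 2 * (n : ℝ) ^ 2) ≤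
        X (2 * l - 1) n1 * (n : ℝ) ^ 2 := by
      refine le_trans (mul_le_mul_of_nonneg_left h1 (Nat.cast_nonneg _)) (havg1.trans ?_)
      refine mul_le_mul_of_nonneg_left ?_ (Nat.cast_nonneg _)
      have e : (n : ℝ) ^ 2 - n * ((n : ℝ) - 1) = n := by ring
      linarith
    have h5 : (X (2 * l - 1) n : ℝ) * (η ^ 2 / 2) ≤ X (2 * l - 1) n1 := by
      have h6 : (0:ℝ) < (n : ℝ) ^ 2 := by positivity
      refine le_of_mul_le_mul_right ?_ h6
      calc (X (2 * l - 1) n : ℝ) * (η ^ 2 / 2) * (n : ℝ) ^ 2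
          = (X (2 * l - 1) n : ℝ) * (η ^ 2 / 2 * (n : ℝ) ^ 2) := by ring
        _ ≤ _ := h4
    have h7 : (X (2 * l - 2) n : ℝ) / 2 * (η ^ 2 / 2) ≤ (X (2 * l - 1) n : ℝ) * (η ^ 2 / 2) :=
      mul_le_mul_of_nonneg_right (by linarith) (by positivity)
    have h8 : (X (2 * l - 2) n : ℝ) / 2 * (η ^ 2 / 2) = 2 * (η ^ 2 / 8 * X (2 * l - 2) n) := by
      ring
    have h9 : (2 * l * k : ℝ) ≤ X (2 * l - 1) n1 := by
      linarith
    exact_mod_cast h9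
  have hup : X (2 * l + 1 - 1) n2 ≤ (2 * l + 1) * k := by
    rw [show 2 * l + 1 - 1 = 2 * l by omega]
    calc X (2 * l) n2 ≤ X (2 * l) n := X_mono _ _ _ (by omega)
      _ ≤ k := hX
      _ ≤ (2 * l + 1) * k := Nat.le_mul_of_pos_left k (by omega)
  have hlow := lowX (2 * l) (2 * l + 1) n1 n2 k (by omega) (by omega) hk hq hup
  rw [show 2 * l + 1 - 1 = 2 * l by omega, show 2 * l + 1 - 2 * l = 1 by omega, hsum,
    one_mul] at hlow
  have hlowR : 2 * (l : ℝ) * (2 * l + 1) * k + X (2 * l) n2 ≤ (2 * l + 1) * exd n k + (2 * l + 1) := by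
    exact_mod_cast hlow
  have hx2 : (1 - 5 * η) * (X (2 * l) n : ℝ) ≤ X (2 * l) n2 := by
    have h1 : (1 - 5 * η) * (n : ℝ) ^ 2 ≤ n2 * ((n2 : ℝ) - 1) := by
      have h2 : (1 - 3 * η) * (n : ℝ) ≤ (n2 : ℝ) - 1 := by linarith
      have h3 : (1 - 2 * η) * (n : ℝ) * ((1 - 3 * η) * n) ≤ n2 * ((n2 : ℝ) - 1) :=
        mul_le_mul hn2big h2 (mul_nonneg (by linarith) (by linarith)) (by linarith)
      have h4 : (1 - 2 * η) * (n : ℝ) * ((1 - 3 * η) * n) =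
          (1 - 5 * η) * (n : ℝ) ^ 2 + 6 * (η * n) ^ 2 := by ring
      rw [h4] at h3
      linarith [sq_nonneg (η * (n : ℝ))]
    have h5 : (X (2 * l) n : ℝ) * ((1 - 5 * η) * (n : ℝ) ^ 2) ≤ X (2 * l) n2 * (n : ℝ) ^ 2 := by
      refine le_trans (mul_le_mul_of_nonneg_left h1 (Nat.cast_nonneg _)) (havg2.trans ?_)
      refine mul_le_mul_of_nonneg_left ?_ (Nat.cast_nonneg _)
      have e : (n : ℝ) ^ 2 - n * ((n : ℝ) - 1) = n := by ring
      linarith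
    have h6 : (0:ℝ) < (n : ℝ) ^ 2 := by positivity
    refine le_of_mul_le_mul_right ?_ h6
    calc (1 - 5 * η) * (X (2 * l) n : ℝ) * (n : ℝ) ^ 2
        = (X (2 * l) n : ℝ) * ((1 - 5 * η) * (n : ℝ) ^ 2) := by ring
      _ ≤ _ := h5
  have hlast : (2 * (l : ℝ) + 1) ≤ 3 * η * X (2 * l) n := by
    have h1 : (n : ℝ) / 2 ≤ X (2 * l) n := by linarith
    have h2 : 3 * η * ((n : ℝ) / 2) ≤ 3 * η * X (2 * l) n :=
      mul_le_mul_of_nonneg_left h1 (by positivity)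
    have h3 : 3 * η * ((n : ℝ) / 2) = 3 / 2 * (η * n) := by ring
    rw [h3] at h2
    linarith
  have hpos : (0:ℝ) < 2 * l + 1 := by linarith
  have hgoal : 2 * (l : ℝ) * k * (2 * l + 1) + (1 - ε) * (X (2 * l) n : ℝ) ≤
      exd n k * (2 * l + 1) := by
    rw [hε8]
    linarith
  have h1 : 2 * (l : ℝ) * k + (1 - ε) * (X (2 * l) n : ℝ) / (2 * l + 1) =
      (2 * (l : ℝ) * k * (2 * l + 1) + (1 - ε) * (X (2 * l) n : ℝ)) / (2 * l + 1) := by
    field_simp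
  rw [h1, div_le_iff₀ hpos]
  exact hgoal

-- TARGET (prove this)
theorem sharp3 (ε : ℝ) (hε : 0 < ε) : ∃ δ : ℝ, 0 < δ ∧ ∀ l n k : ℕ, 2 ≤ l → 1 ≤ k → X (2 * l) n ≤ k →
    (l : ℝ) * k ≤ δ * X (2 * l - 2) n →
    2 * (l : ℝ) * k + (1 - ε) * (X (2 * l) n : ℝ) / (2 * l + 1) ≤ exd n k := by
  rcases le_or_gt ε 1 with h | h
  · exact ⟨ε ^ 2 / 512, by positivity, fun l n k hl hk hX hY =>
      sharp3_aux ε hε h l n k hl hk hX hY⟩
  · refine ⟨1 ^ 2 / 512, by positivity, fun l n k hl hk hX hY => ?_⟩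
    have h1 := sharp3_aux 1 one_pos le_rfl l n k hl hk hX hY
    refine le_trans ?_ h1
    have h2 : (0:ℝ) ≤ X (2 * l) n := Nat.cast_nonneg _
    have h3 : (0:ℝ) < 2 * l + 1 := by positivity
    have h4 : (1 - ε) * (X (2 * l) n : ℝ) / (2 * l + 1) ≤ (1 - 1) * (X (2 * l) n : ℝ) / (2 * l + 1) :=
      (div_le_div_iff_of_pos_right h3).2 (mul_le_mul_of_nonneg_right (by linarith) h2)
    linarith


end Jsharp3
export Jsharp3 (sharp3)
end ED
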