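import Pool.Agent.Helper470.ED.Defs
import Pool.Agent.Helper470.ED.Mexd1
import Pool.Agent.Helper470.ED.Mpeel
import Pool.Agent.Helper470.ED.Mxbas
set_option autoImplicit false
open Finset
open scoped Classical

namespace ED
namespace JupX3








theorem arith1 (g p q k e a b2 b3 u v Xj : ℕ) (hg : 1 ≤ g)
    (hk : a + b2 + b3 = k)
    (hu : u < (g + p) * b2 + (g + p)) (hv : v < (g + p + q) * b3 + (g + p + q))
    (h1 : g * (g + p) * (g + p + q) * k + p * (g + p + q) * (Xj + v + u) + g * q * (Xj + v) +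
      g * (g + p) * Xj + g * (g + p) * (g + p + q) < (g + p) * (g + p + q) * e) :
    (Xj + v + u) + g * a < e + g := by
  by_contra hcon
  have hcon' : e + g ≤ (Xj + v + u) + g * a := not_lt.mp hcon
  have E1 : (g + p) * (g + p + q) * (e + g) ≤ (g + p) * (g + p + q) * ((Xj + v + u) + g * a) :=
    Nat.mul_le_mul_left _ hcon'
  have E2 : g * (g + p + q) * u ≤ g * (g + p + q) * ((g + p) * b2 + (g + p)) :=
    Nat.mul_le_mul_left _ hu.le
  have E3 : g * (g + p) * v ≤ g * (g + p) * ((g + p + q) * b3 + (g + p + q)) :=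
    Nat.mul_le_mul_left _ hv.le
  subst hk
  nlinarith [E1, E2, E3, h1]

theorem hasEDC_zero {V : Type} (G : SimpleGraph V) : HasEDC G 0 :=
  ⟨fun i => i.elim0, fun i => i.elim0, fun i => i.elim0, fun i => i.elim0⟩

theorem key3 (g h j n k : ℕ) (hg : 1 ≤ g) (hgh : g ≤ h) (hhj : h ≤ j) (hk : 1 ≤ k)
    (hX : h * (X h n) + j * (X g n) ≤ h * j * k + j * (X h n))
    (G : SimpleGraph (Fin n)) (hG : ¬ HasEDC G k) :
    h * j * G.edgeSet.ncard ≤
      g * h * j * k + (h - g) * j * X g n + g * (j - h) * X h n + g * h * X j n + g * h * j := by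
  by_contra hcon
  have h1 := not_le.mp hcon
  apply hG
  have hXgh := X_anti g h n hgh
  have hXhj := X_anti h j n hhj
  obtain ⟨u, hu⟩ := Nat.exists_eq_add_of_le hXgh
  obtain ⟨v, hv⟩ := Nat.exists_eq_add_of_le hXhj
  obtain ⟨p, rfl⟩ := Nat.exists_eq_add_of_le hgh
  obtain ⟨q, rfl⟩ := Nat.exists_eq_add_of_le hhj
  have hhpos : 0 < g + p := by omega
  have hjpos : 0 < g + p + q := by omega
  have d2 := Nat.div_mul_le_self u (g + p)
  have d2' := Nat.lt_div_mul_add (a := u) hhpos
  have d3 := Nat.div_mul_le_self v (g + p + q)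
  have d3' := Nat.lt_div_mul_add (a := v) hjpos
  set b2 := u / (g + p) with hb2
  set b3 := v / (g + p + q) with hb3
  have hle : b2 + b3 ≤ k := by
    have hpp : 0 < (g + p) * (g + p + q) := Nat.mul_pos hhpos hjpos
    apply Nat.le_of_mul_le_mul_left _ hpp
    have F2 : (g + p + q) * (b2 * (g + p)) ≤ (g + p + q) * u := Nat.mul_le_mul_left _ d2
    have F3 : (g + p) * (b3 * (g + p + q)) ≤ (g + p) * v := Nat.mul_le_mul_left _ d3
    rw [hu, hv] at hX
    nlinarith [F2, F3, hX, Nat.zero_le ((g + p) * X (g + p + q) n)]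
  obtain ⟨a, ha⟩ := Nat.exists_eq_add_of_le hle
  have c1 : X g n + g * a < G.edgeSet.ncard + g := by
    have := arith1 g p q k G.edgeSet.ncard a b2 b3 u v (X (g + p + q) n) hg (by omega)
      (by rw [Nat.mul_comm (g + p) b2]; exact d2') (by rw [Nat.mul_comm (g + p + q) b3]; exact d3')
      (by
        have e1 : g + p - g = p := by omega
        have e2 : g + p + q - (g + p) = q := by omega
        rw [e1, e2, hu, hv] at h1
        exact h1)
    rw [hu, hv]
    exact this
  obtain ⟨H1, n1, s1⟩ := peel g n a G (Or.inr c1)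
  have c2 : X (g + p) n + (g + p) * b2 < H1.edgeSet.ncard + (g + p) := by
    rw [hu] at c1
    have : (g + p) * b2 ≤ u := by rw [Nat.mul_comm]; exact d2
    omega
  obtain ⟨H2, n2, s2⟩ := peel (g + p) n b2 H1 (Or.inr c2)
  have c3 : X (g + p + q) n + (g + p + q) * b3 < H2.edgeSet.ncard + (g + p + q) := by
    rw [hu] at c1
    have t2 : (g + p) * b2 ≤ u := by rw [Nat.mul_comm]; exact d2
    have t3 : (g + p + q) * b3 ≤ v := by rw [Nat.mul_comm]; exact d3
    omega
  obtain ⟨H3, n3, s3⟩ := peel (g + p + q) n b3 H2 (Or.inr c3)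
  have r := s1 _ (s2 _ (s3 _ (hasEDC_zero H3)))
  have : a + (b2 + (b3 + 0)) = k := by omega
  rw [this] at r
  exact r

-- TARGET (prove this)
theorem upX3 (g h j n k : ℕ) (hg : 1 ≤ g) (hgh : g ≤ h) (hhj : h ≤ j) (hk : 1 ≤ k)
    (hX : h * (X h n) + j * (X g n) ≤ h * j * k + j * (X h n)) :
    h * j * exd n k ≤ g * h * j * k + (h - g) * j * X g n + g * (j - h) * X h n + g * h * X j n + g * h * j := by
  have hh : 0 < h := by omega
  have hj : 0 < j := by omega
  have hpos : (0:ℝ) < (h:ℝ) * j := by positivity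
  have := exd_le n k hk
    (((g * h * j * k + (h - g) * j * X g n + g * (j - h) * X h n + g * h * X j n + g * h * j : ℕ) : ℝ)
      / ((h:ℝ) * j)) (by
      intro G hG
      rw [le_div_iff₀ hpos]
      have := key3 g h j n k hg hgh hhj hk hX G hG
      have h2 : ((h * j * G.edgeSet.ncard : ℕ) : ℝ) ≤ ((g * h * j * k + (h - g) * j * X g n + g * (j - h) * X h n + g * h * X j n + g * h * j : ℕ) : ℝ) := by
        exact_mod_cast this
      refine le_trans (le_of_eq ?_) h2
      push_cast
      ring)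
  rw [le_div_iff₀ hpos] at this
  have h3 : ((h * j * exd n k : ℕ) : ℝ) ≤ ((g * h * j * k + (h - g) * j * X g n + g * (j - h) * X h n + g * h * X j n + g * h * j : ℕ) : ℝ) := by
    refine le_trans (le_of_eq ?_) this
    push_cast
    ring
  exact_mod_cast h3


end JupX3
export JupX3 (upX3)
end ED
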