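import Pool.Agent.Helper470.ED.Defs
import Pool.Agent.Helper470.ED.Mexd1
import Pool.Agent.Helper470.ED.Mpeel
import Pool.Agent.Helper470.ED.Mxbas
set_option autoImplicit false
open Finset
open scoped Classical

namespace ED
namespace Jupx








theorem AUX_zero {V : Type} (G : SimpleGraph V) : HasEDC G 0 :=
  ⟨fun i => i.elim0, fun i => i.elim0, fun i => i.elim0, fun i => i.elim0⟩

theorem AUX_core (g h n k : ℕ) (hg : 1 ≤ g) (hgh : g ≤ h) (hX : X g n ≤ h * k)
    (G : SimpleGraph (Fin n)) (hG : ¬ HasEDC G k) :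
    h * G.edgeSet.ncard ≤ g * h * k + (h - g) * X g n + g * X h n := by
  by_contra hcon
  push Not at hcon
  have hXX : X h n ≤ X g n := X_anti g h n hgh
  have hh : 0 < h := by omega
  obtain ⟨r, rfl⟩ : ∃ r, h = g + r := ⟨h - g, by omega⟩
  have hsub : g + r - g = r := by omega
  rw [hsub] at hcon
  set Xg := X g n with hXg
  set Xh := X (g + r) n with hXh
  set e := G.edgeSet.ncard with he
  obtain ⟨d, hd⟩ : ∃ d, Xg = Xh + d := ⟨Xg - Xh, by omega⟩
  set b := d / (g + r) with hb
  have hb1 : (g + r) * b ≤ d := Nat.mul_div_le d (g + r)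
  have hb2 : d < (g + r) * (b + 1) := by
    have := Nat.lt_mul_div_succ d hh
    simpa using this
  have hbk : b ≤ k := by
    have : (g + r) * b ≤ (g + r) * k := by omega
    exact Nat.le_of_mul_le_mul_left this hh
  obtain ⟨a, hak⟩ : ∃ a, k = a + b := ⟨k - b, by omega⟩
  have key : Xg + g * a < e + g := by
    have h1 : (g + r) * (Xg + g * a) < (g + r) * (e + g) := by
      have h2 : g * (d + 1) ≤ g * ((g + r) * (b + 1)) := Nat.mul_le_mul_left g hb2
      rw [hak, hd] at hcon
      rw [hd]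
      nlinarith [h2, hcon]
    exact lt_of_mul_lt_mul_left h1 (Nat.zero_le _)
  obtain ⟨H, hH1, hH2⟩ := peel g n a G (Or.inr key)
  have key2 : X (g + r) n + (g + r) * b < H.edgeSet.ncard + (g + r) := by
    rw [← hXh]
    omega
  obtain ⟨H2, hH3, hH4⟩ := peel (g + r) n b H (Or.inr key2)
  have e1 : HasEDC H (b + 0) := hH4 0 (AUX_zero H2)
  have e2 : HasEDC G (a + (b + 0)) := hH2 _ e1
  rw [Nat.add_zero, ← hak] at e2
  exact hG e2

-- TARGET (prove this)
theorem upX (g h n k : ℕ) (hg : 1 ≤ g) (hgh : g ≤ h) (hk : 1 ≤ k) (hX : X g n ≤ h * k) :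
    h * exd n k ≤ g * h * k + (h - g) * X g n + g * X h n := by
  have hh : (0 : ℝ) < (h : ℝ) := by
    have : 0 < h := by omega
    exact_mod_cast this
  have h1 := exd_le n k hk (((g * h * k + (h - g) * X g n + g * X h n : ℕ) : ℝ) / h) (by
    intro G hG
    rw [le_div_iff₀ hh]
    have := AUX_core g h n k hg hgh hX G hG
    have h2 : ((h * G.edgeSet.ncard : ℕ) : ℝ) ≤ ((g * h * k + (h - g) * X g n + g * X h n : ℕ) : ℝ) := by
      exact_mod_cast this
    rw [Nat.cast_mul] at h2
    linarith)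
  rw [le_div_iff₀ hh] at h1
  have h2 : ((h * exd n k : ℕ) : ℝ) ≤ ((g * h * k + (h - g) * X g n + g * X h n : ℕ) : ℝ) := by
    rw [Nat.cast_mul]
    linarith
  exact_mod_cast h2

-- TARGET (prove this)
theorem upX1 (g n k : ℕ) (hg : 1 ≤ g) (hk : 1 ≤ k) : exd n k + g ≤ X g n + g * k := by
  have h1 := exd_le n k hk (((X g n + g * k : ℕ) : ℝ) - g) (by
    intro G hG
    have : G.edgeSet.ncard + g ≤ X g n + g * k := by
      by_contra hcon
      push Not at hcon
      obtain ⟨H, hH1, hH2⟩ := peel g n k G (Or.inr hcon)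
      have := hH2 0 (AUX_zero H)
      rw [Nat.add_zero] at this
      exact hG this
    have h2 : ((G.edgeSet.ncard + g : ℕ) : ℝ) ≤ ((X g n + g * k : ℕ) : ℝ) := by
      exact_mod_cast this
    rw [Nat.cast_add] at h2
    linarith)
  have h2 : ((exd n k + g : ℕ) : ℝ) ≤ ((X g n + g * k : ℕ) : ℝ) := by
    rw [Nat.cast_add]
    linarith
  exact_mod_cast h2


end Jupx
export Jupx (upX upX1)
end ED
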