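import Pool.Agent.Helper470.ED.Defs
import Pool.Agent.Helper470.ED.Mlow
import Pool.Agent.Helper470.ED.Msharp2
import Pool.Agent.Helper470.ED.Mupx
import Pool.Agent.Helper470.ED.Mxbas
import Pool.Agent.Helper470.ED.Mxmono
set_option autoImplicit false
open Finset
open scoped Classical

namespace ED
namespace Jwindow














-- TARGET (prove this)
theorem window (l : ℕ) (hl : 2 ≤ l) (ε : ℝ) (hε : 0 < ε) : ∃ C : ℝ, 0 < C ∧ ∀ n k : ℕ, 1 ≤ k →
    C * (X (2 * l + 2) n : ℝ) ≤ k → C * (k : ℝ) ≤ X (2 * l - 2) n →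
    (1 - ε) * min ((2 * l + 2) * (k : ℝ)) (2 * l * k + (X (2 * l + 1) n : ℝ) / (l + 1)) ≤ exd n k ∧
    (exd n k : ℝ) ≤ (1 + ε) * min ((2 * l + 2) * (k : ℝ)) (2 * l * k + (X (2 * l) n : ℝ) / (l + 1)) := by
  obtain ⟨δ, hδ, hsharp⟩ := sharp2 l hl ε hε
  refine ⟨max (1 / ε) (max (1 / δ) 1), lt_of_lt_of_le one_pos
    (le_trans (le_max_right _ _) (le_max_right _ _)), ?_⟩
  intro n k hk h1 h2
  obtain ⟨C, hC⟩ : ∃ C, C = max (1 / ε) (max (1 / δ) 1) := ⟨_, rfl⟩
  have hCε : 1 / ε ≤ C := by rw [hC]; exact le_max_left _ _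
  have hCδ : 1 / δ ≤ C := by rw [hC]; exact le_trans (le_max_left _ _) (le_max_right _ _)
  have hC1 : 1 ≤ C := by rw [hC]; exact le_trans (le_max_right _ _) (le_max_right _ _)
  rw [← hC] at h1 h2
  have hk1 : (1 : ℝ) ≤ k := by exact_mod_cast hk
  have hl2 : (2 : ℝ) ≤ l := by exact_mod_cast hl
  have hCpos : 0 < C := by linarith
  have hεC : 1 ≤ ε * C := by
    have := mul_le_mul_of_nonneg_left hCε hε.le
    rwa [mul_one_div_cancel hε.ne'] at this
  have hδC : 1 ≤ δ * C := by
    have := mul_le_mul_of_nonneg_left hCδ hδ.le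
    rwa [mul_one_div_cancel hδ.ne'] at this
  have hX2 : (0 : ℝ) ≤ X (2 * l + 2) n := Nat.cast_nonneg _
  have hX0 : (0 : ℝ) ≤ X (2 * l) n := Nat.cast_nonneg _
  have hX1 : (0 : ℝ) ≤ X (2 * l + 1) n := Nat.cast_nonneg _
  have hXm : (0 : ℝ) ≤ X (2 * l - 2) n := Nat.cast_nonneg _
  have hl1 : (0 : ℝ) < (l : ℝ) + 1 := by linarith
  -- `X_{2l+2} ≤ ε k`
  have hXε : (X (2 * l + 2) n : ℝ) ≤ ε * k := by
    have e1 : ε * (C * (X (2 * l + 2) n : ℝ)) ≤ ε * k := mul_le_mul_of_nonneg_left h1 hε.le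
    have e2 : (X (2 * l + 2) n : ℝ) ≤ (ε * C) * (X (2 * l + 2) n : ℝ) :=
      le_mul_of_one_le_left hX2 hεC
    calc (X (2 * l + 2) n : ℝ) ≤ (ε * C) * (X (2 * l + 2) n : ℝ) := e2
      _ = ε * (C * (X (2 * l + 2) n : ℝ)) := by ring
      _ ≤ ε * k := e1
  have hkδ : (k : ℝ) ≤ δ * X (2 * l - 2) n := by
    have e1 : δ * (C * (k : ℝ)) ≤ δ * X (2 * l - 2) n := mul_le_mul_of_nonneg_left h2 hδ.le
    have e2 : (k : ℝ) ≤ (δ * C) * (k : ℝ) := le_mul_of_one_le_left (by linarith) hδC
    calc (k : ℝ) ≤ (δ * C) * (k : ℝ) := e2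
      _ = δ * (C * (k : ℝ)) := by ring
      _ ≤ _ := e1
  have hεk : 0 ≤ ε * k := mul_nonneg hε.le (by linarith)
  -- upper bound (a)
  have ha : (exd n k : ℝ) ≤ (1 + ε) * ((2 * l + 2) * (k : ℝ)) := by
    have e1 : exd n k + (2 * l + 2) ≤ X (2 * l + 2) n + (2 * l + 2) * k :=
      upX1 (2 * l + 2) n k (by omega) hk
    have e2 : (exd n k : ℝ) + (2 * l + 2) ≤ X (2 * l + 2) n + (2 * l + 2) * k := by
      exact_mod_cast e1
    have e3 : ε * k ≤ ε * ((2 * l + 2) * (k : ℝ)) := by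
      refine mul_le_mul_of_nonneg_left ?_ hε.le
      refine le_mul_of_one_le_left (by linarith) (by linarith)
    have e4 : (1 + ε) * ((2 * l + 2) * (k : ℝ)) =
        (2 * l + 2) * (k : ℝ) + ε * ((2 * l + 2) * (k : ℝ)) := by ring
    rw [e4]
    linarith
  constructor
  · -- lower bound
    rcases le_or_gt 1 ε with hε1 | hε1
    · have hmin : 0 ≤ min ((2 * l + 2) * (k : ℝ)) (2 * l * k + (X (2 * l + 1) n : ℝ) / (l + 1)) := by
        apply le_min
        · exact mul_nonneg (by linarith) (by linarith)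
        · exact add_nonneg (mul_nonneg (by linarith) (by linarith)) (div_nonneg hX1 hl1.le)
      have h3 : (1 - ε) * min ((2 * l + 2) * (k : ℝ))
          (2 * l * k + (X (2 * l + 1) n : ℝ) / (l + 1)) ≤ 0 :=
        mul_nonpos_of_nonpos_of_nonneg (by linarith) hmin
      exact le_trans h3 (Nat.cast_nonneg _)
    · have h1ε : 0 ≤ 1 - ε := by linarith
      rcases Nat.lt_or_ge (X (2 * l + 1) n) ((2 * l + 2) * k) with hlt | hge
      · have e1 := hsharp n k hk hlt.le hkδ
        have e2 : (1 - ε) * min ((2 * l + 2) * (k : ℝ))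
            (2 * l * k + (X (2 * l + 1) n : ℝ) / (l + 1)) ≤
            (1 - ε) * (2 * l * k + (X (2 * l + 1) n : ℝ) / (l + 1)) :=
          mul_le_mul_of_nonneg_left (min_le_right _ _) h1ε
        have e3 : (1 - ε) * (2 * l * k + (X (2 * l + 1) n : ℝ) / (l + 1)) =
            2 * l * k - ε * (2 * l * k) + (1 - ε) * (X (2 * l + 1) n : ℝ) / (l + 1) := by ring
        have e4 : 0 ≤ ε * (2 * l * k) :=
          mul_nonneg hε.le (mul_nonneg (by linarith) (by linarith))
        linarith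
      · -- girth `2l+2` graph
        have hn : 2 ≤ n := by
          by_contra hn
          have hsub : Subsingleton (Fin n) := by
            rw [Fin.subsingleton_iff_le_one]; omega
          obtain ⟨G, _, hG⟩ := X_max (2 * l - 2) n
          have hG0 : G.edgeSet = ∅ := by
            have : G = ⊥ := by
              ext a b
              simp [Subsingleton.elim a b]
            rw [this, SimpleGraph.edgeSet_bot]
          rw [hG0, Set.ncard_empty] at hG
          rw [← hG, Nat.cast_zero] at h2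
          have : 0 < C * (k : ℝ) := mul_pos hCpos (by linarith)
          linarith
        have hXt := X_tree (2 * l + 2) n
        have hX21 : (1 : ℝ) ≤ X (2 * l + 2) n := by
          have : 1 ≤ X (2 * l + 2) n := by omega
          exact_mod_cast this
        have hεk1 : 1 ≤ ε * k := le_trans hX21 hXε
        obtain ⟨G, hG1, hG2⟩ := X_max (2 * l + 1) n
        have e1 := low n (2 * l + 2) k (by omega) hk G hG1 (by rw [hG2]; omega)
        have e2 : (2 * l + 2) * (k : ℝ) ≤ exd n k + 1 := by exact_mod_cast e1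
        have e3 : (1 - ε) * min ((2 * l + 2) * (k : ℝ))
            (2 * l * k + (X (2 * l + 1) n : ℝ) / (l + 1)) ≤ (1 - ε) * ((2 * l + 2) * (k : ℝ)) :=
          mul_le_mul_of_nonneg_left (min_le_left _ _) h1ε
        have e4 : ε * k ≤ ε * ((2 * l + 2) * (k : ℝ)) := by
          refine mul_le_mul_of_nonneg_left ?_ hε.le
          refine le_mul_of_one_le_left (by linarith) (by linarith)
        have e5 : (1 - ε) * ((2 * l + 2) * (k : ℝ)) =
            (2 * l + 2) * (k : ℝ) - ε * ((2 * l + 2) * (k : ℝ)) := by ring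
        linarith
  · -- upper bound
    rw [mul_min_of_nonneg _ _ (by linarith : (0 : ℝ) ≤ 1 + ε)]
    refine le_min ha ?_
    rcases Nat.lt_or_ge ((2 * l + 2) * k) (X (2 * l) n) with hlt | hge
    · have hlt' : (2 * l + 2) * (k : ℝ) ≤ X (2 * l) n := by exact_mod_cast hlt.le
      refine le_trans ha (mul_le_mul_of_nonneg_left ?_ (by linarith))
      have e1 : 2 * (k : ℝ) ≤ (X (2 * l) n : ℝ) / (l + 1) := by
        rw [le_div_iff₀ hl1]
        linarith
      linarith
    · have e1 := upX (2 * l) (2 * l + 2) n k (by omega) (by omega) hk hge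
      have e0 : 2 * l + 2 - 2 * l = 2 := by omega
      rw [e0] at e1
      have e2 : (2 * (l : ℝ) + 2) * exd n k ≤ 2 * l * (2 * l + 2) * k + 2 * X (2 * l) n +
          2 * l * X (2 * l + 2) n := by exact_mod_cast e1
      have e3 : (exd n k : ℝ) ≤ 2 * l * k + (X (2 * l) n : ℝ) / (l + 1) + X (2 * l + 2) n := by
        have hpos : (0 : ℝ) < 2 * l + 2 := by linarith
        have e4 : (2 * (l : ℝ) + 2) * (2 * l * k + (X (2 * l) n : ℝ) / (l + 1) + X (2 * l + 2) n) =
            2 * l * (2 * l + 2) * k + 2 * X (2 * l) n + (2 * l + 2) * X (2 * l + 2) n := by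
          field_simp
        have e5 : (2 * (l : ℝ) + 2) * exd n k ≤ (2 * (l : ℝ) + 2) *
            (2 * l * k + (X (2 * l) n : ℝ) / (l + 1) + X (2 * l + 2) n) := by
          rw [e4]
          nlinarith
        exact le_of_mul_le_mul_left e5 hpos
      have e6 : ε * k ≤ ε * (2 * l * k + (X (2 * l) n : ℝ) / (l + 1)) := by
        refine mul_le_mul_of_nonneg_left ?_ hε.le
        have : 0 ≤ (X (2 * l) n : ℝ) / (l + 1) := div_nonneg hX0 hl1.le
        nlinarith
      have e7 : (1 + ε) * (2 * l * k + (X (2 * l) n : ℝ) / (l + 1)) =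
          (2 * l * k + (X (2 * l) n : ℝ) / (l + 1)) +
          ε * (2 * l * k + (X (2 * l) n : ℝ) / (l + 1)) := by ring
      rw [e7]
      linarith


end Jwindow
export Jwindow (window)
end ED
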