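import Pool.Agent.Helper470.ED.Defs
import Pool.Agent.Helper470.ED.Mmoore
import Pool.Agent.Helper470.ED.Mxbas
set_option autoImplicit false
open Finset
open scoped Classical

namespace ED
namespace Jxm






-- TARGET (prove this)
theorem X_moore (l n : ℕ) (hl : 1 ≤ l) : (X (2 * l) n : ℝ) ≤ 2 * (n : ℝ) ^ (1 + 1 / (l : ℝ)) := by
  obtain ⟨G, hG, he⟩ := X_max (2 * l) n
  have := moore G l hl hG
  rw [he, Fintype.card_fin] at this
  exact this


end Jxm
export Jxm (X_moore)
end ED
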